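import Pool.Agent.Lib.EPS.Phi0
import Pool.Agent.Lib.EpZ.Root
import Pool.Agent.Lib.P34eea4.PoissonGen
import Pool.Agent.Lib.Pd7404b.PoissonPi

/-!
# The theta transformation for ternary forms
-/

open MeasureTheory Set Matrix
open scoped Matrix.Norms.Elementwise

namespace Pool.Agent.Lib.EPS

open Pool.Agent.Lib.EpZ Pool.Agent.Lib.Pd7404b

/-- Gaussian sums over `ℤ³` -/
theorem summable_theta {Q : Mx 3} (hQ : PD Q) {t : ℝ} (ht : 0 < t) :
    Summable fun x : Fin 3 → ℤ => Real.exp (-(t * qf Q x)) := by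
  obtain ⟨c, hc, hl⟩ := hQ.lower
  refine Summable.of_nonneg_of_le (fun _ => (Real.exp_pos _).le) (fun x => ?_)
    (P34eea4.summable_gauss_int (Fin 3) (mul_pos ht hc))
  refine Real.exp_le_exp.mpr ?_
  have h1 := mul_le_mul_of_nonneg_left (hl (rv x)) ht.le
  simp only [rv] at h1
  unfold qf
  nlinarith [h1]

/-- the Gaussian -/
noncomputable def gau (t : ℝ) (Q : Mx 3) (v : Fin 3 → ℝ) : ℂ :=
  Complex.exp (-((t * qr Q v : ℝ) : ℂ))

theorem gau_cont (t : ℝ) (Q : Mx 3) : Continuous (gau t Q) := by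
  unfold gau qr
  fun_prop

theorem norm_gau (t : ℝ) (Q : Mx 3) (v : Fin 3 → ℝ) : ‖gau t Q v‖ = Real.exp (-(t * qr Q v)) := by
  unfold gau
  rw [Complex.norm_exp]
  simp

theorem gau_int {Q : Mx 3} (hQ : PD Q) {t : ℝ} (ht : 0 < t) : Integrable (gau t Q) := by
  obtain ⟨c, hc, hl⟩ := hQ.lower
  have h1 := GaussianFourier.integrable_cexp_neg_mul_sum_add (ι := Fin 3) (b := ((t * c : ℝ) : ℂ))
    (by rw [Complex.ofReal_re]; positivity) (fun _ => 0)
  refine Integrable.mono h1 (gau_cont t Q).aestronglyMeasurable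
    (Filter.Eventually.of_forall fun v => ?_)
  rw [norm_gau, Complex.norm_exp]
  refine Real.exp_le_exp.mpr ?_
  have h2 : (-(((t * c : ℝ) : ℂ)) * ∑ i, (v i : ℂ) ^ 2 + ∑ i, (0 : ℂ) * v i).re
      = -(t * c) * ∑ i, v i ^ 2 := by
    have : (-(((t * c : ℝ) : ℂ)) * ∑ i, (v i : ℂ) ^ 2 + ∑ i, (0 : ℂ) * v i)
        = ((-(t * c) * ∑ i, v i ^ 2 : ℝ) : ℂ) := by
      push_cast; simp
    rw [this, Complex.ofReal_re]
  rw [h2]
  have h3 := mul_le_mul_of_nonneg_left (hl v) ht.le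
  nlinarith [h3]

theorem gau_period {Q : Mx 3} (hQ : PD Q) {t : ℝ} (ht : 0 < t) :
    Continuous fun v : Fin 3 → ℝ => ∑' m : Fin 3 → ℤ, gau t Q (v + toR m) := by
  obtain ⟨c, hc, hl⟩ := hQ.lower
  have hR : ∀ R : ℝ, 0 < R → ContinuousOn
      (fun v : Fin 3 → ℝ => ∑' m : Fin 3 → ℤ, gau t Q (v + toR m)) (Metric.ball 0 R) := by
    intro R hR
    refine continuousOn_tsum (u := fun m : Fin 3 → ℤ =>
      Real.exp (t * c * (3 * R ^ 2)) * Real.exp (-(t * c / 2) * ∑ i, (m i : ℝ) ^ 2)) ?_ ?_ ?_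
    · intro m
      exact ((gau_cont t Q).comp (continuous_id.add continuous_const)).continuousOn
    · exact (P34eea4.summable_gauss_int (Fin 3) (c := t * c / 2) (by positivity)).mul_left _
    · intro m v hv
      rw [norm_gau, ← Real.exp_add]
      refine Real.exp_le_exp.mpr ?_
      have h1 := mul_le_mul_of_nonneg_left (hl (v + toR m)) ht.le
      have hv' : ∀ i, |v i| ≤ R := by
        intro i
        have h2 : ‖v‖ < R := by simpa using hv
        have h3 := norm_le_pi_norm v i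
        rw [Real.norm_eq_abs] at h3
        linarith
      have h4 : ∀ i : Fin 3, (m i : ℝ) ^ 2 / 2 - R ^ 2 ≤ ((v + toR m) i) ^ 2 := by
        intro i
        have h5 : (v i) ^ 2 ≤ R ^ 2 := by
          have := hv' i
          rw [← sq_abs (v i)]
          exact pow_le_pow_left₀ (abs_nonneg _) this 2
        have h6 : (v + toR m) i = v i + m i := by simp
        rw [h6]
        nlinarith [sq_nonneg (2 * v i + m i)]
      have h7 : ∑ i : Fin 3, ((m i : ℝ) ^ 2 / 2 - R ^ 2) ≤ ∑ i : Fin 3, ((v + toR m) i) ^ 2 :=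
        Finset.sum_le_sum fun i _ => h4 i
      have h8 : ∑ i : Fin 3, ((m i : ℝ) ^ 2 / 2 - R ^ 2)
          = (∑ i : Fin 3, (m i : ℝ) ^ 2) / 2 - 3 * R ^ 2 := by
        rw [Finset.sum_sub_distrib, ← Finset.sum_div]
        simp
      rw [h8] at h7
      have h9 := mul_le_mul_of_nonneg_left h7 (mul_pos ht hc).le
      nlinarith [h1, h9]
  refine continuous_iff_continuousAt.mpr fun v => ?_
  refine (hR (‖v‖ + 1) (by positivity)).continuousAt (Metric.isOpen_ball.mem_nhds ?_)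
  simp

theorem sq_root {R : Mx 3} (hR : PD R) (v : Fin 3 → ℝ) :
    ∑ i, (R *ᵥ v) i ^ 2 = qr (R * R) v := by
  have h1 : qr (R * R) v = (R *ᵥ v) ⬝ᵥ (R *ᵥ v) := by
    unfold qr
    rw [← mulVec_mulVec, dotProduct_mulVec]
    congr 1
    rw [← mulVec_transpose, hR.1.eq]
  rw [h1]
  simp only [dotProduct]
  exact Finset.sum_congr rfl fun i _ => by ring

theorem root_inv {R : Mx 3} (hR : PD R) (k v : Fin 3 → ℝ) :
    (R⁻¹ *ᵥ k) ⬝ᵥ (R *ᵥ v) = k ⬝ᵥ v := by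
  have hdet : IsUnit R.det := hR.det_pos.ne'.isUnit
  rw [dotProduct_mulVec, ← mulVec_transpose, hR.1.eq, mulVec_mulVec,
    Matrix.mul_nonsing_inv _ hdet, one_mulVec]

theorem qr_inv_root {R : Mx 3} (hR : PD R) (k : Fin 3 → ℝ) :
    ∑ i, (R⁻¹ *ᵥ k) i ^ 2 = qr (R * R)⁻¹ k := by
  have hdet : IsUnit R.det := hR.det_pos.ne'.isUnit
  have hs : (R⁻¹)ᵀ = R⁻¹ := by rw [transpose_nonsing_inv, hR.1.eq]
  have h1 : qr (R * R)⁻¹ k = (R⁻¹ *ᵥ k) ⬝ᵥ (R⁻¹ *ᵥ k) := by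
    unfold qr
    rw [Matrix.mul_inv_rev, ← mulVec_mulVec, dotProduct_mulVec]
    congr 1
    rw [← mulVec_transpose, hs]
  rw [h1]
  simp only [dotProduct]
  exact Finset.sum_congr rfl fun i _ => by ring

/-- change of variables for a matrix -/
theorem integral_matrix {M : Mx 3} (hM : M.det ≠ 0) {g : (Fin 3 → ℝ) → ℂ} (hg : Continuous g) :
    ∫ v, g (M *ᵥ v) = ((|M.det|⁻¹ : ℝ) : ℂ) * ∫ u, g u := by
  have h1 := Real.map_matrix_volume_pi_eq_smul_volume_pi hM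
  have hm : Measurable (toLin' M) := (LinearMap.continuous_on_pi (toLin' M)).measurable
  have h2 : ∫ u, g u ∂(Measure.map (toLin' M) volume) = ∫ v, g (toLin' M v) :=
    integral_map hm.aemeasurable hg.aestronglyMeasurable
  rw [h1, integral_smul_measure] at h2
  simp only [toLin'_apply] at h2
  rw [← h2, ENNReal.toReal_ofReal (abs_nonneg _), Complex.real_smul, abs_inv]

/-- the Fourier coefficients of the Gaussian -/
theorem gau_coef {Q : Mx 3} (hQ : PD Q) {t : ℝ} (ht : 0 < t) (k : Fin 3 → ℤ) :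
    ∫ v, chi (-k) v * gau t Q v = (((Real.pi / t) ^ ((3 : ℝ) / 2) * Q.det ^ (-(1 : ℝ) / 2) *
      Real.exp (-(Real.pi ^ 2 / t * qf Q⁻¹ k)) : ℝ) : ℂ) := by
  obtain ⟨R, hR, hRQ⟩ := RootAux.exists_sqrt hQ
  have hdR : 0 < R.det := hR.det_pos
  have hdQ : Q.det = R.det ^ 2 := by rw [← hRQ, det_mul]; ring
  let c : Fin 3 → ℂ := fun i => -(2 * Real.pi * Complex.I) * ((R⁻¹ *ᵥ rv k) i : ℂ)
  let g : (Fin 3 → ℝ) → ℂ := fun u =>
    Complex.exp (-((t : ℝ) : ℂ) * ∑ i, (u i : ℂ) ^ 2 + ∑ i, c i * u i)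
  have hgc : Continuous g := by
    simp only [g]
    fun_prop
  have h1 : ∀ v, chi (-k) v * gau t Q v = g (R *ᵥ v) := by
    intro v
    simp only [chi, gau, g]
    rw [← Complex.exp_add]
    congr 1
    have e1 : ∑ i, (((R *ᵥ v) i : ℝ) : ℂ) ^ 2 = ((qr Q v : ℝ) : ℂ) := by
      rw [← hRQ, ← sq_root hR v]
      push_cast
      rfl
    have e2 : ∑ i, c i * (((R *ᵥ v) i : ℝ) : ℂ)
        = -(2 * Real.pi * Complex.I) * ∑ i, ((k i : ℂ)) * (v i : ℂ) := by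
      have e3 : ∑ i, (R⁻¹ *ᵥ rv k) i * (R *ᵥ v) i = ∑ i, (k i : ℝ) * v i := root_inv hR (rv k) v
      have e4 : ∑ i, c i * (((R *ᵥ v) i : ℝ) : ℂ) = -(2 * Real.pi * Complex.I) *
          ((∑ i, (R⁻¹ *ᵥ rv k) i * (R *ᵥ v) i : ℝ) : ℂ) := by
        simp only [c]
        push_cast
        rw [Finset.mul_sum]
        exact Finset.sum_congr rfl fun i _ => by ring
      rw [e4, e3]
      push_cast
      rfl
    rw [e1, e2]
    push_cast
    simp only [Pi.neg_apply, Int.cast_neg, neg_mul, Finset.sum_neg_distrib]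
    ring
  simp_rw [h1]
  rw [integral_matrix hdR.ne' hgc]
  have h2 : ∫ u, g u = (Real.pi / ((t : ℝ) : ℂ)) ^ ((Fintype.card (Fin 3) : ℂ) / 2) *
      Complex.exp ((∑ i, c i ^ 2) / (4 * ((t : ℝ) : ℂ))) :=
    GaussianFourier.integral_cexp_neg_mul_sum_add (by simpa using ht) c
  rw [h2]
  have h3 : (∑ i, c i ^ 2) / (4 * ((t : ℝ) : ℂ)) =
      ((-(Real.pi ^ 2 / t * qf Q⁻¹ k) : ℝ) : ℂ) := by
    have e5 : ∑ i, c i ^ 2 = ((-(4 * Real.pi ^ 2) * qf Q⁻¹ k : ℝ) : ℂ) := by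
      unfold qf
      rw [← hRQ, ← qr_inv_root hR (rv k)]
      simp only [c]
      push_cast
      rw [Finset.mul_sum]
      refine Finset.sum_congr rfl fun i _ => ?_
      have : (-(2 * (Real.pi : ℂ) * Complex.I) * ((R⁻¹ *ᵥ rv k) i : ℂ)) ^ 2
          = 4 * (Real.pi : ℂ) ^ 2 * ((R⁻¹ *ᵥ rv k) i : ℂ) ^ 2 * Complex.I ^ 2 := by ring
      rw [this, Complex.I_sq]
      ring
    rw [e5]
    have ht' : (t : ℂ) ≠ 0 := by exact_mod_cast ht.ne'
    push_cast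
    field_simp
  rw [h3, ← Complex.ofReal_exp]
  have h4 : (Real.pi / ((t : ℝ) : ℂ)) ^ ((Fintype.card (Fin 3) : ℂ) / 2)
      = (((Real.pi / t) ^ ((3 : ℝ) / 2) : ℝ) : ℂ) := by
    rw [Complex.ofReal_cpow (by positivity)]
    push_cast
    simp
  rw [h4]
  have h5 : |R.det|⁻¹ = Q.det ^ (-(1 : ℝ) / 2) := by
    rw [hdQ, abs_of_pos hdR, ← Real.rpow_natCast, ← Real.rpow_mul hdR.le]
    norm_num
    rw [Real.rpow_neg_one]
  rw [h5]
  push_cast
  ring

/-- the theta transformation -/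
theorem theta_dual {Q : Mx 3} (hQ : PD Q) {t : ℝ} (ht : 0 < t) :
    ∑' x : Fin 3 → ℤ, Real.exp (-(t * qf Q x)) =
      (Real.pi / t) ^ ((3 : ℝ) / 2) * Q.det ^ (-(1 : ℝ) / 2) *
        ∑' y : Fin 3 → ℤ, Real.exp (-(Real.pi ^ 2 / t * qf Q⁻¹ y)) := by
  have hQi : PD Q⁻¹ := pd_of_posDef hQ.posDef.inv
  have hs := summable_theta hQi (t := Real.pi ^ 2 / t) (by positivity)
  have hsum : Summable fun k : Fin 3 → ℤ => ∫ v, chi (-k) v * gau t Q v := by
    simp_rw [gau_coef hQ ht]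
    exact Complex.ofRealCLM.summable (hs.mul_left _)
  have h := (poisson_pi (gau_int hQ ht) (gau_period hQ ht) hsum 0).tsum_eq
  have hchi0 : ∀ n : Fin 3 → ℤ, chi n (0 : Fin 3 → ℝ) = 1 := by
    intro n
    unfold chi
    simp
  simp only [hchi0, mul_one, gau_coef hQ ht, zero_add] at h
  have e1 : ∀ m : Fin 3 → ℤ, gau t Q (toR m) = ((Real.exp (-(t * qf Q m)) : ℝ) : ℂ) := by
    intro m
    unfold gau qf
    rw [← Complex.ofReal_neg, ← Complex.ofReal_exp]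
    rfl
  simp only [e1] at h
  rw [← Complex.ofReal_tsum, ← Complex.ofReal_tsum, Complex.ofReal_inj, tsum_mul_left] at h
  exact h.symm

end Pool.Agent.Lib.EPS
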