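import Pool.Agent.Lib.EPS.Phi
import Pool.Agent.Lib.EPS.Theta

/-!
# The representation of the Epstein zeta function

For `det Q = 4` and `s > 3/2`:
`Γ(s) (4/5)^(-s) F s Q = Dir s Q + c0 Dua s Q + c0 / (s - 3/2) - 1 / s`.
-/

open MeasureTheory Set Matrix
open scoped Matrix.Norms.Elementwise

namespace Pool.Agent.Lib.EPS

open Pool.Agent.Lib.EpZ

/-! ### one-variable integrals -/

/-- the part over `(0, 1]` of the Mellin integral -/
noncomputable def psi (s z : ℝ) : ℝ :=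
  ∫ t in Ioc (0 : ℝ) 1, Real.exp (-(z * t)) * t ^ (s - 1)

theorem kern_int {s z : ℝ} (hs : 0 < s) (hz : 0 < z) :
    IntegrableOn (fun t : ℝ => Real.exp (-(z * t)) * t ^ (s - 1)) (Ioi 0) := by
  have hI := Real.integral_rpow_mul_exp_neg_mul_Ioi hs hz
  have hpos : 0 < (1 / z) ^ s * Real.Gamma s := by
    have := Real.Gamma_pos_of_pos hs
    positivity
  have h1 : IntegrableOn (fun t : ℝ => t ^ (s - 1) * Real.exp (-(z * t))) (Ioi 0) := by
    by_contra hcon
    rw [integral_undef hcon] at hI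
    exact hpos.ne hI
  refine h1.congr_fun (fun t _ => ?_) measurableSet_Ioi
  exact mul_comm _ _

/-- splitting the Gamma integral at `1` -/
theorem gamma_split {s z : ℝ} (hs : 0 < s) (hz : 0 < z) :
    Real.Gamma s * z ^ (-s) = psi s z + phi s z := by
  have h := kern_int hs hz
  have h1 := Real.integral_rpow_mul_exp_neg_mul_Ioi hs hz
  have h2 : ∫ t in Ioi (0 : ℝ), Real.exp (-(z * t)) * t ^ (s - 1) = (1 / z) ^ s * Real.Gamma s := by
    rw [← h1]
    exact setIntegral_congr_fun measurableSet_Ioi fun t _ => mul_comm _ _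
  have h3 : Ioi (0 : ℝ) = Ioc 0 1 ∪ Ioi 1 := (Ioc_union_Ioi_eq_Ioi zero_le_one).symm
  have hdis : Disjoint (Ioc (0 : ℝ) 1) (Ioi 1) :=
    Set.disjoint_left.mpr fun t ht ht' => not_lt.mpr ht.2 ht'
  rw [h3, setIntegral_union hdis
    measurableSet_Ioi (h.mono_set Ioc_subset_Ioi_self)
    (h.mono_set (Ioi_subset_Ioi zero_le_one))] at h2
  unfold psi phi
  rw [h2, one_div, Real.inv_rpow hz.le, ← Real.rpow_neg hz.le]
  ring

theorem psi_nonneg (s z : ℝ) : 0 ≤ psi s z := by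
  refine setIntegral_nonneg measurableSet_Ioc fun t ht => ?_
  exact mul_nonneg (Real.exp_pos _).le (Real.rpow_nonneg ht.1.le _)

/-- the substitution `t = 1/w` -/
theorem inv_subst (a b : ℝ) :
    ∫ t in Ioo (0 : ℝ) 1, Real.exp (-(a / t)) * t ^ (b - 1) = phi (-b) a := by
  have h := integral_comp_rpow_Ioi
    (indicator (Ioi (1 : ℝ)) (fun w : ℝ => Real.exp (-(a * w)) * w ^ (-b - 1))) (p := -1) (by norm_num)
  have hR : ∫ y in Ioi (0 : ℝ), indicator (Ioi (1 : ℝ))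
      (fun w : ℝ => Real.exp (-(a * w)) * w ^ (-b - 1)) y = phi (-b) a := by
    rw [setIntegral_indicator measurableSet_Ioi]
    unfold phi
    congr 2
    ext t
    constructor
    · intro ht; exact ht.2
    · intro ht
      have ht1 : (1 : ℝ) < t := ht
      exact ⟨mem_Ioi.mpr (by linarith), ht⟩
  rw [hR] at h
  rw [← h]
  have hL : ∫ t in Ioo (0 : ℝ) 1, Real.exp (-(a / t)) * t ^ (b - 1) =
      ∫ t in Ioi (0 : ℝ), indicator (Ioo (0 : ℝ) 1)
        (fun t : ℝ => Real.exp (-(a / t)) * t ^ (b - 1)) t := by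
    rw [setIntegral_indicator measurableSet_Ioo]
    congr 2
    ext t
    constructor
    · intro ht
      exact ⟨ht.1, ht⟩
    · intro ht; exact ht.2
  rw [hL]
  refine setIntegral_congr_fun measurableSet_Ioi fun t ht => ?_
  have ht0 : (0 : ℝ) < t := ht
  have hinv : t ^ (-1 : ℝ) = t⁻¹ := by rw [Real.rpow_neg_one]
  by_cases h1 : t < 1
  · have hm : t ∈ Ioo (0 : ℝ) 1 := ⟨ht0, h1⟩
    have hm' : t⁻¹ ∈ Ioi (1 : ℝ) := (one_lt_inv₀ ht0).mpr h1
    rw [hinv, indicator_of_mem hm, indicator_of_mem hm', smul_eq_mul]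
    have e1 : (t⁻¹) ^ (-b - 1) = t ^ (b + 1) := by
      rw [Real.inv_rpow ht0.le, ← Real.rpow_neg ht0.le]
      congr 1; ring
    have e2 : t ^ (b - 1) = t ^ ((-1 : ℝ) - 1) * t ^ (b + 1) := by
      rw [← Real.rpow_add ht0]
      congr 1; ring
    rw [e1, e2]
    simp only [abs_neg, abs_one, one_mul]
    rw [div_eq_mul_inv]
    ring
  · have hm : t ∉ Ioo (0 : ℝ) 1 := fun h => h1 h.2
    have hm' : t ^ (-1 : ℝ) ∉ Ioi (1 : ℝ) := by
      rw [hinv]
      intro h2
      exact h1 ((one_lt_inv₀ ht0).mp h2)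
    simp only [indicator_of_notMem hm, indicator_of_notMem hm', smul_zero]

theorem inv_subst' (a b : ℝ) :
    ∫ t in Ioc (0 : ℝ) 1, Real.exp (-(a / t)) * t ^ (b - 1) = phi (-b) a := by
  rw [integral_Ioc_eq_integral_Ioo, inv_subst]

theorem pow_int {b : ℝ} (hb : 0 < b) : IntegrableOn (fun t : ℝ => t ^ (b - 1)) (Ioc 0 1) := by
  have := (intervalIntegral.intervalIntegrable_rpow' (a := 0) (b := 1) (r := b - 1) (by linarith))
  rwa [intervalIntegrable_iff_integrableOn_Ioc_of_le zero_le_one] at this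

theorem pow_val {b : ℝ} (hb : 0 < b) : ∫ t in Ioc (0 : ℝ) 1, t ^ (b - 1) = 1 / b := by
  have := integral_rpow (a := 0) (b := 1) (r := b - 1) (Or.inl (by linarith))
  rw [intervalIntegral.integral_of_le zero_le_one] at this
  rw [this]
  have h1 : b - 1 + 1 = b := by ring
  rw [h1, Real.one_rpow, Real.zero_rpow hb.ne']
  simp

theorem inv_int {a b : ℝ} (ha : 0 < a) (hb : 0 < b) :
    IntegrableOn (fun t : ℝ => Real.exp (-(a / t)) * t ^ (b - 1)) (Ioc 0 1) := by
  refine Integrable.mono' (pow_int hb) ?_ ?_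
  · refine ContinuousOn.aestronglyMeasurable ?_ measurableSet_Ioc
    refine ContinuousOn.mul ?_ ?_
    · refine Real.continuous_exp.comp_continuousOn ?_
      refine ContinuousOn.neg (ContinuousOn.div continuousOn_const continuousOn_id ?_)
      intro t ht; exact ht.1.ne'
    · refine ContinuousOn.rpow_const continuousOn_id fun t ht => Or.inl ?_
      exact ht.1.ne'
  · refine (ae_restrict_iff' measurableSet_Ioc).mpr (Filter.Eventually.of_forall fun t ht => ?_)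
    have h4 : 0 ≤ t ^ (b - 1) := Real.rpow_nonneg ht.1.le _
    rw [Real.norm_of_nonneg (mul_nonneg (Real.exp_pos _).le h4)]
    have h5 : Real.exp (-(a / t)) ≤ 1 := by
      rw [Real.exp_le_one_iff]
      have : 0 < a / t := div_pos ha ht.1
      linarith
    exact mul_le_of_le_one_left h4 h5

/-! ### the form -/

theorem arg_pos {Q : Mx 3} (hQ : PD Q) (x : NZ 3) : 0 < 4 / 5 * qf Q x.1 := by
  have := hQ.pos x
  positivity

theorem inv_pd {Q : Mx 3} (hQ : PD Q) : PD Q⁻¹ := pd_of_posDef hQ.posDef.inv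

theorem arg_pos' {Q : Mx 3} (hQ : PD Q) (x : NZ 3) :
    0 < 5 * Real.pi ^ 2 / 4 * qf Q⁻¹ x.1 := by
  have := (inv_pd hQ).pos x
  positivity

theorem summable_zeta {Q : Mx 3} (hQ : PD Q) {s : ℝ} (hs : 3 / 2 < s) :
    Summable fun x : NZ 3 => Real.Gamma s * (4 / 5 * qf Q x.1) ^ (-s) := by
  refine Summable.mul_left _ ?_
  have h := hQ.summable (s := s) (by norm_num; exact hs)
  refine (h.mul_left ((4 / 5 : ℝ) ^ (-s))).congr fun x => ?_
  rw [Real.mul_rpow (by norm_num) (hQ.pos x).le]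

theorem summable_psi {Q : Mx 3} (hQ : PD Q) {s : ℝ} (hs : 3 / 2 < s) :
    Summable fun x : NZ 3 => psi s (4 / 5 * qf Q x.1) := by
  refine Summable.of_nonneg_of_le (fun x => psi_nonneg _ _) (fun x => ?_) (summable_zeta hQ hs)
  rw [gamma_split (by linarith) (arg_pos hQ x)]
  have := phi_nonneg s (4 / 5 * qf Q x.1)
  linarith

/-- summability of the direct part -/
theorem summable_dir_of {Q : Mx 3} (hQ : PD Q) {s : ℝ} (hs : 3 / 2 < s) :
    Summable fun x : NZ 3 => phi s (4 / 5 * qf Q x.1) := by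
  refine Summable.of_nonneg_of_le (fun x => phi_nonneg _ _) (fun x => ?_) (summable_zeta hQ hs)
  rw [gamma_split (by linarith) (arg_pos hQ x)]
  have := psi_nonneg s (4 / 5 * qf Q x.1)
  linarith

/-- summability of the direct part for all `s` -/
theorem summable_dir {Q : Mx 3} (hQ : PD Q) (s : ℝ) :
    Summable fun x : NZ 3 => phi s (4 / 5 * qf Q x.1) := by
  have h := summable_dir_of hQ (s := max s 2) (lt_of_lt_of_le (by norm_num) (le_max_right _ _))
  refine Summable.of_nonneg_of_le (fun x => phi_nonneg _ _) (fun x => ?_) h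
  exact phi_mono (arg_pos hQ x) (le_max_left _ _)

/-- Gaussian sums over nonzero vectors -/
theorem summable_nz {Q : Mx 3} (hQ : PD Q) {t : ℝ} (ht : 0 < t) :
    Summable fun x : NZ 3 => Real.exp (-(t * qf Q x.1)) :=
  (summable_theta hQ ht).subtype _

/-- summability of the dual part, for `s ≥ 1/2` -/
theorem summable_dua {Q : Mx 3} (hQ : PD Q) {s : ℝ} (hs : 1 / 2 ≤ s) :
    Summable fun x : NZ 3 => phi (3 / 2 - s) (5 * Real.pi ^ 2 / 4 * qf Q⁻¹ x.1) := by
  obtain ⟨c, hc, hl⟩ := (inv_pd hQ).low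
  have hc2 : 0 < 5 * Real.pi ^ 2 / 4 * c := by positivity
  have h := (summable_nz (inv_pd hQ) (t := 5 * Real.pi ^ 2 / 4) (by positivity)).mul_right
    (1 / (5 * Real.pi ^ 2 / 4 * c))
  refine Summable.of_nonneg_of_le (fun x => phi_nonneg _ _) (fun x => ?_) h
  refine (phi_le (arg_pos' hQ x) (by linarith)).trans ?_
  rw [div_eq_mul_one_div]
  refine mul_le_mul_of_nonneg_left ?_ (Real.exp_pos _).le
  refine one_div_le_one_div_of_le hc2 ?_
  have h1 := hl x.1
  have h2 := one_le_nn x.2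
  have h3 : c ≤ qf Q⁻¹ x.1 := by nlinarith
  exact mul_le_mul_of_nonneg_left h3 (by positivity)

/-- the sum over all vectors is one plus the sum over the nonzero vectors -/
theorem tsum_nz {f : (Fin 3 → ℤ) → ℝ} (hf : Summable f) :
    ∑' x : Fin 3 → ℤ, f x = f 0 + ∑' x : NZ 3, f x.1 := by
  classical
  have h := hf.tsum_eq_add_tsum_ite 0
  rw [h]
  congr 1
  have h2 := tsum_subtype {x : Fin 3 → ℤ | x ≠ 0} f
  have h3 : ∑' x : NZ 3, f x.1 = ∑' x, indicator {x : Fin 3 → ℤ | x ≠ 0} f x := h2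
  rw [h3]
  refine tsum_congr fun x => ?_
  by_cases hx : x = 0
  · simp [hx]
  · simp [hx]

theorem qf_zero (Q : Mx 3) : qf Q 0 = 0 := by
  simp [qf, qr_eq, rv]

/-- the theta transformation without the constant terms, for `0 < t` -/
theorem theta_nz {Q : Mx 3} (hQ : PD Q) (hd : Q.det = 4) {t : ℝ} (ht : 0 < t) :
    ∑' x : NZ 3, Real.exp (-((4 / 5 * qf Q x.1) * t)) =
      c0 * t ^ (-(3 : ℝ) / 2) - 1 + c0 * t ^ (-(3 : ℝ) / 2) *
        ∑' y : NZ 3, Real.exp (-((5 * Real.pi ^ 2 / 4 * qf Q⁻¹ y.1) / t)) := by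
  have h := theta_dual hQ (t := 4 / 5 * t) (by positivity)
  rw [tsum_nz (summable_theta hQ (by positivity)),
    tsum_nz (summable_theta (inv_pd hQ) (by positivity)), qf_zero, qf_zero, hd] at h
  simp only [mul_zero, neg_zero, Real.exp_zero] at h
  have hc : (Real.pi / (4 / 5 * t)) ^ ((3 : ℝ) / 2) * (4 : ℝ) ^ (-(1 : ℝ) / 2)
      = c0 * t ^ (-(3 : ℝ) / 2) := by
    unfold c0
    have e1 : Real.pi / (4 / 5 * t) = (5 * Real.pi / 4) * t⁻¹ := by field_simp
    have e2 : (4 : ℝ) ^ (-(1 : ℝ) / 2) = 1 / 2 := by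
      rw [show (4 : ℝ) = 2 ^ (2 : ℝ) by norm_num, ← Real.rpow_mul (by norm_num)]
      rw [show (2 : ℝ) * (-(1 : ℝ) / 2) = -1 by ring, Real.rpow_neg_one]
      norm_num
    have e3 : (t⁻¹) ^ ((3 : ℝ) / 2) = t ^ (-(3 : ℝ) / 2) := by
      rw [Real.inv_rpow ht.le, ← Real.rpow_neg ht.le]
      congr 1; ring
    rw [e1, e2, Real.mul_rpow (by positivity) (by positivity), e3]
    ring
  rw [hc] at h
  have h1 : ∑' x : NZ 3, Real.exp (-((4 / 5 * qf Q x.1) * t)) =
      ∑' x : NZ 3, Real.exp (-(4 / 5 * t * qf Q x.1)) :=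
    tsum_congr fun x => by congr 1; ring
  have h2 : ∑' y : NZ 3, Real.exp (-((5 * Real.pi ^ 2 / 4 * qf Q⁻¹ y.1) / t)) =
      ∑' y : NZ 3, Real.exp (-(Real.pi ^ 2 / (4 / 5 * t) * qf Q⁻¹ y.1)) :=
    tsum_congr fun x => by congr 1; field_simp
  rw [h1, h2]
  linarith

theorem sum_psi {Q : Mx 3} (hQ : PD Q) (hd : Q.det = 4) {s : ℝ} (hs : 3 / 2 < s) :
    ∑' x : NZ 3, psi s (4 / 5 * qf Q x.1) = c0 * Dua s Q + c0 / (s - 3 / 2) - 1 / s := by
  have hs0 : 0 < s := by linarith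
  have hs1 : 0 < s - 3 / 2 := by linarith
  -- exchange of sum and integral, direct side
  have hI : ∀ x : NZ 3, IntegrableOn
      (fun t : ℝ => Real.exp (-((4 / 5 * qf Q x.1) * t)) * t ^ (s - 1)) (Ioc 0 1) :=
    fun x => (kern_int hs0 (arg_pos hQ x)).mono_set Ioc_subset_Ioi_self
  have hN : ∀ x : NZ 3, ∫ t in Ioc (0 : ℝ) 1,
      ‖Real.exp (-((4 / 5 * qf Q x.1) * t)) * t ^ (s - 1)‖ = psi s (4 / 5 * qf Q x.1) := by
    intro x
    refine setIntegral_congr_fun measurableSet_Ioc fun t ht => ?_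
    exact Real.norm_of_nonneg (mul_nonneg (Real.exp_pos _).le (Real.rpow_nonneg ht.1.le _))
  have h1 : ∑' x : NZ 3, psi s (4 / 5 * qf Q x.1) = ∫ t in Ioc (0 : ℝ) 1,
      ∑' x : NZ 3, Real.exp (-((4 / 5 * qf Q x.1) * t)) * t ^ (s - 1) :=
    (integral_tsum_of_summable_integral_norm hI ((summable_psi hQ hs).congr fun x => (hN x).symm))
  -- dual side
  have hI' : ∀ y : NZ 3, IntegrableOn
      (fun t : ℝ => Real.exp (-((5 * Real.pi ^ 2 / 4 * qf Q⁻¹ y.1) / t)) * t ^ ((s - 3 / 2) - 1))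
      (Ioc 0 1) := fun y => inv_int (arg_pos' hQ y) hs1
  have hV' : ∀ y : NZ 3, ∫ t in Ioc (0 : ℝ) 1,
      Real.exp (-((5 * Real.pi ^ 2 / 4 * qf Q⁻¹ y.1) / t)) * t ^ ((s - 3 / 2) - 1)
      = phi (3 / 2 - s) (5 * Real.pi ^ 2 / 4 * qf Q⁻¹ y.1) := by
    intro y
    rw [inv_subst']
    congr 1; ring
  have hN' : ∀ y : NZ 3, ∫ t in Ioc (0 : ℝ) 1,
      ‖Real.exp (-((5 * Real.pi ^ 2 / 4 * qf Q⁻¹ y.1) / t)) * t ^ ((s - 3 / 2) - 1)‖
      = phi (3 / 2 - s) (5 * Real.pi ^ 2 / 4 * qf Q⁻¹ y.1) := by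
    intro y
    rw [← hV' y]
    refine setIntegral_congr_fun measurableSet_Ioc fun t ht => ?_
    exact Real.norm_of_nonneg (mul_nonneg (Real.exp_pos _).le (Real.rpow_nonneg ht.1.le _))
  have hsd := summable_dua hQ (s := s) (by linarith)
  have h2 : Dua s Q = ∫ t in Ioc (0 : ℝ) 1, ∑' y : NZ 3,
      Real.exp (-((5 * Real.pi ^ 2 / 4 * qf Q⁻¹ y.1) / t)) * t ^ ((s - 3 / 2) - 1) := by
    rw [← integral_tsum_of_summable_integral_norm hI' (hsd.congr fun y => (hN' y).symm)]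
    exact tsum_congr fun y => (hV' y).symm
  have hint2 : IntegrableOn (fun t : ℝ => ∑' y : NZ 3,
      Real.exp (-((5 * Real.pi ^ 2 / 4 * qf Q⁻¹ y.1) / t)) * t ^ ((s - 3 / 2) - 1)) (Ioc 0 1) := by
    by_contra hcon
    -- the integral is positive, so the integrand is integrable
    have h3 := integral_undef hcon
    rw [← h2] at h3
    have h4 : 0 < Dua s Q := by
      have hx : ∃ y : NZ 3, True := ⟨⟨fun _ => 1, fun h => by
        have := congrFun h 0
        simp at this⟩, trivial⟩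
      obtain ⟨y, -⟩ := hx
      exact hsd.tsum_pos (fun y => phi_nonneg _ _) y (phi_pos _ (arg_pos' hQ y))
    linarith
  have h5 : ∀ t ∈ Ioc (0 : ℝ) 1,
      ∑' x : NZ 3, Real.exp (-((4 / 5 * qf Q x.1) * t)) * t ^ (s - 1) =
      c0 * t ^ ((s - 3 / 2) - 1) - t ^ (s - 1) + c0 * ∑' y : NZ 3,
        Real.exp (-((5 * Real.pi ^ 2 / 4 * qf Q⁻¹ y.1) / t)) * t ^ ((s - 3 / 2) - 1) := by
    intro t ht
    rw [tsum_mul_right, tsum_mul_right, theta_nz hQ hd ht.1]
    have e1 : t ^ ((s - 3 / 2) - 1) = t ^ (-(3 : ℝ) / 2) * t ^ (s - 1) := by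
      rw [← Real.rpow_add ht.1]
      congr 1; ring
    rw [e1]
    ring
  rw [h1, setIntegral_congr_fun measurableSet_Ioc h5]
  have i1 : IntegrableOn (fun t : ℝ => c0 * t ^ ((s - 3 / 2) - 1)) (Ioc 0 1) :=
    (pow_int hs1).const_mul _
  have i2 : IntegrableOn (fun t : ℝ => t ^ (s - 1)) (Ioc 0 1) := pow_int hs0
  have i12 : IntegrableOn (fun t : ℝ => c0 * t ^ ((s - 3 / 2) - 1) - t ^ (s - 1)) (Ioc 0 1) :=
    i1.sub i2
  rw [integral_add i12 (hint2.const_mul _), integral_sub i1 i2, integral_const_mul,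
    integral_const_mul, pow_val hs1, pow_val hs0, ← h2]
  ring

/-- **The representation of the Epstein zeta function.** -/
theorem split {Q : Mx 3} (hQ : PD Q) (hd : Q.det = 4) {s : ℝ} (hs : 3 / 2 < s) :
    Real.Gamma s * ((4 / 5 : ℝ) ^ (-s) * F s Q) =
      Dir s Q + c0 * Dua s Q + c0 / (s - 3 / 2) - 1 / s := by
  have h1 : Real.Gamma s * ((4 / 5 : ℝ) ^ (-s) * F s Q) =
      ∑' x : NZ 3, Real.Gamma s * (4 / 5 * qf Q x.1) ^ (-s) := by
    unfold F
    rw [← tsum_mul_left, ← tsum_mul_left]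
    refine tsum_congr fun x => ?_
    rw [Real.mul_rpow (by norm_num) (hQ.pos x).le]
  have h2 : ∑' x : NZ 3, Real.Gamma s * (4 / 5 * qf Q x.1) ^ (-s) =
      ∑' x : NZ 3, (psi s (4 / 5 * qf Q x.1) + phi s (4 / 5 * qf Q x.1)) :=
    tsum_congr fun x => gamma_split (by linarith) (arg_pos hQ x)
  rw [h1, h2, (summable_psi hQ hs).tsum_add (summable_dir hQ s), sum_psi hQ hd hs]
  unfold Dir
  ring

end Pool.Agent.Lib.EPS
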