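import Pool.Agent.Lib.EPS.Chk
import Pool.Agent.Lib.FCC.DetC

/-!
# Module EPS.VerS: vertices and cones

`V.re` etc. as in FCC/ConeL, FCC/VertS (both proved; copy their proofs).
* `dtn_re`: unfold, `push_cast`, `ring`.
* `ok_r`: `4 r ^ 3 ≤ 2 ^ 72 dt`, so `(r / 2 ^ 24) ^ 3 ≤ dt / 4`, so
  `r / 2 ^ 24 ≤ gg v.re / gg4` where `gg4 = 4 ^ (1/3)`, `gg v ^ 3 = dt v` (`gg_cube`), `gg4 ^ 3 = 4`
  (`pow_le_pow_left` inverse: `pow_le_pow_iff_left₀`).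
* `ok_r_lt`: `dt ≤ 7 (a+b+c+d+e+f) ^ 3 ≤ 7 * 2 ^ 180`, so `4 r ^ 3 ≤ 7 * 2 ^ 252`, `r < 2 ^ 85`.
* `comb_re`: unfold, cast.
* `cn_lin`: superadditivity on the cone (`gg_add`, `gg_smul`, `gg_nonneg` of FCC/DetC; compare
  `cone_gg` in FCC/ConeL): if `∑ i, t i * v i ≤ ρ gg v` at the six vertices then the same in the cone.
* `cn_mem_nonneg`, `cn_all`: as in FCC.
-/

open Matrix
open scoped Matrix.Norms.Elementwise

namespace Pool.Agent.Lib.EPS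

open Pool.Agent.Lib.EpZ Pool.Agent.Lib.FCC

theorem re_nonneg (v : VX) (i : Fin 6) : 0 ≤ v.re i := by
  rcases v with ⟨a, b, c, d, e, f, r⟩
  fin_cases i
  · exact Nat.cast_nonneg a
  · exact Nat.cast_nonneg b
  · exact Nat.cast_nonneg c
  · exact Nat.cast_nonneg d
  · exact Nat.cast_nonneg e
  · exact Nat.cast_nonneg f

theorem dtn_re (v : VX) : ((dtn v.a v.b v.c v.d v.e v.f : ℕ) : ℝ) = dt v.re := by
  obtain ⟨p, p', q, q', r, r', s⟩ := v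
  simp only [dtn, dt, VX.re, Nat.add_eq, Nat.mul_eq]
  push_cast
  ring

namespace VerSAux

theorem ok_iff {v : VX} (h : v.ok = true) :
    4 * v.r ^ 3 ≤ 2 ^ 72 * dtn v.a v.b v.c v.d v.e v.f ∧
      v.a + v.b + (v.c + v.d) + (v.e + v.f) ≤ 2 ^ 60 := by
  obtain ⟨a, b, c, d, e, f, r⟩ := v
  have h1 : Bool.and (Nat.ble (Nat.mul 4 (Nat.pow r 3))
      (Nat.mul 4722366482869645213696 (dtn a b c d e f)))
    (Nat.ble (Nat.add (Nat.add (Nat.add a b) (Nat.add c d)) (Nat.add e f)) 1152921504606846976)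
      = true := h
  rw [Bool.and_eq_true] at h1
  obtain ⟨h2, h3⟩ := h1
  have h4 := Nat.le_of_ble_eq_true h2
  have h5 := Nat.le_of_ble_eq_true h3
  constructor
  · have e1 : (2 : ℕ) ^ 72 = 4722366482869645213696 := by norm_num
    rw [e1]
    exact h4
  · have e1 : (2 : ℕ) ^ 60 = 1152921504606846976 := by norm_num
    rw [e1]
    exact h5

theorem dtn_le (p p' q q' r r' S : ℕ) (hS : p + p' + (q + q') + (r + r') ≤ S) :
    dtn p p' q q' r r' ≤ 7 * S ^ 3 := by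
  have hp : p ≤ S := by omega
  have hp' : p' ≤ S := by omega
  have hq : q ≤ S := by omega
  have hq' : q' ≤ S := by omega
  have hr : r ≤ S := by omega
  have hr' : r' ≤ S := by omega
  have h1 : p * p' * (q + q' + (r + r')) ≤ S * S * S :=
    Nat.mul_le_mul (Nat.mul_le_mul hp hp') (by omega)
  have h2 : q * q' * (p + p' + (r + r')) ≤ S * S * S :=
    Nat.mul_le_mul (Nat.mul_le_mul hq hq') (by omega)
  have h3 : r * r' * (p + p' + (q + q')) ≤ S * S * S :=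
    Nat.mul_le_mul (Nat.mul_le_mul hr hr') (by omega)
  have h4 : q * (p * r + r' * p') ≤ S * (S * S + S * S) :=
    Nat.mul_le_mul hq (Nat.add_le_add (Nat.mul_le_mul hp hr) (Nat.mul_le_mul hr' hp'))
  have h5 : q' * (p * r' + r * p') ≤ S * (S * S + S * S) :=
    Nat.mul_le_mul hq' (Nat.add_le_add (Nat.mul_le_mul hp hr') (Nat.mul_le_mul hr hp'))
  have e : dtn p p' q q' r r' = p * p' * (q + q' + (r + r')) + q * q' * (p + p' + (r + r'))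
      + r * r' * (p + p' + (q + q')) + (q * (p * r + r' * p') + q' * (p * r' + r * p')) := rfl
  have e2 : 7 * S ^ 3 = S * S * S + S * S * S + S * S * S +
      (S * (S * S + S * S) + S * (S * S + S * S)) := by ring
  rw [e, e2]
  exact Nat.add_le_add (Nat.add_le_add (Nat.add_le_add h1 h2) h3) (Nat.add_le_add h4 h5)

end VerSAux

theorem ok_r {v : VX} (h : v.ok = true) : (v.r : ℝ) * (4 : ℝ) ^ ((1 : ℝ) / 3) ≤ 2 ^ 24 * gg v.re := by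
  have h1 := (VerSAux.ok_iff h).1
  have h2 : (4 : ℝ) * (v.r : ℝ) ^ 3 ≤ 2 ^ 72 * dt v.re := by
    rw [← dtn_re]
    exact_mod_cast h1
  have h3 := gg_cube (re_nonneg v)
  have h4 : ((4 : ℝ) ^ ((1 : ℝ) / 3)) ^ 3 = 4 := by
    rw [← Real.rpow_natCast, ← Real.rpow_mul (by norm_num)]
    norm_num
  have h5 : 0 ≤ (4 : ℝ) ^ ((1 : ℝ) / 3) := Real.rpow_nonneg (by norm_num) _
  have h6 := gg_nonneg (re_nonneg v)
  have h7 : ((v.r : ℝ) * (4 : ℝ) ^ ((1 : ℝ) / 3)) ^ 3 ≤ (2 ^ 24 * gg v.re) ^ 3 := by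
    rw [mul_pow, mul_pow, h3, h4]
    calc (v.r : ℝ) ^ 3 * 4 = 4 * (v.r : ℝ) ^ 3 := by ring
      _ ≤ 2 ^ 72 * dt v.re := h2
      _ = _ := by ring
  exact (pow_le_pow_iff_left₀ (by positivity) (by positivity) (by norm_num)).1 h7

theorem ok_r_lt {v : VX} (h : v.ok = true) : v.r < 2 ^ 85 := by
  obtain ⟨h1, h2⟩ := VerSAux.ok_iff h
  have h3 := VerSAux.dtn_le v.a v.b v.c v.d v.e v.f _ h2
  by_contra hc
  have hc' : 2 ^ 85 ≤ v.r := not_lt.1 hc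
  have h4 : (2 ^ 85) ^ 3 ≤ v.r ^ 3 := Nat.pow_le_pow_left hc' 3
  have h5 : 4 * (2 ^ 85) ^ 3 ≤ 2 ^ 72 * (7 * (2 ^ 60) ^ 3) :=
    (Nat.mul_le_mul_left 4 h4).trans (h1.trans (Nat.mul_le_mul_left _ h3))
  norm_num at h5

theorem ok_sum {v : VX} (h : v.ok = true) : v.a + v.b + (v.c + v.d) + (v.e + v.f) ≤ 2 ^ 60 :=
  (VerSAux.ok_iff h).2

theorem comb_re (v w : VX) (x y r : ℕ) (i : Fin 6) :
    (v.comb w x y r).re i = x * v.re i + y * w.re i := by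
  obtain ⟨a, b, c, d, e, f, s⟩ := v
  obtain ⟨a', b', c', d', e', f', s'⟩ := w
  have key : ∀ m n : ℕ, ((Nat.add (Nat.mul x m) (Nat.mul y n) : ℕ) : ℝ) = x * m + y * n := by
    intro m n
    rw [Nat.add_eq, Nat.mul_eq, Nat.mul_eq]
    push_cast
    ring
  fin_cases i
  · exact key a a'
  · exact key b b'
  · exact key c c'
  · exact key d d'
  · exact key e e'
  · exact key f f'

theorem cn_mem_nonneg {C : Cn} {l : Fin 6 → ℝ} (h : C.mem l) (i : Fin 6) : 0 ≤ l i := by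
  obtain ⟨c, hc, hl⟩ := h
  rw [hl i]
  have g0 := mul_nonneg (hc 0) (re_nonneg C.v0 i)
  have g1 := mul_nonneg (hc 1) (re_nonneg C.v1 i)
  have g2 := mul_nonneg (hc 2) (re_nonneg C.v2 i)
  have g3 := mul_nonneg (hc 3) (re_nonneg C.v3 i)
  have g4 := mul_nonneg (hc 4) (re_nonneg C.v4 i)
  have g5 := mul_nonneg (hc 5) (re_nonneg C.v5 i)
  linarith

theorem cn_all (C : Cn) (f : VX → Bool) : C.all f = true ↔
    f C.v0 = true ∧ f C.v1 = true ∧ f C.v2 = true ∧ f C.v3 = true ∧ f C.v4 = true ∧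
      f C.v5 = true := by
  obtain ⟨v0, v1, v2, v3, v4, v5⟩ := C
  simp only [Cn.all, Bool.and_eq_true]

namespace VerSAux

/-- superadditivity for six vectors -/
theorem gg_comb (v0 v1 v2 v3 v4 v5 : Fin 6 → ℝ) (c : Fin 6 → ℝ) (hc : ∀ k, 0 ≤ c k)
    (h0 : ∀ i, 0 ≤ v0 i) (h1 : ∀ i, 0 ≤ v1 i) (h2 : ∀ i, 0 ≤ v2 i) (h3 : ∀ i, 0 ≤ v3 i)
    (h4 : ∀ i, 0 ≤ v4 i) (h5 : ∀ i, 0 ≤ v5 i) :
    c 0 * gg v0 + c 1 * gg v1 + c 2 * gg v2 + c 3 * gg v3 + c 4 * gg v4 + c 5 * gg v5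
      ≤ gg (c 0 • v0 + c 1 • v1 + c 2 • v2 + c 3 • v3 + c 4 • v4 + c 5 • v5) := by
  have n0 : ∀ i, 0 ≤ (c 0 • v0) i := fun i => mul_nonneg (hc 0) (h0 i)
  have n1 : ∀ i, 0 ≤ (c 1 • v1) i := fun i => mul_nonneg (hc 1) (h1 i)
  have n2 : ∀ i, 0 ≤ (c 2 • v2) i := fun i => mul_nonneg (hc 2) (h2 i)
  have n3 : ∀ i, 0 ≤ (c 3 • v3) i := fun i => mul_nonneg (hc 3) (h3 i)
  have n4 : ∀ i, 0 ≤ (c 4 • v4) i := fun i => mul_nonneg (hc 4) (h4 i)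
  have n5 : ∀ i, 0 ≤ (c 5 • v5) i := fun i => mul_nonneg (hc 5) (h5 i)
  have m1 : ∀ i, 0 ≤ (c 0 • v0 + c 1 • v1) i := fun i => add_nonneg (n0 i) (n1 i)
  have m2 : ∀ i, 0 ≤ (c 0 • v0 + c 1 • v1 + c 2 • v2) i := fun i => add_nonneg (m1 i) (n2 i)
  have m3 : ∀ i, 0 ≤ (c 0 • v0 + c 1 • v1 + c 2 • v2 + c 3 • v3) i :=
    fun i => add_nonneg (m2 i) (n3 i)
  have m4 : ∀ i, 0 ≤ (c 0 • v0 + c 1 • v1 + c 2 • v2 + c 3 • v3 + c 4 • v4) i :=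
    fun i => add_nonneg (m3 i) (n4 i)
  have a1 := gg_add n0 n1
  have a2 := gg_add m1 n2
  have a3 := gg_add m2 n3
  have a4 := gg_add m3 n4
  have a5 := gg_add m4 n5
  rw [gg_smul h0 (hc 0), gg_smul h1 (hc 1)] at a1
  rw [gg_smul h2 (hc 2)] at a2
  rw [gg_smul h3 (hc 3)] at a3
  rw [gg_smul h4 (hc 4)] at a4
  rw [gg_smul h5 (hc 5)] at a5
  linarith

end VerSAux

/-- superadditivity on a simplicial cone -/
theorem cn_lin (C : Cn) (t : Fin 6 → ℝ) {ρ : ℝ} (hρ : 0 ≤ ρ)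
    (h0 : ∑ i, t i * C.v0.re i ≤ ρ * gg C.v0.re)
    (h1 : ∑ i, t i * C.v1.re i ≤ ρ * gg C.v1.re)
    (h2 : ∑ i, t i * C.v2.re i ≤ ρ * gg C.v2.re)
    (h3 : ∑ i, t i * C.v3.re i ≤ ρ * gg C.v3.re)
    (h4 : ∑ i, t i * C.v4.re i ≤ ρ * gg C.v4.re)
    (h5 : ∑ i, t i * C.v5.re i ≤ ρ * gg C.v5.re)
    {l : Fin 6 → ℝ} (hl : C.mem l) : ∑ i, t i * l i ≤ ρ * gg l := by
  obtain ⟨a, ha, hl⟩ := hl
  have e : l = a 0 • C.v0.re + a 1 • C.v1.re + a 2 • C.v2.re + a 3 • C.v3.re + a 4 • C.v4.re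
      + a 5 • C.v5.re := by
    funext i
    rw [hl i]
    rfl
  have hg := VerSAux.gg_comb C.v0.re C.v1.re C.v2.re C.v3.re C.v4.re C.v5.re a ha
    (re_nonneg C.v0) (re_nonneg C.v1) (re_nonneg C.v2) (re_nonneg C.v3) (re_nonneg C.v4)
    (re_nonneg C.v5)
  rw [← e] at hg
  have es : ∑ i, t i * l i = a 0 * ∑ i, t i * C.v0.re i + a 1 * ∑ i, t i * C.v1.re i
      + a 2 * ∑ i, t i * C.v2.re i + a 3 * ∑ i, t i * C.v3.re i + a 4 * ∑ i, t i * C.v4.re i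
      + a 5 * ∑ i, t i * C.v5.re i := by
    rw [Finset.mul_sum, Finset.mul_sum, Finset.mul_sum, Finset.mul_sum, Finset.mul_sum,
      Finset.mul_sum, ← Finset.sum_add_distrib, ← Finset.sum_add_distrib,
      ← Finset.sum_add_distrib, ← Finset.sum_add_distrib, ← Finset.sum_add_distrib]
    refine Finset.sum_congr rfl fun i _ => ?_
    rw [hl i]
    ring
  rw [es]
  have k := mul_le_mul_of_nonneg_left hg hρ
  have g0 := mul_le_mul_of_nonneg_left h0 (ha 0)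
  have g1 := mul_le_mul_of_nonneg_left h1 (ha 1)
  have g2 := mul_le_mul_of_nonneg_left h2 (ha 2)
  have g3 := mul_le_mul_of_nonneg_left h3 (ha 3)
  have g4 := mul_le_mul_of_nonneg_left h4 (ha 4)
  have g5 := mul_le_mul_of_nonneg_left h5 (ha 5)
  linarith

end Pool.Agent.Lib.EPS
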