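import Pool.Agent.Lib.EPS.Top
import Pool.Agent.Lib.FCC.Main

/-!
# Module EPS.MainF: the theorem for lattices, all `s > 3/2`

Copy of FCC/Main (proved) with `s > 3/2` instead of `s ≥ 6`: for `s ≥ 6` use `FCC.main`, for
`3/2 < s ≤ 6` the same proof as there with `main_form'` instead of `main_form` (the lemmas of
`FCC.MainAux` can be used: `fcc_eq`, `det_B0`, `gram_B0`, `c_cube`, ...).
-/

open Matrix
open scoped Matrix.Norms.Elementwise

namespace Pool.Agent.Lib.EPS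

open Pool.Agent.Lib.EpZ Pool.Agent.Lib.FCC

namespace MainFAux

lemma compare (hroot : ∀ k < 6, (rt k).Ok) {B : Mx 3} (hB : |B.det| = 1) {s : ℝ} (hs : 3 / 2 < s)
    (hs6 : s ≤ 6) :
    zeta (lat MainAux.B0) s ≤ zeta (lat B) s ∧
      (zeta (lat B) s ≤ zeta (lat MainAux.B0) s → Isometric (lat B) (lat MainAux.B0)) := by
  have hB' := det_ne_of_abs hB
  have hB0' := det_ne_of_abs MainAux.det_B0
  have hc2 : 0 < (MainAux.c ^ 2)⁻¹ := inv_pos.2 (pow_pos MainAux.c_pos 2)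
  have hcne : MainAux.c ^ 2 ≠ 0 := (pow_pos MainAux.c_pos 2).ne'
  have hPD := gram_pd hB'
  have hdet : ((MainAux.c ^ 2)⁻¹ • EpZ.gram B).det = 4 := by
    rw [Matrix.det_smul, Fintype.card_fin, gram_det_of_abs hB, mul_one, inv_pow, ← pow_mul,
      show 2 * 3 = 3 * 2 by norm_num, pow_mul, MainAux.c_cube]
    norm_num
  obtain ⟨h1, h2⟩ := main_form' hroot (hPD.smul hc2) hdet hs hs6
  have hG : G0 = (MainAux.c ^ 2)⁻¹ • EpZ.gram MainAux.B0 := by
    rw [MainAux.gram_B0, smul_smul, inv_mul_cancel₀ hcne, one_smul]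
  have hK : 0 < (MainAux.c ^ 2)⁻¹ ^ (-s) := Real.rpow_pos_of_pos hc2 _
  have e1 : F s ((MainAux.c ^ 2)⁻¹ • EpZ.gram B) = (MainAux.c ^ 2)⁻¹ ^ (-s) * F s (EpZ.gram B) :=
    F_smul hPD hc2 s
  have e2 : F s G0 = (MainAux.c ^ 2)⁻¹ ^ (-s) * F s (EpZ.gram MainAux.B0) := by
    rw [hG]
    exact F_smul (gram_pd hB0') hc2 s
  rw [zeta_lat hB', zeta_lat hB0']
  have h3 : F s (EpZ.gram MainAux.B0) ≤ F s (EpZ.gram B) := by
    rw [e1, e2] at h1
    exact le_of_mul_le_mul_left h1 hK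
  refine ⟨h3, fun h4 => ?_⟩
  have h5 : F s (EpZ.gram B) = F s (EpZ.gram MainAux.B0) := le_antisymm h4 h3
  have h6 := h2 (by rw [e1, e2, h5])
  rw [isometric_iff hB' hB0']
  have h7 := h6.smul (MainAux.c ^ 2)
  rw [smul_smul, mul_inv_cancel₀ hcne, one_smul, ← MainAux.gram_B0] at h7
  exact h7

end MainFAux

theorem main' (hroot : ∀ k < 6, (rt k).Ok) (s : ℝ) (hs : 3 / 2 < s)
    (Λ : Set (EuclideanSpace ℝ (Fin 3))) : IsGlobalMinimum Λ s ↔ Isometric Λ fcc := by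
  rcases le_or_gt 6 s with h6 | h6
  · exact FCC.main s h6 Λ
  have hs6 : s ≤ 6 := h6.le
  rw [MainAux.fcc_eq]
  constructor
  · rintro ⟨⟨B, hB, rfl⟩, h⟩
    exact (MainFAux.compare hroot hB hs hs6).2 (h _ ⟨MainAux.B0, MainAux.det_B0, rfl⟩)
  · intro h
    have hz := h.zeta_eq s
    obtain ⟨φ, hφ⟩ := h.symm
    obtain ⟨O, hO, -, hlat⟩ := exists_orth φ
    refine ⟨⟨O * MainAux.B0, ?_, ?_⟩, ?_⟩
    · rw [Matrix.det_mul, abs_mul, hO, MainAux.det_B0, one_mul]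
    · rw [hlat, hφ]
    · rintro _ ⟨B, hB, rfl⟩
      rw [← hz]
      exact (MainFAux.compare hroot hB hs hs6).1

end Pool.Agent.Lib.EPS
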