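import Pool.Agent.Lib.EPS.Root
import Pool.Agent.Lib.EPS.MainF

/-!
# EPS: the global minimum in dimension three
-/

namespace Pool.Agent.Lib.EPS

open Pool.Agent.Lib.EpZ Pool.Agent.Lib.FCC

theorem main (s : ℝ) (hs : 3 / 2 < s) (Λ : Set (EuclideanSpace ℝ (Fin 3))) :
    IsGlobalMinimum Λ s ↔ Isometric Λ fcc :=
  main' root_ok s hs Λ

end Pool.Agent.Lib.EPS
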