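import Pool.Agent.Lib.EPS.Split

/-!
# Module EPS.Vsum: finitely many vectors

`xs` a list of distinct nonzero vectors, no two of them opposite. The nonnegative summable family
`x ↦ phi s (4/5 qf Q x)` on `NZ 3` (`summable_dir`, `phi_nonneg`) is even (`qf Q (-x) = qf Q x`). The
sum over the `2 n` distinct vectors `± x`, `x ∈ xs`, is at most the total sum `Dir s Q`.
`dua_pos`: all terms of `Dua` are positive, summable, `c0 > 0`.
-/

open Matrix
open scoped Matrix.Norms.Elementwise

namespace Pool.Agent.Lib.EPS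

open Pool.Agent.Lib.EpZ Pool.Agent.Lib.FCC

namespace VsumAux

theorem qf_even (Q : Mx 3) (x : Fin 3 → ℤ) : qf Q (-x) = qf Q x := by
  unfold qf
  rw [qr_eq, qr_eq]
  refine Finset.sum_congr rfl fun i _ => Finset.sum_congr rfl fun j _ => ?_
  simp [rv]

end VsumAux

open VsumAux

theorem half_le (s : ℝ) {Q : Mx 3} (hQ : PD Q) (xs : List (Fin 3 → ℤ)) (h1 : xs.Nodup)
    (h2 : ∀ x ∈ xs, x ≠ 0) (h3 : ∀ x ∈ xs, -x ∉ xs) :
    2 * (xs.map fun x => phi s (4 / 5 * qf Q x)).sum ≤ Dir s Q := by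
  classical
  set f : (Fin 3 → ℤ) → ℝ := fun x => phi s (4 / 5 * qf Q x) with hf
  have hfe : ∀ x, f (-x) = f x := fun x => by simp only [hf, qf_even]
  have hA : (xs.map f).sum = ∑ x ∈ xs.toFinset, f x := (List.sum_toFinset f h1).symm
  have hB : ∑ x ∈ xs.toFinset.image (fun x => -x), f x = ∑ x ∈ xs.toFinset, f x := by
    rw [Finset.sum_image (fun a _ b _ h => neg_injective h)]
    exact Finset.sum_congr rfl fun x _ => hfe x
  have hdis : Disjoint xs.toFinset (xs.toFinset.image (fun x => -x)) := by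
    rw [Finset.disjoint_left]
    intro a ha hb
    obtain ⟨b, hb1, hb2⟩ := Finset.mem_image.mp hb
    have e1 : a ∈ xs := List.mem_toFinset.mp ha
    have e2 : b ∈ xs := List.mem_toFinset.mp hb1
    have e3 : -a = b := by rw [← hb2, neg_neg]
    exact h3 a e1 (e3 ▸ e2)
  have hnz : ∀ x ∈ xs.toFinset ∪ xs.toFinset.image (fun x => -x), x ≠ 0 := by
    intro x hx
    rcases Finset.mem_union.mp hx with hx | hx
    · exact h2 x (List.mem_toFinset.mp hx)
    · obtain ⟨b, hb1, hb2⟩ := Finset.mem_image.mp hx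
      rw [← hb2]
      exact neg_ne_zero.mpr (h2 b (List.mem_toFinset.mp hb1))
  have hsum : ∑ x ∈ (xs.toFinset ∪ xs.toFinset.image (fun x => -x)).subtype (fun x => x ≠ 0), f x.1
      = 2 * (xs.map f).sum := by
    rw [Finset.sum_subtype_of_mem f hnz, Finset.sum_union hdis, hB, hA]
    ring
  rw [← hsum]
  exact (summable_dir hQ s).sum_le_tsum _ (fun x _ => phi_nonneg _ _)

theorem dua_pos {s : ℝ} (hs : 3 / 2 ≤ s) {Q : Mx 3} (hQ : PD Q) : 0 < c0 * Dua s Q := by
  have hc : 0 < c0 := by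
    unfold c0
    have := Real.pi_pos
    positivity
  refine mul_pos hc ?_
  have hx : (fun _ => 1 : Fin 3 → ℤ) ≠ 0 := fun h => by
    have := congrFun h 0
    simp at this
  exact (summable_dua hQ (by linarith)).tsum_pos (fun y => phi_nonneg _ _) ⟨fun _ => 1, hx⟩
    (phi_pos _ (arg_pos' hQ _))

end Pool.Agent.Lib.EPS
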