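import Pool.Agent.Lib.EPS.Pk
import Pool.Agent.Lib.EPS.Vsum
import Pool.Agent.Lib.FCC.DetC

/-!
# Module EPS.AccS: planes from recipes

`VGood vs`: the coefficient vectors `vs` belong to distinct nonzero vectors `xs`, no two opposite.
Let `(x_j, v_j)` be these vectors with their coefficients and `e_j` the entries of the recipe
(`j < n`, `n` the smaller of the two lengths), `fa_j, fb_j` their fields (`Ent.Good`). By induction
on the recipe (`acc` is `Rc.rec`; `unfold acc`, or prove the two equations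
`acc .e vs c .. = ⟨c, ..⟩`, `acc (.c t r) (v :: vs) c .. = acc r vs (c + t.1.a) (g0 + v.c0 * t.1.b) ..`,
`acc (.c t r) [] c .. = ⟨c, ..⟩`, all `rfl`, for general accumulators) the plane has the fields
`fc = ∑ fa_j`, `fg_i = ∑ c_i(v_j) fb_j` (`rep_add`, `rep_mul`). Bounds: `n ≤ 171`, coefficients
`≤ 36`: `171 * 36 * 2 ^ 64 < 2 ^ 80`. The inequality: with `z_j = 4/5 qf (formOf l) x_j > 0`
(`formOf_pd`, `PD.pos`) and `qf (formOf l) x = ∑ c_i l_i` (`qf`, `qr_eq`, `formOf`,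
`Fin.sum_univ_three`, `ring`), the left hand side is
`2 ∑_j ∑_k bn k s (fa_j k - fb_j k z_j) ≤ 2 ∑_j 2^40 wt s phi s z_j ≤ 2^40 wt s Dir s (formOf l)`
(`half_le` with `xs.take n`; or drop: a sublist of `xs` again satisfies the hypotheses; `wt s > 0`).
A convenient induction hypothesis: for all accumulators `P0` and all `vs`, `xs` with `Forall₂`:
there are `n` and fields `fc, fg` such that `acc r vs P0` has the fields of `P0` plus `fc, fg`, and
`∑_k bn k s (fc k - 4/5 ∑ fg_i k l_i) ≤ 2^40 wt s ((xs.take n).map (phi s (4/5 qf (formOf l) ·))).sum`.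
-/

open Matrix
open scoped Matrix.Norms.Elementwise

namespace Pool.Agent.Lib.EPS

open Pool.Agent.Lib.EpZ Pool.Agent.Lib.FCC

/-- the coefficients of the norm of the vector `x` -/
def Coef (x : Fin 3 → ℤ) (v : Vx) : Prop :=
  (v.c0 : ℤ) = (x 0 - x 1) ^ 2 ∧ (v.c1 : ℤ) = x 2 ^ 2 ∧ (v.c2 : ℤ) = (x 0 - x 2) ^ 2 ∧
    (v.c3 : ℤ) = x 1 ^ 2 ∧ (v.c4 : ℤ) = x 0 ^ 2 ∧ (v.c5 : ℤ) = (x 1 - x 2) ^ 2 ∧
    v.c0 ≤ 36 ∧ v.c1 ≤ 36 ∧ v.c2 ≤ 36 ∧ v.c3 ≤ 36 ∧ v.c4 ≤ 36 ∧ v.c5 ≤ 36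

/-- a list of coefficient vectors of at most 171 distinct vectors of a half system -/
def VGood (vs : List Vx) : Prop :=
  vs.length ≤ 171 ∧ ∃ xs : List (Fin 3 → ℤ), xs.Nodup ∧ (∀ x ∈ xs, x ≠ 0) ∧ (∀ x ∈ xs, -x ∉ xs) ∧
    List.Forall₂ Coef xs vs

namespace AccSAux

/-- the coefficients as a vector -/
def cf (v : Vx) : Fin 6 → ℕ := ![v.c0, v.c1, v.c2, v.c3, v.c4, v.c5]

theorem acc_e (vs : List Vx) (c g0 g1 g2 g3 g4 g5 : ℕ) :
    acc .e vs c g0 g1 g2 g3 g4 g5 = ⟨c, g0, g1, g2, g3, g4, g5⟩ := rfl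

theorem acc_nil (t : VEnt) (r : Rc) (c g0 g1 g2 g3 g4 g5 : ℕ) :
    acc (.c t r) [] c g0 g1 g2 g3 g4 g5 = ⟨c, g0, g1, g2, g3, g4, g5⟩ := rfl

theorem acc_cons (t : VEnt) (r : Rc) (v : Vx) (vs : List Vx) (c g0 g1 g2 g3 g4 g5 : ℕ) :
    acc (.c t r) (v :: vs) c g0 g1 g2 g3 g4 g5 =
      acc r vs (Nat.add c t.1.a) (Nat.add g0 (Nat.mul v.c0 t.1.b))
        (Nat.add g1 (Nat.mul v.c1 t.1.b)) (Nat.add g2 (Nat.mul v.c2 t.1.b))
        (Nat.add g3 (Nat.mul v.c3 t.1.b)) (Nat.add g4 (Nat.mul v.c4 t.1.b))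
        (Nat.add g5 (Nat.mul v.c5 t.1.b)) := rfl

theorem qf_cf {x : Fin 3 → ℤ} {v : Vx} (h : Coef x v) (l : Fin 6 → ℝ) :
    qf (formOf l) x = ∑ i, (cf v i : ℝ) * l i := by
  obtain ⟨h0, h1, h2, h3, h4, h5, -⟩ := h
  have k0 : (v.c0 : ℝ) = ((x 0 : ℝ) - x 1) ^ 2 := by exact_mod_cast h0
  have k1 : (v.c1 : ℝ) = (x 2 : ℝ) ^ 2 := by exact_mod_cast h1
  have k2 : (v.c2 : ℝ) = ((x 0 : ℝ) - x 2) ^ 2 := by exact_mod_cast h2
  have k3 : (v.c3 : ℝ) = (x 1 : ℝ) ^ 2 := by exact_mod_cast h3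
  have k4 : (v.c4 : ℝ) = (x 0 : ℝ) ^ 2 := by exact_mod_cast h4
  have k5 : (v.c5 : ℝ) = ((x 1 : ℝ) - x 2) ^ 2 := by exact_mod_cast h5
  unfold qf
  rw [DetCAux.qr_form]
  simp only [Fin.sum_univ_six, cf, rv]
  simp [k0, k1, k2, k3, k4, k5]
  ring

/-- the fields of the plane `P` are the fields `hc`, `hg` -/
def PRep (P : Pln) (hc : Fin 10 → ℕ) (hg : Fin 6 → Fin 10 → ℕ) : Prop :=
  Rep P.c hc ∧ Rep P.g0 (hg 0) ∧ Rep P.g1 (hg 1) ∧ Rep P.g2 (hg 2) ∧ Rep P.g3 (hg 3) ∧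
    Rep P.g4 (hg 4) ∧ Rep P.g5 (hg 5)

theorem cf_le {x : Fin 3 → ℤ} {v : Vx} (h : Coef x v) (i : Fin 6) : cf v i ≤ 36 := by
  obtain ⟨-, -, -, -, -, -, h0, h1, h2, h3, h4, h5⟩ := h
  unfold cf
  fin_cases i <;> simpa

theorem main (r : Rc) : ∀ (vs : List Vx) (xs : List (Fin 3 → ℤ)), List.Forall₂ Coef xs vs →
    (∀ x ∈ xs, x ≠ 0) →
    ∃ n ≤ vs.length, ∃ (fc : Fin 10 → ℕ) (fg : Fin 6 → Fin 10 → ℕ),
      (∀ k, fc k ≤ n * 2 ^ 64) ∧ (∀ i k, fg i k ≤ n * (36 * 2 ^ 64)) ∧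
      (∀ (c g0 g1 g2 g3 g4 g5 : ℕ) (hc : Fin 10 → ℕ) (hg : Fin 6 → Fin 10 → ℕ),
        PRep ⟨c, g0, g1, g2, g3, g4, g5⟩ hc hg →
        PRep (acc r vs c g0 g1 g2 g3 g4 g5) (fun k => hc k + fc k)
          (fun i k => hg i k + fg i k)) ∧
      ∀ s : ℝ, 3 / 2 ≤ s → s ≤ 6 → ∀ l : Fin 6 → ℝ, (∀ i, 0 ≤ l i) → 0 < dt l →
        ∑ k : Fin 10, bn k s * ((fc k : ℝ) - 4 / 5 * ∑ i, (fg i k : ℝ) * l i) ≤
          2 ^ 40 * (wt s * ((xs.take n).map fun x => phi s (4 / 5 * qf (formOf l) x)).sum) := by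
  induction r with
  | e =>
    intro vs xs _ _
    refine ⟨0, Nat.zero_le _, fun _ => 0, fun _ _ => 0, by simp, by simp, ?_, ?_⟩
    · intro c g0 g1 g2 g3 g4 g5 hc hg h
      rw [acc_e]
      simpa using h
    · intro s _ _ l _ _
      simp
  | c t r ih =>
    intro vs xs hf hx
    cases vs with
    | nil =>
      refine ⟨0, Nat.zero_le _, fun _ => 0, fun _ _ => 0, by simp, by simp, ?_, ?_⟩
      · intro c g0 g1 g2 g3 g4 g5 hc hg h
        rw [acc_nil]
        simpa using h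
      · intro s _ _ l _ _
        simp
    | cons v vs =>
      cases hf with
      | @cons x _ xs _ hxv hf =>
      obtain ⟨n, hn, fc, fg, hfc, hfg, hrep, hin⟩ := ih vs xs hf
        (fun y hy => hx y (List.mem_cons_of_mem _ hy))
      obtain ⟨fa, fb, hfa, hfb, hra, hrb, hent⟩ := t.2
      refine ⟨n + 1, by simpa using hn, fun k => fa k + fc k, fun i k => cf v i * fb k + fg i k,
        ?_, ?_, ?_, ?_⟩
      · intro k
        have := hfc k
        have := hfa k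
        simp only
        rw [add_mul]
        omega
      · intro i k
        have h1 := hfg i k
        have h2 := hfb k
        have h3 := cf_le hxv i
        have h4 : cf v i * fb k ≤ 36 * 2 ^ 64 := Nat.mul_le_mul h3 h2.le
        simp only
        rw [add_mul]
        omega
      · intro c g0 g1 g2 g3 g4 g5 hc hg h
        rw [acc_cons]
        obtain ⟨a, b0, b1, b2, b3, b4, b5⟩ := h
        have key := hrep (Nat.add c t.1.a) (Nat.add g0 (Nat.mul v.c0 t.1.b))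
          (Nat.add g1 (Nat.mul v.c1 t.1.b)) (Nat.add g2 (Nat.mul v.c2 t.1.b))
          (Nat.add g3 (Nat.mul v.c3 t.1.b)) (Nat.add g4 (Nat.mul v.c4 t.1.b))
          (Nat.add g5 (Nat.mul v.c5 t.1.b)) (fun k => hc k + fa k)
          (fun i k => hg i k + cf v i * fb k)
          ⟨rep_add a hra, rep_add b0 (rep_mul v.c0 hrb), rep_add b1 (rep_mul v.c1 hrb),
            rep_add b2 (rep_mul v.c2 hrb), rep_add b3 (rep_mul v.c3 hrb),
            rep_add b4 (rep_mul v.c4 hrb), rep_add b5 (rep_mul v.c5 hrb)⟩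
        simpa only [add_assoc] using key
      · intro s hs1 hs2 l hl hd
        have hpd := formOf_pd hl hd
        have hz : 0 < 4 / 5 * qf (formOf l) x := by
          have : 0 < qf (formOf l) x := by
            unfold qf
            refine hpd.2 _ ?_
            intro h0
            apply hx x List.mem_cons_self
            funext i
            have := congrFun h0 i
            simpa [rv] using this
          positivity
        have h1 := hent s hs1 hs2 _ hz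
        have h2 := hin s hs1 hs2 l hl hd
        rw [List.take_succ_cons, List.map_cons, List.sum_cons]
        have e1 : ∑ k : Fin 10, bn k s * (((fa k + fc k : ℕ) : ℝ) -
            4 / 5 * ∑ i, ((cf v i * fb k + fg i k : ℕ) : ℝ) * l i) =
            ∑ k : Fin 10, bn k s * ((fa k : ℝ) - (fb k : ℝ) * (4 / 5 * qf (formOf l) x)) +
            ∑ k : Fin 10, bn k s * ((fc k : ℝ) - 4 / 5 * ∑ i, (fg i k : ℝ) * l i) := by
          rw [← Finset.sum_add_distrib]
          refine Finset.sum_congr rfl fun k _ => ?_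
          rw [← mul_add]
          congr 1
          rw [qf_cf hxv]
          simp only [Fin.sum_univ_six]
          push_cast
          ring
        rw [e1]
        calc _ ≤ 2 ^ 40 * (wt s * phi s (4 / 5 * qf (formOf l) x)) + 2 ^ 40 * (wt s *
              ((xs.take n).map fun x => phi s (4 / 5 * qf (formOf l) x)).sum) := add_le_add h1 h2
          _ = _ := by ring

end AccSAux

open AccSAux

theorem acc_good {vs : List Vx} (hv : VGood vs) (r : Rc) : (acc r vs 0 0 0 0 0 0 0).Good := by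
  obtain ⟨hlen, xs, h1, h2, h3, hf⟩ := hv
  obtain ⟨n, hn, fc, fg, hfc, hfg, hrep, hin⟩ := main r vs xs hf h2
  have key := hrep 0 0 0 0 0 0 0 (fun _ => 0) (fun _ _ => 0)
    ⟨rep_zero, rep_zero, rep_zero, rep_zero, rep_zero, rep_zero, rep_zero⟩
  simp only [zero_add] at key
  obtain ⟨a, b0, b1, b2, b3, b4, b5⟩ := key
  refine ⟨fc, fg, ?_, ?_, a, b0, b1, b2, b3, b4, b5, ?_⟩
  · intro k
    have := hfc k
    have : n * 2 ^ 64 ≤ 171 * 2 ^ 64 := Nat.mul_le_mul_right _ (hn.trans hlen)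
    omega
  · intro i k
    have := hfg i k
    have : n * (36 * 2 ^ 64) ≤ 171 * (36 * 2 ^ 64) := Nat.mul_le_mul_right _ (hn.trans hlen)
    omega
  · intro s hs1 hs2 l hl hd
    have hpd := formOf_pd hl hd
    have hA := hin s hs1 hs2 l hl hd
    have hB := half_le s hpd (xs.take n) (h1.sublist (List.take_sublist _ _))
      (fun x hx => h2 x (List.mem_of_mem_take hx))
      (fun x hx hx' => h3 x (List.mem_of_mem_take hx) (List.mem_of_mem_take hx'))
    have hw : 0 < wt s := by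
      unfold wt
      positivity
    have hC := mul_le_mul_of_nonneg_left hB hw.le
    have hD : 2 * (2 ^ 40 * (wt s * ((xs.take n).map fun x =>
        phi s (4 / 5 * qf (formOf l) x)).sum)) = 2 ^ 40 * (wt s * (2 * ((xs.take n).map fun x =>
        phi s (4 / 5 * qf (formOf l) x)).sum)) := by ring
    calc _ ≤ 2 * (2 ^ 40 * (wt s * ((xs.take n).map fun x =>
        phi s (4 / 5 * qf (formOf l) x)).sum)) := by linarith
      _ = _ := hD
      _ ≤ _ := by linarith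

end Pool.Agent.Lib.EPS
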