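import Pool.Agent.Lib.EPS.Interp

/-!
# Bernstein form of the interpolation polynomial of `u ↦ ρ ^ u` at the nodes `u = 0, …, 9`
-/

namespace Pool.Agent.Lib.EPS

/-- the Bernstein polynomials of degree `9` -/
noncomputable def bern (k : ℕ) (y : ℝ) : ℝ := (Nat.choose 9 k : ℝ) * y ^ k * (1 - y) ^ (9 - k)

/-- the Bernstein coefficients (as polynomials in `ρ`) of the interpolation polynomial -/
noncomputable def cpol : ℕ → ℝ → ℝ
  | 0, _ => 1
  | 1, r => (-4609 / 2520) +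
    9 * r +
    (-18) * r ^ 2 +
    28 * r ^ 3 +
    (-63 / 2) * r ^ 4 +
    (126 / 5) * r ^ 5 +
    (-14) * r ^ 6 +
    (36 / 7) * r ^ 7 +
    (-9 / 8) * r ^ 8 +
    (1 / 9) * r ^ 9
  | 2, r => (105367 / 40320) +
    (-21321 / 1120) * r +
    (32661 / 560) * r ^ 2 +
    (-4049 / 40) * r ^ 3 +
    (38331 / 320) * r ^ 4 +
    (-7893 / 80) * r ^ 5 +
    (4469 / 80) * r ^ 6 +
    (-5823 / 280) * r ^ 7 +
    (20583 / 4480) * r ^ 8 +
    (-4609 / 10080) * r ^ 9
  | 3, r => (-280423 / 94080) +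
    (798093 / 31360) * r +
    (-1473147 / 15680) * r ^ 2 +
    (6255 / 32) * r ^ 3 +
    (-283743 / 1120) * r ^ 4 +
    (493209 / 2240) * r ^ 5 +
    (-289287 / 2240) * r ^ 6 +
    (386451 / 7840) * r ^ 7 +
    (-69579 / 6272) * r ^ 8 +
    (105367 / 94080) * r ^ 9
  | 4, r => (1540201 / 564480) +
    (-395559 / 15680) * r +
    (1610271 / 15680) * r ^ 2 +
    (-134473 / 560) * r ^ 3 +
    (1577997 / 4480) * r ^ 4 +
    (-373239 / 1120) * r ^ 5 +
    (464417 / 2240) * r ^ 6 +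
    (-323739 / 3920) * r ^ 7 +
    (1203921 / 62720) * r ^ 8 +
    (-280423 / 141120) * r ^ 9
  | 5, r => (-280423 / 141120) +
    (1203921 / 62720) * r +
    (-323739 / 3920) * r ^ 2 +
    (464417 / 2240) * r ^ 3 +
    (-373239 / 1120) * r ^ 4 +
    (1577997 / 4480) * r ^ 5 +
    (-134473 / 560) * r ^ 6 +
    (1610271 / 15680) * r ^ 7 +
    (-395559 / 15680) * r ^ 8 +
    (1540201 / 564480) * r ^ 9
  | 6, r => (105367 / 94080) +
    (-69579 / 6272) * r +
    (386451 / 7840) * r ^ 2 +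
    (-289287 / 2240) * r ^ 3 +
    (493209 / 2240) * r ^ 4 +
    (-283743 / 1120) * r ^ 5 +
    (6255 / 32) * r ^ 6 +
    (-1473147 / 15680) * r ^ 7 +
    (798093 / 31360) * r ^ 8 +
    (-280423 / 94080) * r ^ 9
  | 7, r => (-4609 / 10080) +
    (20583 / 4480) * r +
    (-5823 / 280) * r ^ 2 +
    (4469 / 80) * r ^ 3 +
    (-7893 / 80) * r ^ 4 +
    (38331 / 320) * r ^ 5 +
    (-4049 / 40) * r ^ 6 +
    (32661 / 560) * r ^ 7 +
    (-21321 / 1120) * r ^ 8 +
    (105367 / 40320) * r ^ 9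
  | 8, r => (1 / 9) +
    (-9 / 8) * r +
    (36 / 7) * r ^ 2 +
    (-14) * r ^ 3 +
    (126 / 5) * r ^ 4 +
    (-63 / 2) * r ^ 5 +
    28 * r ^ 6 +
    (-18) * r ^ 7 +
    9 * r ^ 8 +
    (-4609 / 2520) * r ^ 9
  | 9, r => 1 * r ^ 9
  | _, _ => 0

theorem bern_nonneg (k : ℕ) {y : ℝ} (h0 : 0 ≤ y) (h1 : y ≤ 1) : 0 ≤ bern k y := by
  unfold bern
  have : 0 ≤ 1 - y := by linarith
  positivity

theorem sum_bern (y : ℝ) : ∑ k ∈ Finset.range 10, bern k y = 1 := by
  simp only [Finset.sum_range_succ, Finset.sum_range_zero, bern, Nat.choose]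
  norm_num
  ring

/-- the interpolation polynomial in Newton and in Bernstein form -/
theorem newton_eq_bern (y r : ℝ) :
    ∑ j ∈ Finset.range 10, gch (9 * y) j * (r - 1) ^ j =
      ∑ k ∈ Finset.range 10, bern k y * cpol k r := by
  simp only [Finset.sum_range_succ, Finset.sum_range_zero, bern, gch, cpol, Nat.choose,
    Finset.prod_range_succ, Finset.prod_range_zero, Nat.factorial]
  push_cast
  ring

end Pool.Agent.Lib.EPS
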