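import Pool.Agent.Lib.EPS.Phi0

/-!
# EPS: the checker (definitions)

Packed numbers: ten fields of 192 bits, see `Rep`. `Ent`: an entry of the table. `Pln`: a
supporting plane. `Rc`: the recipe of a plane, a list of entries aligned with a list of
vectors. `VX`: a vertex (six Selling parameters and a lower bound of the cube root of the
determinant). `Cn`: a simplicial cone. `Tr`: certificate trees.
-/

open Matrix
open scoped Matrix.Norms.Elementwise

namespace Pool.Agent.Lib.EPS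

open Pool.Agent.Lib.EpZ Pool.Agent.Lib.FCC

/-! ### packed numbers -/

/-- the size of a field -/
def FB : ℕ := 2 ^ 192

/-- `n` is the packed number with the ten fields `f` -/
def Rep (n : ℕ) (f : Fin 10 → ℕ) : Prop := n = ∑ k : Fin 10, f k * FB ^ (k : ℕ)

/-- packing of ten numbers; the literal is `2 ^ 192` -/
def pk (a0 a1 a2 a3 a4 a5 a6 a7 a8 a9 : Nat) : Nat :=
  Nat.add a0 (Nat.mul 6277101735386680763835789423207666416102355444464034512896
  (Nat.add a1 (Nat.mul 6277101735386680763835789423207666416102355444464034512896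
  (Nat.add a2 (Nat.mul 6277101735386680763835789423207666416102355444464034512896
  (Nat.add a3 (Nat.mul 6277101735386680763835789423207666416102355444464034512896
  (Nat.add a4 (Nat.mul 6277101735386680763835789423207666416102355444464034512896
  (Nat.add a5 (Nat.mul 6277101735386680763835789423207666416102355444464034512896
  (Nat.add a6 (Nat.mul 6277101735386680763835789423207666416102355444464034512896
  (Nat.add a7 (Nat.mul 6277101735386680763835789423207666416102355444464034512896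
  (Nat.add a8 (Nat.mul 6277101735386680763835789423207666416102355444464034512896 a9
  )))))))))))))))))

/-- the guard bits -/
def HB : Nat := pk (2 ^ 191) (2 ^ 191) (2 ^ 191) (2 ^ 191) (2 ^ 191) (2 ^ 191) (2 ^ 191) (2 ^ 191)
  (2 ^ 191) (2 ^ 191)

/-- fieldwise comparison `Y ≤ X` of packed numbers -/
def pge (X Y : Nat) : Bool := Nat.beq (Nat.land (Nat.sub (Nat.add X HB) Y) HB) HB

/-! ### the functions to be compared -/

/-- the Bernstein polynomials of degree nine in `y = (2 s - 3) / 9` -/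
noncomputable def bn (k : Fin 10) (s : ℝ) : ℝ :=
  (Nat.choose 9 (k : ℕ) : ℝ) * ((2 * s - 3) / 9) ^ (k : ℕ) * (1 - (2 * s - 3) / 9) ^ (9 - (k : ℕ))

/-- the weight -/
noncomputable def wt (s : ℝ) : ℝ := (7 / 10 : ℝ) ^ (2 * s - 2)

/-- the completed zeta function without its elementary part -/
noncomputable def Tot (s : ℝ) (Q : Mx 3) : ℝ := Dir s Q + c0 * Dua s Q

/-! ### entries -/

/-- an entry of the table: the linear functions `z ↦ A - B z` (ten fields) -/
structure Ent where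
  a : Nat
  b : Nat

/-- the entry gives a lower bound of `2 ^ 40 wt s phi s z` -/
def Ent.Good (e : Ent) : Prop :=
  ∃ fa fb : Fin 10 → ℕ, (∀ k, fa k < 2 ^ 64) ∧ (∀ k, fb k < 2 ^ 64) ∧ Rep e.a fa ∧ Rep e.b fb ∧
    ∀ s : ℝ, 3 / 2 ≤ s → s ≤ 6 → ∀ z : ℝ, 0 < z →
      ∑ k : Fin 10, bn k s * ((fa k : ℝ) - (fb k : ℝ) * z) ≤ 2 ^ 40 * (wt s * phi s z)

/-- verified entries -/
def VEnt := {e : Ent // e.Good}

/-- the coefficients of the norm of a vector in terms of the Selling parameters -/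
structure Vx where
  c0 : Nat
  c1 : Nat
  c2 : Nat
  c3 : Nat
  c4 : Nat
  c5 : Nat

/-- supporting planes: `c` and the six coefficients, packed -/
structure Pln where
  c : Nat
  g0 : Nat
  g1 : Nat
  g2 : Nat
  g3 : Nat
  g4 : Nat
  g5 : Nat

/-- the plane gives a lower bound of the direct part -/
def Pln.Good (P : Pln) : Prop :=
  ∃ (fc : Fin 10 → ℕ) (fg : Fin 6 → Fin 10 → ℕ), (∀ k, fc k < 2 ^ 80) ∧
    (∀ i k, fg i k < 2 ^ 80) ∧ Rep P.c fc ∧ Rep P.g0 (fg 0) ∧ Rep P.g1 (fg 1) ∧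
    Rep P.g2 (fg 2) ∧ Rep P.g3 (fg 3) ∧ Rep P.g4 (fg 4) ∧ Rep P.g5 (fg 5) ∧
    ∀ s : ℝ, 3 / 2 ≤ s → s ≤ 6 → ∀ l : Fin 6 → ℝ, (∀ i, 0 ≤ l i) → 0 < dt l →
      2 * ∑ k : Fin 10, bn k s * ((fc k : ℝ) - 4 / 5 * ∑ i, (fg i k : ℝ) * l i) ≤
        2 ^ 40 * (wt s * Dir s (formOf l))

/-- verified planes -/
def VPl := {P : Pln // P.Good}

/-- recipes of planes: entries aligned with the list of vectors -/
inductive Rc
  | e
  | c (t : VEnt) (r : Rc)

/-- accumulation of the entries of a recipe -/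
noncomputable def acc (r : Rc) : List Vx → Nat → Nat → Nat → Nat → Nat → Nat → Nat → Pln :=
  Rc.rec (motive := fun _ => List Vx → Nat → Nat → Nat → Nat → Nat → Nat → Nat → Pln)
    (fun _ c g0 g1 g2 g3 g4 g5 => ⟨c, g0, g1, g2, g3, g4, g5⟩)
    (fun t _ ih vs c g0 g1 g2 g3 g4 g5 =>
      List.casesOn (motive := fun _ => Pln) vs ⟨c, g0, g1, g2, g3, g4, g5⟩
        (fun v vs' => Vx.casesOn (motive := fun _ => Pln) v fun c0 c1 c2 c3 c4 c5 =>
          Ent.casesOn (motive := fun _ => Pln) t.1 fun a b =>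
            ih vs' (Nat.add c a) (Nat.add g0 (Nat.mul c0 b)) (Nat.add g1 (Nat.mul c1 b))
              (Nat.add g2 (Nat.mul c2 b)) (Nat.add g3 (Nat.mul c3 b)) (Nat.add g4 (Nat.mul c4 b))
              (Nat.add g5 (Nat.mul c5 b)))) r

/-! ### cones -/

/-- a vertex: the Selling parameters and `2 ^ 24` times a lower bound of `(dt / 4) ^ (1/3)` -/
structure VX where
  a : Nat
  b : Nat
  c : Nat
  d : Nat
  e : Nat
  f : Nat
  r : Nat

/-- the vector of the Selling parameters as a real vector -/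
def VX.re (v : VX) : Fin 6 → ℝ
  | 0 => v.a
  | 1 => v.b
  | 2 => v.c
  | 3 => v.d
  | 4 => v.e
  | 5 => v.f

/-- the determinant -/
def dtn (p p' q q' r r' : Nat) : Nat :=
  Nat.add (Nat.add (Nat.add
    (Nat.mul (Nat.mul p p') (Nat.add (Nat.add q q') (Nat.add r r')))
    (Nat.mul (Nat.mul q q') (Nat.add (Nat.add p p') (Nat.add r r'))))
    (Nat.mul (Nat.mul r r') (Nat.add (Nat.add p p') (Nat.add q q'))))
    (Nat.add (Nat.mul q (Nat.add (Nat.mul p r) (Nat.mul r' p')))
      (Nat.mul q' (Nat.add (Nat.mul p r') (Nat.mul r p'))))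

/-- the bound of the cube root is correct and the entries are not too large;
`4722366482869645213696 = 2 ^ 72`, `1152921504606846976 = 2 ^ 60` -/
def VX.ok (v : VX) : Bool := VX.casesOn (motive := fun _ => Bool) v fun a b c d e f r =>
  Bool.and (Nat.ble (Nat.mul 4 (Nat.pow r 3)) (Nat.mul 4722366482869645213696 (dtn a b c d e f)))
    (Nat.ble (Nat.add (Nat.add (Nat.add a b) (Nat.add c d)) (Nat.add e f)) 1152921504606846976)

/-- the combination of two vertices -/
def VX.comb (v w : VX) (x y r : Nat) : VX := VX.casesOn (motive := fun _ => VX) v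
  fun a b c d e f _ => VX.casesOn (motive := fun _ => VX) w fun a' b' c' d' e' f' _ =>
  ⟨Nat.add (Nat.mul x a) (Nat.mul y a'), Nat.add (Nat.mul x b) (Nat.mul y b'),
    Nat.add (Nat.mul x c) (Nat.mul y c'), Nat.add (Nat.mul x d) (Nat.mul y d'),
    Nat.add (Nat.mul x e) (Nat.mul y e'), Nat.add (Nat.mul x f) (Nat.mul y f'), r⟩

/-- equality of vertices -/
def VX.eqb (v w : VX) : Bool := VX.casesOn (motive := fun _ => Bool) v
  fun a b c d e f r => VX.casesOn (motive := fun _ => Bool) w fun a' b' c' d' e' f' r' =>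
  Bool.and (Nat.beq a a') (Bool.and (Nat.beq b b') (Bool.and (Nat.beq c c')
    (Bool.and (Nat.beq d d') (Bool.and (Nat.beq e e') (Bool.and (Nat.beq f f') (Nat.beq r r'))))))

/-- a simplicial cone, given by six vertices -/
structure Cn where
  v0 : VX
  v1 : VX
  v2 : VX
  v3 : VX
  v4 : VX
  v5 : VX

/-- the vertex number `i` -/
def Cn.get (C : Cn) (i : Nat) : VX :=
  Cn.casesOn (motive := fun _ => VX) C fun v0 v1 v2 v3 v4 v5 =>
  Nat.casesOn (motive := fun _ => VX) i v0 fun i =>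
  Nat.casesOn (motive := fun _ => VX) i v1 fun i =>
  Nat.casesOn (motive := fun _ => VX) i v2 fun i =>
  Nat.casesOn (motive := fun _ => VX) i v3 fun i =>
  Nat.casesOn (motive := fun _ => VX) i v4 fun _ => v5

/-- replace the vertex number `i` -/
def Cn.set (C : Cn) (i : Nat) (m : VX) : Cn :=
  Cn.casesOn (motive := fun _ => Cn) C fun v0 v1 v2 v3 v4 v5 =>
  Nat.casesOn (motive := fun _ => Cn) i ⟨m, v1, v2, v3, v4, v5⟩ fun i =>
  Nat.casesOn (motive := fun _ => Cn) i ⟨v0, m, v2, v3, v4, v5⟩ fun i =>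
  Nat.casesOn (motive := fun _ => Cn) i ⟨v0, v1, m, v3, v4, v5⟩ fun i =>
  Nat.casesOn (motive := fun _ => Cn) i ⟨v0, v1, v2, m, v4, v5⟩ fun i =>
  Nat.casesOn (motive := fun _ => Cn) i ⟨v0, v1, v2, v3, m, v5⟩ fun _ => ⟨v0, v1, v2, v3, v4, m⟩

/-- the check of a property of all vertices -/
def Cn.all (C : Cn) (f : VX → Bool) : Bool :=
  Cn.casesOn (motive := fun _ => Bool) C fun v0 v1 v2 v3 v4 v5 =>
    Bool.and (f v0) (Bool.and (f v1) (Bool.and (f v2) (Bool.and (f v3) (Bool.and (f v4) (f v5)))))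

/-- equality of cones -/
def Cn.eqb (C D : Cn) : Bool :=
  Cn.casesOn (motive := fun _ => Bool) C fun v0 v1 v2 v3 v4 v5 =>
  Cn.casesOn (motive := fun _ => Bool) D fun w0 w1 w2 w3 w4 w5 =>
    Bool.and (v0.eqb w0) (Bool.and (v1.eqb w1) (Bool.and (v2.eqb w2) (Bool.and (v3.eqb w3)
      (Bool.and (v4.eqb w4) (v5.eqb w5)))))

/-- the points of the cone -/
def Cn.mem (C : Cn) (l : Fin 6 → ℝ) : Prop :=
  ∃ c : Fin 6 → ℝ, (∀ k, 0 ≤ c k) ∧ ∀ i, l i = c 0 * C.v0.re i + c 1 * C.v1.re i
    + c 2 * C.v2.re i + c 3 * C.v3.re i + c 4 * C.v4.re i + c 5 * C.v5.re i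

/-- the inequality for all `s` in `[3/2, 6]` -/
def Fine (l : Fin 6 → ℝ) : Prop := ∀ s : ℝ, 3 / 2 ≤ s → s ≤ 6 →
  Tot s G0 ≤ Tot s (formOf l) ∧ (Tot s (formOf l) = Tot s G0 → formOf l = G0)

/-- all points of determinant `4` in the cone are fine -/
def Cn.Ok (C : Cn) : Prop := ∀ l, C.mem l → dt l = 4 → Fine l

/-- verified cones -/
def OkCn := {C : Cn // C.Ok}

/-! ### leaves -/

/-- the check of a plane at a vertex; `D = 5 (2 c - M)`, `134217728 = 2 ^ 27` -/
def vchk (D g0 g1 g2 g3 g4 g5 : Nat) (v : VX) : Bool :=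
  VX.casesOn (motive := fun _ => Bool) v fun a b c d e f r =>
    pge (Nat.mul D r) (Nat.mul 134217728 (Nat.add (Nat.add (Nat.add (Nat.mul g0 a) (Nat.mul g1 b))
      (Nat.add (Nat.mul g2 c) (Nat.mul g3 d))) (Nat.add (Nat.mul g4 e) (Nat.mul g5 f))))

/-- the check of a plane on a cone -/
def lchk (M : Nat) (P : Pln) (C : Cn) : Bool :=
  Pln.casesOn (motive := fun _ => Bool) P fun c g0 g1 g2 g3 g4 g5 =>
    Bool.and (pge (Nat.mul 2 c) M)
      (C.all (vchk (Nat.mul 5 (Nat.sub (Nat.mul 2 c) M)) g0 g1 g2 g3 g4 g5))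

/-- `95 S ≤ 600 n ≤ 105 S` -/
def two (n S : Nat) : Bool := Bool.and (Nat.ble (600 * n) (105 * S)) (Nat.ble (95 * S) (600 * n))

/-- the condition of a local leaf at a vertex -/
def VX.loc (v : VX) : Bool :=
  VX.casesOn (motive := fun _ => Bool) v fun p p' q q' r r' _ =>
    let S := (p + q + r) + (p + r' + q') + (q + r' + p') + (r + q' + p')
      + (p + p' + r + r') + (p + p' + q + q')
    two (p + q + r) S && two (p + r' + q') S && two (q + r' + p') S
      && two (r + q' + p') S && two (p + p' + r + r') S && two (p + p' + q + q') S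

/-! ### trees -/

/-- certificate trees -/
inductive Tr
  | nd (i j a b r : Nat) (s t : Tr)
  | lo
  | ce (p : VPl)
  | pr (C : OkCn)

/-- the check of a certificate tree -/
noncomputable def Tr.chk (M : Nat) (t : Tr) : Cn → Bool :=
  Tr.rec (motive := fun _ => Cn → Bool)
    (fun i j a b r _ _ ih1 ih2 C =>
      (fun m : VX => Bool.and (Nat.blt 0 a) (Bool.and (Nat.blt 0 b) (Bool.and (Nat.blt i j)
        (Bool.and (Nat.blt j 6) (Bool.and m.ok
          (Bool.and (ih1 (C.set i m)) (ih2 (C.set j m))))))))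
        ((C.get i).comb (C.get j) a b r))
    (fun C => C.all VX.loc)
    (fun p C => lchk M p.1 C)
    (fun D C => D.1.eqb C) t

end Pool.Agent.Lib.EPS
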