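import Pool.Agent.Lib.EPS.Coef

/-!
# The coefficients of the interpolation polynomials and of the remainder
-/

namespace Pool.Agent.Lib.EPS

/-- positive parts, interpolation polynomials -/
def cp : Nat → List Nat
  | 0 => [16270574342400000000000, 0, 0, 0, 0, 0, 0, 0, 0, 0, 0]
  | 1 => [0, 102504618357120000000000, 0, 156262595984409600000000, 0, 68911804829124633600000,
      0, 6891180482912463360000, 0, 72952929186388115200, 0]
  | 2 => [42519385087690000000000, 0, 464986575022485600000000, 0, 467945434896750342000000, 0,
      106932936035193745680000, 0, 4309410482458813512900, 0, 0]
  | 3 => [0, 289853381443059000000000, 0, 1090873368172413000000000, 0,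
      602110302366208393800000, 0, 66049196150843362548000, 0, 735347381018701199070, 0]
  | 4 => [44394761325005000000000, 0, 818751063028462200000000, 0, 1376015109796933011000000, 0,
      396872689277375681580000, 0, 18004420351928072484450, 0, 0]
  | 5 => [0, 218621497018711500000000, 0, 1157063234044827060000000, 0,
      963210576857853107700000, 0, 137607491163193641954000, 0, 1791488751368051043035, 0]
  | 6 => [18222593609010000000000, 0, 392986232824676400000000, 0, 860157574808869134000000, 0,
      374169565283137659000000, 0, 23870672331376113803700, 0, 0]
  | 7 => [0, 52327692451503000000000, 0, 311757831006395760000000, 0, 327561804427725239400000,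
      0, 78150293664029154792000, 0, 1715810555710302797830, 0]
  | 8 => [1807841593600000000000, 0, 41001847342848000000000, 0, 98445435470178048000000, 0,
      53598070422652492800000, 0, 8441696091567767616000, 0, 0]
  | 9 => [0, 0, 0, 0, 0, 0, 0, 0, 0, 656576362677493036800, 0]
  | _ => []

/-- negative parts, interpolation polynomials -/
def cn : Nat → List Nat
  | 0 => [0, 0, 0, 0, 0, 0, 0, 0, 0, 0, 0]
  | 1 => [29758363946080000000000, 0, 143506465699968000000000, 0, 123056794337722560000000, 0,
      26799035211326246400000, 0, 1055212011445970952000, 0, 0]
  | 2 => [0, 216815572221444000000000, 0, 564917188518637920000000, 0, 269802021585456712800000,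
      0, 27866211077777273712000, 0, 300214330910770377640, 0]
  | 3 => [48497483724690000000000, 0, 749029618149485400000000, 0, 989696825276882436000000, 0,
      247213408774838515380000, 0, 10405413342460205905500, 0, 0]
  | 4 => [0, 287320183763634000000000, 0, 1340121177921652560000000, 0,
      911301485353516479600000, 0, 110661898728055455144000, 0, 1304698932476690971220, 0]
  | 5 => [32331655816460000000000, 0, 658427433379279200000000, 0, 1301859264790737828000000, 0,
      459661564027126828080000, 0, 23662052609725443526200, 0, 0]
  | 6 => [0, 126349362965385000000000, 0, 720738801092823660000000, 0, 692787777693817705200000,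
      0, 125889407922384011178000, 0, 1957048398715036456830, 0]
  | 7 => [7439590986520000000000, 0, 165801220192641600000000, 0, 385431459407795304000000, 0,
      193766595661892806560000, 0, 17855694679396465609200, 0, 0]
  | 8 => [0, 12813077294640000000000, 0, 78131297992204800000000, 0, 86139756036405792000000, 0,
      24119131690193621760000, 0, 1200857323643081510560, 0]
  | 9 => [0, 0, 0, 0, 0, 0, 0, 0, 0, 0, 0]
  | _ => []

/-- positive part, a tenth of the remainder -/
def gp : List Nat :=
      [1627397556480000000000, 0, 35876616424992000000000, 0, 82037862891815040000000, 0,
      40198552816989369600000, 0, 4220848045783883808000, 0, 45960345387424512576]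

/-- negative part, a tenth of the remainder -/
def gn : List Nat :=
      [0, 11389402039680000000000, 0, 66969683993318400000000, 0, 68911804829124633600000, 0,
      16079421126795747840000, 0, 656576362677493036800, 0]

end Pool.Agent.Lib.EPS
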