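import Pool.Agent.Lib.EPS.TabA

/-!
# EPS.ConD: the shells of the face-centred cubic form and the numbers `U_k`
-/

set_option autoImplicit false

namespace Pool.Agent.Lib.EPS

/-- the shells `2, 4, ..., 20`, field `k` -/
noncomputable def shells (k : ℕ) : ℝ :=
  12 * up k (8 / 5) + 6 * up k (16 / 5) + 24 * up k (24 / 5) + 12 * up k (32 / 5) + 24 * up k 8 +
    8 * up k (48 / 5) + 48 * up k (56 / 5) + 6 * up k (64 / 5) + 36 * up k (72 / 5) + 24 * up k 16

/-- upper bounds of `2 ^ 40 * shells k` -/
def UU (k : ℕ) : ℕ := [1568421409059, 1375891507002, 1262620076418, 1209787948500, 1209446230464,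
  1265730986749, 1386511150528, 1605771766446, 1970866320145, 2673382418367].getD k 0

end Pool.Agent.Lib.EPS
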