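import Pool.Agent.Lib.EPS.Phi0

/-!
# Basic facts on the kernel `phi s z = ∫_1^∞ exp(-z t) t^(s-1) dt`
-/

open MeasureTheory Set

namespace Pool.Agent.Lib.EPS

/-- integrability of the kernel -/
theorem phi_int (s : ℝ) {z : ℝ} (hz : 0 < z) :
    IntegrableOn (fun t : ℝ => Real.exp (-(z * t)) * t ^ (s - 1)) (Ioi 1) := by
  have h1 : IntegrableOn (fun t : ℝ => t ^ (max (s - 1) 0) * Real.exp (-z * t ^ (1 : ℝ)))
      (Ioi 0) :=
    integrableOn_rpow_mul_exp_neg_mul_rpow (by
      have : (0 : ℝ) ≤ max (s - 1) 0 := le_max_right _ _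
      linarith) zero_lt_one hz
  have h2 : IntegrableOn (fun t : ℝ => t ^ (max (s - 1) 0) * Real.exp (-z * t ^ (1 : ℝ)))
      (Ioi 1) := h1.mono_set (Ioi_subset_Ioi zero_le_one)
  refine Integrable.mono' h2 ?_ ?_
  · refine (ContinuousOn.aestronglyMeasurable ?_ measurableSet_Ioi)
    refine ContinuousOn.mul (by fun_prop) ?_
    refine ContinuousOn.rpow_const continuousOn_id fun t ht => Or.inl ?_
    have h1 : (1 : ℝ) < t := ht
    exact (zero_lt_one.trans h1).ne'
  · refine (ae_restrict_iff' measurableSet_Ioi).mpr (Filter.Eventually.of_forall fun t ht => ?_)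
    have ht1 : (1 : ℝ) < t := ht
    have h3 : t ^ (s - 1) ≤ t ^ (max (s - 1) 0) :=
      Real.rpow_le_rpow_of_exponent_le ht1.le (le_max_left _ _)
    have h4 : 0 ≤ t ^ (s - 1) := Real.rpow_nonneg (by linarith) _
    rw [Real.norm_of_nonneg (mul_nonneg (Real.exp_pos _).le h4), Real.rpow_one, mul_comm]
    rw [show -(z * t) = -z * t by ring]
    exact mul_le_mul_of_nonneg_right h3 (Real.exp_pos _).le

/-- multiplying the integrand by `t` shifts `s` -/
theorem kernel_mul {s z t : ℝ} (ht : t ∈ Ioi (1 : ℝ)) :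
    Real.exp (-(z * t)) * t ^ (s - 1) * t = Real.exp (-(z * t)) * t ^ ((s + 1) - 1) := by
  have ht1 : (1 : ℝ) < t := ht
  have : t ^ ((s + 1) - 1) = t ^ (s - 1) * t := by
    rw [show (s + 1) - 1 = (s - 1) + 1 by ring, Real.rpow_add_one (by linarith)]
  rw [this]; ring

theorem phi_nonneg (s z : ℝ) : 0 ≤ phi s z := by
  refine setIntegral_nonneg measurableSet_Ioi fun t ht => ?_
  have ht1 : (1 : ℝ) < t := ht
  exact mul_nonneg (Real.exp_pos _).le (Real.rpow_nonneg (by linarith) _)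

theorem phi_pos (s : ℝ) {z : ℝ} (hz : 0 < z) : 0 < phi s z := by
  refine (setIntegral_pos_iff_support_of_nonneg_ae ?_ (phi_int s hz)).mpr ?_
  · refine (ae_restrict_iff' measurableSet_Ioi).mpr (Filter.Eventually.of_forall fun t ht => ?_)
    have ht1 : (1 : ℝ) < t := ht
    exact mul_nonneg (Real.exp_pos _).le (Real.rpow_nonneg (by linarith) _)
  · have hsub : Ioi (1 : ℝ) ⊆ Function.support (fun t : ℝ => Real.exp (-(z * t)) * t ^ (s - 1)) ∩
        Ioi 1 := by
      intro t ht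
      have ht1 : (1 : ℝ) < t := ht
      refine ⟨?_, ht⟩
      rw [Function.mem_support]
      exact (mul_pos (Real.exp_pos _) (Real.rpow_pos_of_pos (by linarith) _)).ne'
    refine lt_of_lt_of_le ?_ (measure_mono hsub)
    simp

/-- the kernel decreases in `z` -/
theorem phi_anti (s : ℝ) {z z' : ℝ} (hz : 0 < z) (h : z ≤ z') : phi s z' ≤ phi s z := by
  refine setIntegral_mono_on (phi_int s (hz.trans_le h)) (phi_int s hz) measurableSet_Ioi
    fun t ht => ?_
  have ht1 : (1 : ℝ) < t := ht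
  refine mul_le_mul_of_nonneg_right ?_ (Real.rpow_nonneg (by linarith) _)
  exact Real.exp_le_exp.mpr (by nlinarith)

/-- the kernel increases in `s` -/
theorem phi_mono {s s' z : ℝ} (hz : 0 < z) (h : s ≤ s') : phi s z ≤ phi s' z := by
  refine setIntegral_mono_on (phi_int s hz) (phi_int s' hz) measurableSet_Ioi fun t ht => ?_
  have ht1 : (1 : ℝ) < t := ht
  refine mul_le_mul_of_nonneg_left ?_ (Real.exp_pos _).le
  exact Real.rpow_le_rpow_of_exponent_le ht1.le (by linarith)

theorem phi_one {z : ℝ} (hz : 0 < z) : phi 1 z = Real.exp (-z) / z := by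
  unfold phi
  have h1 : ∀ t ∈ Ioi (1 : ℝ), Real.exp (-(z * t)) * t ^ ((1 : ℝ) - 1) = Real.exp (-z * t) := by
    intro t _
    simp
  rw [setIntegral_congr_fun measurableSet_Ioi h1, integral_exp_mul_Ioi (by linarith)]
  rw [mul_one]
  field_simp

/-- for `s ≤ 1` -/
theorem phi_le {s z : ℝ} (hz : 0 < z) (hs : s ≤ 1) : phi s z ≤ Real.exp (-z) / z :=
  (phi_mono hz hs).trans (phi_one hz).le

/-- the tangent inequality -/
theorem phi_tangent (s : ℝ) {z z0 : ℝ} (hz : 0 < z) (hz0 : 0 < z0) :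
    phi s z0 + phi (s + 1) z0 * (z0 - z) ≤ phi s z := by
  have h1 : phi s z0 + phi (s + 1) z0 * (z0 - z) = ∫ t in Ioi (1 : ℝ),
      (Real.exp (-(z0 * t)) * t ^ (s - 1) +
        Real.exp (-(z0 * t)) * t ^ ((s + 1) - 1) * (z0 - z)) := by
    rw [integral_add (phi_int s hz0) ((phi_int (s + 1) hz0).mul_const _), integral_mul_const]
    rfl
  rw [h1]
  refine setIntegral_mono_on ((phi_int s hz0).add ((phi_int (s + 1) hz0).mul_const _)) (phi_int s hz)
    measurableSet_Ioi fun t ht => ?_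
  have ht1 : (1 : ℝ) < t := ht
  rw [← kernel_mul ht]
  have h2 : 0 ≤ t ^ (s - 1) := Real.rpow_nonneg (by linarith) _
  have h3 : Real.exp (-(z * t)) = Real.exp (-(z0 * t)) * Real.exp ((z0 - z) * t) := by
    rw [← Real.exp_add]; congr 1; ring
  have h4 : (z0 - z) * t + 1 ≤ Real.exp ((z0 - z) * t) := Real.add_one_le_exp _
  have h5 : 0 < Real.exp (-(z0 * t)) := Real.exp_pos _
  have h6 : Real.exp (-(z0 * t)) * ((z0 - z) * t + 1) ≤ Real.exp (-(z * t)) := by
    rw [h3]; exact mul_le_mul_of_nonneg_left h4 h5.le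
  calc _ = (Real.exp (-(z0 * t)) * ((z0 - z) * t + 1)) * t ^ (s - 1) := by ring
    _ ≤ _ := mul_le_mul_of_nonneg_right h6 h2

/-- `exp y ≥ 1 + y + y²/2 + y³/6` for all real `y` -/
theorem cubic_le_exp (y : ℝ) : 1 + y + y ^ 2 / 2 + y ^ 3 / 6 ≤ Real.exp y := by
  rcases le_or_gt 0 y with h | h
  · have := Real.sum_le_exp_of_nonneg h 4
    simp [Finset.sum_range_succ, Nat.factorial] at this
    linarith
  · -- `g y = exp y - (1 + y + y²/2 + y³/6)` has derivative `exp y - (1 + y + y²/2) ≤ 0` for `y ≤ 0`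
    have key : ∀ x : ℝ, x ≤ 0 → Real.exp x ≤ 1 + x + x ^ 2 / 2 := by
      intro x hx
      have hanti : AntitoneOn (fun x : ℝ => 1 + x + x ^ 2 / 2 - Real.exp x) (Iic 0) := by
        refine antitoneOn_of_deriv_nonpos (convex_Iic 0) (by fun_prop) (by fun_prop) ?_
        intro x _
        have : deriv (fun x : ℝ => 1 + x + x ^ 2 / 2 - Real.exp x) x = 1 + x - Real.exp x := by
          have h1 : HasDerivAt (fun x : ℝ => 1 + x + x ^ 2 / 2 - Real.exp x)
              (0 + 1 + (2 * x ^ 1 * 1) / 2 - Real.exp x) x :=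
            ((((hasDerivAt_const x (1 : ℝ)).add (hasDerivAt_id x)).add
              (((hasDerivAt_id x).pow 2).div_const 2)).sub (Real.hasDerivAt_exp x))
          rw [h1.deriv]; ring
        rw [this]
        linarith [Real.add_one_le_exp x]
      have := hanti (show x ∈ Iic (0 : ℝ) from hx) (mem_Iic.mpr le_rfl : (0 : ℝ) ∈ Iic (0 : ℝ)) hx
      simp at this
      linarith
    have hanti : AntitoneOn (fun x : ℝ => Real.exp x - (1 + x + x ^ 2 / 2 + x ^ 3 / 6)) (Iic 0) := by
      refine antitoneOn_of_deriv_nonpos (convex_Iic 0) (by fun_prop) (by fun_prop) ?_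
      intro x hx
      have hx0 : x ≤ 0 := by
        have := interior_subset hx
        exact this
      have : deriv (fun x : ℝ => Real.exp x - (1 + x + x ^ 2 / 2 + x ^ 3 / 6)) x =
          Real.exp x - (1 + x + x ^ 2 / 2) := by
        have h1 : HasDerivAt (fun x : ℝ => Real.exp x - (1 + x + x ^ 2 / 2 + x ^ 3 / 6))
            (Real.exp x - (0 + 1 + (2 * x ^ 1 * 1) / 2 + (3 * x ^ 2 * 1) / 6)) x :=
          (Real.hasDerivAt_exp x).sub ((((hasDerivAt_const x (1 : ℝ)).add (hasDerivAt_id x)).add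
            (((hasDerivAt_id x).pow 2).div_const 2)).add (((hasDerivAt_id x).pow 3).div_const 6))
        rw [h1.deriv]; ring
      rw [this]
      linarith [key x hx0]
    have := hanti (show y ∈ Iic (0 : ℝ) from h.le) (mem_Iic.mpr le_rfl : (0 : ℝ) ∈ Iic (0 : ℝ)) h.le
    simp at this
    linarith

/-- the cubic Taylor polynomial is a lower bound -/
theorem phi_cubic (s : ℝ) {z z0 : ℝ} (hz : 0 < z) (hz0 : 0 < z0) :
    phi s z0 - phi (s + 1) z0 * (z - z0) + phi (s + 2) z0 * (z - z0) ^ 2 / 2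
      - phi (s + 3) z0 * (z - z0) ^ 3 / 6 ≤ phi s z := by
  have i0 := phi_int s hz0
  have i1 := (phi_int (s + 1) hz0).mul_const (-(z - z0))
  have i2 := (phi_int (s + 2) hz0).mul_const ((z - z0) ^ 2 / 2)
  have i3 := (phi_int (s + 3) hz0).mul_const (-((z - z0) ^ 3 / 6))
  have h1 : phi s z0 - phi (s + 1) z0 * (z - z0) + phi (s + 2) z0 * (z - z0) ^ 2 / 2
      - phi (s + 3) z0 * (z - z0) ^ 3 / 6 = ∫ t in Ioi (1 : ℝ),
      (Real.exp (-(z0 * t)) * t ^ (s - 1)
        + Real.exp (-(z0 * t)) * t ^ ((s + 1) - 1) * (-(z - z0))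
        + Real.exp (-(z0 * t)) * t ^ ((s + 2) - 1) * ((z - z0) ^ 2 / 2)
        + Real.exp (-(z0 * t)) * t ^ ((s + 3) - 1) * (-((z - z0) ^ 3 / 6))) := by
    have i01 : IntegrableOn (fun t : ℝ => Real.exp (-(z0 * t)) * t ^ (s - 1)
        + Real.exp (-(z0 * t)) * t ^ ((s + 1) - 1) * (-(z - z0))) (Ioi 1) := i0.add i1
    have i012 : IntegrableOn (fun t : ℝ => Real.exp (-(z0 * t)) * t ^ (s - 1)
        + Real.exp (-(z0 * t)) * t ^ ((s + 1) - 1) * (-(z - z0))
        + Real.exp (-(z0 * t)) * t ^ ((s + 2) - 1) * ((z - z0) ^ 2 / 2)) (Ioi 1) := i01.add i2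
    rw [integral_add i012 i3, integral_add i01 i2, integral_add i0 i1,
      integral_mul_const, integral_mul_const, integral_mul_const]
    unfold phi
    ring
  rw [h1]
  refine setIntegral_mono_on (((i0.add i1).add i2).add i3) (phi_int s hz) measurableSet_Ioi
    fun t ht => ?_
  have ht1 : (1 : ℝ) < t := ht
  have e1 : Real.exp (-(z0 * t)) * t ^ ((s + 1) - 1) = Real.exp (-(z0 * t)) * t ^ (s - 1) * t :=
    (kernel_mul ht).symm
  have e2 : Real.exp (-(z0 * t)) * t ^ ((s + 2) - 1)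
      = Real.exp (-(z0 * t)) * t ^ (s - 1) * t * t := by
    rw [← e1, kernel_mul (s := s + 1) ht]
    congr 2; ring
  have e3 : Real.exp (-(z0 * t)) * t ^ ((s + 3) - 1)
      = Real.exp (-(z0 * t)) * t ^ (s - 1) * t * t * t := by
    rw [← e2, kernel_mul (s := s + 2) ht]
    congr 2; ring
  rw [e1, e2, e3]
  have h2 : 0 ≤ t ^ (s - 1) := Real.rpow_nonneg (by linarith) _
  have h3 : Real.exp (-(z * t)) = Real.exp (-(z0 * t)) * Real.exp (-((z - z0) * t)) := by
    rw [← Real.exp_add]; congr 1; ring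
  have h4 := cubic_le_exp (-((z - z0) * t))
  have h5 : 0 < Real.exp (-(z0 * t)) := Real.exp_pos _
  have h6 := mul_le_mul_of_nonneg_left h4 h5.le
  rw [← h3] at h6
  calc _ = (Real.exp (-(z0 * t)) * (1 + -((z - z0) * t) + (-((z - z0) * t)) ^ 2 / 2
        + (-((z - z0) * t)) ^ 3 / 6)) * t ^ (s - 1) := by ring
    _ ≤ _ := mul_le_mul_of_nonneg_right h6 h2

/-- the recursion `z phi (s+1) z = exp (-z) + s phi s z` -/
theorem phi_rec (s : ℝ) {z : ℝ} (hz : 0 < z) :
    z * phi (s + 1) z = Real.exp (-z) + s * phi s z := by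
  -- derivative of `- exp(-z t) t^s` is `z exp(-z t) t^s - s exp(-z t) t^(s-1)`
  have hder : ∀ t ∈ Ioi (1 : ℝ), HasDerivAt (fun t : ℝ => -(Real.exp (-(z * t)) * t ^ s))
      (z * (Real.exp (-(z * t)) * t ^ ((s + 1) - 1)) - s * (Real.exp (-(z * t)) * t ^ (s - 1))) t := by
    intro t ht
    have ht1 : (1 : ℝ) < t := ht
    have h1 : HasDerivAt (fun t : ℝ => Real.exp (-(z * t))) (Real.exp (-(z * t)) * (-(z * 1))) t :=
      (((hasDerivAt_id t).const_mul z).neg).exp
    have h2 : HasDerivAt (fun t : ℝ => t ^ s) (s * t ^ (s - 1)) t :=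
      Real.hasDerivAt_rpow_const (Or.inl (by linarith))
    have h3 := (h1.mul h2).neg
    refine h3.congr_deriv ?_
    rw [show (s + 1) - 1 = s by ring]
    ring
  have hint : IntegrableOn (fun t : ℝ => z * (Real.exp (-(z * t)) * t ^ ((s + 1) - 1))
      - s * (Real.exp (-(z * t)) * t ^ (s - 1))) (Ioi 1) :=
    ((phi_int (s + 1) hz).const_mul z).sub ((phi_int s hz).const_mul s)
  have hcont : ContinuousWithinAt (fun t : ℝ => -(Real.exp (-(z * t)) * t ^ s)) (Ici 1) 1 := by
    refine ContinuousAt.continuousWithinAt ?_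
    refine ContinuousAt.neg (ContinuousAt.mul (by fun_prop) ?_)
    exact Real.continuousAt_rpow_const _ _ (Or.inl one_ne_zero)
  have hlim : Filter.Tendsto (fun t : ℝ => -(Real.exp (-(z * t)) * t ^ s)) Filter.atTop (nhds 0) := by
    have := (tendsto_rpow_mul_exp_neg_mul_atTop_nhds_zero s z hz).neg
    rw [neg_zero] at this
    refine this.congr fun t => ?_
    rw [show -(z * t) = -z * t by ring]
    ring
  have h := integral_Ioi_of_hasDerivAt_of_tendsto hcont hder hint hlim
  rw [integral_sub ((phi_int (s + 1) hz).const_mul z) ((phi_int s hz).const_mul s),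
    integral_const_mul, integral_const_mul] at h
  simp only [Real.one_rpow, mul_one] at h
  unfold phi
  linarith

end Pool.Agent.Lib.EPS
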