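import Pool.Agent.Lib.EPS.ConS
import Pool.Agent.Lib.EPS.Chk
import Pool.Agent.Lib.EPS.Phi

/-!
# EPS.ConW: the dual part at the face-centred cubic form

`wt s * (c0 * Dua s G0) ≤ 233 / 10 ^ 6` for `s ≥ 3/2`.
-/

set_option autoImplicit false

open Matrix Finset
open scoped Matrix.Norms.Elementwise

namespace Pool.Agent.Lib.EPS

open Pool.Agent.Lib.EpZ Pool.Agent.Lib.FCC

namespace ConWAux

lemma wt_le {s : ℝ} (h1 : 3 / 2 ≤ s) : wt s ≤ 7 / 10 := by
  unfold wt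
  calc (7 / 10 : ℝ) ^ (2 * s - 2) ≤ (7 / 10 : ℝ) ^ (1 : ℝ) :=
        Real.rpow_le_rpow_of_exponent_ge (by norm_num) (by norm_num) (by linarith)
    _ = 7 / 10 := Real.rpow_one _

lemma wt_pos (s : ℝ) : 0 < wt s := Real.rpow_pos_of_pos (by norm_num) _

/-- coordinates in the dual lattice (times two) -/
def MM (x : NZ 3) : ℤ × ℤ × ℤ := (x.1 0 + x.1 1 + 2 * x.1 2, x.1 0 - x.1 1, x.1 0 + x.1 1)

lemma MM_inj : Function.Injective MM := by
  intro x y h
  simp only [MM, Prod.mk.injEq] at h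
  obtain ⟨h1, h2, h3⟩ := h
  apply Subtype.ext
  funext i
  fin_cases i
  · show x.1 0 = y.1 0; omega
  · show x.1 1 = y.1 1; omega
  · show x.1 2 = y.1 2; omega

lemma MM_par (x : NZ 3) : ((MM x).1 + (MM x).2.1) % 2 = 0 ∧ ((MM x).1 + (MM x).2.2) % 2 = 0 ∧
    MM x ≠ 0 := by
  refine ⟨by simp only [MM]; omega, by simp only [MM]; omega, fun h => ?_⟩
  apply x.2
  simp only [MM, Prod.mk_eq_zero] at h
  obtain ⟨h1, h2, h3⟩ := h
  funext i
  fin_cases i
  · show x.1 0 = 0; omega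
  · show x.1 1 = 0; omega
  · show x.1 2 = 0; omega

lemma G0_inv : G0⁻¹ = !![3 / 4, 1 / 4, 1 / 2; 1 / 4, 3 / 4, 1 / 2; 1 / 2, 1 / 2, 1] := by
  apply Matrix.inv_eq_right_inv
  ext i j
  fin_cases i <;> fin_cases j <;>
    simp [G0, Matrix.mul_apply, Fin.sum_univ_three] <;> norm_num

lemma qf_inv (x : NZ 3) : qf G0⁻¹ x.1 = (nv (MM x) : ℝ) / 4 := by
  have h := ConSAux.nv_cast (MM x)
  have h' : ((nv (MM x) : ℕ) : ℝ) = ((((MM x).1 ^ 2 + (MM x).2.1 ^ 2 + (MM x).2.2 ^ 2 : ℤ)) : ℝ) := by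
    rw [← h]; push_cast; rfl
  rw [h', G0_inv]
  simp only [qf, qr, rv, dotProduct, mulVec, Fin.sum_univ_three, MM]
  simp
  ring

lemma w_ge : (3084 : ℝ) / 1000 ≤ 5 * Real.pi ^ 2 / 16 := by
  have := Real.pi_gt_d6
  nlinarith

lemma exp_w : Real.exp (-(5 * Real.pi ^ 2 / 16)) ≤ 458 / 10000 := by
  have h0 : Real.exp (-(5 * Real.pi ^ 2 / 16)) ≤ Real.exp (-(3084 / 1000)) :=
    Real.exp_le_exp.2 (by linarith [w_ge])
  refine h0.trans ?_
  have h1 := Real.sum_le_exp_of_nonneg (show (0 : ℝ) ≤ 771 / 1000 by norm_num) 10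
  have h2 : (21617 : ℝ) / 10000 ≤
      ∑ i ∈ Finset.range 10, (771 / 1000 : ℝ) ^ i / (i.factorial : ℝ) := by
    simp only [Finset.sum_range_succ, Finset.sum_range_zero, Nat.factorial]
    norm_num
  have h3 := h2.trans h1
  have h4 : (10000 : ℝ) / 458 ≤ Real.exp (3084 / 1000) := by
    have e : (3084 / 1000 : ℝ) = (4 : ℕ) * (771 / 1000) := by norm_num
    rw [e, Real.exp_nat_mul]
    refine le_trans ?_ (pow_le_pow_left₀ (by norm_num) h3 4)
    norm_num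
  rw [Real.exp_neg, inv_le_comm₀ (Real.exp_pos _) (by norm_num)]
  linarith

lemma term_w {s : ℝ} (h1 : 3 / 2 ≤ s) {n : ℕ} (hn : 1 ≤ n) :
    phi (3 / 2 - s) (5 * Real.pi ^ 2 / 16 * n) ≤ (458 / 10000) ^ n / (3084 / 1000 * n) := by
  have hn' : (1 : ℝ) ≤ n := by exact_mod_cast hn
  have hw := w_ge
  have hz0 : (0 : ℝ) < 5 * Real.pi ^ 2 / 16 * n := by positivity
  refine (phi_le hz0 (by linarith)).trans ?_
  have a2 : Real.exp (-(5 * Real.pi ^ 2 / 16 * (n : ℝ))) ≤ (458 / 10000) ^ n := by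
    have : -(5 * Real.pi ^ 2 / 16 * (n : ℝ)) = (n : ℝ) * (-(5 * Real.pi ^ 2 / 16)) := by ring
    rw [this, Real.exp_nat_mul]
    exact pow_le_pow_left₀ (Real.exp_pos _).le exp_w n
  refine div_le_div₀ (by positivity) a2 (by positivity) ?_
  exact mul_le_mul_of_nonneg_right hw (by linarith)

/-- numbers of vectors -/
def cntw (n : ℕ) : ℕ := [0, 0, 0, 8, 6, 0, 0, 0].getD n 0

set_option maxRecDepth 100000 in
lemma countw : ∀ n < 8, ((bx 2).filter (fun v => ((v.1 + v.2.1) % 2 = 0 ∧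
    (v.1 + v.2.2) % 2 = 0 ∧ v ≠ 0) ∧ nv v = n)).card ≤ cntw n := by decide +kernel

lemma c0_le : c0 ≤ 3895 / 1000 := by
  have h1 : (0 : ℝ) ≤ 5 * Real.pi / 4 := by positivity
  have h2 : 5 * Real.pi / 4 ≤ 3928 / 1000 := by
    have := Real.pi_lt_d4
    linarith
  have h3 : (5 * Real.pi / 4) ^ ((3 : ℝ) / 2) ≤ 779 / 100 := by
    have h4 : ((5 * Real.pi / 4) ^ ((3 : ℝ) / 2)) ^ 2 = (5 * Real.pi / 4) ^ 3 := by
      rw [← Real.rpow_natCast, ← Real.rpow_mul h1, ← Real.rpow_natCast]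
      norm_num
    have h5 : (5 * Real.pi / 4) ^ 3 ≤ (3928 / 1000) ^ 3 := pow_le_pow_left₀ h1 h2 3
    have h6 : 0 ≤ (5 * Real.pi / 4) ^ ((3 : ℝ) / 2) := Real.rpow_nonneg h1 _
    by_contra hcon
    push Not at hcon
    nlinarith
  unfold c0
  linarith

lemma c0_pos : 0 < c0 := by
  unfold c0
  positivity

end ConWAux

open ConWAux

/-- The dual part at the face-centred cubic form. -/
theorem conW {s : ℝ} (h1 : 3 / 2 ≤ s) : wt s * (c0 * Dua s G0) ≤ 233 / 10 ^ 6 := by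
  obtain ⟨-, key⟩ := lat_sum MM MM_inj
    (fun v => (v.1 + v.2.1) % 2 = 0 ∧ (v.1 + v.2.2) % 2 = 0 ∧ v ≠ 0) MM_par
    (fun n => phi (3 / 2 - s) (5 * Real.pi ^ 2 / 16 * n)) (fun n => phi_nonneg _ _) 8 2
    (by norm_num) cntw countw (1 / 24) (1145 / 10000) (4 / 10) (by norm_num)
    (by norm_num) (by norm_num) (by norm_num) (by norm_num)
    (fun n hn => by
      have h3 := term_w h1 (n := n) (by omega)
      have h4 : (1145 / 10000 * (4 / 10) : ℝ) = 458 / 10000 := by norm_num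
      rw [h4]
      refine h3.trans ?_
      have hn' : (8 : ℝ) ≤ n := by exact_mod_cast hn
      rw [div_eq_mul_inv, mul_comm]
      refine mul_le_mul_of_nonneg_right ?_ (by positivity)
      rw [inv_eq_one_div]
      exact div_le_div_of_nonneg_left (by norm_num) (by norm_num) (by linarith))
  have e1 : Dua s G0 = ∑' x : NZ 3, phi (3 / 2 - s) (5 * Real.pi ^ 2 / 16 * (nv (MM x) : ℝ)) := by
    rw [Dua]
    refine tsum_congr (fun x => ?_)
    rw [qf_inv]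
    congr 1
    ring
  have t3 := term_w h1 (n := 3) (by norm_num)
  have t4 := term_w h1 (n := 4) (by norm_num)
  simp only [Finset.sum_range_succ, Finset.sum_range_zero, cntw, List.getD_cons_succ,
    List.getD_cons_zero] at key
  push_cast at key t3 t4
  have num : 8 * ((458 / 10000 : ℝ) ^ 3 / (3084 / 1000 * 3)) +
      6 * ((458 / 10000) ^ 4 / (3084 / 1000 * 4)) +
      1 / 24 * (1145 / 10000) ^ 8 * (1 + 2 * (4 / 10) / (1 - (4 / 10) ^ 3)) ^ 3 ≤
      8525 / 10 ^ 8 := by norm_num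
  have hD : Dua s G0 ≤ 8525 / 10 ^ 8 := by
    rw [e1]
    linarith
  have hD0 : 0 ≤ Dua s G0 := tsum_nonneg (fun x => phi_nonneg _ _)
  have hw := wt_le h1
  have hw0 := wt_pos s
  have hc := c0_le
  have hc0 := c0_pos
  calc wt s * (c0 * Dua s G0) ≤ 7 / 10 * (3895 / 1000 * (8525 / 10 ^ 8)) :=
        mul_le_mul hw (mul_le_mul hc hD hD0 (by norm_num)) (by positivity) (by norm_num)
    _ ≤ _ := by norm_num

/-- The dual Gaussian sum at the face-centred cubic form. -/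
theorem dual_sum : Summable (fun y : NZ 3 => Real.exp (-(5 * Real.pi ^ 2 / 4 * qf G0⁻¹ y.1))) ∧
    ∑' y : NZ 3, Real.exp (-(5 * Real.pi ^ 2 / 4 * qf G0⁻¹ y.1)) ≤ 796 / 10 ^ 6 := by
  have tm : ∀ n : ℕ, Real.exp (-(5 * Real.pi ^ 2 / 16 * (n : ℝ))) ≤ (458 / 10000) ^ n := by
    intro n
    have : -(5 * Real.pi ^ 2 / 16 * (n : ℝ)) = (n : ℝ) * (-(5 * Real.pi ^ 2 / 16)) := by ring
    rw [this, Real.exp_nat_mul]
    exact pow_le_pow_left₀ (Real.exp_pos _).le exp_w n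
  obtain ⟨hs, key⟩ := lat_sum MM MM_inj
    (fun v => (v.1 + v.2.1) % 2 = 0 ∧ (v.1 + v.2.2) % 2 = 0 ∧ v ≠ 0) MM_par
    (fun n => Real.exp (-(5 * Real.pi ^ 2 / 16 * n))) (fun n => (Real.exp_pos _).le) 8 2
    (by norm_num) cntw countw 1 (1145 / 10000) (4 / 10) (by norm_num)
    (by norm_num) (by norm_num) (by norm_num) (by norm_num)
    (fun n hn => by
      have h4 : (1145 / 10000 * (4 / 10) : ℝ) = 458 / 10000 := by norm_num
      rw [h4, one_mul]
      exact tm n)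
  have e1 : (fun y : NZ 3 => Real.exp (-(5 * Real.pi ^ 2 / 4 * qf G0⁻¹ y.1))) =
      fun x : NZ 3 => Real.exp (-(5 * Real.pi ^ 2 / 16 * (nv (MM x) : ℝ))) := by
    funext x
    rw [qf_inv]
    congr 1
    ring
  rw [e1]
  refine ⟨hs, ?_⟩
  have t3 := tm 3
  have t4 := tm 4
  simp only [Finset.sum_range_succ, Finset.sum_range_zero, cntw, List.getD_cons_succ,
    List.getD_cons_zero] at key
  push_cast at key t3 t4
  have num : 8 * ((458 / 10000 : ℝ) ^ 3) + 6 * ((458 / 10000) ^ 4) +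
      1 * (1145 / 10000) ^ 8 * (1 + 2 * (4 / 10) / (1 - (4 / 10) ^ 3)) ^ 3 ≤
      796 / 10 ^ 6 := by norm_num
  linarith

end Pool.Agent.Lib.EPS
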