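import Pool.Agent.Lib.EPS.ConL
import Pool.Agent.Lib.EPS.ConW
import Pool.Agent.Lib.EPS.ConD

/-!
# EPS.ConF: the energy of the face-centred cubic form is below the numbers `m_k`

`con_of` takes the ten numerical inequalities `conn` (module EPS.ConN) as a hypothesis.
-/

set_option autoImplicit false

open Matrix Finset
open scoped Matrix.Norms.Elementwise

namespace Pool.Agent.Lib.EPS

open Pool.Agent.Lib.EpZ Pool.Agent.Lib.FCC

namespace ConAux

lemma bern_nn {s : ℝ} (h1 : 3 / 2 ≤ s) (h2 : s ≤ 6) (k : ℕ) : 0 ≤ bern k ((2 * s - 3) / 9) := by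
  unfold bern
  have a1 : 0 ≤ (2 * s - 3) / 9 := by linarith
  have a2 : 0 ≤ 1 - (2 * s - 3) / 9 := by linarith
  positivity

lemma bern_sum (y : ℝ) : ∑ k ∈ range 10, bern k y = 1 := by
  have h := add_pow y (1 - y) 9
  rw [show y + (1 - y) = 1 by ring, one_pow] at h
  rw [h]
  refine sum_congr rfl (fun k _ => ?_)
  unfold bern
  ring

lemma bn_eq (k : Fin 10) (s : ℝ) : bn k s = bern k ((2 * s - 3) / 9) := rfl

end ConAux

open ConAux

theorem con_of (conn : ∀ k < 10, 2 ^ 40 * shells k ≤ (UU k : ℝ)) {s : ℝ} (h1 : 3 / 2 ≤ s)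
    (h2 : s ≤ 6) : 2 ^ 40 * (wt s * Tot s G0) ≤
      ∑ k : Fin 10, bn k s * ((UU k + 256242118 : ℕ) : ℝ) := by
  have hL := conl h1 h2
  have hW := conW h1
  set y := (2 * s - 3) / 9 with hy
  have hb := fun k => bern_nn h1 h2 k
  have hu : ∀ z : ℝ, 0 < z → (7 / 10 : ℝ) ^ (2 * s - 2) * phi s z ≤
      ∑ k ∈ range 10, bern k y * up k z := fun z hz => up_real h1 h2 hz
  have u1 := hu (8 / 5) (by norm_num)
  have u2 := hu (16 / 5) (by norm_num)
  have u3 := hu (24 / 5) (by norm_num)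
  have u4 := hu (32 / 5) (by norm_num)
  have u5 := hu 8 (by norm_num)
  have u6 := hu (48 / 5) (by norm_num)
  have u7 := hu (56 / 5) (by norm_num)
  have u8 := hu (64 / 5) (by norm_num)
  have u9 := hu (72 / 5) (by norm_num)
  have u10 := hu 16 (by norm_num)
  have e1 : ∑ k ∈ range 10, bern k y * shells k =
      12 * (∑ k ∈ range 10, bern k y * up k (8 / 5)) +
      6 * (∑ k ∈ range 10, bern k y * up k (16 / 5)) +
      24 * (∑ k ∈ range 10, bern k y * up k (24 / 5)) +
      12 * (∑ k ∈ range 10, bern k y * up k (32 / 5)) +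
      24 * (∑ k ∈ range 10, bern k y * up k 8) +
      8 * (∑ k ∈ range 10, bern k y * up k (48 / 5)) +
      48 * (∑ k ∈ range 10, bern k y * up k (56 / 5)) +
      6 * (∑ k ∈ range 10, bern k y * up k (64 / 5)) +
      36 * (∑ k ∈ range 10, bern k y * up k (72 / 5)) +
      24 * (∑ k ∈ range 10, bern k y * up k 16) := by
    simp only [mul_sum, ← sum_add_distrib]
    refine sum_congr rfl (fun k _ => ?_)
    unfold shells
    ring
  have e2 : ∑ k ∈ range 10, bern k y * (2 ^ 40 * shells k) ≤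
      ∑ k ∈ range 10, bern k y * (UU k : ℝ) :=
    sum_le_sum (fun k hk => mul_le_mul_of_nonneg_left (conn k (mem_range.1 hk)) (hb k))
  have e3 : ∑ k ∈ range 10, bern k y * (2 ^ 40 * shells k) =
      2 ^ 40 * ∑ k ∈ range 10, bern k y * shells k := by
    rw [mul_sum]
    exact sum_congr rfl (fun k _ => by ring)
  have e4 : ∑ k : Fin 10, bn k s * ((UU k + 256242118 : ℕ) : ℝ) =
      ∑ k ∈ range 10, bern k y * (UU k : ℝ) + 256242118 := by
    rw [Finset.sum_fin_eq_sum_range]
    have : ∀ k ∈ range 10, (if h : k < 10 then bn ⟨k, h⟩ s * ((UU ((⟨k, h⟩ : Fin 10) : ℕ) +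
        256242118 : ℕ) : ℝ) else 0) = bern k y * (UU k : ℝ) + 256242118 * bern k y := by
      intro k hk
      rw [dif_pos (mem_range.1 hk), bn_eq]
      push_cast
      ring
    rw [sum_congr rfl this, sum_add_distrib, ← mul_sum, bern_sum, mul_one]
  have e5 : wt s * Tot s G0 = wt s * Dir s G0 + wt s * (c0 * Dua s G0) := by
    unfold Tot
    ring
  have hL' : wt s * Dir s G0 ≤ ∑ k ∈ range 10, bern k y * shells k + 4 / 10 ^ 8 := by
    rw [e1]
    refine le_trans (show wt s * Dir s G0 ≤ _ from hL) ?_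
    linarith
  rw [e4, e5]
  have := e3 ▸ e2
  nlinarith
 
end Pool.Agent.Lib.EPS
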