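import Pool.Agent.Lib.EPS.Pol
import Pool.Agent.Lib.EPS.Coef2

/-!
# The interpolation polynomials and the remainder in terms of their coefficient lists
-/

namespace Pool.Agent.Lib.EPS

/-- the remainder polynomial -/
noncomputable def epol (r : ℝ) : ℝ := (r - 1) ^ 10 + (3 / 7) ^ 10

theorem epol_nonneg (r : ℝ) : 0 ≤ epol r := by
  unfold epol
  have : 0 ≤ (r - 1) ^ 10 := by positivity
  positivity

/-- the coefficients of the interpolation polynomials -/
noncomputable def cc (k m : ℕ) : ℝ := (((cp k).getD m 0 : ℝ) - ((cn k).getD m 0 : ℝ)) / (den : ℝ)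

/-- the coefficients of a tenth of the remainder polynomial -/
noncomputable def gg (m : ℕ) : ℝ := ((gp.getD m 0 : ℝ) - (gn.getD m 0 : ℝ)) / (den : ℝ)

theorem cpol_eq {k : ℕ} (hk : k < 10) (x : ℝ) :
    cpol k (7 / 10 * x) * (7 / 10 * x) = ∑ m ∈ Finset.range 11, cc k m * x ^ (m + 1) := by
  interval_cases k <;>
  · simp only [cpol, cc, cp, cn, den, Finset.sum_range_succ, Finset.sum_range_zero,
      List.getD_cons_zero, List.getD_cons_succ]
    push_cast
    ring

theorem epol_eq (x : ℝ) :
    epol (7 / 10 * x) * (7 / 10 * x) = ∑ m ∈ Finset.range 11, 10 * gg m * x ^ (m + 1) := by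
  simp only [epol, gg, gp, gn, den, Finset.sum_range_succ, Finset.sum_range_zero,
    List.getD_cons_zero, List.getD_cons_succ]
  push_cast
  ring

end Pool.Agent.Lib.EPS
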