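import Pool.Agent.Lib.EPS.TabA
import Pool.Agent.Lib.EPS.Pol2

/-!
# Supporting lines of `phi s` in Bernstein form, with a small remainder
-/

open MeasureTheory Set

namespace Pool.Agent.Lib.EPS

/-- the interpolation polynomial, integrated against `t ^ j` -/
noncomputable def PP (j k : ℕ) (z : ℝ) : ℝ :=
  ∑ m ∈ Finset.range 11, cc k m * phi (((m : ℝ) + 3) / 2 + j) z

/-- the remainder polynomial, integrated against `t ^ j` -/
noncomputable def EE (j : ℕ) (z : ℝ) : ℝ :=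
  ∑ m ∈ Finset.range 11, 10 * gg m * phi (((m : ℝ) + 3) / 2 + j) z

/-- constant term of the supporting line at `z`, field `k` -/
noncomputable def al2 (k : ℕ) (al z : ℝ) : ℝ :=
  PP 0 k z + z * PP 1 k z - gam k * EE 0 z - al ^ 2 * up k z

theorem K_shift {z t : ℝ} (ht : 1 < t) (m j : ℕ) : K z (m + 2 * j) t = t ^ j * K z m t := by
  induction j with
  | zero => simp
  | succ j ih =>
    rw [show m + 2 * (j + 1) = m + 2 * j + 2 by ring, K_succ ht, ih]
    ring

theorem integral_Kj (z : ℝ) (m j : ℕ) :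
    ∫ t in Ioi (1 : ℝ), K z (m + 2 * j) t = phi (((m : ℝ) + 3) / 2 + j) z := by
  rw [integral_K]
  congr 1
  push_cast
  ring

/-- `e^(-x) ≥ 1 - x + α |x| - α²` -/
theorem exp_alpha (x : ℝ) {al : ℝ} (h0 : 0 ≤ al) (h1 : al < 1) :
    1 - x + al * |x| - al ^ 2 ≤ Real.exp (-x) := by
  rcases le_or_gt 0 x with hx | hx
  · rw [abs_of_nonneg hx]
    have hp : 0 < 1 - al := by linarith
    have h2 := Real.add_one_le_exp (-x - Real.log (1 - al))
    have h3 := Real.log_le_sub_one_of_pos hp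
    have h4 : Real.exp (-x) = (1 - al) * Real.exp (-x - Real.log (1 - al)) := by
      rw [Real.exp_sub, Real.exp_log hp]
      field_simp
    rw [h4]
    have h5 : 1 - x + al ≤ Real.exp (-x - Real.log (1 - al)) := by linarith
    have h6 := mul_le_mul_of_nonneg_left h5 hp.le
    nlinarith
  · rw [abs_of_neg hx]
    have h2 := Real.quadratic_le_exp_of_nonneg (x := -x) (by linarith)
    nlinarith [sq_nonneg (-x - al), sq_nonneg al]

theorem phi_alpha (s : ℝ) {z z0 al : ℝ} (hz : 0 < z) (hz0 : 0 < z0) (h0 : 0 ≤ al) (h1 : al < 1) :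
    (1 - al ^ 2) * phi s z0 + (al * |z - z0| - (z - z0)) * phi (s + 1) z0 ≤ phi s z := by
  have e1 : (1 - al ^ 2) * phi s z0 + (al * |z - z0| - (z - z0)) * phi (s + 1) z0 =
      ∫ t in Ioi (1 : ℝ), ((1 - al ^ 2) * (Real.exp (-(z0 * t)) * t ^ (s - 1)) +
        (al * |z - z0| - (z - z0)) * (Real.exp (-(z0 * t)) * t ^ ((s + 1) - 1))) := by
    rw [integral_add ((phi_int s hz0).const_mul _) ((phi_int (s + 1) hz0).const_mul _),
      integral_const_mul, integral_const_mul]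
    rfl
  rw [e1]
  refine setIntegral_mono_on (((phi_int s hz0).const_mul _).add ((phi_int (s + 1) hz0).const_mul _))
    (phi_int s hz) measurableSet_Ioi fun t ht => ?_
  have ht1 : (1 : ℝ) < t := ht
  have ht0 : 0 < t := by linarith
  rw [← kernel_mul ht]
  have h2 : 0 ≤ t ^ (s - 1) := Real.rpow_nonneg ht0.le _
  have h3 : Real.exp (-(z * t)) = Real.exp (-(z0 * t)) * Real.exp (-((z - z0) * t)) := by
    rw [← Real.exp_add]; congr 1; ring
  have h4 := exp_alpha ((z - z0) * t) h0 h1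
  rw [abs_mul, abs_of_pos ht0] at h4
  have h5 : 0 < Real.exp (-(z0 * t)) := Real.exp_pos _
  have h6 := mul_le_mul_of_nonneg_left h4 h5.le
  rw [← h3] at h6
  calc _ = (Real.exp (-(z0 * t)) * (1 - (z - z0) * t + al * (|z - z0| * t) - al ^ 2))
        * t ^ (s - 1) := by ring
    _ ≤ _ := mul_le_mul_of_nonneg_right h6 h2

theorem PP_integral (j : ℕ) (y : ℝ) {z : ℝ} (hz : 0 < z) :
    ∑ k ∈ Finset.range 10, bern k y * PP j k z = ∫ t in Ioi (1 : ℝ),
      ∑ k ∈ Finset.range 10, bern k y * ∑ m ∈ Finset.range 11, cc k m * K z (m + 2 * j) t := by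
  have i0 : ∀ k m : ℕ, IntegrableOn (fun t => cc k m * K z (m + 2 * j) t) (Ioi 1) := fun k m =>
    (K_int hz _).const_mul _
  rw [integral_finset_sum _ fun k _ => (integrable_finsetSum _ fun m _ => i0 k m).const_mul _]
  refine Finset.sum_congr rfl fun k _ => ?_
  rw [integral_const_mul, integral_finset_sum _ fun m _ => i0 k m]
  congr 1
  unfold PP
  refine Finset.sum_congr rfl fun m _ => ?_
  rw [integral_const_mul, integral_Kj]

theorem EE_integral (j : ℕ) {z : ℝ} (hz : 0 < z) :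
    EE j z = ∫ t in Ioi (1 : ℝ), ∑ m ∈ Finset.range 11, 10 * gg m * K z (m + 2 * j) t := by
  rw [integral_finset_sum _ fun m _ => (K_int hz _).const_mul _]
  unfold EE
  refine Finset.sum_congr rfl fun m _ => ?_
  rw [integral_const_mul, integral_Kj]

theorem P_pt {z t : ℝ} (ht : 1 < t) (j : ℕ) (y : ℝ) :
    ∑ k ∈ Finset.range 10, bern k y * ∑ m ∈ Finset.range 11, cc k m * K z (m + 2 * j) t =
      Real.exp (-(z * t)) * t ^ j * (7 / 10 * √t) *
        ∑ k ∈ Finset.range 10, bern k y * cpol k (7 / 10 * √t) := by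
  rw [Finset.mul_sum]
  refine Finset.sum_congr rfl fun k hk => ?_
  have h1 := cpol_eq (Finset.mem_range.mp hk) √t
  have h2 : ∑ m ∈ Finset.range 11, cc k m * K z (m + 2 * j) t =
      Real.exp (-(z * t)) * t ^ j * ∑ m ∈ Finset.range 11, cc k m * √t ^ (m + 1) := by
    rw [Finset.mul_sum]
    refine Finset.sum_congr rfl fun m _ => ?_
    rw [K_shift ht, K_eq ht]
    ring
  rw [h2, ← h1]
  ring

theorem E_pt {z t : ℝ} (ht : 1 < t) (j : ℕ) :
    ∑ m ∈ Finset.range 11, 10 * gg m * K z (m + 2 * j) t =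
      Real.exp (-(z * t)) * t ^ j * (7 / 10 * √t) * epol (7 / 10 * √t) := by
  have h1 := epol_eq √t
  have h2 : ∑ m ∈ Finset.range 11, 10 * gg m * K z (m + 2 * j) t =
      Real.exp (-(z * t)) * t ^ j * ∑ m ∈ Finset.range 11, 10 * gg m * √t ^ (m + 1) := by
    rw [Finset.mul_sum]
    refine Finset.sum_congr rfl fun m _ => ?_
    rw [K_shift ht, K_eq ht]
    ring
  rw [h2, ← h1]
  ring

theorem EE_nonneg (j : ℕ) {z : ℝ} (hz : 0 < z) : 0 ≤ EE j z := by
  rw [EE_integral j hz]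
  refine setIntegral_nonneg measurableSet_Ioi fun t ht => ?_
  have ht1 : (1 : ℝ) < t := ht
  rw [E_pt ht1]
  have := epol_nonneg (7 / 10 * √t)
  have : 0 < t := by linarith
  positivity

/-- the remainder of the interpolation, integrated against `t ^ j` -/
theorem int_bounds (j : ℕ) {s z : ℝ} (hs : 3 / 2 ≤ s) (hs' : s ≤ 6) (hz : 0 < z) :
    |(7 / 10 : ℝ) ^ (2 * s - 2) * phi (s + j) z -
      ∑ k ∈ Finset.range 10, bern k ((2 * s - 3) / 9) * PP j k z| ≤
      |gch (2 * s - 3) 10| * EE j z := by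
  set y : ℝ := (2 * s - 3) / 9 with hy
  set ka : ℝ := |gch (2 * s - 3) 10| with hka
  have hka0 : 0 ≤ ka := abs_nonneg _
  rw [PP_integral j y hz, EE_integral j hz]
  have iP : IntegrableOn (fun t => ∑ k ∈ Finset.range 10, bern k y *
      ∑ m ∈ Finset.range 11, cc k m * K z (m + 2 * j) t) (Ioi 1) :=
    integrable_finsetSum _ fun k _ => (integrable_finsetSum _ fun m _ =>
      (K_int hz _).const_mul _).const_mul _
  have iE : IntegrableOn (fun t => ∑ m ∈ Finset.range 11, 10 * gg m * K z (m + 2 * j) t) (Ioi 1) :=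
    integrable_finsetSum _ fun m _ => (K_int hz _).const_mul _
  have iE' : IntegrableOn (fun t => ka * ∑ m ∈ Finset.range 11, 10 * gg m * K z (m + 2 * j) t)
      (Ioi 1) := iE.const_mul _
  have iF : IntegrableOn (fun t => (7 / 10 : ℝ) ^ (2 * s - 2) *
      (Real.exp (-(z * t)) * t ^ ((s + j) - 1))) (Ioi 1) := (phi_int _ hz).const_mul _
  have eF : (7 / 10 : ℝ) ^ (2 * s - 2) * phi (s + j) z = ∫ t in Ioi (1 : ℝ),
      (7 / 10 : ℝ) ^ (2 * s - 2) * (Real.exp (-(z * t)) * t ^ ((s + j) - 1)) := by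
    rw [integral_const_mul]
    rfl
  -- the pointwise estimate
  have key : ∀ t ∈ Ioi (1 : ℝ), |(7 / 10 : ℝ) ^ (2 * s - 2) *
      (Real.exp (-(z * t)) * t ^ ((s + j) - 1)) - ∑ k ∈ Finset.range 10, bern k y *
      ∑ m ∈ Finset.range 11, cc k m * K z (m + 2 * j) t| ≤
      ka * ∑ m ∈ Finset.range 11, 10 * gg m * K z (m + 2 * j) t := by
    intro t ht
    have ht1 : (1 : ℝ) < t := ht
    have ht0 : 0 < t := by linarith
    have hr7 : 7 / 10 ≤ 7 / 10 * √t := sqrt_ge ht1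
    have h1 := interp_pw (u := 2 * s - 3) (by linarith) (by linarith) hr7
    have h2 := newton_eq_bern y (7 / 10 * √t)
    rw [show 9 * y = 2 * s - 3 by rw [hy]; ring] at h2
    rw [h2] at h1
    rw [P_pt ht1, E_pt ht1]
    have h3 : (7 / 10 : ℝ) ^ (2 * s - 2) * (Real.exp (-(z * t)) * t ^ ((s + j) - 1)) =
        Real.exp (-(z * t)) * t ^ j * (7 / 10 * √t) * (7 / 10 * √t) ^ (2 * s - 3) := by
      have h4 := weight (s := s) ht1
      have h5 : t ^ ((s + j) - 1) = t ^ (s - 1) * t ^ j := by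
        rw [show (s + j) - 1 = (s - 1) + j by ring, Real.rpow_add ht0, Real.rpow_natCast]
      rw [h5]
      linear_combination Real.exp (-(z * t)) * t ^ j * h4
    rw [h3, ← mul_sub, abs_mul]
    have hr0 : 0 < 7 / 10 * √t := by linarith
    have hw : 0 < Real.exp (-(z * t)) * t ^ j * (7 / 10 * √t) := by positivity
    rw [abs_of_pos hw]
    calc Real.exp (-(z * t)) * t ^ j * (7 / 10 * √t) * |(7 / 10 * √t) ^ (2 * s - 3) -
          ∑ k ∈ Finset.range 10, bern k y * cpol k (7 / 10 * √t)| ≤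
          Real.exp (-(z * t)) * t ^ j * (7 / 10 * √t) * (ka * epol (7 / 10 * √t)) :=
          mul_le_mul_of_nonneg_left h1 hw.le
      _ = _ := by ring
  rw [eF, ← integral_const_mul, abs_le]
  constructor
  · have h1 := setIntegral_mono_on (iP.sub iE') iF measurableSet_Ioi fun t ht => by
      have := (abs_le.mp (key t ht)).1
      simp only [Pi.sub_apply]
      linarith
    rw [integral_sub' iP iE'] at h1
    linarith
  · have h1 := setIntegral_mono_on iF (iP.add iE') measurableSet_Ioi fun t ht => by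
      have := (abs_le.mp (key t ht)).2
      simp only [Pi.add_apply]
      linarith
    rw [integral_add' iP iE'] at h1
    linarith

/-- **supporting lines** with a small remainder -/
theorem tab_real2 (hg : ∀ u : ℝ, 0 ≤ u → u ≤ 9 → |gch u 10| ≤ 1 / 84)
    {s z z0 al : ℝ} (hs : 3 / 2 ≤ s) (hs' : s ≤ 6) (hz : 0 < z) (h0 : 0 < z0)
    (ha0 : 0 ≤ al) (ha1 : al < 1)
    (ha : 25 * EE 1 z0 ≤ 84 * al * (7 / 10 * phi (5 / 2) z0)) :
    ∑ k ∈ Finset.range 10, bern k ((2 * s - 3) / 9) * (al2 k al z0 - PP 1 k z0 * z) ≤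
      (7 / 10 : ℝ) ^ (2 * s - 2) * phi s z := by
  set y : ℝ := (2 * s - 3) / 9 with hy
  set c : ℝ := (7 / 10 : ℝ) ^ (2 * s - 2) with hc
  have hc0 : 0 < c := Real.rpow_pos_of_pos (by norm_num) _
  set ka : ℝ := |gch (2 * s - 3) 10| with hka
  have hka0 : 0 ≤ ka := abs_nonneg _
  have hka1 : ka ≤ 1 / 84 := hg _ (by linarith) (by linarith)
  have hka2 : ka ≤ ∑ k ∈ Finset.range 10, bern k y * gam k := by
    rw [sum_bern_gam]
    have e : 9 * y = 2 * s - 3 := by rw [hy]; ring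
    rw [hka, ← e]
    exact abs_gch_ten_le (y := y) (by rw [hy]; linarith) (by rw [hy]; linarith)
  have b0 := int_bounds 0 hs hs' h0
  have b1 := int_bounds 1 hs hs' h0
  rw [← hy, ← hc, ← hka] at b0 b1
  simp only [Nat.cast_zero, add_zero, Nat.cast_one] at b0 b1
  have b2 := up_real hs hs' h0
  rw [← hy, ← hc] at b2
  have b3 := mul_le_mul_of_nonneg_left (phi_alpha s hz h0 ha0 ha1) hc0.le
  have e0 := EE_nonneg 0 h0
  have e1 := EE_nonneg 1 h0
  -- the lower bound of the weight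
  have b4 : (7 / 10 : ℝ) ^ (10 : ℝ) * phi (5 / 2) z0 ≤ c * phi (s + 1) z0 := by
    have q1 : (7 / 10 : ℝ) ^ (10 : ℝ) ≤ c :=
      Real.rpow_le_rpow_of_exponent_ge (by norm_num) (by norm_num) (by linarith)
    have q2 : phi (5 / 2) z0 ≤ phi (s + 1) z0 := phi_mono h0 (by linarith)
    exact mul_le_mul q1 q2 (phi_nonneg _ _) hc0.le
  have q3 : (7 / 10 : ℝ) ^ (10 : ℝ) = 7 / 10 * (7 / 10) ^ (9 : ℕ) := by
    rw [show (10 : ℝ) = ((10 : ℕ) : ℝ) by norm_num, Real.rpow_natCast]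
    norm_num
  rw [q3] at b4
  have hp := phi_nonneg (5 / 2) z0
  have b5 : ka * EE 1 z0 ≤ al * (c * phi (s + 1) z0) := by
    have q4 : ka * EE 1 z0 ≤ 1 / 84 * EE 1 z0 := mul_le_mul_of_nonneg_right hka1 e1
    have q5 : 1 / 84 * EE 1 z0 ≤ al * (7 / 10 * phi (5 / 2) z0) / 25 := by linarith
    have q6 : al * (7 / 10 * phi (5 / 2) z0) / 25 ≤
        al * (7 / 10 * (7 / 10) ^ (9 : ℕ) * phi (5 / 2) z0) := by
      have : 0 ≤ al * phi (5 / 2) z0 := mul_nonneg ha0 hp
      norm_num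
      nlinarith
    exact q4.trans (q5.trans (q6.trans (mul_le_mul_of_nonneg_left b4 ha0)))
  set P0 : ℝ := ∑ k ∈ Finset.range 10, bern k y * PP 0 k z0 with hP0
  set P1 : ℝ := ∑ k ∈ Finset.range 10, bern k y * PP 1 k z0 with hP1
  set U : ℝ := ∑ k ∈ Finset.range 10, bern k y * up k z0 with hU
  set G : ℝ := ∑ k ∈ Finset.range 10, bern k y * gam k with hG
  have eS : ∑ k ∈ Finset.range 10, bern k y * (al2 k al z0 - PP 1 k z0 * z) =
      P0 - (z - z0) * P1 - G * EE 0 z0 - al ^ 2 * U := by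
    rw [hP0, hP1, hU, hG, Finset.mul_sum, Finset.mul_sum, Finset.sum_mul,
      ← Finset.sum_sub_distrib, ← Finset.sum_sub_distrib, ← Finset.sum_sub_distrib]
    refine Finset.sum_congr rfl fun k _ => ?_
    unfold al2
    ring
  rw [eS]
  set I1 : ℝ := c * phi s z0 with hI1
  set I2 : ℝ := c * phi (s + 1) z0 with hI2
  have b6 : (1 - al ^ 2) * I1 + (al * |z - z0| - (z - z0)) * I2 ≤ c * phi s z := by
    refine le_trans (le_of_eq ?_) b3
    rw [hI1, hI2]
    ring
  obtain ⟨l0, -⟩ := abs_le.mp b0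
  have l1 : (z - z0) * (I2 - P1) ≤ |z - z0| * (ka * EE 1 z0) := by
    refine (le_abs_self _).trans ?_
    rw [abs_mul]
    exact mul_le_mul_of_nonneg_left b1 (abs_nonneg _)
  have l2 : |z - z0| * (ka * EE 1 z0) ≤ |z - z0| * (al * I2) :=
    mul_le_mul_of_nonneg_left b5 (abs_nonneg _)
  have l3 : al ^ 2 * I1 ≤ al ^ 2 * U := mul_le_mul_of_nonneg_left b2 (by positivity)
  have l4 : ka * EE 0 z0 ≤ G * EE 0 z0 := mul_le_mul_of_nonneg_right hka2 e0
  nlinarith

end Pool.Agent.Lib.EPS
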