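import Pool.Agent.Lib.EPS.NumE
import Pool.Agent.Lib.EPS.TabB

/-!
# The check of an entry of the table, supporting lines with a small remainder
-/

open MeasureTheory Set

namespace Pool.Agent.Lib.EPS

/-- `x` for `k = 1, 8`, else zero -/
def gsel (k x : Nat) : Nat :=
  match k with
  | 1 => x
  | 8 => x
  | _ => 0

/-- the check of one field -/
def fchk2 (xl xh ul uh yl yh : List Nat) (n k a b : Nat) : Bool :=
  Nat.ble (2 ^ 40 * (a * (2 ^ 41 * den) + dot (cn k) uh + gsel k (2 * dot gp xh)) +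
      2 * n ^ 2 * dot (hp k) xh)
    (2 ^ 40 * (dot (cp k) ul + gsel k (2 * dot gn xl)) + 2 * n ^ 2 * dot (hn k) xl)
    && Nat.ble (dot (cp k) yh) (b * (2 ^ 40 * den) + dot (cn k) yl)
    && Nat.blt a (2 ^ 64) && Nat.blt b (2 ^ 64)

/-- the check of the parameter `n / 2^20` -/
def achk (yl yh : List Nat) (n : Nat) : Bool :=
  Nat.ble (2500 * 2 ^ 20 * dot gp yh)
    (2500 * 2 ^ 20 * dot gn yl + 588 * n * den * yl.getD 0 0) && Nat.blt n (2 ^ 20)

/-- the check of the fields `k, k+1, ...` -/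
def rowgo2 (xl xh ul uh yl yh : List Nat) (n : Nat) : Nat → List Nat → List Nat → Bool
  | k, a :: as, b :: bs => fchk2 xl xh ul uh yl yh n k a b &&
      rowgo2 xl xh ul uh yl yh n (k + 1) as bs
  | _, _, _ => true

/-- the check of an entry -/
def rowchk2 (i r n : Nat) (fa fb : List Nat) : Bool :=
  Nat.blt 0 i && (rchk 64 i r &&
  (achk
    ((phlo 64 i (elo 1190183162014445497215107 i) (ehi 1190183162014445497215112 i) 72 r).drop 2)
    ((phhi 64 i (elo 1190183162014445497215107 i) (ehi 1190183162014445497215112 i) 72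
      (r + 2 ^ 14)).drop 2) n &&
  rowgo2
    (phlo 64 i (elo 1190183162014445497215107 i) (ehi 1190183162014445497215112 i) 72 r)
    (phhi 64 i (elo 1190183162014445497215107 i) (ehi 1190183162014445497215112 i) 72
      (r + 2 ^ 14))
    (lin5 (elo 1190183162014445497215107 i) 0
      (phlo 64 i (elo 1190183162014445497215107 i) (ehi 1190183162014445497215112 i) 72 r))
    (lin5 (ehi 1190183162014445497215112 i) 0
      (phhi 64 i (elo 1190183162014445497215107 i) (ehi 1190183162014445497215112 i) 72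
      (r + 2 ^ 14)))
    ((phlo 64 i (elo 1190183162014445497215107 i) (ehi 1190183162014445497215112 i) 72 r).drop 2)
    ((phhi 64 i (elo 1190183162014445497215107 i) (ehi 1190183162014445497215112 i) 72
      (r + 2 ^ 14)).drop 2) n 0 fa fb))

theorem cp_length {k : ℕ} (hk : k < 10) : (cp k).length = 11 := by interval_cases k <;> rfl

theorem cn_length {k : ℕ} (hk : k < 10) : (cn k).length = 11 := by interval_cases k <;> rfl

theorem gp_length : gp.length = 11 := rfl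

theorem gn_length : gn.length = 11 := rfl

/-- lower bound of a signed combination -/
theorem lin_lower {p n xl xh : List ℕ} {X : ℕ → ℝ} (hp : p.length = 11) (hn : n.length = 11)
    (hX0 : ∀ m, 0 ≤ X m) (hl : ∀ m < xl.length, (xl.getD m 0 : ℝ) ≤ X m)
    (hlen : 11 ≤ xh.length) (hh : ∀ m < xh.length, X m ≤ (xh.getD m 0 : ℝ)) :
    (dot p xl : ℝ) - (dot n xh : ℝ) ≤
      ∑ m ∈ Finset.range 11, ((p.getD m 0 : ℝ) - (n.getD m 0 : ℝ)) * X m := by
  have u1 := dot_le p xl X hX0 hl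
  have u2 := le_dot n xh X (by rw [hn]; exact hlen) fun m hm => hh m (by rw [hn] at hm; omega)
  rw [hp] at u1
  rw [hn] at u2
  have e2 : ∑ m ∈ Finset.range 11, ((p.getD m 0 : ℝ) - (n.getD m 0 : ℝ)) * X m =
      (∑ m ∈ Finset.range 11, (p.getD m 0 : ℝ) * X m) -
        ∑ m ∈ Finset.range 11, (n.getD m 0 : ℝ) * X m := by
    rw [← Finset.sum_sub_distrib]
    exact Finset.sum_congr rfl fun m _ => by ring
  rw [e2]
  linarith

/-- upper bound of a signed combination -/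
theorem lin_upper {p n xl xh : List ℕ} {X : ℕ → ℝ} (hp : p.length = 11) (hn : n.length = 11)
    (hX0 : ∀ m, 0 ≤ X m) (hl : ∀ m < xl.length, (xl.getD m 0 : ℝ) ≤ X m)
    (hlen : 11 ≤ xh.length) (hh : ∀ m < xh.length, X m ≤ (xh.getD m 0 : ℝ)) :
    ∑ m ∈ Finset.range 11, ((p.getD m 0 : ℝ) - (n.getD m 0 : ℝ)) * X m ≤
      (dot p xh : ℝ) - (dot n xl : ℝ) := by
  have h := lin_lower hn hp hX0 hl hlen hh
  have e2 : ∑ m ∈ Finset.range 11, ((p.getD m 0 : ℝ) - (n.getD m 0 : ℝ)) * X m =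
      -∑ m ∈ Finset.range 11, ((n.getD m 0 : ℝ) - (p.getD m 0 : ℝ)) * X m := by
    rw [← Finset.sum_neg_distrib]
    exact Finset.sum_congr rfl fun m _ => by ring
  rw [e2]
  linarith

theorem PPz_eq {z : ℝ} (hz : 0 < z) (k : ℕ) :
    2 ^ 81 * (den : ℝ) * (PP 0 k z + z * PP 1 k z) =
    ∑ m ∈ Finset.range 11, (((cp k).getD m 0 : ℝ) - ((cn k).getD m 0 : ℝ)) *
      (2 ^ 80 * (2 * Real.exp (-z) + ((m : ℝ) + 5) * phi (((m : ℝ) + 3) / 2) z)) := by
  unfold PP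
  rw [Finset.mul_sum, ← Finset.sum_add_distrib, Finset.mul_sum]
  refine Finset.sum_congr rfl fun m _ => ?_
  have h1 := phi_rec (((m : ℝ) + 3) / 2) hz
  rw [Nat.cast_zero, add_zero, Nat.cast_one]
  have h2 : z * phi (((m : ℝ) + 3) / 2 + 1) z =
      Real.exp (-z) + ((m : ℝ) + 3) / 2 * phi (((m : ℝ) + 3) / 2) z := h1
  unfold cc
  have := den_pos
  calc _ = 2 ^ 81 * (den : ℝ) * ((((cp k).getD m 0 : ℝ) - ((cn k).getD m 0 : ℝ)) / (den : ℝ)) *
        (phi (((m : ℝ) + 3) / 2) z + z * phi (((m : ℝ) + 3) / 2 + 1) z) := by ring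
    _ = _ := by
      rw [h2]
      field_simp
      try ring

theorem PP1_eq (z : ℝ) (k : ℕ) : 2 ^ 80 * (den : ℝ) * PP 1 k z =
    ∑ m ∈ Finset.range 11, (((cp k).getD m 0 : ℝ) - ((cn k).getD m 0 : ℝ)) *
      (2 ^ 80 * phi (((m : ℝ) + 5) / 2) z) := by
  unfold PP
  rw [Finset.mul_sum]
  refine Finset.sum_congr rfl fun m _ => ?_
  unfold cc
  have := den_pos
  rw [show ((m : ℝ) + 3) / 2 + (1 : ℕ) = ((m : ℝ) + 5) / 2 by push_cast; ring]
  field_simp

theorem EE0_eq (z : ℝ) : 2 ^ 80 * (den : ℝ) * EE 0 z =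
    10 * ∑ m ∈ Finset.range 11, ((gp.getD m 0 : ℝ) - (gn.getD m 0 : ℝ)) *
      (2 ^ 80 * phi (((m : ℝ) + 3) / 2) z) := by
  unfold EE
  rw [Finset.mul_sum, Finset.mul_sum]
  refine Finset.sum_congr rfl fun m _ => ?_
  unfold gg
  have := den_pos
  rw [Nat.cast_zero, add_zero]
  field_simp

theorem EE1_eq (z : ℝ) : 2 ^ 80 * (den : ℝ) * EE 1 z =
    10 * ∑ m ∈ Finset.range 11, ((gp.getD m 0 : ℝ) - (gn.getD m 0 : ℝ)) *
      (2 ^ 80 * phi (((m : ℝ) + 5) / 2) z) := by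
  unfold EE
  rw [Finset.mul_sum, Finset.mul_sum]
  refine Finset.sum_congr rfl fun m _ => ?_
  unfold gg
  have := den_pos
  rw [show ((m : ℝ) + 3) / 2 + (1 : ℕ) = ((m : ℝ) + 5) / 2 by push_cast; ring]
  field_simp

section
variable {d i el eh n r : ℕ} (h : Dat d i el eh n r)
include h

theorem X3_lo : ∀ m < (phlo d i el eh n r).length,
    ((phlo d i el eh n r).getD m 0 : ℝ) ≤ 2 ^ 80 * phi (((m : ℝ) + 3) / 2) ((i : ℝ) / d) :=
  fun m hm => phlo_le h (by rwa [phlo_length] at hm)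

theorem X3_hi : ∀ m < (phhi d i el eh n (r + 2 ^ 14)).length,
    2 ^ 80 * phi (((m : ℝ) + 3) / 2) ((i : ℝ) / d) ≤
      ((phhi d i el eh n (r + 2 ^ 14)).getD m 0 : ℝ) :=
  fun m hm => le_phhi h (by rwa [phhi_length] at hm)

theorem X5_lo : ∀ m < ((phlo d i el eh n r).drop 2).length,
    (((phlo d i el eh n r).drop 2).getD m 0 : ℝ) ≤
      2 ^ 80 * phi (((m : ℝ) + 5) / 2) ((i : ℝ) / d) := fun m hm => by
  rw [List.length_drop, phlo_length] at hm
  rw [getD_drop2]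
  have p1 := phlo_le h (m := m + 2) (by omega)
  rwa [show (((m + 2 : ℕ) : ℝ) + 3) / 2 = ((m : ℝ) + 5) / 2 by push_cast; ring] at p1

theorem X5_hi : ∀ m < ((phhi d i el eh n (r + 2 ^ 14)).drop 2).length,
    2 ^ 80 * phi (((m : ℝ) + 5) / 2) ((i : ℝ) / d) ≤
      (((phhi d i el eh n (r + 2 ^ 14)).drop 2).getD m 0 : ℝ) := fun m hm => by
  rw [List.length_drop, phhi_length] at hm
  rw [getD_drop2]
  have p1 := le_phhi h (m := m + 2) (by omega)
  rwa [show (((m + 2 : ℕ) : ℝ) + 3) / 2 = ((m : ℝ) + 5) / 2 by push_cast; ring] at p1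

theorem U_lo : ∀ m < (lin5 el 0 (phlo d i el eh n r)).length,
    ((lin5 el 0 (phlo d i el eh n r)).getD m 0 : ℝ) ≤
      2 ^ 80 * (2 * Real.exp (-((i : ℝ) / d)) +
      ((m : ℝ) + 5) * phi (((m : ℝ) + 3) / 2) ((i : ℝ) / d)) := fun m hm => by
  rw [lin5_length, phlo_length] at hm
  rw [lin5_getD _ _ _ _ (by rw [phlo_length]; exact hm)]
  have p1 := phlo_le h hm
  have p2 := h.h1
  push_cast
  have p3 : ((m : ℝ) + 5) * ((phlo d i el eh n r).getD m 0 : ℝ) ≤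
      ((m : ℝ) + 5) * (2 ^ 80 * phi (((m : ℝ) + 3) / 2) ((i : ℝ) / d)) :=
    mul_le_mul_of_nonneg_left p1 (by positivity)
  rw [zero_add]
  linarith

theorem U_hi : ∀ m < (lin5 eh 0 (phhi d i el eh n (r + 2 ^ 14))).length,
    2 ^ 80 * (2 * Real.exp (-((i : ℝ) / d)) +
      ((m : ℝ) + 5) * phi (((m : ℝ) + 3) / 2) ((i : ℝ) / d)) ≤
      ((lin5 eh 0 (phhi d i el eh n (r + 2 ^ 14))).getD m 0 : ℝ) := fun m hm => by
  rw [lin5_length, phhi_length] at hm
  rw [lin5_getD _ _ _ _ (by rw [phhi_length]; exact hm)]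
  have p1 := le_phhi h hm
  have p2 := h.h2
  push_cast
  have p3 : ((m : ℝ) + 5) * (2 ^ 80 * phi (((m : ℝ) + 3) / 2) ((i : ℝ) / d)) ≤
      ((m : ℝ) + 5) * ((phhi d i el eh n (r + 2 ^ 14)).getD m 0 : ℝ) :=
    mul_le_mul_of_nonneg_left p1 (by positivity)
  rw [zero_add]
  push_cast at p3
  linarith

omit h in
theorem X3_nn (m : ℕ) : 0 ≤ 2 ^ 80 * phi (((m : ℝ) + 3) / 2) ((i : ℝ) / d) := by
  have := phi_nonneg (((m : ℝ) + 3) / 2) ((i : ℝ) / d)
  positivity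

omit h in
theorem X5_nn (m : ℕ) : 0 ≤ 2 ^ 80 * phi (((m : ℝ) + 5) / 2) ((i : ℝ) / d) := by
  have := phi_nonneg (((m : ℝ) + 5) / 2) ((i : ℝ) / d)
  positivity

omit h in
theorem U_nn (m : ℕ) : 0 ≤ 2 ^ 80 * (2 * Real.exp (-((i : ℝ) / d)) +
    ((m : ℝ) + 5) * phi (((m : ℝ) + 3) / 2) ((i : ℝ) / d)) := by
  have := phi_nonneg (((m : ℝ) + 3) / 2) ((i : ℝ) / d)
  have := Real.exp_pos (-((i : ℝ) / d))
  positivity

theorem achk_sound {w : ℕ} (hc : achk ((phlo d i el eh n r).drop 2)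
    ((phhi d i el eh n (r + 2 ^ 14)).drop 2) w = true) :
    25 * EE 1 ((i : ℝ) / d) ≤ 84 * ((w : ℝ) / 2 ^ 20) * (7 / 10 * phi (5 / 2) ((i : ℝ) / d)) ∧
      (w : ℝ) / 2 ^ 20 < 1 := by
  unfold achk at hc
  rw [Bool.and_eq_true, Nat.ble_eq] at hc
  obtain ⟨c1, c2⟩ := hc
  have c2' : w < 2 ^ 20 := Nat.le_of_ble_eq_true c2
  have c1' : (2500 : ℝ) * 2 ^ 20 * (dot gp ((phhi d i el eh n (r + 2 ^ 14)).drop 2) : ℝ) ≤
      2500 * 2 ^ 20 * (dot gn ((phlo d i el eh n r).drop 2) : ℝ) +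
        588 * w * (den : ℝ) * (((phlo d i el eh n r).drop 2).getD 0 0 : ℝ) := by exact_mod_cast c1
  have hD := den_pos
  have l1 := X5_lo h 0 (by rw [List.length_drop, phlo_length]; norm_num)
  rw [Nat.cast_zero, zero_add] at l1
  have hu := lin_upper (p := gp) (n := gn) gp_length gn_length X5_nn (X5_lo h)
    (by rw [List.length_drop, phhi_length]) (X5_hi h)
  have e := EE1_eq ((i : ℝ) / d)
  constructor
  · have l2 := mul_le_mul_of_nonneg_left l1 (show (0 : ℝ) ≤ 588 * w * (den : ℝ) by positivity)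
    have q : 2 ^ 20 * 10 * (2 ^ 80 * (den : ℝ)) * (25 * EE 1 ((i : ℝ) / d)) ≤
        2 ^ 20 * 10 * (2 ^ 80 * (den : ℝ)) *
          (84 * ((w : ℝ) / 2 ^ 20) * (7 / 10 * phi (5 / 2) ((i : ℝ) / d))) := by
      have e1 : 2 ^ 20 * 10 * (2 ^ 80 * (den : ℝ)) * (25 * EE 1 ((i : ℝ) / d)) =
          250 * 2 ^ 20 * (2 ^ 80 * (den : ℝ) * EE 1 ((i : ℝ) / d)) := by ring
      have e2 : 2 ^ 20 * 10 * (2 ^ 80 * (den : ℝ)) *
          (84 * ((w : ℝ) / 2 ^ 20) * (7 / 10 * phi (5 / 2) ((i : ℝ) / d))) =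
          588 * w * (den : ℝ) * (2 ^ 80 * phi (5 / 2) ((i : ℝ) / d)) := by ring
      rw [e1, e2, e]
      generalize (588 * w * (den : ℝ) * (2 ^ 80 * phi (5 / 2) ((i : ℝ) / d))) = R at l2 ⊢
      generalize (588 * w * (den : ℝ) * (((phlo d i el eh n r).drop 2).getD 0 0 : ℝ)) = Q at l2 c1'
      generalize (∑ m ∈ Finset.range 11, ((gp.getD m 0 : ℝ) - (gn.getD m 0 : ℝ)) *
        (2 ^ 80 * phi (((m : ℝ) + 5) / 2) ((i : ℝ) / d))) = S at hu ⊢
      linarith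
    exact le_of_mul_le_mul_left q (by positivity)
  · rw [div_lt_one (by positivity)]
    exact_mod_cast c2'

omit h in
theorem gsel_eq (k x : ℕ) : (gsel k x : ℝ) = 10 * gam k * x := by
  unfold gsel gam
  split <;> simp

theorem field_sound2 {k : ℕ} (hk : k < 10) {w a b : ℕ}
    (hc : fchk2 (phlo d i el eh n r) (phhi d i el eh n (r + 2 ^ 14))
      (lin5 el 0 (phlo d i el eh n r)) (lin5 eh 0 (phhi d i el eh n (r + 2 ^ 14)))
      ((phlo d i el eh n r).drop 2) ((phhi d i el eh n (r + 2 ^ 14)).drop 2) w k a b = true) :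
    (a : ℝ) ≤ 2 ^ 40 * al2 k ((w : ℝ) / 2 ^ 20) ((i : ℝ) / d) ∧
      2 ^ 40 * PP 1 k ((i : ℝ) / d) ≤ (b : ℝ) ∧ a < 2 ^ 64 ∧ b < 2 ^ 64 := by
  have hd' : (0 : ℝ) < d := by exact_mod_cast h.hd
  have hi' : (0 : ℝ) < i := by exact_mod_cast h.hi
  have hz : (0 : ℝ) < (i : ℝ) / d := by positivity
  unfold fchk2 at hc
  rw [Bool.and_eq_true, Bool.and_eq_true, Bool.and_eq_true, Nat.ble_eq, Nat.ble_eq] at hc
  obtain ⟨⟨⟨c1, c2⟩, c3⟩, c4⟩ := hc
  have hD := den_pos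
  refine ⟨?_, ?_, Nat.le_of_ble_eq_true c3, Nat.le_of_ble_eq_true c4⟩
  · have hC := lin_lower (cp_length hk) (cn_length hk) (U_nn (i := i) (d := d)) (U_lo h)
      (by rw [lin5_length, phhi_length]; norm_num) (U_hi h)
    have hG := lin_upper gp_length gn_length (X3_nn (i := i) (d := d)) (X3_lo h)
      (by rw [phhi_length]; norm_num) (X3_hi h)
    have hH := lin_upper (hp_length hk) (hn_length hk) (X3_nn (i := i) (d := d)) (X3_lo h)
      (by rw [phhi_length]; norm_num) (X3_hi h)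
    rw [← PPz_eq hz k] at hC
    rw [← up_eq] at hH
    have e0 := EE0_eq ((i : ℝ) / d)
    have c1' := (Nat.cast_le (α := ℝ)).mpr c1
    push_cast at c1'
    rw [gsel_eq, gsel_eq] at c1'
    push_cast at c1'
    generalize (dot (cp k) (lin5 el 0 (phlo d i el eh n r)) : ℝ) = C1 at hC c1'
    generalize (dot (cn k) (lin5 eh 0 (phhi d i el eh n (r + 2 ^ 14))) : ℝ) = C2 at hC c1'
    generalize (dot gp (phhi d i el eh n (r + 2 ^ 14)) : ℝ) = G1 at hG c1'
    generalize (dot gn (phlo d i el eh n r) : ℝ) = G2 at hG c1'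
    generalize (dot (hp k) (phhi d i el eh n (r + 2 ^ 14)) : ℝ) = H1 at hH c1'
    generalize (dot (hn k) (phlo d i el eh n r) : ℝ) = H2 at hH c1'
    generalize (∑ m ∈ Finset.range 11, ((gp.getD m 0 : ℝ) - (gn.getD m 0 : ℝ)) *
        (2 ^ 80 * phi (((m : ℝ) + 3) / 2) ((i : ℝ) / d))) = G at hG e0
    have hg := gam_nonneg k
    have f1 : 10 * gam k * (2 * G) ≤ 10 * gam k * (2 * (G1 - G2)) :=
      mul_le_mul_of_nonneg_left (by linarith) (by positivity)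
    have f2 : 2 * (w : ℝ) ^ 2 * (2 ^ 80 * (den : ℝ) * up k ((i : ℝ) / d)) ≤
        2 * (w : ℝ) ^ 2 * (H1 - H2) := mul_le_mul_of_nonneg_left hH (by positivity)
    have e1 : 2 ^ 81 * (den : ℝ) * (2 ^ 40 * al2 k ((w : ℝ) / 2 ^ 20) ((i : ℝ) / d)) =
        2 ^ 40 * (2 ^ 81 * (den : ℝ) * (PP 0 k ((i : ℝ) / d) +
          (i : ℝ) / d * PP 1 k ((i : ℝ) / d))) - 2 ^ 40 * (10 * gam k * (2 * G)) -
        2 * (w : ℝ) ^ 2 * (2 ^ 80 * (den : ℝ) * up k ((i : ℝ) / d)) := by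
      unfold al2
      have e2 : G = 2 ^ 80 * (den : ℝ) * EE 0 ((i : ℝ) / d) / 10 := by linarith
      rw [e2]
      ring
    have e3 : 2 ^ 81 * (den : ℝ) * (a : ℝ) ≤
        2 ^ 81 * (den : ℝ) * (2 ^ 40 * al2 k ((w : ℝ) / 2 ^ 20) ((i : ℝ) / d)) := by
      rw [e1]
      generalize (2 : ℝ) ^ 81 * (den : ℝ) * (PP 0 k ((i : ℝ) / d) +
          (i : ℝ) / d * PP 1 k ((i : ℝ) / d)) = C at hC ⊢
      generalize 2 * (w : ℝ) ^ 2 * (2 ^ 80 * (den : ℝ) * up k ((i : ℝ) / d)) = H at f2 ⊢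
      nlinarith
    exact le_of_mul_le_mul_left e3 (by positivity)
  · have hC := lin_upper (cp_length hk) (cn_length hk) (X5_nn (i := i) (d := d)) (X5_lo h)
      (by rw [List.length_drop, phhi_length]) (X5_hi h)
    rw [← PP1_eq] at hC
    have c2' := (Nat.cast_le (α := ℝ)).mpr c2
    push_cast at c2'
    have e3 : 2 ^ 40 * (den : ℝ) * (2 ^ 40 * PP 1 k ((i : ℝ) / d)) ≤
        2 ^ 40 * (den : ℝ) * (b : ℝ) := by
      linarith
    exact le_of_mul_le_mul_left e3 (by positivity)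

theorem rowgo2_sound {w : ℕ} :
    ∀ (fa fb : List ℕ) (k : ℕ), fa.length = fb.length → k + fa.length ≤ 10 →
    rowgo2 (phlo d i el eh n r) (phhi d i el eh n (r + 2 ^ 14))
      (lin5 el 0 (phlo d i el eh n r)) (lin5 eh 0 (phhi d i el eh n (r + 2 ^ 14)))
      ((phlo d i el eh n r).drop 2) ((phhi d i el eh n (r + 2 ^ 14)).drop 2) w k fa fb = true →
    ∀ j < fa.length, ((fa.getD j 0 : ℕ) : ℝ) ≤
        2 ^ 40 * al2 (k + j) ((w : ℝ) / 2 ^ 20) ((i : ℝ) / d) ∧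
      2 ^ 40 * PP 1 (k + j) ((i : ℝ) / d) ≤ ((fb.getD j 0 : ℕ) : ℝ) ∧
      fa.getD j 0 < 2 ^ 64 ∧ fb.getD j 0 < 2 ^ 64
  | [], _, _, _, _, _ => fun j hj => by simp at hj
  | a :: as, [], _, hl, _, _ => by simp at hl
  | a :: as, b :: bs, k, hl, hk, hc => by
    rw [rowgo2, Bool.and_eq_true] at hc
    obtain ⟨h1, h2⟩ := hc
    rw [List.length_cons] at hk
    intro j hj
    cases j with
    | zero =>
      simp only [List.getD_cons_zero, add_zero]
      exact field_sound2 h (by omega) h1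
    | succ j =>
      have ih := rowgo2_sound as bs (k + 1) (by simpa using hl) (by omega) h2 j (by simpa using hj)
      simp only [List.getD_cons_succ]
      rw [show k + (j + 1) = k + 1 + j by ring]
      exact ih

end

end Pool.Agent.Lib.EPS
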