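import Pool.Agent.Lib.EPS.ConD
import Pool.Agent.Lib.EPS.NumF

/-!
# The numbers of the constant: `2^40 shells k ≤ U_k`
-/

open MeasureTheory Set

namespace Pool.Agent.Lib.EPS

theorem dat5 {i r : ℕ} (hi : 0 < i) (hr : rchk 5 i r = true) :
    Dat 5 i (elo 989784746708501796430577 i) (ehi 989784746708501796430582 i) 120 r := by
  refine ⟨by norm_num, hi, ?_, ?_, hr⟩
  · have := elo_le (i := i) e5lo
    rw [mul_one_div] at this
    exact this
  · have := le_ehi (i := i) e5hi
    rw [mul_one_div] at this
    exact this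

/-- positive part at `z = i / 5` -/
def hiv (k i r : Nat) : Nat :=
  dot (hp k) (phhi 5 i (elo 989784746708501796430577 i) (ehi 989784746708501796430582 i) 120
    (r + 2 ^ 14))

/-- negative part at `z = i / 5` -/
def lov (k i r : Nat) : Nat :=
  dot (hn k) (phlo 5 i (elo 989784746708501796430577 i) (ehi 989784746708501796430582 i) 120 r)

theorem up_hiv {k i r : ℕ} (hk : k < 10) (hi : 0 < i) (hr : rchk 5 i r = true) {z : ℝ}
    (hz : z = (i : ℝ) / (5 : ℕ)) :
    2 ^ 80 * (den : ℝ) * up k z ≤ (hiv k i r : ℝ) - (lov k i r : ℝ) := by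
  have D := dat5 hi hr
  have hH := lin_upper (hp_length hk) (hn_length hk) (X3_nn (i := i) (d := 5)) (X3_lo D)
    (by rw [phhi_length]; norm_num) (X3_hi D)
  rw [← up_eq, ← hz] at hH
  exact hH

/-- the check of the ten roots -/
theorem roots5 : (rchk 5 8 1694004650054165827071417 && rchk 5 16 1197842175414845047411796 &&
    rchk 5 24 978034040717250431678864 && rchk 5 32 847002325027082913535708 &&
    rchk 5 40 757581910344371518225683 && rchk 5 48 691574502422447712990860 &&
    rchk 5 56 640273574832903174092154 && rchk 5 64 598921087707422523705898 &&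
    rchk 5 72 564668216684721942357139 && rchk 5 80 535691306108764175626250) = true := by
  decide +kernel

/-- the check of the numbers of field `k` -/
def cchk (k U : Nat) : Bool :=
  Nat.ble (12 * hiv k 8 1694004650054165827071417 + 6 * hiv k 16 1197842175414845047411796 +
      24 * hiv k 24 978034040717250431678864 + 12 * hiv k 32 847002325027082913535708 +
      24 * hiv k 40 757581910344371518225683 + 8 * hiv k 48 691574502422447712990860 +
      48 * hiv k 56 640273574832903174092154 + 6 * hiv k 64 598921087707422523705898 +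
      36 * hiv k 72 564668216684721942357139 + 24 * hiv k 80 535691306108764175626250)
    (U * (2 ^ 40 * den) +
      (12 * lov k 8 1694004650054165827071417 + 6 * lov k 16 1197842175414845047411796 +
      24 * lov k 24 978034040717250431678864 + 12 * lov k 32 847002325027082913535708 +
      24 * lov k 40 757581910344371518225683 + 8 * lov k 48 691574502422447712990860 +
      48 * lov k 56 640273574832903174092154 + 6 * lov k 64 598921087707422523705898 +
      36 * lov k 72 564668216684721942357139 + 24 * lov k 80 535691306108764175626250))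

theorem connk {k U : ℕ} (hk : k < 10) (h : cchk k U = true) : 2 ^ 40 * shells k ≤ (U : ℝ) := by
  have hr := roots5
  rw [Bool.and_eq_true, Bool.and_eq_true, Bool.and_eq_true, Bool.and_eq_true, Bool.and_eq_true,
    Bool.and_eq_true, Bool.and_eq_true, Bool.and_eq_true, Bool.and_eq_true] at hr
  obtain ⟨⟨⟨⟨⟨⟨⟨⟨⟨r1, r2⟩, r3⟩, r4⟩, r5⟩, r6⟩, r7⟩, r8⟩, r9⟩, r10⟩ := hr
  have u1 := up_hiv hk (by norm_num) r1 (z := 8 / 5) (by norm_num)
  have u2 := up_hiv hk (by norm_num) r2 (z := 16 / 5) (by norm_num)
  have u3 := up_hiv hk (by norm_num) r3 (z := 24 / 5) (by norm_num)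
  have u4 := up_hiv hk (by norm_num) r4 (z := 32 / 5) (by norm_num)
  have u5 := up_hiv hk (by norm_num) r5 (z := 8) (by norm_num)
  have u6 := up_hiv hk (by norm_num) r6 (z := 48 / 5) (by norm_num)
  have u7 := up_hiv hk (by norm_num) r7 (z := 56 / 5) (by norm_num)
  have u8 := up_hiv hk (by norm_num) r8 (z := 64 / 5) (by norm_num)
  have u9 := up_hiv hk (by norm_num) r9 (z := 72 / 5) (by norm_num)
  have u10 := up_hiv hk (by norm_num) r10 (z := 16) (by norm_num)
  unfold cchk at h
  rw [Nat.ble_eq] at h
  have h' := (Nat.cast_le (α := ℝ)).mpr h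
  push_cast at h'
  have hD := den_pos
  have e : 2 ^ 40 * (den : ℝ) * (2 ^ 40 * shells k) ≤ 2 ^ 40 * (den : ℝ) * (U : ℝ) := by
    unfold shells
    linarith
  exact le_of_mul_le_mul_left e (by positivity)

theorem cchk_all : (cchk 0 1568421409059 && cchk 1 1375891507002 && cchk 2 1262620076418 &&
    cchk 3 1209787948500 && cchk 4 1209446230464 && cchk 5 1265730986749 &&
    cchk 6 1386511150528 && cchk 7 1605771766446 && cchk 8 1970866320145 &&
    cchk 9 2673382418367) = true := by
  decide +kernel

theorem conn : ∀ k < 10, 2 ^ 40 * shells k ≤ (UU k : ℝ) := by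
  have hr := cchk_all
  rw [Bool.and_eq_true, Bool.and_eq_true, Bool.and_eq_true, Bool.and_eq_true, Bool.and_eq_true,
    Bool.and_eq_true, Bool.and_eq_true, Bool.and_eq_true, Bool.and_eq_true] at hr
  obtain ⟨⟨⟨⟨⟨⟨⟨⟨⟨r0, r1⟩, r2⟩, r3⟩, r4⟩, r5⟩, r6⟩, r7⟩, r8⟩, r9⟩ := hr
  intro k hk
  interval_cases k
  · exact connk (by norm_num) r0
  · exact connk (by norm_num) r1
  · exact connk (by norm_num) r2
  · exact connk (by norm_num) r3
  · exact connk (by norm_num) r4
  · exact connk (by norm_num) r5
  · exact connk (by norm_num) r6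
  · exact connk (by norm_num) r7
  · exact connk (by norm_num) r8
  · exact connk (by norm_num) r9

end Pool.Agent.Lib.EPS
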