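import Pool.Agent.Lib.EPS.ConM
import Pool.Agent.Lib.EPS.ConN

/-!
# EPS.ConH: the packed upper bound of the energy of the face-centred cubic form
-/

set_option autoImplicit false

namespace Pool.Agent.Lib.EPS

theorem hM : MGood M0 := mgood_of conn

end Pool.Agent.Lib.EPS
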