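import Pool.Agent.Lib.EPS.Phi

/-!
# The direct part at the face-centred cubic form: finitely many shells and a tail

`(7/10)^(2s-2) Dir s G0 ≤ ∑_{j=1}^{10} r_j (7/10)^(2s-2) phi s (8 j / 5) + 4e-8`, `3/2 ≤ s ≤ 6`,
with the numbers `r_j` of vectors of norm `2 j`.
-/

set_option autoImplicit false

open MeasureTheory Set Filter Topology Matrix

namespace Pool.Agent.Lib.EPS

open Pool.Agent.Lib.EpZ Pool.Agent.Lib.FCC

namespace ConLAux

/-! ### numbers -/

/-- sum of three squares -/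
def q3 (t : ℤ × ℤ × ℤ) : ℤ := t.1 ^ 2 + t.2.1 ^ 2 + t.2.2 ^ 2

/-- a box -/
noncomputable def box : Finset (ℤ × ℤ × ℤ) :=
  Finset.Icc (-5) 5 ×ˢ (Finset.Icc (-5) 5 ×ˢ Finset.Icc (-5) 5)

/-- the vectors in the box which belong to the lattice -/
noncomputable def bx : Finset (ℤ × ℤ × ℤ) := box.filter fun t => q3 t % 2 = 0 ∧ 1 ≤ q3 t

/-- half of the norm, truncated -/
def val (t : ℤ × ℤ × ℤ) : ℕ := min (q3 t / 2).toNat 15

theorem c0' : (bx.filter fun t => val t = 0).card = 0 := by decide +kernel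
theorem c1 : (bx.filter fun t => val t = 1).card = 12 := by decide +kernel
theorem c2 : (bx.filter fun t => val t = 2).card = 6 := by decide +kernel
theorem c3 : (bx.filter fun t => val t = 3).card = 24 := by decide +kernel
theorem c4 : (bx.filter fun t => val t = 4).card = 12 := by decide +kernel
theorem c5 : (bx.filter fun t => val t = 5).card = 24 := by decide +kernel
theorem c6 : (bx.filter fun t => val t = 6).card = 8 := by decide +kernel
theorem c7 : (bx.filter fun t => val t = 7).card = 48 := by decide +kernel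
theorem c8 : (bx.filter fun t => val t = 8).card = 6 := by decide +kernel
theorem c9 : (bx.filter fun t => val t = 9).card = 36 := by decide +kernel
theorem c10 : (bx.filter fun t => val t = 10).card = 24 := by decide +kernel
theorem c11 : (bx.filter fun t => val t = 11).card = 24 := by decide +kernel
theorem c12 : (bx.filter fun t => val t = 12).card = 24 := by decide +kernel
theorem c13 : (bx.filter fun t => val t = 13).card = 72 := by decide +kernel
theorem c14 : (bx.filter fun t => val t = 14).card = 0 := by decide +kernel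
theorem c15 : (bx.filter fun t => val t = 15).card = 344 := by decide +kernel

theorem exp_a : Real.exp (-(8 / 5)) ≤ 202 / 1000 := by
  have h1 := Real.sum_le_exp_of_nonneg (x := 8 / 5) (by norm_num) 10
  have h2 : (1000:ℝ) / 202 ≤ Real.exp (8 / 5) := by
    refine le_trans ?_ h1
    norm_num [Finset.sum_range_succ, Nat.factorial]
  rw [Real.exp_neg]
  have h3 : (Real.exp (8 / 5))⁻¹ ≤ ((1000:ℝ) / 202)⁻¹ := inv_anti₀ (by norm_num) h2
  refine h3.trans ?_
  norm_num

theorem exp_b : Real.exp (-(1 / 5)) ≤ 819 / 1000 := by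
  have h1 := Real.sum_le_exp_of_nonneg (x := 1 / 5) (by norm_num) 6
  have h2 : (1000:ℝ) / 819 ≤ Real.exp (1 / 5) := by
    refine le_trans ?_ h1
    norm_num [Finset.sum_range_succ, Nat.factorial]
  rw [Real.exp_neg]
  have h3 : (Real.exp (1 / 5))⁻¹ ≤ ((1000:ℝ) / 819)⁻¹ := inv_anti₀ (by norm_num) h2
  refine h3.trans ?_
  norm_num

theorem exp_c : Real.exp (1 / 10) ≤ 10 / 9 := by
  have h := Real.exp_bound_div_one_sub_of_interval (x := 1 / 10) (by norm_num) (by norm_num)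
  norm_num at h ⊢
  exact h

/-! ### the kernel -/

/-- all powers between `ρ` and `ρ^10` -/
theorem wt_phi_le {s z : ℝ} (h1 : 3 / 2 ≤ s) (h2 : s ≤ 6) (hz : 0 < z) :
    (7 / 10 : ℝ) ^ (2 * s - 2) * phi s z ≤ 7 / 10 * phi (3 / 2) z + (7 / 10) ^ 10 * phi 6 z := by
  have i1 := (phi_int (3 / 2) hz).const_mul (7 / 10)
  have i2 := (phi_int 6 hz).const_mul ((7 / 10 : ℝ) ^ 10)
  unfold phi
  rw [← integral_const_mul, ← integral_const_mul, ← integral_const_mul, ← integral_add i1 i2]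
  refine setIntegral_mono_on ((phi_int s hz).const_mul _) (i1.add i2) measurableSet_Ioi
    fun w hw => ?_
  have hw1 : (1:ℝ) < w := hw
  have hw0 : 0 < w := by linarith
  set r : ℝ := 7 / 10 * w ^ ((1:ℝ) / 2) with hr
  have hr0 : 0 < r := by positivity
  have e1 : (7 / 10 : ℝ) ^ (2 * s - 2) * w ^ (s - 1) = r ^ (2 * s - 2) := by
    rw [hr, Real.mul_rpow (by norm_num) (by positivity), ← Real.rpow_mul hw0.le]
    congr 2; ring
  have e2 : 7 / 10 * w ^ ((3:ℝ) / 2 - 1) = r := by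
    rw [hr]; norm_num
  have e3 : (7 / 10 : ℝ) ^ 10 * w ^ ((6:ℝ) - 1) = r ^ 10 := by
    rw [hr, mul_pow, ← Real.rpow_natCast (w ^ ((1:ℝ) / 2)) 10, ← Real.rpow_mul hw0.le]
    norm_num
  have h3 : r ^ (2 * s - 2) ≤ r + r ^ 10 := by
    rcases le_total r 1 with h | h
    · have h4 : r ^ (2 * s - 2) ≤ r ^ (1:ℝ) :=
        Real.rpow_le_rpow_of_exponent_ge hr0 h (by linarith)
      rw [Real.rpow_one] at h4
      have : 0 < r ^ 10 := by positivity
      linarith
    · have h4 : r ^ (2 * s - 2) ≤ r ^ ((10:ℕ):ℝ) :=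
        Real.rpow_le_rpow_of_exponent_le h (by push_cast; linarith)
      rw [Real.rpow_natCast] at h4
      linarith
  have hE := (Real.exp_pos (-(z * w))).le
  calc (7 / 10 : ℝ) ^ (2 * s - 2) * (Real.exp (-(z * w)) * w ^ (s - 1))
      = Real.exp (-(z * w)) * ((7 / 10 : ℝ) ^ (2 * s - 2) * w ^ (s - 1)) := by ring
    _ ≤ Real.exp (-(z * w)) * (r + r ^ 10) := by
        rw [e1]; exact mul_le_mul_of_nonneg_left h3 hE
    _ = Real.exp (-(z * w)) * (7 / 10 * w ^ ((3:ℝ) / 2 - 1) +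
          (7 / 10 : ℝ) ^ 10 * w ^ ((6:ℝ) - 1)) := by rw [e2, e3]
    _ = _ := by ring

theorem phi_two {z : ℝ} (hz : 0 < z) : phi 2 z = Real.exp (-z) * (1 / z + 1 / z ^ 2) := by
  have h := phi_rec 1 hz
  rw [show (1:ℝ) + 1 = 2 by norm_num, phi_one hz] at h
  have : phi 2 z = (z * phi 2 z) / z := by field_simp
  rw [this, h]
  field_simp

theorem phi_six_at : phi 6 (88 / 5) ≤ Real.exp (-(88 / 5)) * (774 / 10000) := by
  have hz : (0:ℝ) < 88 / 5 := by norm_num
  have h1 := phi_one hz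
  have h2 := phi_rec 1 hz
  have h3 := phi_rec 2 hz
  have h4 := phi_rec 3 hz
  have h5 := phi_rec 4 hz
  have h6 := phi_rec 5 hz
  norm_num at h1 h2 h3 h4 h5 h6
  set E := Real.exp (-(88 / 5)) with hE
  have hE0 : 0 < E := Real.exp_pos _
  have h1' : phi 1 (88 / 5) = 5 / 88 * E := by rw [h1]; ring
  linarith

theorem wt_phi_at {s : ℝ} (h1 : 3 / 2 ≤ s) (h2 : s ≤ 6) :
    (7 / 10 : ℝ) ^ (2 * s - 2) * phi s (88 / 5) ≤ 102 / 10 ^ 11 := by
  have hz : (0:ℝ) < 88 / 5 := by norm_num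
  have h3 := wt_phi_le h1 h2 hz
  have h4 := phi_mono hz (show (3 / 2 : ℝ) ≤ 2 by norm_num)
  rw [phi_two hz] at h4
  have h5 := phi_six_at
  have h6 : Real.exp (-(88 / 5)) ≤ (202 / 1000) ^ 11 := by
    have : Real.exp (-(88 / 5)) = Real.exp (-(8 / 5)) ^ 11 := by
      rw [← Real.exp_nat_mul]; norm_num
    rw [this]
    exact pow_le_pow_left₀ (Real.exp_pos _).le exp_a 11
  have h7 : 0 < Real.exp (-(88 / 5)) := Real.exp_pos _
  norm_num at h4 h6 ⊢
  norm_num at h3
  nlinarith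

/-- the exponential decay in `z` -/
theorem phi_le_exp {s z z' : ℝ} (hz : 0 < z) (h : z ≤ z') :
    phi s z' ≤ Real.exp (-(z' - z)) * phi s z := by
  unfold phi
  rw [← integral_const_mul]
  refine setIntegral_mono_on (phi_int s (lt_of_lt_of_le hz h)) ((phi_int s hz).const_mul _)
    measurableSet_Ioi fun w hw => ?_
  have hw1 : (1:ℝ) < w := hw
  have hw0 : 0 < w := by linarith
  rw [← mul_assoc, ← Real.exp_add]
  refine mul_le_mul_of_nonneg_right (Real.exp_le_exp.mpr ?_) (by positivity)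
  nlinarith

/-! ### the sum of Gaussians -/

theorem gauss_bound : ∃ S : ℝ, HasSum (fun n : ℤ => Real.exp (-(1 / 10 * (n:ℝ) ^ 2))) S ∧
    S ≤ 112 / 10 := by
  set r := Real.exp (-(1 / 5)) with hr
  have hr0 : 0 < r := Real.exp_pos _
  have hr1 : r ≤ 819 / 1000 := exp_b
  have g := hasSum_geometric_of_lt_one hr0.le (lt_of_le_of_lt hr1 (by norm_num))
  have h1 : HasSum (fun n : ℤ => r ^ n.natAbs) ((1 - r)⁻¹ + r * (1 - r)⁻¹) := by
    refine HasSum.of_nat_of_neg_add_one ?_ ?_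
    · simpa using g
    · refine (g.mul_left r).congr_fun fun n => ?_
      have : (-((n:ℤ) + 1)).natAbs = n + 1 := by omega
      rw [this, pow_succ]; ring
  have h2 := h1.mul_left (Real.exp (1 / 10))
  have h3 : ∀ n : ℤ, Real.exp (-(1 / 10 * (n:ℝ) ^ 2)) ≤ Real.exp (1 / 10) * r ^ n.natAbs := by
    intro n
    rw [hr, ← Real.exp_nat_mul, ← Real.exp_add]
    apply Real.exp_le_exp.mpr
    have h4 : ((n.natAbs : ℕ) : ℝ) ^ 2 = (n:ℝ) ^ 2 := by
      rw [Nat.cast_natAbs, Int.cast_abs, sq_abs]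
    nlinarith [sq_nonneg ((n.natAbs : ℝ) - 1)]
  have hs : Summable (fun n : ℤ => Real.exp (-(1 / 10 * (n:ℝ) ^ 2))) :=
    Summable.of_nonneg_of_le (fun n => (Real.exp_pos _).le) h3 h2.summable
  refine ⟨_, hs.hasSum, ?_⟩
  have h5 := hs.tsum_le_tsum h3 h2.summable
  rw [h2.tsum_eq] at h5
  refine h5.trans ?_
  have h6 := exp_c
  have h7 : 0 < 1 - r := by linarith
  have h8 : (1 - r)⁻¹ + r * (1 - r)⁻¹ ≤ 1819 / 181 := by
    have : (1 - r)⁻¹ + r * (1 - r)⁻¹ = (1 + r) / (1 - r) := by field_simp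
    rw [this, div_le_div_iff₀ h7 (by norm_num)]
    linarith
  calc Real.exp (1 / 10) * ((1 - r)⁻¹ + r * (1 - r)⁻¹) ≤ 10 / 9 * (1819 / 181) :=
        mul_le_mul h6 h8 (by positivity) (by norm_num)
    _ ≤ 112 / 10 := by norm_num

theorem gauss3 : ∃ S : ℝ, HasSum (fun t : ℤ × ℤ × ℤ => Real.exp (-(1 / 10 * (q3 t : ℝ)))) S ∧
    S ≤ 1405 := by
  obtain ⟨S, hS, hle⟩ := gauss_bound
  have h0 : 0 ≤ S := hS.nonneg fun n => (Real.exp_pos _).le
  have hn : ∀ n : ℤ, 0 ≤ Real.exp (-(1 / 10 * (n:ℝ) ^ 2)) := fun n => (Real.exp_pos _).le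
  have s2 : Summable (fun x : ℤ × ℤ => Real.exp (-(1 / 10 * (x.1:ℝ) ^ 2)) *
      Real.exp (-(1 / 10 * (x.2:ℝ) ^ 2))) := hS.summable.mul_of_nonneg hS.summable hn hn
  have h2 := hS.mul hS s2
  have s3 : Summable (fun x : ℤ × ℤ × ℤ => Real.exp (-(1 / 10 * (x.1:ℝ) ^ 2)) *
      (Real.exp (-(1 / 10 * (x.2.1:ℝ) ^ 2)) * Real.exp (-(1 / 10 * (x.2.2:ℝ) ^ 2)))) :=
    hS.summable.mul_of_nonneg s2 hn (fun x => mul_nonneg (hn _) (hn _))
  have h3 := hS.mul h2 s3
  refine ⟨S * (S * S), h3.congr_fun fun t => ?_, ?_⟩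
  · rw [← Real.exp_add, ← Real.exp_add]
    congr 1
    unfold q3
    push_cast
    ring
  · calc S * (S * S) ≤ (112 / 10) * ((112 / 10) * (112 / 10)) := by gcongr
      _ ≤ 1405 := by norm_num

/-! ### the lattice -/

/-- the coordinates with respect to an orthonormal basis -/
def abc (x : Fin 3 → ℤ) : ℤ × ℤ × ℤ := (x 0 + x 1 - x 2, x 0 - x 1, x 2)

theorem abc_inj : Function.Injective abc := by
  intro x y h
  simp only [abc, Prod.mk.injEq] at h
  obtain ⟨h1, h2, h3⟩ := h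
  funext i
  fin_cases i
  · show x 0 = y 0
    omega
  · show x 1 = y 1
    omega
  · exact h3

theorem qf_G0 (x : Fin 3 → ℤ) : qf G0 x = (q3 (abc x) : ℝ) := by
  simp [qf, qr, rv, G0, q3, abc, dotProduct, Matrix.mulVec, Fin.sum_univ_three]
  ring

theorem q3_even (x : Fin 3 → ℤ) : q3 (abc x) % 2 = 0 := by
  have : q3 (abc x) = 2 * (x 0 ^ 2 + x 1 ^ 2 + x 2 ^ 2 - x 0 * x 2 - x 1 * x 2) := by
    unfold q3 abc; ring
  rw [this]
  exact Int.mul_emod_right 2 _

theorem q3_pos {x : Fin 3 → ℤ} (hx : x ≠ 0) : 1 ≤ q3 (abc x) := by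
  by_contra h
  apply hx
  apply abc_inj
  have h0 : q3 (abc x) = 0 := by
    have : 0 ≤ q3 (abc x) := by unfold q3; positivity
    omega
  unfold q3 at h0
  have h1 : (abc x).1 = 0 := by nlinarith [sq_nonneg (abc x).1, sq_nonneg (abc x).2.1, sq_nonneg (abc x).2.2]
  have h2 : (abc x).2.1 = 0 := by nlinarith [sq_nonneg (abc x).1, sq_nonneg (abc x).2.1, sq_nonneg (abc x).2.2]
  have h3 : (abc x).2.2 = 0 := by nlinarith [sq_nonneg (abc x).1, sq_nonneg (abc x).2.1, sq_nonneg (abc x).2.2]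
  have : abc 0 = (0, 0, 0) := by simp [abc]
  rw [this]
  exact Prod.ext h1 (Prod.ext h2 h3)

/-- outside of the box the norm is at least `36` -/
theorem q3_of_not_mem {t : ℤ × ℤ × ℤ} (ht : t ∉ box) : 36 ≤ q3 t := by
  unfold box at ht
  simp only [Finset.mem_product, Finset.mem_Icc, not_and_or, not_le] at ht
  unfold q3
  have a1 := sq_nonneg t.1
  have a2 := sq_nonneg t.2.1
  have a3 := sq_nonneg t.2.2
  rcases ht with (h | h) | (h | h) | (h | h) <;> nlinarith

/-- the tail in units of `(7/10)^(2s-2) phi s (88/5)` -/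
theorem shells {f : ℤ × ℤ × ℤ → ℝ} {g : ℕ → ℝ} (hf : ∀ t, 1 ≤ q3 t → q3 t % 2 = 0 →
      f t = g (q3 t / 2).toNat) (hg : ∀ j, 15 ≤ j → g j ≤ g 15) :
    ∑ t ∈ bx, f t ≤ 12 * g 1 + 6 * g 2 + 24 * g 3 + 12 * g 4 + 24 * g 5 + 8 * g 6 + 48 * g 7 +
      6 * g 8 + 36 * g 9 + 24 * g 10 + 24 * g 11 + 24 * g 12 + 72 * g 13 + 344 * g 15 := by
  have hmaps : ∀ t ∈ bx, val t ∈ Finset.range 16 := by
    intro t _
    rw [Finset.mem_range]
    unfold val
    omega
  have hfib := Finset.sum_fiberwise_of_maps_to hmaps f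
  have hj : ∀ j, j < 15 → ∑ t ∈ bx.filter (fun t => val t = j), f t =
      ((bx.filter fun t => val t = j).card : ℝ) * g j := by
    intro j hj
    rw [← nsmul_eq_mul, ← Finset.sum_const]
    refine Finset.sum_congr rfl fun t ht => ?_
    rw [Finset.mem_filter] at ht
    obtain ⟨ht1, ht2⟩ := ht
    unfold bx at ht1
    rw [Finset.mem_filter] at ht1
    rw [hf t ht1.2.2 ht1.2.1]
    congr 1
    unfold val at ht2
    omega
  have h15 : ∑ t ∈ bx.filter (fun t => val t = 15), f t ≤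
      ((bx.filter fun t => val t = 15).card : ℝ) * g 15 := by
    rw [← nsmul_eq_mul]
    refine Finset.sum_le_card_nsmul _ _ _ fun t ht => ?_
    rw [Finset.mem_filter] at ht
    obtain ⟨ht1, ht2⟩ := ht
    unfold bx at ht1
    rw [Finset.mem_filter] at ht1
    rw [hf t ht1.2.2 ht1.2.1]
    apply hg
    unfold val at ht2
    omega
  rw [← hfib]
  simp only [Finset.sum_range_succ, Finset.sum_range_zero]
  rw [hj 0 (by norm_num), hj 1 (by norm_num), hj 2 (by norm_num), hj 3 (by norm_num),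
    hj 4 (by norm_num), hj 5 (by norm_num), hj 6 (by norm_num), hj 7 (by norm_num),
    hj 8 (by norm_num), hj 9 (by norm_num), hj 10 (by norm_num), hj 11 (by norm_num),
    hj 12 (by norm_num), hj 13 (by norm_num), hj 14 (by norm_num)]
  rw [c15] at h15
  rw [c0', c1, c2, c3, c4, c5, c6, c7, c8, c9, c10, c11, c12, c13, c14]
  push_cast at h15 ⊢
  linarith

end ConLAux

open ConLAux in
/-- **the direct part at the face-centred cubic form** -/
theorem conl {s : ℝ} (h1 : 3 / 2 ≤ s) (h2 : s ≤ 6) :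
    (7 / 10 : ℝ) ^ (2 * s - 2) * Dir s G0 ≤
      12 * ((7 / 10) ^ (2 * s - 2) * phi s (8 / 5)) +
      6 * ((7 / 10) ^ (2 * s - 2) * phi s (16 / 5)) +
      24 * ((7 / 10) ^ (2 * s - 2) * phi s (24 / 5)) +
      12 * ((7 / 10) ^ (2 * s - 2) * phi s (32 / 5)) +
      24 * ((7 / 10) ^ (2 * s - 2) * phi s 8) +
      8 * ((7 / 10) ^ (2 * s - 2) * phi s (48 / 5)) +
      48 * ((7 / 10) ^ (2 * s - 2) * phi s (56 / 5)) +
      6 * ((7 / 10) ^ (2 * s - 2) * phi s (64 / 5)) +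
      36 * ((7 / 10) ^ (2 * s - 2) * phi s (72 / 5)) +
      24 * ((7 / 10) ^ (2 * s - 2) * phi s 16) + 4 / 10 ^ 8 := by
  set c : ℝ := (7 / 10 : ℝ) ^ (2 * s - 2) with hc
  have hc0 : 0 < c := by positivity
  set P : ℝ := c * phi s (88 / 5) with hP
  have hP0 : 0 ≤ P := mul_nonneg hc0.le (phi_nonneg _ _)
  have hPle : P ≤ 102 / 10 ^ 11 := wt_phi_at h1 h2
  -- the functions on `ℤ^3`
  set g : ℕ → ℝ := fun j => c * phi s (8 / 5 * j) with hg
  set f : ℤ × ℤ × ℤ → ℝ := fun t => c * phi s (4 / 5 * (q3 t : ℝ)) with hfdef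
  have hdec : ∀ j : ℕ, 11 ≤ j → g j ≤ Real.exp (-(8 / 5)) ^ (j - 11) * P := by
    intro j hj
    have h3 := phi_le_exp (s := s) (z := 88 / 5) (z' := 8 / 5 * j) (by norm_num) (by
      have : (11:ℝ) ≤ j := by exact_mod_cast hj
      linarith)
    have h4 : Real.exp (-(8 / 5 * (j:ℝ) - 88 / 5)) = Real.exp (-(8 / 5)) ^ (j - 11) := by
      rw [← Real.exp_nat_mul, Nat.cast_sub hj]
      congr 1
      push_cast
      ring
    rw [h4] at h3
    simp only [hg, hP]
    calc c * phi s (8 / 5 * j) ≤ c * (Real.exp (-(8 / 5)) ^ (j - 11) * phi s (88 / 5)) :=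
          mul_le_mul_of_nonneg_left h3 hc0.le
      _ = _ := by ring
  have hfg : ∀ t, 1 ≤ q3 t → q3 t % 2 = 0 → f t = g (q3 t / 2).toNat := by
    intro t ht1 ht2
    simp only [hfdef, hg]
    congr 2
    have h3 : ((q3 t / 2).toNat : ℤ) = q3 t / 2 := Int.toNat_of_nonneg (by omega)
    have h4 : 2 * (q3 t / 2) = q3 t := by omega
    have h5 : (q3 t : ℝ) = 2 * (((q3 t / 2).toNat : ℤ) : ℝ) := by
      rw [h3]
      exact_mod_cast h4.symm
    rw [h5]
    push_cast
    ring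
  have hg15 : ∀ j, 15 ≤ j → g j ≤ g 15 := by
    intro j hj
    simp only [hg]
    refine mul_le_mul_of_nonneg_left (phi_anti s (by norm_num) ?_) hc0.le
    have : (15:ℝ) ≤ j := by exact_mod_cast hj
    push_cast
    linarith
  have hsh := shells hfg hg15
  -- the majorant
  obtain ⟨S, hS, hSle⟩ := gauss3
  have hS0 : 0 ≤ S := hS.nonneg fun t => (Real.exp_pos _).le
  set e := Real.exp (-(8 / 5)) with he
  have he0 : 0 < e := Real.exp_pos _
  have hmaj := (hasSum_sum_of_ne_finset_zero (f := fun t => if t ∈ bx then f t else 0) (s := bx)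
    (fun t ht => if_neg ht)).add (hS.mul_left (e ^ 4 * P))
  set H : ℤ × ℤ × ℤ → ℝ := fun t => (if t ∈ bx then f t else 0) +
    e ^ 4 * P * Real.exp (-(1 / 10 * (q3 t : ℝ))) with hH
  have hf0 : ∀ t, 0 ≤ f t := fun t => mul_nonneg hc0.le (phi_nonneg _ _)
  have hH0 : ∀ t, 0 ≤ H t := by
    intro t
    simp only [hH]
    have h3 : 0 ≤ (if t ∈ bx then f t else 0) := by
      split_ifs
      · exact hf0 t
      · exact le_rfl
    positivity
  have hle : ∀ x : NZ 3, c * phi s (4 / 5 * qf G0 x.1) ≤ H (abc x.1) := by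
    intro x
    have hp := q3_pos x.2
    have hev := q3_even x.1
    rw [qf_G0]
    change f (abc x.1) ≤ H (abc x.1)
    simp only [hH]
    by_cases hb : abc x.1 ∈ box
    · have : abc x.1 ∈ bx := by
        unfold bx
        exact Finset.mem_filter.mpr ⟨hb, hev, hp⟩
      rw [if_pos this]
      have : 0 ≤ e ^ 4 * P * Real.exp (-(1 / 10 * (q3 (abc x.1) : ℝ))) := by positivity
      linarith
    · have hnb : abc x.1 ∉ bx := fun h => hb (Finset.mem_filter.mp h).1
      rw [if_neg hnb, zero_add]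
      have h36 : (36:ℝ) ≤ (q3 (abc x.1) : ℝ) := by exact_mod_cast q3_of_not_mem hb
      have h3 := phi_le_exp (s := s) (z := 88 / 5) (z' := 4 / 5 * (q3 (abc x.1) : ℝ))
        (by norm_num) (by linarith)
      have h4 : Real.exp (-(4 / 5 * (q3 (abc x.1) : ℝ) - 88 / 5)) ≤
          e ^ 4 * Real.exp (-(1 / 10 * (q3 (abc x.1) : ℝ))) := by
        rw [he, ← Real.exp_nat_mul, ← Real.exp_add]
        apply Real.exp_le_exp.mpr
        push_cast
        linarith
      have h5 := mul_le_mul_of_nonneg_right h4 (phi_nonneg s (88 / 5))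
      calc f (abc x.1) = c * phi s (4 / 5 * (q3 (abc x.1) : ℝ)) := rfl
        _ ≤ c * (e ^ 4 * Real.exp (-(1 / 10 * (q3 (abc x.1) : ℝ))) * phi s (88 / 5)) :=
            mul_le_mul_of_nonneg_left (h3.trans h5) hc0.le
        _ = _ := by rw [hP]; ring
  have hinj : Function.Injective (fun x : NZ 3 => abc x.1) := fun x y h =>
    Subtype.ext (abc_inj h)
  have hsumH : Summable H := hmaj.summable
  have hsumHc : Summable (fun x : NZ 3 => H (abc x.1)) := hsumH.comp_injective hinj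
  have hsf : Summable (fun x : NZ 3 => c * phi s (4 / 5 * qf G0 x.1)) :=
    Summable.of_nonneg_of_le (fun x => mul_nonneg hc0.le (phi_nonneg _ _)) hle hsumHc
  have hD : c * Dir s G0 ≤ ∑ t ∈ bx, f t + e ^ 4 * P * S := by
    have h3 : c * Dir s G0 = ∑' x : NZ 3, c * phi s (4 / 5 * qf G0 x.1) := by
      rw [tsum_mul_left]; rfl
    have h4 := hsf.tsum_le_tsum hle hsumHc
    have h5 := tsum_comp_le_tsum_of_inj hsumH hH0 hinj
    have h6 : ∑' t, H t = ∑ t ∈ bx, (if t ∈ bx then f t else 0) + e ^ 4 * P * S := hmaj.tsum_eq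
    have h7 : ∑ t ∈ bx, (if t ∈ bx then f t else 0) = ∑ t ∈ bx, f t :=
      Finset.sum_congr rfl fun t ht => if_pos ht
    rw [h3]
    refine h4.trans (h5.trans ?_)
    rw [h6, h7]
  -- numbers
  have he1 : e ≤ 202 / 1000 := exp_a
  have b11 : g 11 ≤ P := by simpa using hdec 11 le_rfl
  have b12 : g 12 ≤ e * P := by simpa using hdec 12 (by norm_num)
  have b13 : g 13 ≤ e ^ 2 * P := hdec 13 (by norm_num)
  have b15 : g 15 ≤ e ^ 4 * P := hdec 15 (by norm_num)
  have p1 : e * P ≤ 202 / 1000 * P := mul_le_mul_of_nonneg_right he1 hP0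
  have p2 : e ^ 2 * P ≤ (202 / 1000) ^ 2 * P :=
    mul_le_mul_of_nonneg_right (pow_le_pow_left₀ he0.le he1 2) hP0
  have p4 : e ^ 4 * P ≤ (202 / 1000) ^ 4 * P :=
    mul_le_mul_of_nonneg_right (pow_le_pow_left₀ he0.le he1 4) hP0
  have p5 : e ^ 4 * P * S ≤ (202 / 1000) ^ 4 * P * 1405 :=
    mul_le_mul p4 hSle hS0 (by positivity)
  have htail : 24 * g 11 + 24 * g 12 + 72 * g 13 + 344 * g 15 + e ^ 4 * P * S ≤ 4 / 10 ^ 8 := by
    have : 24 * g 11 + 24 * g 12 + 72 * g 13 + 344 * g 15 + e ^ 4 * P * S ≤ 36 * P := by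
      norm_num at p2 p4 p5
      linarith
    norm_num at hPle ⊢
    linarith
  have e1 : g 1 = c * phi s (8 / 5) := by simp only [hg]; norm_num
  have e2 : g 2 = c * phi s (16 / 5) := by simp only [hg]; norm_num
  have e3 : g 3 = c * phi s (24 / 5) := by simp only [hg]; norm_num
  have e4 : g 4 = c * phi s (32 / 5) := by simp only [hg]; norm_num
  have e5 : g 5 = c * phi s 8 := by simp only [hg]; norm_num
  have e6 : g 6 = c * phi s (48 / 5) := by simp only [hg]; norm_num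
  have e7 : g 7 = c * phi s (56 / 5) := by simp only [hg]; norm_num
  have e8 : g 8 = c * phi s (64 / 5) := by simp only [hg]; norm_num
  have e9 : g 9 = c * phi s (72 / 5) := by simp only [hg]; norm_num
  have e10 : g 10 = c * phi s 16 := by simp only [hg]; norm_num
  rw [e1, e2, e3, e4, e5, e6, e7, e8, e9, e10] at hsh
  linarith

end Pool.Agent.Lib.EPS
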