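import Pool.Agent.Lib.EPS.Pk
import Pool.Agent.Lib.EPS.Vsum
import Pool.Agent.Lib.EPS.VerS

/-!
# Module EPS.LeafS: soundness of the certificate leaves

`fc, fg` the fields of the plane, `fm` those of `M`. `pge (2 c) M` gives `fm k ≤ 2 fc k`
(`pge_sound`, bounds `2 ^ 81`, `2 ^ 64`). So `D = 5 (2 c - M)` has the fields
`5 (2 fc k - fm k) < 2 ^ 84`. At a vertex `v` (with `v.ok`): `D r` has fields `< 2 ^ 84 * 2 ^ 85`,
`2 ^ 27 ∑ g_i v_i` has fields `≤ 2 ^ 27 * 2 ^ 80 * ∑ v_i ≤ 2 ^ 167`; `pge_sound`: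
`2 ^ 27 ∑_i fg i k v_i ≤ 5 (2 fc k - fm k) r`. With `ok_r`:
`8 ∑_i fg i k v_i * 4 ^ (1/3) ≤ 5 (2 fc k - fm k) gg v`. By `cn_lin` the same for every `l` in the cone;
`dt l = 4`, `gg l = 4 ^ (1/3)`: `8 ∑_i fg i k l_i ≤ 5 (2 fc k - fm k)`, i.e.
`fm k ≤ 2 (fc k - 4/5 ∑_i fg i k l_i)`. Multiply by `bn k s ≥ 0` (`0 ≤ (2s-3)/9 ≤ 1`) and sum:
`2^40 wt s Tot s G0 ≤ ∑ bn k s fm k ≤ 2^40 wt s Dir s (formOf l)`. `wt s > 0`, and
`Dir s (formOf l) < Tot s (formOf l)` by `dua_pos`. So `Fine l` (the equality case does not occur).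
-/

open Matrix
open scoped Matrix.Norms.Elementwise

namespace Pool.Agent.Lib.EPS

open Pool.Agent.Lib.EpZ Pool.Agent.Lib.FCC

/-- `M` is a packed upper bound of the energy of the fcc form -/
def MGood (M : ℕ) : Prop := ∃ fm : Fin 10 → ℕ, (∀ k, fm k < 2 ^ 64) ∧ Rep M fm ∧
  ∀ s : ℝ, 3 / 2 ≤ s → s ≤ 6 → 2 ^ 40 * (wt s * Tot s G0) ≤ ∑ k : Fin 10, bn k s * (fm k : ℝ)

namespace LeafSAux

theorem bn_nonneg {s : ℝ} (h1 : 3 / 2 ≤ s) (h2 : s ≤ 6) (k : Fin 10) : 0 ≤ bn k s := by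
  unfold bn
  have e1 : 0 ≤ (2 * s - 3) / 9 := by linarith
  have e2 : 0 ≤ 1 - (2 * s - 3) / 9 := by linarith
  positivity

theorem wt_pos (s : ℝ) : 0 < wt s := by
  unfold wt
  exact Real.rpow_pos_of_pos (by norm_num) _

/-- the check at a vertex -/
theorem vchk_sound {D g0 g1 g2 g3 g4 g5 : ℕ} {fd : Fin 10 → ℕ} {fg : Fin 6 → Fin 10 → ℕ}
    (hD : Rep D fd) (h0 : Rep g0 (fg 0)) (h1 : Rep g1 (fg 1)) (h2 : Rep g2 (fg 2))
    (h3 : Rep g3 (fg 3)) (h4 : Rep g4 (fg 4)) (h5 : Rep g5 (fg 5))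
    (bd : ∀ k, fd k < 2 ^ 84) (bg : ∀ i k, fg i k < 2 ^ 80) {v : VX} (hv : v.ok = true)
    (h : vchk D g0 g1 g2 g3 g4 g5 v = true) (k : Fin 10) :
    ∑ i, (8 * (4 : ℝ) ^ ((1 : ℝ) / 3) * (fg i k : ℝ)) * v.re i ≤ (fd k : ℝ) * gg v.re := by
  have hr := ok_r_lt hv
  have hs := ok_sum hv
  have hgr := ok_r hv
  obtain ⟨a, b, c, d, e, f, r⟩ := v
  have hh : pge (Nat.mul D r) (Nat.mul 134217728 (Nat.add (Nat.add (Nat.add (Nat.mul g0 a)
      (Nat.mul g1 b)) (Nat.add (Nat.mul g2 c) (Nat.mul g3 d)))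
      (Nat.add (Nat.mul g4 e) (Nat.mul g5 f)))) = true := h
  have R := rep_mul 134217728 (rep_add (rep_add (rep_add (rep_mul' a h0) (rep_mul' b h1))
    (rep_add (rep_mul' c h2) (rep_mul' d h3))) (rep_add (rep_mul' e h4) (rep_mul' f h5)))
  have L := rep_mul' r hD
  have key := pge_sound L R (fun k => ?_) (fun k => ?_) hh k
  · simp only at key hs hr hgr
    have kr : (134217728 : ℝ) * ((fg 0 k : ℝ) * a + fg 1 k * b + (fg 2 k * c + fg 3 k * d)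
        + (fg 4 k * e + fg 5 k * f)) ≤ fd k * r := by exact_mod_cast key
    have hd0 : (0 : ℝ) ≤ (fd k : ℝ) := Nat.cast_nonneg _
    have hp : 0 < (4 : ℝ) ^ ((1 : ℝ) / 3) := Real.rpow_pos_of_pos (by norm_num) _
    have e1 := mul_le_mul_of_nonneg_right kr hp.le
    have e2 := mul_le_mul_of_nonneg_left hgr hd0
    have e3 : ∑ i, (8 * (4 : ℝ) ^ ((1 : ℝ) / 3) * (fg i k : ℝ)) * (VX.mk a b c d e f r).re i
        = 8 * (4 : ℝ) ^ ((1 : ℝ) / 3) * ((fg 0 k : ℝ) * a + fg 1 k * b + (fg 2 k * c + fg 3 k * d)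
        + (fg 4 k * e + fg 5 k * f)) := by
      rw [Fin.sum_univ_six]
      simp only [VX.re]
      ring
    rw [e3]
    have e4 : (fd k : ℝ) * r * (4 : ℝ) ^ ((1 : ℝ) / 3)
        = (fd k : ℝ) * (r * (4 : ℝ) ^ ((1 : ℝ) / 3)) := by ring
    rw [e4] at e1
    have e5 := e1.trans e2
    nlinarith [e5]
  · have b1 := bd k
    have : fd k * r < 2 ^ 84 * 2 ^ 85 := Nat.mul_lt_mul'' b1 hr
    exact this.trans (by norm_num)
  · simp only at hs
    have q0 := Nat.mul_le_mul_right a (bg 0 k).le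
    have q1 := Nat.mul_le_mul_right b (bg 1 k).le
    have q2 := Nat.mul_le_mul_right c (bg 2 k).le
    have q3 := Nat.mul_le_mul_right d (bg 3 k).le
    have q4 := Nat.mul_le_mul_right e (bg 4 k).le
    have q5 := Nat.mul_le_mul_right f (bg 5 k).le
    have q6 := Nat.mul_le_mul_left (2 ^ 80) hs
    show 134217728 * (fg 0 k * a + fg 1 k * b + (fg 2 k * c + fg 3 k * d)
      + (fg 4 k * e + fg 5 k * f)) < 2 ^ 191
    have q7 : fg 0 k * a + fg 1 k * b + (fg 2 k * c + fg 3 k * d)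
      + (fg 4 k * e + fg 5 k * f) ≤ 2 ^ 80 * 2 ^ 60 := by
      refine le_trans ?_ q6
      nlinarith [q0, q1, q2, q3, q4, q5]
    calc _ ≤ 134217728 * (2 ^ 80 * 2 ^ 60) := Nat.mul_le_mul_left _ q7
      _ < 2 ^ 191 := by norm_num

end LeafSAux

open LeafSAux

theorem lchk_sound {M : ℕ} (hM : MGood M) {P : Pln} (hP : P.Good) {C : Cn}
    (hC : C.all VX.ok = true) (h : lchk M P C = true) : C.Ok := by
  obtain ⟨fm, bm, rm, hm⟩ := hM
  obtain ⟨fc, fg, bc, bg, rc, r0, r1, r2, r3, r4, r5, hdir⟩ := hP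
  obtain ⟨c, g0, g1, g2, g3, g4, g5⟩ := P
  have hh : Bool.and (pge (Nat.mul 2 c) M)
      (C.all (vchk (Nat.mul 5 (Nat.sub (Nat.mul 2 c) M)) g0 g1 g2 g3 g4 g5)) = true := h
  rw [Bool.and_eq_true] at hh
  obtain ⟨hh1, hh2⟩ := hh
  have le1 : ∀ k, fm k ≤ 2 * fc k := pge_sound (rep_mul 2 rc) rm
    (fun k => by
      have := bc k
      show 2 * fc k < 2 ^ 191
      calc 2 * fc k < 2 * 2 ^ 80 := by omega
        _ < 2 ^ 191 := by norm_num)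
    (fun k => (bm k).trans (by norm_num)) hh1
  have rD := rep_mul 5 (rep_sub (rep_mul 2 rc) rm le1)
  have bD : ∀ k, 5 * (2 * fc k - fm k) < 2 ^ 84 := fun k => by
    have := bc k
    have h3 : 5 * (2 * fc k - fm k) ≤ 10 * fc k := by omega
    calc _ ≤ 10 * fc k := h3
      _ < 10 * 2 ^ 80 := by omega
      _ < 2 ^ 84 := by norm_num
  rw [cn_all] at hC hh2
  obtain ⟨o0, o1, o2, o3, o4, o5⟩ := hC
  obtain ⟨w0, w1, w2, w3, w4, w5⟩ := hh2
  intro l hl hdt s hs1 hs2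
  have hl0 := cn_mem_nonneg hl
  have hd0 : 0 < dt l := by rw [hdt]; norm_num
  have hgg : gg l = (4 : ℝ) ^ ((1 : ℝ) / 3) := by
    unfold gg
    rw [hdt]
  have hp : 0 < (4 : ℝ) ^ ((1 : ℝ) / 3) := Real.rpow_pos_of_pos (by norm_num) _
  have field : ∀ k : Fin 10, (fm k : ℝ) ≤ 2 * ((fc k : ℝ) - 4 / 5 * ∑ i, (fg i k : ℝ) * l i) := by
    intro k
    have V := fun (v : VX) (ho : v.ok = true) (hw : vchk (Nat.mul 5 (Nat.sub (Nat.mul 2 c) M))
      g0 g1 g2 g3 g4 g5 v = true) => vchk_sound rD r0 r1 r2 r3 r4 r5 bD bg ho hw k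
    have lin := cn_lin C (fun i => 8 * (4 : ℝ) ^ ((1 : ℝ) / 3) * (fg i k : ℝ))
      (Nat.cast_nonneg (5 * (2 * fc k - fm k))) (V _ o0 w0) (V _ o1 w1) (V _ o2 w2) (V _ o3 w3)
      (V _ o4 w4) (V _ o5 w5) hl
    rw [hgg] at lin
    have e1 : ∑ i, (8 * (4 : ℝ) ^ ((1 : ℝ) / 3) * (fg i k : ℝ)) * l i
        = (8 * ∑ i, (fg i k : ℝ) * l i) * (4 : ℝ) ^ ((1 : ℝ) / 3) := by
      rw [Finset.mul_sum, Finset.sum_mul]
      refine Finset.sum_congr rfl fun i _ => ?_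
      ring
    rw [e1] at lin
    have e2 := le_of_mul_le_mul_right lin hp
    have e3 : ((5 * (2 * fc k - fm k) : ℕ) : ℝ) = 5 * (2 * fc k - fm k) := by
      rw [Nat.cast_mul, Nat.cast_sub (le1 k)]
      push_cast
      ring
    rw [e3] at e2
    linarith
  have hlow := hdir s hs1 hs2 l hl0 hd0
  have hup := hm s hs1 hs2
  have hsum : ∑ k : Fin 10, bn k s * (fm k : ℝ)
      ≤ 2 * ∑ k : Fin 10, bn k s * ((fc k : ℝ) - 4 / 5 * ∑ i, (fg i k : ℝ) * l i) := by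
    rw [Finset.mul_sum]
    refine Finset.sum_le_sum fun k _ => ?_
    have := mul_le_mul_of_nonneg_left (field k) (bn_nonneg hs1 hs2 k)
    linarith
  have hw := wt_pos s
  have hfin : 2 ^ 40 * (wt s * Tot s G0) ≤ 2 ^ 40 * (wt s * Dir s (formOf l)) :=
    hup.trans (hsum.trans hlow)
  have h2 : Tot s G0 ≤ Dir s (formOf l) := by
    have h3 := le_of_mul_le_mul_left hfin (by positivity)
    exact le_of_mul_le_mul_left h3 hw
  have h4 := dua_pos hs1 (formOf_pd hl0 hd0)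
  have h5 : Tot s G0 < Tot s (formOf l) := by
    have : Tot s (formOf l) = Dir s (formOf l) + c0 * Dua s (formOf l) := rfl
    linarith
  exact ⟨h5.le, fun h6 => absurd h6 (ne_of_gt h5)⟩

end Pool.Agent.Lib.EPS
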