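import Pool.Agent.Lib.EPS.Chk

/-!
# EPS.MDef: the packed upper bound of the energy of the face-centred cubic form
-/

set_option autoImplicit false

namespace Pool.Agent.Lib.EPS

/-- the packed numbers `m_k = U_k + 256242118` -/
def M0 : Nat := pk 1568677651177 1376147749120 1262876318536 1210044190618 1209702472582
  1265987228867 1386767392646 1606028008564 1971122562263 2673638660485

end Pool.Agent.Lib.EPS
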