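import Pool.Agent.Lib.EPS.ConF
import Pool.Agent.Lib.EPS.LeafS
import Pool.Agent.Lib.EPS.MDef

/-!
# EPS.ConM: the packed upper bound of the energy of the face-centred cubic form
-/

set_option autoImplicit false

open Matrix Finset
open scoped Matrix.Norms.Elementwise

namespace Pool.Agent.Lib.EPS

open Pool.Agent.Lib.EpZ Pool.Agent.Lib.FCC

/-- `conn` is the theorem of the same name of module EPS.ConN. -/
theorem mgood_of (conn : ∀ k < 10, 2 ^ 40 * shells k ≤ (UU k : ℝ)) : MGood M0 := by
  refine ⟨_, ?_, rep_pk _ _ _ _ _ _ _ _ _ _, fun s h1 h2 => ?_⟩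
  · intro k
    fin_cases k <;> decide
  · refine (con_of conn h1 h2).trans (le_of_eq (sum_congr rfl (fun k _ => ?_)))
    congr 2
    fin_cases k <;> rfl

end Pool.Agent.Lib.EPS
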