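import Mathlib

/-!
# EPS.ConS: sums of a function of the norm over a lattice in `ℤ³`

`L : ι → ℤ × ℤ × ℤ` injective, never zero, with values in a set `P`. A sum of `F (nv (L x))` is
bounded by the finite part `nv < n0` (vectors counted in a box) and a Gaussian bound.
-/

set_option autoImplicit false

open Finset

namespace Pool.Agent.Lib.EPS

/-- the norm of an integer vector -/
def nv (v : ℤ × ℤ × ℤ) : ℕ := (v.1 ^ 2 + v.2.1 ^ 2 + v.2.2 ^ 2).toNat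

/-- the box -/
noncomputable def bx (k : ℕ) : Finset (ℤ × ℤ × ℤ) :=
  Finset.Icc (-(k : ℤ)) k ×ˢ (Finset.Icc (-(k : ℤ)) k ×ˢ Finset.Icc (-(k : ℤ)) k)

namespace ConSAux

lemma nv_cast (v : ℤ × ℤ × ℤ) : ((nv v : ℕ) : ℤ) = v.1 ^ 2 + v.2.1 ^ 2 + v.2.2 ^ 2 :=
  Int.toNat_of_nonneg (by positivity)

lemma nv_split (v : ℤ × ℤ × ℤ) :
    nv v = (v.1 ^ 2).toNat + ((v.2.1 ^ 2).toNat + (v.2.2 ^ 2).toNat) := by
  have h1 : ((v.1 ^ 2).toNat : ℤ) = v.1 ^ 2 := Int.toNat_of_nonneg (by positivity)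
  have h2 : ((v.2.1 ^ 2).toNat : ℤ) = v.2.1 ^ 2 := Int.toNat_of_nonneg (by positivity)
  have h3 : ((v.2.2 ^ 2).toNat : ℤ) = v.2.2 ^ 2 := Int.toNat_of_nonneg (by positivity)
  have := nv_cast v
  omega

lemma mem_bx {v : ℤ × ℤ × ℤ} {k : ℕ} (h : nv v < (k + 1) ^ 2) : v ∈ bx k := by
  have h0 : ((nv v : ℕ) : ℤ) < ((k + 1) ^ 2 : ℕ) := by exact_mod_cast h
  rw [nv_cast] at h0
  push_cast at h0
  have key : ∀ a : ℤ, a ^ 2 < ((k : ℤ) + 1) ^ 2 → a ∈ Finset.Icc (-(k : ℤ)) k := by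
    intro a ha
    rw [Finset.mem_Icc]
    have h1 := abs_lt_of_sq_lt_sq ha (by positivity)
    rw [abs_lt] at h1
    constructor <;> omega
  simp only [bx, Finset.mem_product]
  refine ⟨key _ ?_, key _ ?_, key _ ?_⟩ <;> nlinarith [sq_nonneg v.1, sq_nonneg v.2.1,
    sq_nonneg v.2.2]

/-- one dimensional sum -/
lemma sum_one {ρ : ℝ} (h0 : 0 < ρ) (h1 : ρ < 1) :
    Summable (fun n : ℤ => ρ ^ (n ^ 2).toNat) ∧
      ∑' n : ℤ, ρ ^ (n ^ 2).toNat ≤ 1 + 2 * ρ / (1 - ρ ^ 3) := by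
  have h3 : ρ ^ 3 < 1 := pow_lt_one₀ h0.le h1 (by norm_num)
  have h3' : 0 ≤ ρ ^ 3 := by positivity
  have hg : HasSum (fun n : ℕ => ρ * (ρ ^ 3) ^ n) (ρ * (1 - ρ ^ 3)⁻¹) :=
    (hasSum_geometric_of_lt_one h3' h3).mul_left ρ
  have hb : ∀ n : ℕ, ρ ^ ((n + 1) ^ 2) ≤ ρ * (ρ ^ 3) ^ n := fun n => by
    have e : ρ * (ρ ^ 3) ^ n = ρ ^ (3 * n + 1) := by rw [← pow_mul, pow_succ]; ring
    rw [e]
    exact pow_le_pow_of_le_one h0.le h1.le (by nlinarith [Nat.le_self_pow (n := 2) (by norm_num) n])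
  have hs : Summable (fun n : ℕ => ρ ^ ((n + 1) ^ 2)) :=
    Summable.of_nonneg_of_le (fun n => by positivity) hb hg.summable
  have hle : ∑' n : ℕ, ρ ^ ((n + 1) ^ 2) ≤ ρ * (1 - ρ ^ 3)⁻¹ := by
    rw [← hg.tsum_eq]
    exact hs.tsum_le_tsum hb hg.summable
  have e1 : ∀ n : ℕ, ρ ^ (((n : ℤ)) ^ 2).toNat = ρ ^ (n ^ 2) := fun n => by
    rw [← Nat.cast_pow, Int.toNat_natCast]
  have e2 : ∀ n : ℕ, ρ ^ ((-((n : ℤ) + 1)) ^ 2).toNat = ρ ^ ((n + 1) ^ 2) := fun n => by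
    have : (-((n : ℤ) + 1)) ^ 2 = (((n + 1) ^ 2 : ℕ) : ℤ) := by push_cast; ring
    rw [this, Int.toNat_natCast]
  have s1 : Summable (fun n : ℕ => ρ ^ (((n : ℤ)) ^ 2).toNat) := by
    simp only [e1]
    exact (summable_nat_add_iff (f := fun n : ℕ => ρ ^ (n ^ 2)) 1).1 hs
  have s2 : Summable (fun n : ℕ => ρ ^ ((-((n : ℤ) + 1)) ^ 2).toNat) := by
    simp only [e2]
    exact hs
  have hsum : HasSum (fun n : ℤ => ρ ^ (n ^ 2).toNat) (∑' n : ℕ, ρ ^ (((n : ℤ)) ^ 2).toNat +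
      ∑' n : ℕ, ρ ^ ((-((n : ℤ) + 1)) ^ 2).toNat) :=
    HasSum.of_nat_of_neg_add_one (f := fun n : ℤ => ρ ^ (n ^ 2).toNat) s1.hasSum s2.hasSum
  refine ⟨hsum.summable, ?_⟩
  rw [hsum.tsum_eq]
  simp only [e1, e2]
  have s0 : Summable (fun n : ℕ => ρ ^ (n ^ 2)) :=
    (summable_nat_add_iff (f := fun n : ℕ => ρ ^ (n ^ 2)) 1).1 hs
  rw [s0.tsum_eq_zero_add]
  have e3 : 2 * ρ / (1 - ρ ^ 3) = ρ * (1 - ρ ^ 3)⁻¹ + ρ * (1 - ρ ^ 3)⁻¹ := by
    rw [div_eq_mul_inv]; ring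
  rw [e3]
  simp only [ne_eq, OfNat.ofNat_ne_zero, not_false_eq_true, zero_pow, pow_zero]
  linarith

/-- three dimensional sum -/
lemma sum_three {ρ : ℝ} (h0 : 0 < ρ) (h1 : ρ < 1) :
    Summable (fun v : ℤ × ℤ × ℤ => ρ ^ nv v) ∧
      ∑' v : ℤ × ℤ × ℤ, ρ ^ nv v ≤ (1 + 2 * ρ / (1 - ρ ^ 3)) ^ 3 := by
  obtain ⟨s1, b1⟩ := sum_one h0 h1
  set g : ℤ → ℝ := fun n => ρ ^ (n ^ 2).toNat with hg
  have hg0 : ∀ n, 0 ≤ g n := fun n => by positivity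
  have s2 : Summable (fun w : ℤ × ℤ => g w.1 * g w.2) := s1.mul_of_nonneg s1 hg0 hg0
  have s3 : Summable (fun v : ℤ × (ℤ × ℤ) => g v.1 * (g v.2.1 * g v.2.2)) :=
    s1.mul_of_nonneg s2 hg0 (fun w => mul_nonneg (hg0 _) (hg0 _))
  have e : (fun v : ℤ × ℤ × ℤ => ρ ^ nv v) = fun v => g v.1 * (g v.2.1 * g v.2.2) := by
    funext v
    simp only [hg]
    rw [nv_split, pow_add, pow_add]
  rw [e]
  refine ⟨s3, ?_⟩
  have t2 : ∑' w : ℤ × ℤ, g w.1 * g w.2 = (∑' n, g n) * ∑' n, g n :=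
    (s1.tsum_mul_tsum s1 s2).symm
  have t3 : ∑' v : ℤ × (ℤ × ℤ), g v.1 * (g v.2.1 * g v.2.2) =
      (∑' n, g n) * ∑' w : ℤ × ℤ, g w.1 * g w.2 := (s1.tsum_mul_tsum s2 s3).symm
  rw [t3, t2]
  have hT : 0 ≤ ∑' n, g n := tsum_nonneg hg0
  calc (∑' n, g n) * ((∑' n, g n) * ∑' n, g n) = (∑' n, g n) ^ 3 := by ring
    _ ≤ _ := pow_le_pow_left₀ hT b1 3

end ConSAux

open ConSAux

/-- The comparison. -/
theorem lat_sum {ι : Type} (L : ι → ℤ × ℤ × ℤ) (hL : Function.Injective L)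
    (P : ℤ × ℤ × ℤ → Prop) [DecidablePred P] (hP : ∀ x, P (L x)) (F : ℕ → ℝ)
    (hF : ∀ n, 0 ≤ F n) (n0 k : ℕ) (hk : n0 ≤ (k + 1) ^ 2) (c : ℕ → ℕ)
    (hc : ∀ n < n0, ((bx k).filter (fun v => P v ∧ nv v = n)).card ≤ c n)
    (C q ρ : ℝ) (hC : 0 ≤ C) (hq : 0 < q) (hq1 : q < 1) (h0 : 0 < ρ) (h1 : ρ < 1)
    (hT : ∀ n, n0 ≤ n → F n ≤ C * (q * ρ) ^ n) :
    Summable (fun x => F (nv (L x))) ∧
    ∑' x, F (nv (L x)) ≤ ∑ n ∈ Finset.range n0, c n * F n +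
      C * q ^ n0 * (1 + 2 * ρ / (1 - ρ ^ 3)) ^ 3 := by
  obtain ⟨s3, b3⟩ := sum_three h0 h1
  -- the two comparison functions
  set G1 : ℤ × ℤ × ℤ → ℝ := fun v => if P v ∧ nv v < n0 then F (nv v) else 0 with hG1
  set G2 : ℤ × ℤ × ℤ → ℝ := fun v => C * q ^ n0 * ρ ^ nv v with hG2
  have g1 : ∀ v, 0 ≤ G1 v := fun v => by
    simp only [hG1]; split_ifs; exacts [hF _, le_rfl]
  have g2 : ∀ v, 0 ≤ G2 v := fun v => by positivity
  have hle : ∀ v, P v → F (nv v) ≤ G1 v + G2 v := by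
    intro v hv
    rcases lt_or_ge (nv v) n0 with h | h
    · have : G1 v = F (nv v) := by simp only [hG1]; rw [if_pos ⟨hv, h⟩]
      rw [this]; linarith [g2 v]
    · refine (hT _ h).trans ?_
      have h2 : (q * ρ) ^ nv v ≤ q ^ n0 * ρ ^ nv v := by
        rw [mul_pow]
        exact mul_le_mul_of_nonneg_right (pow_le_pow_of_le_one hq.le hq1.le h) (by positivity)
      have h3 := mul_le_mul_of_nonneg_left h2 hC
      have h4 : G2 v = C * (q ^ n0 * ρ ^ nv v) := by simp only [hG2]; ring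
      linarith [g1 v]
  have z1 : ∀ v ∉ bx k, G1 v = 0 := by
    intro v hv
    simp only [hG1]
    rw [if_neg]
    rintro ⟨-, h⟩
    exact hv (mem_bx (h.trans_le hk))
  have S1 : Summable G1 := summable_of_ne_finset_zero z1
  have S2 : Summable G2 := s3.mul_left _
  have S12 : Summable (fun v => G1 v + G2 v) := S1.add S2
  have SL : Summable (fun x => G1 (L x) + G2 (L x)) := S12.comp_injective hL
  have SF : Summable (fun x => F (nv (L x))) :=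
    Summable.of_nonneg_of_le (fun x => hF _) (fun x => hle _ (hP x)) SL
  refine ⟨SF, ?_⟩
  have a1 : ∑' x, F (nv (L x)) ≤ ∑' x, (G1 (L x) + G2 (L x)) :=
    SF.tsum_le_tsum (fun x => hle _ (hP x)) SL
  have a2 : ∑' x, (G1 (L x) + G2 (L x)) ≤ ∑' v, (G1 v + G2 v) :=
    tsum_comp_le_tsum_of_inj S12 (fun v => add_nonneg (g1 v) (g2 v)) hL
  have a3 : ∑' v, (G1 v + G2 v) = ∑' v, G1 v + ∑' v, G2 v := S1.tsum_add S2
  have a4 : ∑' v, G2 v ≤ C * q ^ n0 * (1 + 2 * ρ / (1 - ρ ^ 3)) ^ 3 := by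
    simp only [hG2]
    rw [tsum_mul_left]
    exact mul_le_mul_of_nonneg_left b3 (by positivity)
  have a5 : ∑' v, G1 v = ∑ v ∈ bx k, G1 v := tsum_eq_sum z1
  have a6 : ∑ v ∈ bx k, G1 v ≤ ∑ n ∈ Finset.range n0, c n * F n := by
    have e1 : ∑ v ∈ bx k, G1 v = ∑ v ∈ (bx k).filter (fun v => P v ∧ nv v < n0), F (nv v) := by
      rw [Finset.sum_filter]
    rw [e1]
    have e2 : ∑ v ∈ (bx k).filter (fun v => P v ∧ nv v < n0), F (nv v) =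
        ∑ n ∈ Finset.range n0, ∑ v ∈ ((bx k).filter (fun v => P v ∧ nv v < n0)).filter
          (fun v => nv v = n), F (nv v) :=
      (Finset.sum_fiberwise_of_maps_to (fun v hv => by
        rw [Finset.mem_filter] at hv
        exact Finset.mem_range.2 hv.2.2) _).symm
    rw [e2]
    refine Finset.sum_le_sum (fun n hn => ?_)
    have e3 : ∑ v ∈ ((bx k).filter (fun v => P v ∧ nv v < n0)).filter (fun v => nv v = n),
        F (nv v) = (((bx k).filter (fun v => P v ∧ nv v < n0)).filter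
          (fun v => nv v = n)).card * F n := by
      rw [← nsmul_eq_mul, ← Finset.sum_const]
      refine Finset.sum_congr rfl (fun v hv => ?_)
      rw [Finset.mem_filter] at hv
      rw [hv.2]
    rw [e3]
    refine mul_le_mul_of_nonneg_right ?_ (hF n)
    have e4 : ((bx k).filter (fun v => P v ∧ nv v < n0)).filter (fun v => nv v = n) ⊆
        (bx k).filter (fun v => P v ∧ nv v = n) := by
      intro v hv
      rw [Finset.mem_filter, Finset.mem_filter] at hv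
      exact Finset.mem_filter.2 ⟨hv.1.1, hv.1.2.1, hv.2⟩
    exact_mod_cast (Finset.card_le_card e4).trans (hc n (Finset.mem_range.1 hn))
  linarith

end Pool.Agent.Lib.EPS
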