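import Pool.Agent.Lib.EPS.Interp

/-!
# The generalised binomial coefficient `gch u 10`, `0 ≤ u ≤ 9`

`|gch u 10| ≤ 1 / 84` (the maximum is `1 / 84.586`).
-/

set_option autoImplicit false

namespace Pool.Agent.Lib.EPS

namespace GchAux

theorem up0 {T : ℝ} (h0 : 0 ≤ T) (h1 : T ≤ (5 / 2)) : 0 ≤ 43200 - T * (T - 8) * (T - 14) * (T - 18) * (T - 20) := by
  have ha : 0 ≤ T - 0 := by linarith
  have hb : 0 ≤ (5 / 2) - T := by linarith
  have e : 43200 - T * (T - 8) * (T - 14) * (T - 18) * (T - 20) =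
      (55296 / 125) * ((T - 0) ^ 0 * ((5 / 2) - T) ^ 5) +
          (147456 / 125) * ((T - 0) ^ 1 * ((5 / 2) - T) ^ 4) +
          (134272 / 125) * ((T - 0) ^ 2 * ((5 / 2) - T) ^ 3) +
          (8976 / 25) * ((T - 0) ^ 3 * ((5 / 2) - T) ^ 2) +
          (3288 / 125) * ((T - 0) ^ 4 * ((5 / 2) - T) ^ 1) +
          (79 / 25) * ((T - 0) ^ 5 * ((5 / 2) - T) ^ 0) := by
    ring
  rw [e]
  positivity

theorem up1 {T : ℝ} (h0 : (5 / 2) ≤ T) (h1 : T ≤ 5) : 0 ≤ 43200 - T * (T - 8) * (T - 14) * (T - 18) * (T - 20) := by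
  have ha : 0 ≤ T - (5 / 2) := by linarith
  have hb : 0 ≤ 5 - T := by linarith
  have e : 43200 - T * (T - 8) * (T - 14) * (T - 18) * (T - 20) =
      (79 / 25) * ((T - (5 / 2)) ^ 0 * (5 - T) ^ 5) +
          (662 / 125) * ((T - (5 / 2)) ^ 1 * (5 - T) ^ 4) +
          (34376 / 125) * ((T - (5 / 2)) ^ 2 * (5 - T) ^ 3) +
          (87696 / 125) * ((T - (5 / 2)) ^ 3 * (5 - T) ^ 2) +
          (75312 / 125) * ((T - (5 / 2)) ^ 4 * (5 - T) ^ 1) +
          (864 / 5) * ((T - (5 / 2)) ^ 5 * (5 - T) ^ 0) := by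
    ring
  rw [e]
  positivity

theorem up2 {T : ℝ} (h0 : 5 ≤ T) (h1 : T ≤ 10) : 0 ≤ 43200 - T * (T - 8) * (T - 14) * (T - 18) * (T - 20) := by
  have ha : 0 ≤ T - 5 := by linarith
  have hb : 0 ≤ 10 - T := by linarith
  have e : 43200 - T * (T - 8) * (T - 14) * (T - 18) * (T - 20) =
      (27 / 5) * ((T - 5) ^ 0 * (10 - T) ^ 5) +
          (5418 / 125) * ((T - 5) ^ 1 * (10 - T) ^ 4) +
          (15228 / 125) * ((T - 5) ^ 2 * (10 - T) ^ 3) +
          (18136 / 125) * ((T - 5) ^ 3 * (10 - T) ^ 2) +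
          (1952 / 25) * ((T - 5) ^ 4 * (10 - T) ^ 1) +
          (1984 / 125) * ((T - 5) ^ 5 * (10 - T) ^ 0) := by
    ring
  rw [e]
  positivity

theorem up3 {T : ℝ} (h0 : 10 ≤ T) (h1 : T ≤ (81 / 4)) : 0 ≤ 43200 - T * (T - 8) * (T - 14) * (T - 18) * (T - 20) := by
  have ha : 0 ≤ T - 10 := by linarith
  have hb : 0 ≤ (81 / 4) - T := by linarith
  have e : 43200 - T * (T - 8) * (T - 14) * (T - 18) * (T - 20) =
      (50790400 / 115856201) * ((T - 10) ^ 0 * ((81 / 4) - T) ^ 5) +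
          (262348800 / 115856201) * ((T - 10) ^ 1 * ((81 / 4) - T) ^ 4) +
          (427021824 / 115856201) * ((T - 10) ^ 2 * ((81 / 4) - T) ^ 3) +
          (316328384 / 115856201) * ((T - 10) ^ 3 * ((81 / 4) - T) ^ 2) +
          (260064936 / 115856201) * ((T - 10) ^ 4 * ((81 / 4) - T) ^ 1) +
          (43343775 / 115856201) * ((T - 10) ^ 5 * ((81 / 4) - T) ^ 0) := by
    ring
  rw [e]
  positivity

theorem lo {T : ℝ} (h0 : 0 ≤ T) (h1 : T ≤ (81 / 4)) : 0 ≤ 43200 + T * (T - 8) * (T - 14) * (T - 18) * (T - 20) := by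
  have ha : 0 ≤ T - 0 := by linarith
  have hb : 0 ≤ (81 / 4) - T := by linarith
  have e : 43200 + T * (T - 8) * (T - 14) * (T - 18) * (T - 20) =
      (104857600 / 68630377364883) * ((T - 0) ^ 0 * ((81 / 4) - T) ^ 8) +
          (2820669440 / 68630377364883) * ((T - 0) ^ 1 * ((81 / 4) - T) ^ 7) +
          (4689559552 / 68630377364883) * ((T - 0) ^ 2 * ((81 / 4) - T) ^ 6) +
          (1138577408 / 68630377364883) * ((T - 0) ^ 3 * ((81 / 4) - T) ^ 5) +
          (2244090880 / 68630377364883) * ((T - 0) ^ 4 * ((81 / 4) - T) ^ 4) +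
          (6795346112 / 68630377364883) * ((T - 0) ^ 5 * ((81 / 4) - T) ^ 3) +
          (4261919296 / 68630377364883) * ((T - 0) ^ 6 * ((81 / 4) - T) ^ 2) +
          (652808768 / 68630377364883) * ((T - 0) ^ 7 * ((81 / 4) - T) ^ 1) +
          (106974400 / 68630377364883) * ((T - 0) ^ 8 * ((81 / 4) - T) ^ 0) := by
    ring
  rw [e]
  positivity

end GchAux

open GchAux in
/-- **the bound `1 / 84`** -/
theorem abs_gch_ten_le' {u : ℝ} (h0 : 0 ≤ u) (h1 : u ≤ 9) : |gch u 10| ≤ 1 / 84 := by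
  set T : ℝ := u * (9 - u) with hT
  have ht0 : 0 ≤ T := mul_nonneg h0 (by linarith)
  have ht1 : T ≤ 81 / 4 := by nlinarith [sq_nonneg (u - 9 / 2)]
  have e1 : gch u 10 = -(T * (T - 8) * (T - 14) * (T - 18) * (T - 20)) / 3628800 := by
    unfold gch
    simp only [Finset.prod_range_succ, Finset.prod_range_zero, Nat.factorial]
    push_cast
    rw [hT]
    ring
  have hlo := lo ht0 ht1
  have hup : 0 ≤ 43200 - T * (T - 8) * (T - 14) * (T - 18) * (T - 20) := by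
    rcases le_total T (5 / 2) with h | h
    · exact up0 ht0 h
    rcases le_total T 5 with h' | h'
    · exact up1 h h'
    rcases le_total T 10 with h'' | h''
    · exact up2 h' h''
    · exact up3 h'' ht1
  rw [e1, abs_le]
  constructor <;> linarith

/-- in terms of `y = u / 9` -/
theorem abs_gch_ten_le'' {y : ℝ} (h0 : 0 ≤ y) (h1 : y ≤ 1) : |gch (9 * y) 10| ≤ 1 / 84 :=
  abs_gch_ten_le' (by linarith) (by linarith)

end Pool.Agent.Lib.EPS
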