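import Pool.Agent.Lib.EPS.Phi

/-!
# Taylor stepping in `z` for `phi s z`, downwards

`phi s (z - h)` lies between `∑_{k<n} h^k/k! phi (s+k) z` and the same sum plus
`h^n/n! phi (s+n) (z-h)`.
-/

set_option autoImplicit false

open MeasureTheory Set Filter Topology

namespace Pool.Agent.Lib.EPS

namespace HalfAux

theorem exp_sum_le {x : ℝ} (hx : 0 ≤ x) (n : ℕ) :
    ∑ k ∈ Finset.range n, x ^ k / (k.factorial : ℝ) ≤ Real.exp x := Real.sum_le_exp_of_nonneg hx n

theorem le_exp_sum {x : ℝ} (hx : 0 ≤ x) (n : ℕ) :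
    Real.exp x ≤ ∑ k ∈ Finset.range n, x ^ k / (k.factorial : ℝ) +
      x ^ n / (n.factorial : ℝ) * Real.exp x := by
  have hs : HasSum (fun k : ℕ => x ^ k / (k.factorial : ℝ)) (Real.exp x) := by
    have := NormedSpace.expSeries_div_hasSum_exp (𝔸 := ℝ) x
    rwa [← Real.exp_eq_exp_ℝ] at this
  have h1 := hs.summable.sum_add_tsum_nat_add n
  rw [hs.tsum_eq] at h1
  have h2 : ∑' k : ℕ, x ^ (k + n) / ((k + n).factorial : ℝ) ≤
      x ^ n / (n.factorial : ℝ) * Real.exp x := by
    rw [← hs.tsum_eq, ← tsum_mul_left]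
    refine ((summable_nat_add_iff n).mpr hs.summable).tsum_le_tsum (fun k => ?_)
      (hs.summable.mul_left _)
    have h3 : (n.factorial : ℝ) * (k.factorial : ℝ) ≤ ((k + n).factorial : ℝ) := by
      have := Nat.le_of_dvd (Nat.factorial_pos _) (Nat.factorial_mul_factorial_dvd_factorial_add n k)
      rw [Nat.add_comm k n]
      exact_mod_cast this
    have h4 : (0:ℝ) < (n.factorial : ℝ) := by exact_mod_cast Nat.factorial_pos n
    have h5 : (0:ℝ) < (k.factorial : ℝ) := by exact_mod_cast Nat.factorial_pos k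
    rw [div_mul_div_comm, pow_add, mul_comm (x ^ k)]
    exact div_le_div_of_nonneg_left (by positivity) (by positivity) h3
  linarith

end HalfAux

theorem phi_step_lower (s : ℝ) (n : ℕ) {z h : ℝ} (h0 : 0 ≤ h) (hz : h < z) :
    ∑ k ∈ Finset.range n, h ^ k / (k.factorial : ℝ) * phi (s + k) z ≤ phi s (z - h) := by
  have hz0 : 0 < z := by linarith
  have i1 : ∀ k ∈ Finset.range n, IntegrableOn (fun w : ℝ => h ^ k / (k.factorial : ℝ) *
      (Real.exp (-(z * w)) * w ^ (s + k - 1))) (Ioi 1) := fun k _ =>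
    (phi_int (s + k) hz0).const_mul _
  have e1 : ∑ k ∈ Finset.range n, h ^ k / (k.factorial : ℝ) * phi (s + k) z =
      ∫ w in Ioi (1:ℝ), ∑ k ∈ Finset.range n, h ^ k / (k.factorial : ℝ) *
        (Real.exp (-(z * w)) * w ^ (s + k - 1)) := by
    rw [integral_finsetSum _ i1]
    exact Finset.sum_congr rfl fun k _ => by rw [integral_const_mul, phi]
  rw [e1, phi]
  refine setIntegral_mono_on (integrable_finsetSum _ i1) (phi_int s (by linarith))
    measurableSet_Ioi fun w hw => ?_
  have hw0 : (0:ℝ) < w := lt_trans one_pos hw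
  have h2 := HalfAux.exp_sum_le (x := h * w) (by positivity) n
  have e2 : Real.exp (-((z - h) * w)) = Real.exp (-(z * w)) * Real.exp (h * w) := by
    rw [← Real.exp_add]; congr 1; ring
  have e3 : ∀ k : ℕ, w ^ (s + k - 1) = w ^ (s - 1) * w ^ k := fun k => by
    rw [show s + k - 1 = (s - 1) + (k:ℝ) by ring, Real.rpow_add_natCast hw0.ne']
  rw [e2]
  have h3 : 0 ≤ Real.exp (-(z * w)) * w ^ (s - 1) := by positivity
  calc ∑ k ∈ Finset.range n, h ^ k / (k.factorial : ℝ) * (Real.exp (-(z * w)) * w ^ (s + k - 1))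
      = Real.exp (-(z * w)) * w ^ (s - 1) *
          ∑ k ∈ Finset.range n, (h * w) ^ k / (k.factorial : ℝ) := by
        rw [Finset.mul_sum]
        exact Finset.sum_congr rfl fun k _ => by rw [e3, mul_pow]; ring
    _ ≤ Real.exp (-(z * w)) * w ^ (s - 1) * Real.exp (h * w) := mul_le_mul_of_nonneg_left h2 h3
    _ = _ := by ring

theorem phi_step_upper (s : ℝ) (n : ℕ) {z h : ℝ} (h0 : 0 ≤ h) (hz : h < z) :
    phi s (z - h) ≤ ∑ k ∈ Finset.range n, h ^ k / (k.factorial : ℝ) * phi (s + k) z +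
      h ^ n / (n.factorial : ℝ) * phi (s + n) (z - h) := by
  have hz0 : 0 < z := by linarith
  have i1 : ∀ k ∈ Finset.range n, IntegrableOn (fun w : ℝ => h ^ k / (k.factorial : ℝ) *
      (Real.exp (-(z * w)) * w ^ (s + k - 1))) (Ioi 1) := fun k _ =>
    (phi_int (s + k) hz0).const_mul _
  have i2 : IntegrableOn (fun w : ℝ => h ^ n / (n.factorial : ℝ) *
      (Real.exp (-((z - h) * w)) * w ^ (s + n - 1))) (Ioi 1) :=
    (phi_int (s + n) (by linarith)).const_mul _
  have e1 : ∑ k ∈ Finset.range n, h ^ k / (k.factorial : ℝ) * phi (s + k) z +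
      h ^ n / (n.factorial : ℝ) * phi (s + n) (z - h) =
      ∫ w in Ioi (1:ℝ), (∑ k ∈ Finset.range n, h ^ k / (k.factorial : ℝ) *
        (Real.exp (-(z * w)) * w ^ (s + k - 1)) + h ^ n / (n.factorial : ℝ) *
      (Real.exp (-((z - h) * w)) * w ^ (s + n - 1))) := by
    rw [integral_add (integrable_finsetSum _ i1) i2, integral_finsetSum _ i1, integral_const_mul]
    congr 1
    exact Finset.sum_congr rfl fun k _ => by rw [integral_const_mul, phi]
  rw [e1, phi]
  refine setIntegral_mono_on (phi_int s (by linarith)) ((integrable_finsetSum _ i1).add i2)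
    measurableSet_Ioi fun w hw => ?_
  have hw0 : (0:ℝ) < w := lt_trans one_pos hw
  have h2 := HalfAux.le_exp_sum (x := h * w) (by positivity) n
  have e2 : Real.exp (-((z - h) * w)) = Real.exp (-(z * w)) * Real.exp (h * w) := by
    rw [← Real.exp_add]; congr 1; ring
  have e3 : ∀ k : ℕ, w ^ (s + k - 1) = w ^ (s - 1) * w ^ k := fun k => by
    rw [show s + k - 1 = (s - 1) + (k:ℝ) by ring, Real.rpow_add_natCast hw0.ne']
  have h3 : 0 ≤ Real.exp (-(z * w)) * w ^ (s - 1) := by positivity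
  rw [e2]
  calc Real.exp (-(z * w)) * Real.exp (h * w) * w ^ (s - 1)
      = Real.exp (-(z * w)) * w ^ (s - 1) * Real.exp (h * w) := by ring
    _ ≤ Real.exp (-(z * w)) * w ^ (s - 1) * (∑ k ∈ Finset.range n,
          (h * w) ^ k / (k.factorial : ℝ) + (h * w) ^ n / (n.factorial : ℝ) * Real.exp (h * w)) :=
        mul_le_mul_of_nonneg_left h2 h3
    _ = _ := by
        rw [mul_add, Finset.mul_sum]
        congr 1
        · exact Finset.sum_congr rfl fun k _ => by rw [e3, mul_pow]; ring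
        · rw [e3, mul_pow]; ring

/-- a crude bound for the last term: for `s ≤ m + 1` natural, by `phi_nat` -/
theorem phi_nat_succ (m : ℕ) {z : ℝ} (hz : 0 < z) :
    phi (m + 2) z = (Real.exp (-z) + (m + 1) * phi (m + 1) z) / z := by
  have h := phi_rec (m + 1) hz
  rw [show (m:ℝ) + 1 + 1 = m + 2 by ring] at h
  rw [eq_div_iff hz.ne']
  linarith

end Pool.Agent.Lib.EPS
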