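import Mathlib

/-!
# The Taylor polynomial of `ρ ^ u` at `ρ = 1`, remainder of order ten

`gch u j` is the generalised binomial coefficient. For `0 ≤ u ≤ 9`, `ρ ≥ 7/10`:
`|ρ ^ u - ∑_{j ≤ 9} gch u j (ρ-1)^j| ≤ |gch u 10| ((ρ-1)^10 + (3/7)^10)`, and
`|gch (9 y) 10| ≤ (B_1(y) + B_8(y)) / 10`.
-/

set_option autoImplicit false

open MeasureTheory Set Filter Topology

namespace Pool.Agent.Lib.EPS

/-- the generalised binomial coefficient `u (u-1) ... (u-j+1) / j!` -/
noncomputable def gch (u : ℝ) (j : ℕ) : ℝ :=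
  (∏ i ∈ Finset.range j, (u - i)) / (j.factorial : ℝ)

theorem gch_zero (u : ℝ) : gch u 0 = 1 := by simp [gch]

theorem gch_succ (u : ℝ) (j : ℕ) : (j + 1 : ℝ) * gch u (j + 1) = (u - j) * gch u j := by
  unfold gch
  rw [Finset.prod_range_succ, Nat.factorial_succ]
  have h1 : (j.factorial : ℝ) ≠ 0 := by exact_mod_cast Nat.factorial_ne_zero j
  have h2 : ((j:ℝ) + 1) ≠ 0 := by positivity
  push_cast
  field_simp

theorem gch_succ' (u : ℝ) (j : ℕ) : (j + 1 : ℝ) * gch u (j + 1) = u * gch (u - 1) j := by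
  unfold gch
  rw [Finset.prod_range_succ', Nat.factorial_succ]
  have h1 : (j.factorial : ℝ) ≠ 0 := by exact_mod_cast Nat.factorial_ne_zero j
  have h2 : ((j:ℝ) + 1) ≠ 0 := by positivity
  have h3 : ∏ k ∈ Finset.range j, (u - ((k + 1 : ℕ) : ℝ)) = ∏ k ∈ Finset.range j, (u - 1 - k) :=
    Finset.prod_congr rfl fun k _ => by push_cast; ring
  rw [h3]
  push_cast
  field_simp
  ring

/-- the remainder -/
noncomputable def Drem (u : ℝ) (n : ℕ) (r : ℝ) : ℝ :=
  r ^ u - ∑ j ∈ Finset.range n, gch u j * (r - 1) ^ j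

theorem Drem_one (u : ℝ) (n : ℕ) : Drem u (n + 1) 1 = 0 := by
  unfold Drem
  rw [Finset.sum_range_succ', Finset.sum_eq_zero fun j _ => by simp]
  simp [gch_zero]

theorem hasDerivAt_Drem (u : ℝ) (n : ℕ) {r : ℝ} (hr : 0 < r) :
    HasDerivAt (Drem u (n + 1)) (u * Drem (u - 1) n r) r := by
  have h1 := Real.hasDerivAt_rpow_const (x := r) (p := u) (Or.inl hr.ne')
  have h2 : HasDerivAt (fun r : ℝ => ∑ j ∈ Finset.range (n + 1), gch u j * (r - 1) ^ j)
      (∑ j ∈ Finset.range (n + 1), gch u j * (j * (r - 1) ^ (j - 1))) r := by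
    refine HasDerivAt.fun_sum fun j _ => ?_
    have h3 : HasDerivAt (fun r : ℝ => r - 1) 1 r := (hasDerivAt_id r).sub_const 1
    exact ((h3.pow j).congr_deriv (by ring)).const_mul _
  refine (h1.sub h2).congr_deriv ?_
  unfold Drem
  rw [Finset.sum_range_succ', mul_sub, Finset.mul_sum]
  simp only [Nat.cast_zero, zero_mul, mul_zero, add_zero]
  congr 1
  refine Finset.sum_congr rfl fun j _ => ?_
  rw [Nat.add_sub_cancel]
  have := gch_succ' u j
  push_cast
  linear_combination (r - 1) ^ j * this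

/-- the remainder to the right of one -/
theorem abs_Drem_le_of_one_le (n : ℕ) : ∀ u : ℝ, u ≤ n → ∀ r : ℝ, 1 ≤ r →
    |Drem u n r| ≤ |gch u n| * (r - 1) ^ n := by
  induction n with
  | zero =>
    intro u hu r hr
    have hu' : u ≤ 0 := by exact_mod_cast hu
    simp only [Drem, Finset.range_zero, Finset.sum_empty, sub_zero, gch_zero, abs_one, pow_zero,
      mul_one]
    have h0 : 0 < r := by linarith
    rw [abs_of_pos (Real.rpow_pos_of_pos h0 u)]
    exact Real.rpow_le_one_of_one_le_of_nonpos hr hu'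
  | succ n ih =>
    intro u hu r hr
    have hu' : u - 1 ≤ n := by push_cast at hu; linarith
    have hcont : ContinuousOn (Drem u (n + 1)) (Icc 1 r) := fun x hx =>
      (hasDerivAt_Drem u n (lt_of_lt_of_le one_pos hx.1)).continuousAt.continuousWithinAt
    have hB : ∀ x : ℝ, HasDerivAt (fun x : ℝ => |gch u (n + 1)| * (x - 1) ^ (n + 1))
        (|gch u (n + 1)| * ((n + 1) * (x - 1) ^ n)) x := by
      intro x
      have h3 : HasDerivAt (fun r : ℝ => r - 1) 1 x := (hasDerivAt_id x).sub_const 1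
      refine ((h3.pow (n + 1)).congr_deriv ?_).const_mul _
      push_cast
      ring
    have key := image_norm_le_of_norm_deriv_right_le_deriv_boundary
      (f := Drem u (n + 1)) (f' := fun x => u * Drem (u - 1) n x) (a := 1) (b := r)
      (B := fun x : ℝ => |gch u (n + 1)| * (x - 1) ^ (n + 1))
      (B' := fun x : ℝ => |gch u (n + 1)| * ((n + 1) * (x - 1) ^ n)) hcont
      (fun x hx => (hasDerivAt_Drem u n (lt_of_lt_of_le one_pos hx.1)).hasDerivWithinAt)
      (by rw [Drem_one]; simp) hB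
      (fun x hx => by
        rw [Real.norm_eq_abs, abs_mul]
        have h1 := ih (u - 1) hu' x hx.1
        have h2 := gch_succ' u n
        have h3 : |u| * |gch (u - 1) n| = (n + 1) * |gch u (n + 1)| := by
          rw [← abs_mul, ← h2, abs_mul, abs_of_nonneg (by positivity)]
        calc |u| * |Drem (u - 1) n x| ≤ |u| * (|gch (u - 1) n| * (x - 1) ^ n) :=
              mul_le_mul_of_nonneg_left h1 (abs_nonneg _)
          _ = (|u| * |gch (u - 1) n|) * (x - 1) ^ n := by ring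
          _ = _ := by rw [h3]; ring)
      (right_mem_Icc.mpr hr)
    rw [← Real.norm_eq_abs]
    exact key

/-- the remainder to the left of one -/
theorem abs_Drem_le_of_le_one (n : ℕ) : ∀ u : ℝ, u ≤ n → ∀ r : ℝ, 0 < r → r ≤ 1 →
    |Drem u n r| ≤ |gch u n| * (1 - r) ^ n * r ^ (u - n) := by
  induction n with
  | zero =>
    intro u hu r hr _
    simp only [Drem, Finset.range_zero, Finset.sum_empty, sub_zero, gch_zero, abs_one, pow_zero,
      mul_one, Nat.cast_zero, one_mul]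
    rw [abs_of_pos (Real.rpow_pos_of_pos hr u)]
  | succ n ih =>
    intro u hu r hr hr1
    have hu' : u - 1 ≤ n := by push_cast at hu; linarith
    -- compare on `[r, 1]`, running to the left
    set G : ℝ := |gch u (n + 1)| with hG
    have hG0 : 0 ≤ G := abs_nonneg _
    have dB : ∀ x : ℝ, 0 < x → HasDerivAt (fun x : ℝ => G * (1 - x) ^ (n + 1) * x ^ (u - (n + 1)))
        (-(G * ((n + 1) * (1 - x) ^ n * x ^ (u - (n + 1)) +
          (n + 1 - u) * (1 - x) ^ (n + 1) * x ^ (u - (n + 1) - 1)))) x := by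
      intro x hx
      have h3 : HasDerivAt (fun r : ℝ => 1 - r) (-1) x := (hasDerivAt_id x).const_sub 1
      have h4 := ((h3.pow (n + 1)).const_mul G).mul
        (Real.hasDerivAt_rpow_const (x := x) (p := u - (n + 1)) (Or.inl hx.ne'))
      refine h4.congr_deriv ?_
      push_cast
      simp only [Pi.pow_apply]
      ring
    have hbound : ∀ x : ℝ, 0 < x → x ≤ 1 → |u * Drem (u - 1) n x| ≤
        G * ((n + 1) * (1 - x) ^ n * x ^ (u - (n + 1)) +
          (n + 1 - u) * (1 - x) ^ (n + 1) * x ^ (u - (n + 1) - 1)) := by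
      intro x hx hx1
      have h1 := ih (u - 1) hu' x hx hx1
      have h2 := gch_succ' u n
      have h3 : |u| * |gch (u - 1) n| = (n + 1) * G := by
        rw [hG, ← abs_mul, ← h2, abs_mul, abs_of_nonneg (by positivity)]
      have e1 : u - 1 - (n:ℝ) = u - (n + 1) := by ring
      rw [e1] at h1
      have hx2 : 0 ≤ 1 - x := by linarith
      have hx3 := Real.rpow_pos_of_pos hx (u - (n + 1))
      have hx4 := Real.rpow_pos_of_pos hx (u - (n + 1) - 1)
      have h5 : 0 ≤ (n + 1 - u) * (1 - x) ^ (n + 1) * x ^ (u - (n + 1) - 1) := by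
        have : 0 ≤ (n:ℝ) + 1 - u := by push_cast at hu; linarith
        positivity
      rw [abs_mul]
      calc |u| * |Drem (u - 1) n x| ≤ |u| * (|gch (u - 1) n| * (1 - x) ^ n * x ^ (u - (n + 1))) :=
            mul_le_mul_of_nonneg_left h1 (abs_nonneg _)
        _ = (|u| * |gch (u - 1) n|) * (1 - x) ^ n * x ^ (u - (n + 1)) := by ring
        _ = G * ((n + 1) * (1 - x) ^ n * x ^ (u - (n + 1))) := by rw [h3]; ring
        _ ≤ _ := by
          refine mul_le_mul_of_nonneg_left ?_ hG0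
          linarith
    have hanti1 : AntitoneOn (fun x : ℝ => G * (1 - x) ^ (n + 1) * x ^ (u - (n + 1)) -
        Drem u (n + 1) x) (Icc r 1) := by
      refine antitoneOn_of_deriv_nonpos (convex_Icc r 1)
        (fun x hx => ((dB x (lt_of_lt_of_le hr hx.1)).sub
          (hasDerivAt_Drem u n (lt_of_lt_of_le hr hx.1))).continuousAt.continuousWithinAt)
        (fun x hx => ?_) (fun x hx => ?_)
      · rw [interior_Icc] at hx
        exact ((dB x (hr.trans hx.1)).sub
          (hasDerivAt_Drem u n (hr.trans hx.1))).differentiableAt.differentiableWithinAt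
      · rw [interior_Icc] at hx
        have hx0 := hr.trans hx.1
        have hd : deriv (fun x : ℝ => G * (1 - x) ^ (n + 1) * x ^ (u - (n + 1)) -
            Drem u (n + 1) x) x = _ := ((dB x hx0).sub (hasDerivAt_Drem u n hx0)).deriv
        rw [hd]
        have h6 := (abs_le.mp (hbound x hx0 hx.2.le)).1
        linarith
    have hanti2 : AntitoneOn (fun x : ℝ => G * (1 - x) ^ (n + 1) * x ^ (u - (n + 1)) +
        Drem u (n + 1) x) (Icc r 1) := by
      refine antitoneOn_of_deriv_nonpos (convex_Icc r 1)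
        (fun x hx => ((dB x (lt_of_lt_of_le hr hx.1)).add
          (hasDerivAt_Drem u n (lt_of_lt_of_le hr hx.1))).continuousAt.continuousWithinAt)
        (fun x hx => ?_) (fun x hx => ?_)
      · rw [interior_Icc] at hx
        exact ((dB x (hr.trans hx.1)).add
          (hasDerivAt_Drem u n (hr.trans hx.1))).differentiableAt.differentiableWithinAt
      · rw [interior_Icc] at hx
        have hx0 := hr.trans hx.1
        have hd : deriv (fun x : ℝ => G * (1 - x) ^ (n + 1) * x ^ (u - (n + 1)) +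
            Drem u (n + 1) x) x = _ := ((dB x hx0).add (hasDerivAt_Drem u n hx0)).deriv
        rw [hd]
        have h6 := (abs_le.mp (hbound x hx0 hx.2.le)).2
        linarith
    have m1 : r ∈ Icc r 1 := ⟨le_rfl, hr1⟩
    have m2 : (1:ℝ) ∈ Icc r 1 := ⟨hr1, le_rfl⟩
    have a1 := hanti1 m1 m2 hr1
    have a2 := hanti2 m1 m2 hr1
    simp only [sub_self, Drem_one] at a1 a2
    rw [zero_pow (by omega)] at a1 a2
    simp only [mul_zero, zero_mul, sub_self, add_zero] at a1 a2
    push_cast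
    rw [abs_le]
    constructor <;> linarith

/-- (I1) -/
theorem interp_pw {u r : ℝ} (h0 : 0 ≤ u) (h9 : u ≤ 9) (hr : 7 / 10 ≤ r) :
    |r ^ u - ∑ j ∈ Finset.range 10, gch u j * (r - 1) ^ j| ≤
      |gch u 10| * ((r - 1) ^ 10 + (3 / 7) ^ 10) := by
  have hr0 : 0 < r := by linarith
  have hg := abs_nonneg (gch u 10)
  rcases le_total 1 r with h | h
  · have h1 := abs_Drem_le_of_one_le 10 u (by push_cast; linarith) r h
    refine h1.trans (mul_le_mul_of_nonneg_left ?_ hg)
    have : (0:ℝ) ≤ (3 / 7) ^ 10 := by positivity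
    linarith
  · have h1 := abs_Drem_le_of_le_one 10 u (by push_cast; linarith) r hr0 h
    refine h1.trans ?_
    rw [mul_assoc]
    refine mul_le_mul_of_nonneg_left ?_ hg
    have h2 : r ^ (u - ((10:ℕ):ℝ)) = r ^ u * (r ^ 10)⁻¹ := by
      rw [Real.rpow_sub hr0, Real.rpow_natCast]; rfl
    have h3 : r ^ u ≤ 1 := Real.rpow_le_one hr0.le h h0
    have h4 : (1 - r) / r ≤ 3 / 7 := by
      rw [div_le_iff₀ hr0]; linarith
    have h5 : 0 ≤ (1 - r) / r := div_nonneg (by linarith) hr0.le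
    have h6 : ((1 - r) / r) ^ 10 ≤ (3 / 7) ^ 10 := pow_le_pow_left₀ h5 h4 10
    have h7 : 0 ≤ (r - 1) ^ 10 := by positivity
    rw [h2]
    calc (1 - r) ^ 10 * (r ^ u * (r ^ 10)⁻¹) = ((1 - r) / r) ^ 10 * r ^ u := by
          rw [div_pow]; ring
      _ ≤ ((1 - r) / r) ^ 10 * 1 := mul_le_mul_of_nonneg_left h3 (by positivity)
      _ ≤ _ := by linarith

/-- (I2) -/
theorem abs_gch_ten_le {y : ℝ} (h0 : 0 ≤ y) (h1 : y ≤ 1) :
    |gch (9 * y) 10| ≤ (9 * y * (1 - y) ^ 8 + 9 * y ^ 8 * (1 - y)) / 10 := by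
  set t : ℝ := y * (1 - y) with ht
  have ht0 : 0 ≤ t := mul_nonneg h0 (by linarith)
  have ht1 : t ≤ 1 / 4 := by nlinarith [sq_nonneg (y - 1 / 2)]
  have e1 : gch (9 * y) 10 = -(81 * t * ((8 - 81 * t) * (14 - 81 * t) * (18 - 81 * t) *
      (20 - 81 * t))) / 3628800 := by
    unfold gch
    simp only [Finset.prod_range_succ, Finset.prod_range_zero, Nat.factorial]
    push_cast
    rw [ht]
    ring
  have e2 : (9 * y * (1 - y) ^ 8 + 9 * y ^ 8 * (1 - y)) / 10 =
      9 / 10 * t * (1 - 7 * t + 14 * t ^ 2 - 7 * t ^ 3) := by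
    rw [ht]; ring
  have key : |(8 - 81 * t) * (14 - 81 * t) * (18 - 81 * t) * (20 - 81 * t)| ≤
      40320 * (1 - 7 * t + 14 * t ^ 2 - 7 * t ^ 3) := by
    have ha : 0 ≤ 4 * t := by linarith
    have hb : 0 ≤ 1 - 4 * t := by linarith
    have e3 : 40320 * (1 - 7 * t + 14 * t ^ 2 - 7 * t ^ 3) +
        (8 - 81 * t) * (14 - 81 * t) * (18 - 81 * t) * (20 - 81 * t) =
        80640 * ((4 * t) ^ 0 * (1 - 4 * t) ^ 4) +
          5436 * ((4 * t) ^ 1 * (1 - 4 * t) ^ 3) +
          (416439 / 4) * ((4 * t) ^ 2 * (1 - 4 * t) ^ 2) +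
          (189369 / 16) * ((4 * t) ^ 3 * (1 - 4 * t) ^ 1) +
          (172305 / 256) * ((4 * t) ^ 4 * (1 - 4 * t) ^ 0) := by
      ring
    have e4 : 40320 * (1 - 7 * t + 14 * t ^ 2 - 7 * t ^ 3) -
        (8 - 81 * t) * (14 - 81 * t) * (18 - 81 * t) * (20 - 81 * t) =
        0 * ((4 * t) ^ 0 * (1 - 4 * t) ^ 4) +
          176004 * ((4 * t) ^ 1 * (1 - 4 * t) ^ 3) +
          (107721 / 4) * ((4 * t) ^ 2 * (1 - 4 * t) ^ 2) +
          (314631 / 16) * ((4 * t) ^ 3 * (1 - 4 * t) ^ 1) +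
          (150255 / 256) * ((4 * t) ^ 4 * (1 - 4 * t) ^ 0) := by
      ring
    have p3 : 0 ≤ 40320 * (1 - 7 * t + 14 * t ^ 2 - 7 * t ^ 3) +
        (8 - 81 * t) * (14 - 81 * t) * (18 - 81 * t) * (20 - 81 * t) := by
      rw [e3]; positivity
    have p4 : 0 ≤ 40320 * (1 - 7 * t + 14 * t ^ 2 - 7 * t ^ 3) -
        (8 - 81 * t) * (14 - 81 * t) * (18 - 81 * t) * (20 - 81 * t) := by
      rw [e4]; positivity
    rw [abs_le]
    constructor <;> linarith
  rw [e1, e2, abs_div, abs_neg, abs_mul, abs_of_nonneg (by positivity : 0 ≤ 81 * t),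
    abs_of_pos (by norm_num : (0:ℝ) < 3628800), div_le_iff₀ (by norm_num)]
  calc 81 * t * |(8 - 81 * t) * (14 - 81 * t) * (18 - 81 * t) * (20 - 81 * t)|
      ≤ 81 * t * (40320 * (1 - 7 * t + 14 * t ^ 2 - 7 * t ^ 3)) :=
        mul_le_mul_of_nonneg_left key (by positivity)
    _ = _ := by ring

/-- integrated form of `interp_pw`, with `ρ = 7/10 √w` and a general weight -/
theorem interp_int {g : ℝ → ℝ} (hg : ∀ w, 1 < w → 0 ≤ g w) {u : ℝ} (h0 : 0 ≤ u) (h9 : u ≤ 9)
    (hu : IntegrableOn (fun w => g w * (7 / 10 * √w) ^ u) (Ioi 1))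
    (hj : ∀ j : ℕ, j ≤ 10 → IntegrableOn (fun w => g w * (7 / 10 * √w - 1) ^ j) (Ioi 1)) :
    |(∫ w in Ioi (1:ℝ), g w * (7 / 10 * √w) ^ u) -
      ∑ j ∈ Finset.range 10, gch u j * ∫ w in Ioi (1:ℝ), g w * (7 / 10 * √w - 1) ^ j| ≤
      |gch u 10| * ((∫ w in Ioi (1:ℝ), g w * (7 / 10 * √w - 1) ^ 10) +
        (3 / 7) ^ 10 * ∫ w in Ioi (1:ℝ), g w) := by
  have hgi : IntegrableOn g (Ioi 1) := by simpa using hj 0 (by norm_num)
  have i1 : ∀ j ∈ Finset.range 10, IntegrableOn
      (fun w => gch u j * (g w * (7 / 10 * √w - 1) ^ j)) (Ioi 1) := fun j hjr =>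
    (hj j (by have := Finset.mem_range.mp hjr; omega)).const_mul _
  have i2 : IntegrableOn (fun w => ∑ j ∈ Finset.range 10,
      gch u j * (g w * (7 / 10 * √w - 1) ^ j)) (Ioi 1) := integrable_finsetSum _ i1
  have e1 : ∑ j ∈ Finset.range 10, gch u j * ∫ w in Ioi (1:ℝ), g w * (7 / 10 * √w - 1) ^ j =
      ∫ w in Ioi (1:ℝ), ∑ j ∈ Finset.range 10, gch u j * (g w * (7 / 10 * √w - 1) ^ j) := by
    rw [integral_finsetSum _ i1]
    exact Finset.sum_congr rfl fun j _ => by rw [integral_const_mul]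
  have e2 : |gch u 10| * ((∫ w in Ioi (1:ℝ), g w * (7 / 10 * √w - 1) ^ 10) +
        (3 / 7) ^ 10 * ∫ w in Ioi (1:ℝ), g w) =
      ∫ w in Ioi (1:ℝ), |gch u 10| * (g w * (7 / 10 * √w - 1) ^ 10 + (3 / 7) ^ 10 * g w) := by
    rw [integral_const_mul, integral_add (hj 10 le_rfl) (hgi.const_mul _), integral_const_mul]
  rw [e1, e2, ← integral_sub hu i2, ← Real.norm_eq_abs]
  refine norm_integral_le_of_norm_le (((hj 10 le_rfl).add (hgi.const_mul _)).const_mul _) ?_
  rw [ae_restrict_iff' measurableSet_Ioi]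
  refine Eventually.of_forall fun w hw => ?_
  have hw' : (1:ℝ) < w := hw
  have hs : 1 ≤ √w := Real.one_le_sqrt.mpr hw'.le
  have h2 := interp_pw h0 h9 (r := 7 / 10 * √w) (by linarith)
  have h3 := mul_le_mul_of_nonneg_left h2 (hg w hw')
  have e3 : g w * (7 / 10 * √w) ^ u - ∑ j ∈ Finset.range 10,
      gch u j * (g w * (7 / 10 * √w - 1) ^ j) =
      g w * ((7 / 10 * √w) ^ u - ∑ j ∈ Finset.range 10, gch u j * (7 / 10 * √w - 1) ^ j) := by
    rw [mul_sub, Finset.mul_sum]
    congr 1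
    exact Finset.sum_congr rfl fun k _ => by ring
  rw [Real.norm_eq_abs, e3, abs_mul, abs_of_nonneg (hg w hw')]
  refine h3.trans (le_of_eq ?_)
  ring

end Pool.Agent.Lib.EPS
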