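import Pool.Agent.Lib.EPS.ConL

/-!
# Shells of the face-centred cubic lattice and of its dual

`shell_sum` (the first ten shells), `tail_gen` (the shells of norm at least 22, for a decreasing
function), `tail_sum` (the function `q exp (-4 q / 5)`).
-/

set_option autoImplicit false

open MeasureTheory Set Filter Topology Matrix

namespace Pool.Agent.Lib.EPS

open Pool.Agent.Lib.EpZ Pool.Agent.Lib.FCC ConLAux

namespace ShellAux

/-- the points of the lattice in orthonormal coordinates -/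
def Lat (t : ℤ × ℤ × ℤ) : Prop := q3 t % 2 = 0 ∧ 1 ≤ q3 t

theorem q3_mod (t : ℤ × ℤ × ℤ) : q3 t % 2 = (t.1 + t.2.1 + t.2.2) % 2 := by
  unfold q3
  have h1 : ∀ a : ℤ, a ^ 2 % 2 = a % 2 := by
    intro a
    rcases Int.even_or_odd a with ⟨k, hk⟩ | ⟨k, hk⟩
    · subst hk
      have e : (k + k) ^ 2 = 2 * (2 * k ^ 2) := by ring
      rw [e]; omega
    · subst hk
      have e : (2 * k + 1) ^ 2 = 2 * (2 * k ^ 2 + 2 * k) + 1 := by ring
      rw [e]; omega
  have a1 := h1 t.1
  have a2 := h1 t.2.1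
  have a3 := h1 t.2.2
  omega

/-- the inverse coordinates -/
def inv (t : ℤ × ℤ × ℤ) : Fin 3 → ℤ := ![(t.1 + t.2.1 + t.2.2) / 2, (t.1 - t.2.1 + t.2.2) / 2, t.2.2]

theorem abc_inv {t : ℤ × ℤ × ℤ} (h : q3 t % 2 = 0) : abc (inv t) = t := by
  rw [q3_mod] at h
  obtain ⟨a, b, c⟩ := t
  simp only at h
  simp only [abc, inv, Matrix.cons_val_zero, Matrix.cons_val_one, Matrix.cons_val]
  refine Prod.ext ?_ (Prod.ext ?_ rfl)
  · simp only; omega
  · simp only; omega

/-- the coordinates as an equivalence -/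
noncomputable def eqv : NZ 3 ≃ {t : ℤ × ℤ × ℤ // Lat t} where
  toFun x := ⟨abc x.1, q3_even x.1, q3_pos x.2⟩
  invFun t := ⟨inv t.1, by
    intro h0
    have h1 := abc_inv t.2.1
    rw [h0] at h1
    have h2 := t.2.2
    rw [← h1] at h2
    simp [abc, q3] at h2⟩
  left_inv x := Subtype.ext (abc_inj (abc_inv (q3_even x.1)))
  right_inv t := Subtype.ext (abc_inv t.2.1)

theorem sum_bx {g : ℕ → ℝ} {f : ℤ × ℤ × ℤ → ℝ} (hf : ∀ t, 1 ≤ q3 t → q3 t % 2 = 0 →
      f t = g (q3 t / 2).toNat) (hg : ∀ j, 11 ≤ j → g j = 0) :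
    ∑ t ∈ bx, f t = 12 * g 1 + 6 * g 2 + 24 * g 3 + 12 * g 4 + 24 * g 5 + 8 * g 6 + 48 * g 7 +
      6 * g 8 + 36 * g 9 + 24 * g 10 := by
  have hmaps : ∀ t ∈ bx, val t ∈ Finset.range 16 := by
    intro t _
    rw [Finset.mem_range]
    unfold val
    omega
  have hfib := Finset.sum_fiberwise_of_maps_to hmaps f
  have hj : ∀ j, j ≤ 15 → ∑ t ∈ bx.filter (fun t => val t = j), f t =
      ((bx.filter fun t => val t = j).card : ℝ) * g j := by
    intro j hj
    rw [← nsmul_eq_mul, ← Finset.sum_const]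
    refine Finset.sum_congr rfl fun t ht => ?_
    rw [Finset.mem_filter] at ht
    obtain ⟨ht1, ht2⟩ := ht
    unfold bx at ht1
    rw [Finset.mem_filter] at ht1
    rw [hf t ht1.2.2 ht1.2.1]
    unfold val at ht2
    rcases Nat.lt_or_ge j 15 with h | h
    · congr 1
      omega
    · rw [hg _ (by omega), hg j (by omega)]
  rw [← hfib]
  simp only [Finset.sum_range_succ, Finset.sum_range_zero]
  rw [hj 0 (by norm_num), hj 1 (by norm_num), hj 2 (by norm_num), hj 3 (by norm_num),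
    hj 4 (by norm_num), hj 5 (by norm_num), hj 6 (by norm_num), hj 7 (by norm_num),
    hj 8 (by norm_num), hj 9 (by norm_num), hj 10 (by norm_num), hj 11 (by norm_num),
    hj 12 (by norm_num), hj 13 (by norm_num), hj 14 (by norm_num), hj 15 (by norm_num),
    hg 11 (by norm_num), hg 12 (by norm_num), hg 13 (by norm_num), hg 14 (by norm_num),
    hg 15 (by norm_num), c0', c1, c2, c3, c4, c5, c6, c7, c8, c9, c10]
  push_cast
  ring

/-- finite box and Gaussian majorant -/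
theorem box_bound {X : Type*} {i : X → ℤ × ℤ × ℤ} (hi : Function.Injective i)
    {f : ℤ × ℤ × ℤ → ℝ} (hf : ∀ t, 0 ≤ f t) (B : Finset (ℤ × ℤ × ℤ)) {C : ℝ} (hC : 0 ≤ C)
    (h : ∀ x, i x ∉ B → f (i x) ≤ C * Real.exp (-(1 / 10 * (q3 (i x) : ℝ)))) :
    Summable (fun x => f (i x)) ∧ ∑' x, f (i x) ≤ ∑ t ∈ B, f t + 1405 * C := by
  classical
  obtain ⟨S, hS, hSle⟩ := gauss3
  have hmaj := (hasSum_sum_of_ne_finset_zero (f := fun t => if t ∈ B then f t else 0) (s := B)
    (fun t ht => if_neg ht)).add (hS.mul_left C)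
  set H : ℤ × ℤ × ℤ → ℝ := fun t => (if t ∈ B then f t else 0) +
    C * Real.exp (-(1 / 10 * (q3 t : ℝ))) with hH
  have hH0 : ∀ t, 0 ≤ H t := by
    intro t
    simp only [hH]
    have h3 : 0 ≤ (if t ∈ B then f t else 0) := by
      split_ifs
      · exact hf t
      · exact le_rfl
    positivity
  have hle : ∀ x, f (i x) ≤ H (i x) := by
    intro x
    simp only [hH]
    by_cases hb : i x ∈ B
    · rw [if_pos hb]
      have : 0 ≤ C * Real.exp (-(1 / 10 * (q3 (i x) : ℝ))) := by positivity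
      linarith
    · rw [if_neg hb, zero_add]
      exact h x hb
  have hsumH : Summable H := hmaj.summable
  have hsumHc : Summable (fun x => H (i x)) := hsumH.comp_injective hi
  have hsf : Summable (fun x => f (i x)) :=
    Summable.of_nonneg_of_le (fun x => hf _) hle hsumHc
  refine ⟨hsf, ?_⟩
  have h4 := hsf.tsum_le_tsum hle hsumHc
  have h5 := tsum_comp_le_tsum_of_inj hsumH hH0 hi
  have h6 : ∑' t, H t = ∑ t ∈ B, (if t ∈ B then f t else 0) + C * S := hmaj.tsum_eq
  have h7 : ∑ t ∈ B, (if t ∈ B then f t else 0) = ∑ t ∈ B, f t :=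
    Finset.sum_congr rfl fun t ht => if_pos ht
  have h8 : C * S ≤ 1405 * C := by nlinarith
  calc ∑' x, f (i x) ≤ ∑' x, H (i x) := h4
    _ ≤ ∑' t, H t := h5
    _ = ∑ t ∈ B, f t + C * S := by rw [h6, h7]
    _ ≤ _ := by linarith

end ShellAux

open ShellAux

/-- (SH) -/
theorem shell_sum {F : ℝ → ℝ} (hF : Summable fun x : NZ 3 => F (qf G0 x.1)) :
    ∑' x : NZ 3, F (qf G0 x.1) = 12 * F 2 + 6 * F 4 + 24 * F 6 + 12 * F 8 + 24 * F 10 +
      8 * F 12 + 48 * F 14 + 6 * F 16 + 36 * F 18 + 24 * F 20 +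
      ∑' x : NZ 3, if 22 ≤ qf G0 x.1 then F (qf G0 x.1) else 0 := by
  -- the small part
  set G : ℝ → ℝ := fun q => if 22 ≤ q then 0 else F q with hG
  set g : ℕ → ℝ := fun j => G (2 * j) with hg
  set f : ℤ × ℤ × ℤ → ℝ := fun t => G (q3 t) with hf
  have hfg : ∀ t, 1 ≤ q3 t → q3 t % 2 = 0 → f t = g (q3 t / 2).toNat := by
    intro t ht1 ht2
    simp only [hf, hg]
    congr 1
    have h3 : ((q3 t / 2).toNat : ℤ) = q3 t / 2 := Int.toNat_of_nonneg (by omega)
    have h4 : 2 * (q3 t / 2) = q3 t := by omega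
    have h5 : (q3 t : ℝ) = 2 * (((q3 t / 2).toNat : ℤ) : ℝ) := by
      rw [h3]
      exact_mod_cast h4.symm
    rw [h5]
    push_cast
    ring
  have hg0 : ∀ j, 11 ≤ j → g j = 0 := by
    intro j hj
    simp only [hg, hG]
    have : (11:ℝ) ≤ j := by exact_mod_cast hj
    rw [if_pos (by linarith)]
  have hsum := sum_bx hfg hg0
  have hsmall : ∑' x : NZ 3, G (qf G0 x.1) = ∑ t ∈ bx, f t := by
    have h1 : ∑' x : NZ 3, G (qf G0 x.1) = ∑' t : {t : ℤ × ℤ × ℤ // Lat t}, f t.1 := by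
      rw [← eqv.tsum_eq (fun t : {t : ℤ × ℤ × ℤ // Lat t} => f t.1)]
      refine tsum_congr fun x => ?_
      simp only [hf, eqv, Equiv.coe_fn_mk]
      rw [qf_G0]
    rw [h1]
    have h2 : ∑' t : {t : ℤ × ℤ × ℤ // Lat t}, f t.1 =
        ∑' t, ({t : ℤ × ℤ × ℤ | Lat t}).indicator f t := tsum_subtype {t : ℤ × ℤ × ℤ | Lat t} f
    rw [h2]
    rw [tsum_eq_sum (s := bx)]
    · refine Finset.sum_congr rfl fun t ht => ?_
      unfold bx at ht
      rw [Finset.mem_filter] at ht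
      exact Set.indicator_of_mem (show t ∈ {t : ℤ × ℤ × ℤ | Lat t} from ht.2) f
    · intro t ht
      by_cases hL : Lat t
      · rw [Set.indicator_of_mem (show t ∈ {t : ℤ × ℤ × ℤ | Lat t} from hL)]
        have hb : t ∉ box := fun hb => ht (Finset.mem_filter.mpr ⟨hb, hL⟩)
        have h36 : (36:ℝ) ≤ (q3 t : ℝ) := by exact_mod_cast q3_of_not_mem hb
        simp only [hf, hG]
        rw [if_pos (by linarith)]
      · exact Set.indicator_of_notMem (show t ∉ {t : ℤ × ℤ × ℤ | Lat t} from hL) f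
  have hsG : Summable fun x : NZ 3 => G (qf G0 x.1) := by
    refine hF.norm.of_norm_bounded ?_ |> fun h => h
    intro x
    simp only [hG]
    split_ifs
    · rw [norm_zero]; exact norm_nonneg _
    · exact le_rfl
  have hsT : Summable fun x : NZ 3 => if 22 ≤ qf G0 x.1 then F (qf G0 x.1) else 0 := by
    refine hF.norm.of_norm_bounded ?_ |> fun h => h
    intro x
    split_ifs
    · exact le_rfl
    · rw [norm_zero]; exact norm_nonneg _
  have hsplit : ∑' x : NZ 3, F (qf G0 x.1) = ∑' x : NZ 3, G (qf G0 x.1) +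
      ∑' x : NZ 3, if 22 ≤ qf G0 x.1 then F (qf G0 x.1) else 0 := by
    rw [← hsG.tsum_add hsT]
    refine tsum_congr fun x => ?_
    simp only [hG]
    split_ifs <;> ring
  rw [hsplit, hsmall, hsum]
  have e : ∀ j : ℕ, j ≤ 10 → g j = F (2 * j) := by
    intro j hj
    simp only [hg, hG]
    have : (j:ℝ) ≤ 10 := by exact_mod_cast hj
    rw [if_neg (by linarith)]
  rw [e 1 (by norm_num), e 2 (by norm_num), e 3 (by norm_num), e 4 (by norm_num),
    e 5 (by norm_num), e 6 (by norm_num), e 7 (by norm_num), e 8 (by norm_num),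
    e 9 (by norm_num), e 10 (by norm_num)]
  norm_num

/-- the shells of norm at least `22` for a decreasing function -/
theorem tail_gen {f : ℝ → ℝ} (h0 : ∀ q, 22 ≤ q → 0 ≤ f q)
    (hf : ∀ p q, 22 ≤ p → p ≤ q → f q ≤ f p) {C : ℝ} (hC : 0 ≤ C)
    (h36 : ∀ q, 36 ≤ q → f q ≤ C * Real.exp (-(1 / 10 * q))) :
    (Summable fun x : NZ 3 => if 22 ≤ qf G0 x.1 then f (qf G0 x.1) else 0) ∧
    ∑' x : NZ 3, (if 22 ≤ qf G0 x.1 then f (qf G0 x.1) else 0) ≤
      24 * f 22 + 24 * f 24 + 72 * f 26 + 344 * f 30 + 1405 * C := by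
  set G : ℝ → ℝ := fun q => if 22 ≤ q then f q else 0 with hG
  set g : ℕ → ℝ := fun j => G (2 * j) with hg
  set F : ℤ × ℤ × ℤ → ℝ := fun t => G (q3 t) with hF
  have hG0 : ∀ q, 0 ≤ G q := by
    intro q
    simp only [hG]
    split_ifs with h
    · exact h0 q h
    · exact le_rfl
  have hfg : ∀ t, 1 ≤ q3 t → q3 t % 2 = 0 → F t = g (q3 t / 2).toNat := by
    intro t ht1 ht2
    simp only [hF, hg]
    congr 1
    have h3 : ((q3 t / 2).toNat : ℤ) = q3 t / 2 := Int.toNat_of_nonneg (by omega)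
    have h4 : 2 * (q3 t / 2) = q3 t := by omega
    have h5 : (q3 t : ℝ) = 2 * (((q3 t / 2).toNat : ℤ) : ℝ) := by
      rw [h3]
      exact_mod_cast h4.symm
    rw [h5]
    push_cast
    ring
  have hg15 : ∀ j, 15 ≤ j → g j ≤ g 15 := by
    intro j hj
    have hj' : (15:ℝ) ≤ j := by exact_mod_cast hj
    simp only [hg, hG]
    rw [if_pos (by linarith), if_pos (by norm_num)]
    exact hf _ _ (by norm_num) (by push_cast; linarith)
  have hsh := shells hfg hg15
  have hi : Function.Injective (fun x : NZ 3 => abc x.1) := fun x y h => Subtype.ext (abc_inj h)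
  obtain ⟨b1, b2⟩ := box_bound hi (f := F) (fun t => hG0 _) bx hC (by
    intro x hx
    have hp := q3_pos x.2
    have hev := q3_even x.1
    have hb : abc x.1 ∉ box := fun hb => hx (Finset.mem_filter.mpr ⟨hb, hev, hp⟩)
    have h6 : (36:ℝ) ≤ (q3 (abc x.1) : ℝ) := by exact_mod_cast q3_of_not_mem hb
    simp only [hF, hG]
    rw [if_pos (by linarith)]
    exact h36 _ h6)
  have e1 : (fun x : NZ 3 => F (abc x.1)) =
      fun x : NZ 3 => if 22 ≤ qf G0 x.1 then f (qf G0 x.1) else 0 := by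
    funext x
    simp only [hF, hG]
    rw [qf_G0]
  rw [e1] at b1
  refine ⟨b1, ?_⟩
  have e2 := congrArg (fun u : NZ 3 → ℝ => ∑' x, u x) e1
  rw [← e2]
  refine b2.trans ?_
  have z : ∀ j : ℕ, j ≤ 10 → g j = 0 := by
    intro j hj
    have : (j:ℝ) ≤ 10 := by exact_mod_cast hj
    simp only [hg, hG]
    rw [if_neg (by linarith)]
  have z' : ∀ j : ℕ, 11 ≤ j → g j = f (2 * j) := by
    intro j hj
    have : (11:ℝ) ≤ j := by exact_mod_cast hj
    simp only [hg, hG]
    rw [if_pos (by linarith)]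
  rw [z 1 (by norm_num), z 2 (by norm_num), z 3 (by norm_num), z 4 (by norm_num),
    z 5 (by norm_num), z 6 (by norm_num), z 7 (by norm_num), z 8 (by norm_num),
    z 9 (by norm_num), z 10 (by norm_num), z' 11 (by norm_num), z' 12 (by norm_num),
    z' 13 (by norm_num), z' 15 (by norm_num)] at hsh
  norm_num at hsh ⊢
  linarith

/-- `q exp (-c q)` is decreasing for `q ≥ 1/c` -/
theorem mul_exp_anti {c p q : ℝ} (hp : 1 ≤ c * p) (hc : 0 < c) (hpq : p ≤ q) :
    q * Real.exp (-(c * q)) ≤ p * Real.exp (-(c * p)) := by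
  have hp0 : 0 < p := by
    by_contra h
    push Not at h
    nlinarith
  have h1 : q / p ≤ Real.exp (c * (q - p)) := by
    have h2 := Real.add_one_le_exp (c * (q - p))
    have h3 : q / p = 1 + (q - p) / p := by field_simp; ring
    have h4 : (q - p) / p ≤ c * (q - p) := by
      rw [div_le_iff₀ hp0]
      nlinarith
    linarith
  have h5 : Real.exp (-(c * p)) = Real.exp (c * (q - p)) * Real.exp (-(c * q)) := by
    rw [← Real.exp_add]; congr 1; ring
  rw [h5]
  have h6 : q ≤ p * Real.exp (c * (q - p)) := by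
    rw [div_le_iff₀ hp0] at h1
    linarith
  have h7 := (Real.exp_pos (-(c * q))).le
  nlinarith

/-- (TL) -/
theorem tail_sum : (Summable fun x : NZ 3 =>
      if 22 ≤ qf G0 x.1 then qf G0 x.1 * Real.exp (-(4 / 5 * qf G0 x.1)) else 0) ∧
    ∑' x : NZ 3, (if 22 ≤ qf G0 x.1 then qf G0 x.1 * Real.exp (-(4 / 5 * qf G0 x.1)) else 0) ≤
      2 / 10 ^ 5 := by
  have hE : ∀ n : ℕ, Real.exp (-(4 / 5 * (2 * n))) ≤ (202 / 1000) ^ n := by
    intro n
    have : Real.exp (-(4 / 5 * (2 * n))) = Real.exp (-(8 / 5)) ^ n := by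
      rw [← Real.exp_nat_mul]; congr 1; ring
    rw [this]
    exact pow_le_pow_left₀ (Real.exp_pos _).le exp_a n
  have hE7 : Real.exp (-(7 / 10 * 36)) ≤ (202 / 1000) ^ 15 := by
    refine le_trans (Real.exp_le_exp.mpr ?_) (hE 15)
    norm_num
  obtain ⟨a1, a2⟩ := tail_gen (f := fun q => q * Real.exp (-(4 / 5 * q)))
    (C := 36 * Real.exp (-(7 / 10 * 36)))
    (fun q hq => by positivity)
    (fun p q hp hpq => mul_exp_anti (by linarith) (by norm_num) hpq) (by positivity) (by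
      intro q hq
      have h1 := mul_exp_anti (c := 7 / 10) (p := 36) (q := q) (by norm_num) (by norm_num) hq
      have h2 : Real.exp (-(4 / 5 * q)) = Real.exp (-(7 / 10 * q)) * Real.exp (-(1 / 10 * q)) := by
        rw [← Real.exp_add]; congr 1; ring
      rw [h2, ← mul_assoc]
      exact mul_le_mul_of_nonneg_right h1 (Real.exp_pos _).le)
  refine ⟨a1, a2.trans ?_⟩
  have e11 := hE 11
  have e12 := hE 12
  have e13 := hE 13
  have e15 := hE 15
  norm_num at e11 e12 e13 e15 hE7 ⊢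
  linarith

end Pool.Agent.Lib.EPS
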