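import Pool.Agent.Lib.EPS.LocDefs
import Pool.Agent.Lib.EPS.Shell
import Pool.Agent.Lib.EPS.ConW

/-!
# EPS.LocS: lattice sums for `G0` and its dual

From CONL (helper22/helper95): `shell_sum` (multiplicities 12, 6, 24, 12, 24, 8, 48, 6, 36, 24 of the
values 2, 4, ..., 20, and the tail `22 ≤ qf G0 x`) and the tail bound
`∑' [22 ≤ n] n exp(-(4/5 n)) ≤ 1/10000`. `shell3`: follows from `shell_sum` for `F` and for
`F` cut off below `8`. `K8`: `96 + 240 e^(-8/5) + 96 e^(-16/5) + 672 e^(-24/5) + 96 e^(-32/5)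
+ 648 e^(-8) + 480 e^(-48/5) + e^(32/5) (tail) = 154.31 + .06`. `K4`: `24 e^(-52/5) + 144 e^(-104/5)
+ ... ≤ 1/1000` (for `n ≥ 8`: `26/5 (n-2) ≥ 4/5 (n-8) + 26`, and `K8`).
-/

open MeasureTheory Set Matrix
open scoped Matrix.Norms.Elementwise

namespace Pool.Agent.Lib.EPS

open Pool.Agent.Lib.EpZ Pool.Agent.Lib.FCC

namespace LocSAux

open ConLAux ShellAux

/-- summability of the cut functions -/
theorem sum_cut (m : ℝ) {C : ℝ} (hC : 0 ≤ C) {f : ℝ → ℝ} (h0 : ∀ q, m ≤ q → 0 ≤ f q)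
    (h36 : ∀ q, 36 ≤ q → f q ≤ C * Real.exp (-(1 / 10 * q))) :
    Summable fun x : NZ 3 => if m ≤ qf G0 x.1 then f (qf G0 x.1) else 0 := by
  set G : ℝ → ℝ := fun q => if m ≤ q then f q else 0 with hG
  set F : ℤ × ℤ × ℤ → ℝ := fun t => G (q3 t) with hF
  have hG0 : ∀ q, 0 ≤ G q := by
    intro q
    simp only [hG]
    split_ifs with h
    · exact h0 q h
    · exact le_rfl
  have hi : Function.Injective (fun x : NZ 3 => abc x.1) := fun x y h => Subtype.ext (abc_inj h)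
  obtain ⟨b1, -⟩ := box_bound hi (f := F) (fun t => hG0 _) ConLAux.bx hC (by
    intro x hx
    have hp := q3_pos x.2
    have hev := q3_even x.1
    have hb : abc x.1 ∉ ConLAux.box := fun hb => hx (Finset.mem_filter.mpr ⟨hb, hev, hp⟩)
    have h6 : (36:ℝ) ≤ (q3 (abc x.1) : ℝ) := by exact_mod_cast q3_of_not_mem hb
    simp only [hF, hG]
    split_ifs with h
    · exact h36 _ h6
    · positivity)
  have e1 : (fun x : NZ 3 => F (abc x.1)) =
      fun x : NZ 3 => if m ≤ qf G0 x.1 then f (qf G0 x.1) else 0 := by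
    funext x
    simp only [hF, hG]
    rw [qf_G0]
  rw [e1] at b1
  exact b1

theorem expn (n : ℕ) : Real.exp (-(8 / 5 * n)) ≤ (202 / 1000) ^ n := by
  have : Real.exp (-(8 / 5 * n)) = Real.exp (-(8 / 5)) ^ n := by
    rw [← Real.exp_nat_mul]; congr 1; ring
  rw [this]
  exact pow_le_pow_left₀ (Real.exp_pos _).le exp_a n

theorem e32 : Real.exp (32 / 5) ≤ 1100 := by
  have h1 : Real.exp (32 / 5) ≤ Real.exp 1 ^ 7 := by
    rw [← Real.exp_nat_mul]
    refine Real.exp_le_exp.mpr ?_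
    norm_num
  have h2 := Real.exp_one_lt_d9
  have h3 : Real.exp 1 ^ 7 ≤ (2.7182818286 : ℝ) ^ 7 :=
    pow_le_pow_left₀ (Real.exp_pos _).le h2.le 7
  refine h1.trans (h3.trans ?_)
  norm_num

theorem e45 : Real.exp (-(4 / 5)) ≤ 1 / 2 := by
  have h1 := Real.sum_le_exp_of_nonneg (x := 4 / 5) (by norm_num) 4
  have h2 : (2:ℝ) ≤ Real.exp (4 / 5) := by
    refine le_trans ?_ h1
    norm_num [Finset.sum_range_succ, Nat.factorial]
  rw [Real.exp_neg, one_div]
  exact inv_anti₀ (by norm_num) h2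

/-- the function of `K8` -/
noncomputable def f8 (q : ℝ) : ℝ := q * Real.exp (-(4 / 5 * (q - 8)))

/-- the function of `K4` -/
noncomputable def f4 (q : ℝ) : ℝ := q * Real.exp (-(26 / 5 * (q - 2)))

theorem f8_eq (q : ℝ) : f8 q = Real.exp (32 / 5) * (q * Real.exp (-(4 / 5 * q))) := by
  unfold f8
  rw [show -(4 / 5 * (q - 8)) = 32 / 5 + -(4 / 5 * q) by ring, Real.exp_add]
  ring

theorem f8_nn {q : ℝ} (h : 0 ≤ q) : 0 ≤ f8 q := mul_nonneg h (Real.exp_pos _).le

theorem f4_nn {q : ℝ} (h : 0 ≤ q) : 0 ≤ f4 q := mul_nonneg h (Real.exp_pos _).le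

theorem f8_36 {q : ℝ} (hq : 36 ≤ q) : f8 q ≤
    Real.exp (32 / 5) * (36 * Real.exp (-(7 / 10 * 36))) * Real.exp (-(1 / 10 * q)) := by
  rw [f8_eq]
  have h1 := mul_exp_anti (c := 7 / 10) (p := 36) (q := q) (by norm_num) (by norm_num) hq
  have h2 : Real.exp (-(4 / 5 * q)) = Real.exp (-(7 / 10 * q)) * Real.exp (-(1 / 10 * q)) := by
    rw [← Real.exp_add]; congr 1; ring
  rw [h2, mul_assoc]
  refine mul_le_mul_of_nonneg_left ?_ (Real.exp_pos _).le
  rw [← mul_assoc]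
  exact mul_le_mul_of_nonneg_right h1 (Real.exp_pos _).le

theorem f4_le {q : ℝ} (hq : 8 ≤ q) : f4 q ≤ Real.exp (-26) * f8 q := by
  unfold f4 f8
  have h1 : Real.exp (-(26 / 5 * (q - 2))) ≤ Real.exp (-26) * Real.exp (-(4 / 5 * (q - 8))) := by
    rw [← Real.exp_add]
    refine Real.exp_le_exp.mpr ?_
    linarith
  calc q * Real.exp (-(26 / 5 * (q - 2)))
      ≤ q * (Real.exp (-26) * Real.exp (-(4 / 5 * (q - 8)))) :=
        mul_le_mul_of_nonneg_left h1 (by linarith)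
    _ = _ := by ring

theorem s8 : Summable fun x : NZ 3 => if 8 ≤ qf G0 x.1 then f8 (qf G0 x.1) else 0 :=
  sum_cut 8 (C := Real.exp (32 / 5) * (36 * Real.exp (-(7 / 10 * 36)))) (by positivity)
    (fun q hq => f8_nn (by linarith)) (fun q hq => f8_36 hq)

theorem s4 : Summable fun x : NZ 3 => if 4 ≤ qf G0 x.1 then f4 (qf G0 x.1) else 0 := by
  refine sum_cut 4 (C := Real.exp (-26) *
      (Real.exp (32 / 5) * (36 * Real.exp (-(7 / 10 * 36))))) (by positivity)
    (fun q hq => f4_nn (by linarith)) (fun q hq => ?_)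
  refine (f4_le (by linarith)).trans ?_
  rw [mul_assoc]
  exact mul_le_mul_of_nonneg_left (f8_36 hq) (Real.exp_pos _).le

end LocSAux

open LocSAux

theorem shell3 {F : ℝ → ℝ} (hF : Summable fun x : NZ 3 => F (qf G0 x.1)) :
    ∑' x : NZ 3, F (qf G0 x.1) = 12 * F 2 + 6 * F 4 + 24 * F 6 +
      ∑' x : NZ 3, if 8 ≤ qf G0 x.1 then F (qf G0 x.1) else 0 := by
  have hF8 : Summable fun x : NZ 3 => (fun q : ℝ => if 8 ≤ q then F q else 0) (qf G0 x.1) := by
    refine hF.norm.of_norm_bounded ?_ |> fun h => h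
    intro x
    simp only
    split_ifs
    · exact le_rfl
    · rw [norm_zero]; exact norm_nonneg _
  have h1 := shell_sum hF
  have h2 := shell_sum (F := fun q : ℝ => if 8 ≤ q then F q else 0) hF8
  have h3 : ∑' x : NZ 3, (if 22 ≤ qf G0 x.1 then
      (fun q : ℝ => if 8 ≤ q then F q else 0) (qf G0 x.1) else 0) =
      ∑' x : NZ 3, if 22 ≤ qf G0 x.1 then F (qf G0 x.1) else 0 := by
    refine tsum_congr fun x => ?_
    split_ifs with h
    · simp only
      rw [if_pos (by linarith)]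
    · rfl
  rw [h3] at h2
  norm_num at h2
  rw [h1, h2]
  ring

theorem K8_sum : Summable fun x : NZ 3 =>
    if 8 ≤ qf G0 x.1 then qf G0 x.1 * Real.exp (-(4 / 5 * (qf G0 x.1 - 8))) else 0 := s8

theorem K8 : ∑' x : NZ 3, (if 8 ≤ qf G0 x.1 then
    qf G0 x.1 * Real.exp (-(4 / 5 * (qf G0 x.1 - 8))) else 0) ≤ 155 := by
  have h2 := shell_sum (F := fun q : ℝ => if 8 ≤ q then f8 q else 0) s8
  have h3 : ∑' x : NZ 3, (if 22 ≤ qf G0 x.1 then
      (fun q : ℝ => if 8 ≤ q then f8 q else 0) (qf G0 x.1) else 0) =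
      Real.exp (32 / 5) * ∑' x : NZ 3, (if 22 ≤ qf G0 x.1 then
        qf G0 x.1 * Real.exp (-(4 / 5 * qf G0 x.1)) else 0) := by
    rw [← tsum_mul_left]
    refine tsum_congr fun x => ?_
    split_ifs with h
    · simp only
      rw [if_pos (by linarith), f8_eq]
    · rw [mul_zero]
  rw [h3] at h2
  norm_num at h2
  have h4 : ∑' x : NZ 3, (if 8 ≤ qf G0 x.1 then
    qf G0 x.1 * Real.exp (-(4 / 5 * (qf G0 x.1 - 8))) else 0) =
    ∑' x : NZ 3, (if 8 ≤ qf G0 x.1 then f8 (qf G0 x.1) else 0) := rfl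
  rw [h4, h2]
  have t1 := tail_sum.2
  have t0 : 0 ≤ ∑' x : NZ 3, (if 22 ≤ qf G0 x.1 then
      qf G0 x.1 * Real.exp (-(4 / 5 * qf G0 x.1)) else 0) := by
    refine tsum_nonneg fun x => ?_
    split_ifs with h
    · have : 0 ≤ qf G0 x.1 := by linarith
      positivity
    · exact le_rfl
  have t2 := e32
  set S := ∑' x : NZ 3, (if 22 ≤ qf G0 x.1 then
      qf G0 x.1 * Real.exp (-(4 / 5 * qf G0 x.1)) else 0) with hS
  have t3 : Real.exp (32 / 5) * S ≤ 1100 * (2 / 10 ^ 5) :=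
    mul_le_mul t2 t1 t0 (by norm_num)
  have a8 : f8 8 = 8 := by unfold f8; norm_num
  have b1 := expn 1
  have b2 := expn 2
  have b3 := expn 3
  have b4 := expn 4
  have b5 := expn 5
  have b6 := expn 6
  have a10 : f8 10 ≤ 10 * (202 / 1000) ^ 1 := by
    unfold f8
    refine mul_le_mul_of_nonneg_left (le_trans (le_of_eq ?_) b1) (by norm_num)
    congr 1; norm_num
  have a12 : f8 12 ≤ 12 * (202 / 1000) ^ 2 := by
    unfold f8
    refine mul_le_mul_of_nonneg_left (le_trans (le_of_eq ?_) b2) (by norm_num)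
    congr 1; norm_num
  have a14 : f8 14 ≤ 14 * (202 / 1000) ^ 3 := by
    unfold f8
    refine mul_le_mul_of_nonneg_left (le_trans (le_of_eq ?_) b3) (by norm_num)
    congr 1; norm_num
  have a16 : f8 16 ≤ 16 * (202 / 1000) ^ 4 := by
    unfold f8
    refine mul_le_mul_of_nonneg_left (le_trans (le_of_eq ?_) b4) (by norm_num)
    congr 1; norm_num
  have a18 : f8 18 ≤ 18 * (202 / 1000) ^ 5 := by
    unfold f8
    refine mul_le_mul_of_nonneg_left (le_trans (le_of_eq ?_) b5) (by norm_num)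
    congr 1; norm_num
  have a20 : f8 20 ≤ 20 * (202 / 1000) ^ 6 := by
    unfold f8
    refine mul_le_mul_of_nonneg_left (le_trans (le_of_eq ?_) b6) (by norm_num)
    congr 1; norm_num
  norm_num at a10 a12 a14 a16 a18 a20 t3
  rw [a8]
  linarith

theorem K4_sum : Summable fun x : NZ 3 =>
    if 4 ≤ qf G0 x.1 then qf G0 x.1 * Real.exp (-(26 / 5 * (qf G0 x.1 - 2))) else 0 := s4

theorem K4 : ∑' x : NZ 3, (if 4 ≤ qf G0 x.1 then
    qf G0 x.1 * Real.exp (-(26 / 5 * (qf G0 x.1 - 2))) else 0) ≤ 1 / 1000 := by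
  have h2 := shell3 (F := fun q : ℝ => if 4 ≤ q then f4 q else 0) s4
  have h4 : ∑' x : NZ 3, (if 4 ≤ qf G0 x.1 then
    qf G0 x.1 * Real.exp (-(26 / 5 * (qf G0 x.1 - 2))) else 0) =
    ∑' x : NZ 3, (if 4 ≤ qf G0 x.1 then f4 (qf G0 x.1) else 0) := rfl
  have h3 : ∑' x : NZ 3, (if 8 ≤ qf G0 x.1 then
      (fun q : ℝ => if 4 ≤ q then f4 q else 0) (qf G0 x.1) else 0) ≤ Real.exp (-26) * 155 := by
    have k8 := K8
    have k8' : ∑' x : NZ 3, (if 8 ≤ qf G0 x.1 then f8 (qf G0 x.1) else 0) ≤ 155 := k8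
    refine le_trans ?_ (mul_le_mul_of_nonneg_left k8' (Real.exp_pos (-26)).le)
    rw [← tsum_mul_left]
    refine Summable.tsum_le_tsum (fun x => ?_) ?_ (s8.mul_left _)
    · split_ifs with h
      · simp only
        rw [if_pos (by linarith)]
        exact f4_le h
      · rw [mul_zero]
    · refine Summable.of_nonneg_of_le (fun x => ?_) (fun x => ?_) (s8.mul_left (Real.exp (-26)))
      · split_ifs with h
        · simp only
          rw [if_pos (by linarith)]
          exact f4_nn (by linarith)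
        · exact le_rfl
      · split_ifs with h
        · simp only
          rw [if_pos (by linarith)]
          exact f4_le h
        · rw [mul_zero]
  rw [h4, h2]
  have b13 : Real.exp (-26) ≤ (202 / 1000) ^ 16 := by
    refine le_trans (Real.exp_le_exp.mpr ?_) (expn 16)
    norm_num
  have b6 := expn 6
  have b4 : f4 4 ≤ 4 * ((202 / 1000) ^ 6 * (1 / 2)) := by
    unfold f4
    refine mul_le_mul_of_nonneg_left ?_ (by norm_num)
    rw [show -(26 / 5 * ((4:ℝ) - 2)) = -(8 / 5 * (6:ℕ)) + -(4 / 5) by push_cast; norm_num,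
      Real.exp_add]
    exact mul_le_mul b6 e45 (Real.exp_pos _).le (by positivity)
  have b6' : f4 6 ≤ 6 * (202 / 1000) ^ 13 := by
    unfold f4
    refine mul_le_mul_of_nonneg_left (le_trans (le_of_eq ?_) (expn 13)) (by norm_num)
    congr 1; push_cast; norm_num
  norm_num at b4 b6' b13 h3 ⊢
  linarith

theorem KD_sum : Summable fun y : NZ 3 =>
    Real.exp (-(5 * Real.pi ^ 2 / 4 * qf G0⁻¹ y.1)) := dual_sum.1

theorem KD : ∑' y : NZ 3, Real.exp (-(5 * Real.pi ^ 2 / 4 * qf G0⁻¹ y.1)) ≤ 1 / 1000 :=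
  dual_sum.2.trans (by norm_num)

end Pool.Agent.Lib.EPS
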