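import Pool.Agent.Lib.EPS.LocB
import Pool.Agent.Lib.EPS.LocS
import Pool.Agent.Lib.EPS.Split

/-!
# EPS.LocD: the dual part

`Q = formOf l`, `det Q = 4`, `Q⁻¹ = adj Q / 4` (explicit entries). The twelve matrices `(U12 i)ᵀ`
preserve `G0⁻¹` (the matrices `U12 i` preserve `G0` and form a group; or directly) and
`∑_i qf Q⁻¹ ((U12 i)ᵀ y) = 12 T* qf G0⁻¹ y` (identity of quadratic forms in `y` with entries
quadratic in `l`), `0 < T* = T² (1 - a/6 - b/3) ≤ T²` (also directly: `(S1 4 l/12)² - T*` is a sum of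
squares in `l`). Convexity and monotonicity of `phi (3/2 - s)` (`phi_tangent`, `phi_anti`), as in
`rest_jensen`: `Dua s Q ≥ ∑' phi (3/2-s) (z T²)`, `z = 5π²/4 qf G0⁻¹ y`, and
`phi (3/2-s) (z T²) ≥ phi (3/2-s) z - (T²-1) z phi (5/2-s) z`, `z phi (5/2-s) z ≤ exp(-z)`
(`phi_le`, `5/2 - s ≤ 1`), `KD`.
-/

open MeasureTheory Set Matrix
open scoped Matrix.Norms.Elementwise

namespace Pool.Agent.Lib.EPS

open Pool.Agent.Lib.EpZ Pool.Agent.Lib.FCC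

namespace LocDAux

open Pool.Agent.Lib.FCC.RestJAux

/-- the scale of the dual part -/
noncomputable def Ts (l : Fin 6 → ℝ) : ℝ :=
  (2 * l 0 * l 1 + (l 0 + l 1) * (l 2 + l 3 + l 4 + l 5) + l 2 * l 3 + l 2 * l 4 + l 2 * l 5
    + l 3 * l 4 + l 3 * l 5 + l 4 * l 5) / 6

theorem Ts_le (l : Fin 6 → ℝ) : Ts l ≤ (S1 4 l / 12) ^ 2 := by
  rw [S1_four]
  unfold Ts
  have h1 : ((4 * l 0 + 4 * l 1 + 3 * l 2 + 3 * l 3 + 3 * l 4 + 3 * l 5) / 12) ^ 2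
      - (2 * l 0 * l 1 + (l 0 + l 1) * (l 2 + l 3 + l 4 + l 5) + l 2 * l 3 + l 2 * l 4 + l 2 * l 5
        + l 3 * l 4 + l 3 * l 5 + l 4 * l 5) / 6
      = ((l 0 + l 1) ^ 2 + (2 * l 0 - l 1) ^ 2 + (2 * l 1 - l 0) ^ 2) / 54
        + ((l 4 + l 5 - l 2 - l 3) ^ 2 + (l 3 + l 4 - l 2 - l 5) ^ 2
          + (l 2 + l 4 - l 3 - l 5) ^ 2) / 48 := by
    ring
  have h2 : 0 ≤ ((l 0 + l 1) ^ 2 + (2 * l 0 - l 1) ^ 2 + (2 * l 1 - l 0) ^ 2) / 54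
        + ((l 4 + l 5 - l 2 - l 3) ^ 2 + (l 3 + l 4 - l 2 - l 5) ^ 2
          + (l 2 + l 4 - l 3 - l 5) ^ 2) / 48 := by
    positivity
  linarith

/-- the inverse form -/
theorem qr_inv {Q : Mx 3} (hd : Q.det = 4) (v : Fin 3 → ℝ) : qr Q⁻¹ v =
    (v 0 * (Q 1 1 * Q 2 2 - Q 1 2 * Q 2 1) * v 0
      + v 0 * (-(Q 0 1 * Q 2 2) + Q 0 2 * Q 2 1) * v 1
      + v 0 * (Q 0 1 * Q 1 2 - Q 0 2 * Q 1 1) * v 2
      + (v 1 * (-(Q 1 0 * Q 2 2) + Q 1 2 * Q 2 0) * v 0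
        + v 1 * (Q 0 0 * Q 2 2 - Q 0 2 * Q 2 0) * v 1
        + v 1 * (-(Q 0 0 * Q 1 2) + Q 0 2 * Q 1 0) * v 2)
      + (v 2 * (Q 1 0 * Q 2 1 - Q 1 1 * Q 2 0) * v 0
        + v 2 * (-(Q 0 0 * Q 2 1) + Q 0 1 * Q 2 0) * v 1
        + v 2 * (Q 0 0 * Q 1 1 - Q 0 1 * Q 1 0) * v 2)) / 4 := by
  have h1 : Q⁻¹ = (1 / 4 : ℝ) • Q.adjugate := by
    rw [Matrix.inv_def, hd, Ring.inverse_eq_inv']
    norm_num
  rw [qr_three, h1, Matrix.adjugate_fin_three]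
  simp only [Matrix.smul_apply, Matrix.of_apply, Matrix.cons_val', Matrix.cons_val_zero,
    Matrix.cons_val_one, Matrix.cons_val, Matrix.cons_val_fin_one, smul_eq_mul]
  ring

theorem det_form (l : Fin 6 → ℝ) : (formOf l).det = dt l := by
  have h00 : formOf l 0 0 = l 0 + l 2 + l 4 := rfl
  have h01 : formOf l 0 1 = -l 0 := rfl
  have h02 : formOf l 0 2 = -l 2 := rfl
  have h10 : formOf l 1 0 = -l 0 := rfl
  have h11 : formOf l 1 1 = l 0 + l 5 + l 3 := rfl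
  have h12 : formOf l 1 2 = -l 5 := rfl
  have h20 : formOf l 2 0 = -l 2 := rfl
  have h21 : formOf l 2 1 = -l 5 := rfl
  have h22 : formOf l 2 2 = l 2 + l 5 + l 1 := rfl
  rw [Matrix.det_fin_three, h00, h01, h02, h10, h11, h12, h20, h21, h22]
  unfold dt
  ring

theorem qr_inv_formOf {l : Fin 6 → ℝ} (hd : dt l = 4) (v : Fin 3 → ℝ) : qr (formOf l)⁻¹ v =
    (((l 0 + l 5 + l 3) * (l 2 + l 5 + l 1) - l 5 ^ 2) * v 0 ^ 2
      + ((l 0 + l 2 + l 4) * (l 2 + l 5 + l 1) - l 2 ^ 2) * v 1 ^ 2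
      + ((l 0 + l 2 + l 4) * (l 0 + l 5 + l 3) - l 0 ^ 2) * v 2 ^ 2
      + 2 * (l 0 * (l 2 + l 5 + l 1) + l 2 * l 5) * v 0 * v 1
      + 2 * (l 0 * l 5 + l 2 * (l 0 + l 5 + l 3)) * v 0 * v 2
      + 2 * ((l 0 + l 2 + l 4) * l 5 + l 0 * l 2) * v 1 * v 2) / 4 := by
  rw [qr_inv (by rw [det_form, hd])]
  have h00 : formOf l 0 0 = l 0 + l 2 + l 4 := rfl
  have h01 : formOf l 0 1 = -l 0 := rfl
  have h02 : formOf l 0 2 = -l 2 := rfl
  have h10 : formOf l 1 0 = -l 0 := rfl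
  have h11 : formOf l 1 1 = l 0 + l 5 + l 3 := rfl
  have h12 : formOf l 1 2 = -l 5 := rfl
  have h20 : formOf l 2 0 = -l 2 := rfl
  have h21 : formOf l 2 1 = -l 5 := rfl
  have h22 : formOf l 2 2 = l 2 + l 5 + l 1 := rfl
  rw [h00, h01, h02, h10, h11, h12, h20, h21, h22]
  ring

theorem det_G0' : G0.det = 4 := by
  have h00 : G0 0 0 = 2 := rfl
  have h01 : G0 0 1 = 0 := rfl
  have h02 : G0 0 2 = -1 := rfl
  have h10 : G0 1 0 = 0 := rfl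
  have h11 : G0 1 1 = 2 := rfl
  have h12 : G0 1 2 = -1 := rfl
  have h20 : G0 2 0 = -1 := rfl
  have h21 : G0 2 1 = -1 := rfl
  have h22 : G0 2 2 = 2 := rfl
  rw [Matrix.det_fin_three, h00, h01, h02, h10, h11, h12, h20, h21, h22]
  norm_num

theorem qr_inv_G0 (v : Fin 3 → ℝ) : qr G0⁻¹ v =
    (3 * v 0 ^ 2 + 3 * v 1 ^ 2 + 4 * v 2 ^ 2 + 2 * v 0 * v 1 + 4 * v 0 * v 2
      + 4 * v 1 * v 2) / 4 := by
  rw [qr_inv det_G0']
  have h00 : G0 0 0 = 2 := rfl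
  have h01 : G0 0 1 = 0 := rfl
  have h02 : G0 0 2 = -1 := rfl
  have h10 : G0 1 0 = 0 := rfl
  have h11 : G0 1 1 = 2 := rfl
  have h12 : G0 1 2 = -1 := rfl
  have h20 : G0 2 0 = -1 := rfl
  have h21 : G0 2 1 = -1 := rfl
  have h22 : G0 2 2 = 2 := rfl
  rw [h00, h01, h02, h10, h11, h12, h20, h21, h22]
  ring

theorem im_tr (a b c d e f g h i : ℤ) : (im a b c d e f g h i)ᵀ = im a d g b e h c f i := by
  ext r s
  fin_cases r <;> fin_cases s <;> rfl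

theorem det_tr (i : Fin 12) : IsUnit ((U12 i)ᵀ).det := by
  rw [Matrix.det_transpose]
  exact det_U12 i

theorem sum_tr {l : Fin 6 → ℝ} (hd : dt l = 4) (x : Fin 3 → ℤ) :
    ∑ i, qf (formOf l)⁻¹ ((U12 i)ᵀ *ᵥ x) = 12 * Ts l * qf G0⁻¹ x := by
  unfold qf
  simp only [qr_inv_G0, qr_inv_formOf hd]
  rw [Fin.sum_univ_castSucc, Fin.sum_univ_castSucc, Fin.sum_univ_castSucc, Fin.sum_univ_castSucc,
    Fin.sum_univ_eight]
  simp only [Fin.isValue, Fin.castSucc_zero, Fin.castSucc_one, Fin.reduceCastSucc, Fin.reduceLast,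
    U12, im_tr, rv_im, if_true, if_false, one_ne_zero, Fin.reduceEq, Int.cast_one, Int.cast_zero,
    Int.cast_neg]
  unfold Ts
  ring

/-- Jensen for the kernel -/
theorem jens_phi {N : ℕ} (s : ℝ) {a : ℝ} (ha : 0 < a) (t : Fin N → ℝ) (ht : ∀ i, 0 < t i)
    (hm : ∑ i, t i = N * a) : N * phi s a ≤ ∑ i, phi s (t i) := by
  have h1 : ∑ i, (phi s a + phi (s + 1) a * (a - t i)) ≤ ∑ i, phi s (t i) :=
    Finset.sum_le_sum fun i _ => phi_tangent s (ht i) ha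
  refine le_trans (le_of_eq ?_) h1
  rw [Finset.sum_add_distrib, ← Finset.mul_sum, Finset.sum_sub_distrib, hm]
  simp only [Finset.sum_const, Finset.card_univ, Fintype.card_fin, nsmul_eq_mul]
  ring

/-- the change of scale -/
theorem scale {s z t T : ℝ} (hs : 3 / 2 ≤ s) (hz : 0 < z) (ht : 0 < t) (htT : t ≤ T ^ 2)
    (hT : 1 ≤ T) : phi (3 / 2 - s) z - (T ^ 2 - 1) * Real.exp (-z) ≤ phi (3 / 2 - s) (z * t) := by
  have hT2 : 1 ≤ T ^ 2 := one_le_pow₀ hT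
  have h1 : phi (3 / 2 - s) (z * T ^ 2) ≤ phi (3 / 2 - s) (z * t) :=
    phi_anti _ (by positivity) (mul_le_mul_of_nonneg_left htT hz.le)
  have h2 := phi_tangent (3 / 2 - s) (z := z * T ^ 2) (z0 := z) (by positivity) hz
  have h3 : phi (3 / 2 - s + 1) z ≤ Real.exp (-z) / z := phi_le hz (by linarith)
  have h4 : phi (3 / 2 - s + 1) z * z ≤ Real.exp (-z) := by
    rw [le_div_iff₀ hz] at h3
    exact h3
  have h5 : (T ^ 2 - 1) * (phi (3 / 2 - s + 1) z * z) ≤ (T ^ 2 - 1) * Real.exp (-z) :=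
    mul_le_mul_of_nonneg_left h4 (by linarith)
  have h6 : phi (3 / 2 - s + 1) z * (z - z * T ^ 2)
      = -((T ^ 2 - 1) * (phi (3 / 2 - s + 1) z * z)) := by ring
  linarith

end LocDAux

open LocDAux Pool.Agent.Lib.FCC.RestJAux in
theorem dua_lower {c : LC} {l : Fin 6 → ℝ} (h : c.Of l) (hd : dt l = 4) {s : ℝ}
    (hs : 3 / 2 ≤ s) : Dua s G0 - (c.T ^ 2 - 1) / 1000 ≤ Dua s (formOf l) := by
  have hpd := inv_pd h.pd
  have hpos : ∀ (i : Fin 12) (x : NZ 3), 0 < qf (formOf l)⁻¹ ((U12 i)ᵀ *ᵥ x.1) := fun i x =>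
    hpd.pos (InvAux.perm (det_tr i) x)
  have hG := inv_pd G0_pd
  have hTs : 0 < Ts l := by
    let x : NZ 3 := ⟨Pi.single 0 1, by
      intro h0
      have := congrFun h0 0
      simp at this⟩
    have h1 : 0 < ∑ i, qf (formOf l)⁻¹ ((U12 i)ᵀ *ᵥ x.1) :=
      Finset.sum_pos (fun i _ => hpos i x) Finset.univ_nonempty
    rw [sum_tr hd] at h1
    have h2 := (pos_iff_pos_of_mul_pos h1).2 (hG.pos x)
    linarith
  have hTle : Ts l ≤ c.T ^ 2 := by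
    rw [h.T_eq]
    exact Ts_le l
  have hT1 : 1 ≤ c.T := by linarith [(bd h).1]
  have hsum : ∀ i : Fin 12, Summable fun x : NZ 3 =>
      phi (3 / 2 - s) (5 * Real.pi ^ 2 / 4 * qf (formOf l)⁻¹ ((U12 i)ᵀ *ᵥ x.1)) := by
    intro i
    have h1 := (InvAux.perm (det_tr i)).summable_iff.2 (summable_dua h.pd (s := s) (by linarith))
    exact h1
  have hval : ∀ i : Fin 12, ∑' x : NZ 3,
      phi (3 / 2 - s) (5 * Real.pi ^ 2 / 4 * qf (formOf l)⁻¹ ((U12 i)ᵀ *ᵥ x.1))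
        = Dua s (formOf l) := by
    intro i
    exact (InvAux.perm (det_tr i)).tsum_eq fun x : NZ 3 =>
      phi (3 / 2 - s) (5 * Real.pi ^ 2 / 4 * qf (formOf l)⁻¹ x.1)
  have h12 : (12 : ℝ) * Dua s (formOf l) = ∑' x : NZ 3, ∑ i : Fin 12,
      phi (3 / 2 - s) (5 * Real.pi ^ 2 / 4 * qf (formOf l)⁻¹ ((U12 i)ᵀ *ᵥ x.1)) := by
    rw [Summable.tsum_finsetSum fun i _ => hsum i, Finset.sum_congr rfl fun i _ => hval i]
    simp
  have hsG := summable_dua G0_pd (s := s) (by linarith)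
  have hlow : Summable fun x : NZ 3 =>
      phi (3 / 2 - s) (5 * Real.pi ^ 2 / 4 * qf G0⁻¹ x.1)
        - (c.T ^ 2 - 1) * Real.exp (-(5 * Real.pi ^ 2 / 4 * qf G0⁻¹ x.1)) :=
    hsG.sub (KD_sum.mul_left _)
  have hle : 12 * ∑' x : NZ 3, (phi (3 / 2 - s) (5 * Real.pi ^ 2 / 4 * qf G0⁻¹ x.1)
        - (c.T ^ 2 - 1) * Real.exp (-(5 * Real.pi ^ 2 / 4 * qf G0⁻¹ x.1)))
      ≤ 12 * Dua s (formOf l) := by
    rw [h12, ← tsum_mul_left]
    refine Summable.tsum_le_tsum (fun x => ?_) (hlow.mul_left _) (summable_sum fun i _ => hsum i)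
    have hq := hG.pos x
    have hz : 0 < 5 * Real.pi ^ 2 / 4 * qf G0⁻¹ x.1 := by positivity
    have h1 := jens_phi (N := 12) (3 / 2 - s) (a := 5 * Real.pi ^ 2 / 4 * qf G0⁻¹ x.1 * Ts l)
      (by positivity) (fun i => 5 * Real.pi ^ 2 / 4 * qf (formOf l)⁻¹ ((U12 i)ᵀ *ᵥ x.1))
      (fun i => by have := hpos i x; positivity)
      (by
        rw [← Finset.mul_sum, sum_tr hd]
        push_cast
        ring)
    have h2 := scale hs hz hTs hTle hT1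
    have h3 : ((12 : ℕ) : ℝ) = 12 := by norm_num
    rw [h3] at h1
    linarith
  have hts : ∑' x : NZ 3, (phi (3 / 2 - s) (5 * Real.pi ^ 2 / 4 * qf G0⁻¹ x.1)
        - (c.T ^ 2 - 1) * Real.exp (-(5 * Real.pi ^ 2 / 4 * qf G0⁻¹ x.1)))
      = Dua s G0 - (c.T ^ 2 - 1) *
        ∑' x : NZ 3, Real.exp (-(5 * Real.pi ^ 2 / 4 * qf G0⁻¹ x.1)) := by
    rw [Summable.tsum_sub hsG (KD_sum.mul_left _), tsum_mul_left]
    rfl
  rw [hts] at hle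
  have hT2 : 0 ≤ c.T ^ 2 - 1 := by linarith [one_le_pow₀ (n := 2) hT1]
  have hK := mul_le_mul_of_nonneg_left KD hT2
  linarith

end Pool.Agent.Lib.EPS
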