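import Pool.Agent.Lib.EPS.LocDefs

/-!
# EPS.LocG: sums over the group of order twelve

With `v = (x0 + x1 - x2, x0 - x1, x2)` (integers, `qf G0 x = |v|²`) the twelve matrices `U12 i` act on
`v` by sign changes with product one and cyclic permutations, and
`qf (formOf l) (U12 i x) / T - qf G0 x = c.y (g_i v)`. For all `v` (by `ring`, with `s_k = v_k²`)
`∑ y = 4 (p0+p1+p2) |v|² = 0`, `∑ y² = 4 ∑_σ (L_σ² + 4 M_σ)`,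
`∑ y³ = 4 ∑_σ (L_σ³ + 12 L_σ M_σ) + 576 F s0 s1 s2`, `L_σ = ∑ p_k s_σk`,
`M_σ = f0² s_σ1 s_σ2 + f1² s_σ0 s_σ2 + f2² s_σ0 s_σ1`, `σ` cyclic. If `|v|² = 2, 4, 6` and `∑ v_k` is even
then `(s_k)` is a permutation of `(1,1,0), (4,0,0), (4,1,1)` (integers: `interval_cases`/`nlinarith`).
Use `p2 = -p0 - p1`.
-/

open MeasureTheory Set Matrix
open scoped Matrix.Norms.Elementwise

namespace Pool.Agent.Lib.EPS

open Pool.Agent.Lib.EpZ Pool.Agent.Lib.FCC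
open RestJAux

/-- the deviations -/
noncomputable def Yv (c : LC) (l : Fin 6 → ℝ) (x : Fin 3 → ℤ) (i : Fin 12) : ℝ :=
  qf (formOf l) (U12 i *ᵥ x) / c.T - qf G0 x

namespace LocGAux

/-- the twelve values of the traceless form -/
noncomputable def gy (c : LC) (v0 v1 v2 : ℝ) : Fin 12 → ℝ
  | 0 => c.y v0 v1 v2
  | 1 => c.y v0 (-v1) (-v2)
  | 2 => c.y (-v0) v1 (-v2)
  | 3 => c.y (-v0) (-v1) v2
  | 4 => c.y v2 v0 v1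
  | 5 => c.y v2 (-v0) (-v1)
  | 6 => c.y (-v2) v0 (-v1)
  | 7 => c.y (-v2) (-v0) v1
  | 8 => c.y v1 v2 v0
  | 9 => c.y v1 (-v2) (-v0)
  | 10 => c.y (-v1) v2 (-v0)
  | 11 => c.y (-v1) (-v2) v0

theorem Y_eq {c : LC} {l : Fin 6 → ℝ} (h : c.Of l) (x : Fin 3 → ℤ) (i : Fin 12) :
    Yv c l x i = gy c (rv x 0 + rv x 1 - rv x 2) (rv x 0 - rv x 1) (rv x 2) i := by
  have h1 : qf (formOf l) (U12 i *ᵥ x) / c.T = qf G0 x +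
      c.y (rv (U12 i *ᵥ x) 0 + rv (U12 i *ᵥ x) 1 - rv (U12 i *ᵥ x) 2)
        (rv (U12 i *ᵥ x) 0 - rv (U12 i *ᵥ x) 1) (rv (U12 i *ᵥ x) 2) := by
    rw [← inv_U12 i x]
    unfold qf
    rw [h.val, mul_div_cancel_left₀ _ h.T_pos.ne']
  unfold Yv
  rw [h1, add_sub_cancel_left]
  have h10 : (1 : Fin 3) ≠ 0 := by decide
  have h20 : (2 : Fin 3) ≠ 0 := by decide
  have h21 : (2 : Fin 3) ≠ 1 := by decide
  fin_cases i <;> simp only [U12, rv_im, gy, if_true, if_neg h10, if_neg h20, if_neg h21,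
    Int.cast_one, Int.cast_zero, Int.cast_neg] <;> congr 1 <;> ring

theorem sum12 (f : Fin 12 → ℝ) : ∑ i, f i = (f 0 + f 1 + f 2 + f 3) + (f 4 + f 5 + f 6 + f 7) +
    (f 8 + f 9 + f 10 + f 11) := by
  rw [Fin.sum_univ_castSucc, Fin.sum_univ_castSucc, Fin.sum_univ_castSucc, Fin.sum_univ_castSucc,
    Fin.sum_univ_eight]
  simp only [Fin.isValue, Fin.castSucc_zero, Fin.castSucc_one, Fin.reduceCastSucc, Fin.reduceLast]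
  ring

/-- the diagonal part -/
noncomputable def Lf (c : LC) (a b d : ℝ) : ℝ := c.p0 * a + c.p1 * b + c.p2 * d

/-- the sum of the squares of the mixed terms -/
noncomputable def Mf (c : LC) (a b d : ℝ) : ℝ := c.f0 ^ 2 * (b * d) + c.f1 ^ 2 * (a * d) + c.f2 ^ 2 * (a * b)

theorem q1 (c : LC) (a b d : ℝ) : c.y a b d + c.y a (-b) (-d) + c.y (-a) b (-d) + c.y (-a) (-b) d =
    4 * Lf c (a ^ 2) (b ^ 2) (d ^ 2) := by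
  unfold LC.y Lf
  ring

theorem q2 (c : LC) (a b d : ℝ) :
    c.y a b d ^ 2 + c.y a (-b) (-d) ^ 2 + c.y (-a) b (-d) ^ 2 + c.y (-a) (-b) d ^ 2 =
    4 * (Lf c (a ^ 2) (b ^ 2) (d ^ 2) ^ 2 + 4 * Mf c (a ^ 2) (b ^ 2) (d ^ 2)) := by
  unfold LC.y Lf Mf
  ring

theorem q3 (c : LC) (a b d : ℝ) :
    c.y a b d ^ 3 + c.y a (-b) (-d) ^ 3 + c.y (-a) b (-d) ^ 3 + c.y (-a) (-b) d ^ 3 =
    4 * (Lf c (a ^ 2) (b ^ 2) (d ^ 2) ^ 3 +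
      12 * Lf c (a ^ 2) (b ^ 2) (d ^ 2) * Mf c (a ^ 2) (b ^ 2) (d ^ 2)) +
      192 * c.F * (a ^ 2 * b ^ 2 * d ^ 2) := by
  unfold LC.y Lf Mf LC.F
  ring

theorem tot1 (c : LC) (v0 v1 v2 : ℝ) : ∑ i, gy c v0 v1 v2 i =
    4 * (Lf c (v0 ^ 2) (v1 ^ 2) (v2 ^ 2) + Lf c (v2 ^ 2) (v0 ^ 2) (v1 ^ 2) +
      Lf c (v1 ^ 2) (v2 ^ 2) (v0 ^ 2)) := by
  rw [sum12]
  simp only [gy]
  rw [q1, q1, q1]
  ring

theorem tot2 (c : LC) (v0 v1 v2 : ℝ) : ∑ i, gy c v0 v1 v2 i ^ 2 =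
    4 * ((Lf c (v0 ^ 2) (v1 ^ 2) (v2 ^ 2) ^ 2 + 4 * Mf c (v0 ^ 2) (v1 ^ 2) (v2 ^ 2)) +
      (Lf c (v2 ^ 2) (v0 ^ 2) (v1 ^ 2) ^ 2 + 4 * Mf c (v2 ^ 2) (v0 ^ 2) (v1 ^ 2)) +
      (Lf c (v1 ^ 2) (v2 ^ 2) (v0 ^ 2) ^ 2 + 4 * Mf c (v1 ^ 2) (v2 ^ 2) (v0 ^ 2))) := by
  rw [sum12]
  simp only [gy]
  rw [q2, q2, q2]
  ring

theorem tot3 (c : LC) (v0 v1 v2 : ℝ) : ∑ i, gy c v0 v1 v2 i ^ 3 =
    4 * ((Lf c (v0 ^ 2) (v1 ^ 2) (v2 ^ 2) ^ 3 + 12 * Lf c (v0 ^ 2) (v1 ^ 2) (v2 ^ 2) *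
        Mf c (v0 ^ 2) (v1 ^ 2) (v2 ^ 2)) +
      (Lf c (v2 ^ 2) (v0 ^ 2) (v1 ^ 2) ^ 3 + 12 * Lf c (v2 ^ 2) (v0 ^ 2) (v1 ^ 2) *
        Mf c (v2 ^ 2) (v0 ^ 2) (v1 ^ 2)) +
      (Lf c (v1 ^ 2) (v2 ^ 2) (v0 ^ 2) ^ 3 + 12 * Lf c (v1 ^ 2) (v2 ^ 2) (v0 ^ 2) *
        Mf c (v1 ^ 2) (v2 ^ 2) (v0 ^ 2))) + 576 * c.F * (v0 ^ 2 * v1 ^ 2 * v2 ^ 2) := by
  rw [sum12]
  simp only [gy]
  rw [q3, q3, q3]
  ring

theorem bd {a : ℤ} (h : a ^ 2 < 9) : -2 ≤ a ∧ a ≤ 2 := by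
  constructor <;> nlinarith

theorem int2 {a b d : ℤ} (h : a ^ 2 + b ^ 2 + d ^ 2 = 2) : (a ^ 2 = 1 ∧ b ^ 2 = 1 ∧ d ^ 2 = 0) ∨
    (a ^ 2 = 1 ∧ b ^ 2 = 0 ∧ d ^ 2 = 1) ∨ (a ^ 2 = 0 ∧ b ^ 2 = 1 ∧ d ^ 2 = 1) := by
  obtain ⟨a1, a2⟩ := bd (a := a) (by nlinarith [sq_nonneg b, sq_nonneg d])
  obtain ⟨b1, b2⟩ := bd (a := b) (by nlinarith [sq_nonneg a, sq_nonneg d])
  obtain ⟨d1, d2⟩ := bd (a := d) (by nlinarith [sq_nonneg b, sq_nonneg a])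
  interval_cases a <;> interval_cases b <;> interval_cases d <;> omega

theorem int4 {a b d : ℤ} (h : a ^ 2 + b ^ 2 + d ^ 2 = 4) : (a ^ 2 = 4 ∧ b ^ 2 = 0 ∧ d ^ 2 = 0) ∨
    (a ^ 2 = 0 ∧ b ^ 2 = 4 ∧ d ^ 2 = 0) ∨ (a ^ 2 = 0 ∧ b ^ 2 = 0 ∧ d ^ 2 = 4) := by
  obtain ⟨a1, a2⟩ := bd (a := a) (by nlinarith [sq_nonneg b, sq_nonneg d])
  obtain ⟨b1, b2⟩ := bd (a := b) (by nlinarith [sq_nonneg a, sq_nonneg d])
  obtain ⟨d1, d2⟩ := bd (a := d) (by nlinarith [sq_nonneg b, sq_nonneg a])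
  interval_cases a <;> interval_cases b <;> interval_cases d <;> omega

theorem int6 {a b d : ℤ} (h : a ^ 2 + b ^ 2 + d ^ 2 = 6) : (a ^ 2 = 4 ∧ b ^ 2 = 1 ∧ d ^ 2 = 1) ∨
    (a ^ 2 = 1 ∧ b ^ 2 = 4 ∧ d ^ 2 = 1) ∨ (a ^ 2 = 1 ∧ b ^ 2 = 1 ∧ d ^ 2 = 4) := by
  obtain ⟨a1, a2⟩ := bd (a := a) (by nlinarith [sq_nonneg b, sq_nonneg d])
  obtain ⟨b1, b2⟩ := bd (a := b) (by nlinarith [sq_nonneg a, sq_nonneg d])
  obtain ⟨d1, d2⟩ := bd (a := d) (by nlinarith [sq_nonneg b, sq_nonneg a])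
  interval_cases a <;> interval_cases b <;> interval_cases d <;> omega

/-- the sum of the squares of the coordinates `v` -/
theorem qf_v (x : Fin 3 → ℤ) : qf G0 x =
    (((x 0 + x 1 - x 2) ^ 2 + (x 0 - x 1) ^ 2 + x 2 ^ 2 : ℤ) : ℝ) := by
  unfold qf
  rw [qr_G0]
  unfold rv
  push_cast
  ring

theorem v_int (x : Fin 3 → ℤ) {n : ℤ} (hx : qf G0 x = n) :
    (x 0 + x 1 - x 2) ^ 2 + (x 0 - x 1) ^ 2 + x 2 ^ 2 = n := by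
  rw [qf_v] at hx
  exact_mod_cast hx

theorem castsq {a n : ℤ} (h : a ^ 2 = n) : (a : ℝ) ^ 2 = n := by
  exact_mod_cast h

end LocGAux

open LocGAux

theorem Y_sum {c : LC} {l : Fin 6 → ℝ} (h : c.Of l) (x : Fin 3 → ℤ) : ∑ i, Yv c l x i = 0 := by
  simp only [Y_eq h]
  rw [tot1]
  unfold Lf
  have := h.tr
  linear_combination (4 * ((rv x 0 + rv x 1 - rv x 2) ^ 2 + (rv x 0 - rv x 1) ^ 2 + rv x 2 ^ 2)) * this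

theorem Y_two {c : LC} {l : Fin 6 → ℝ} (h : c.Of l) {x : Fin 3 → ℤ} (hx : qf G0 x = 2) :
    ∑ i, Yv c l x i ^ 2 = 4 * c.a + 16 * c.b ∧ ∑ i, Yv c l x i ^ 3 = -12 * c.P - 48 * c.R := by
  simp only [Y_eq h]
  rw [tot2, tot3]
  have hp : c.p2 = -c.p0 - c.p1 := by linarith [h.tr]
  have h1 := v_int x (n := 2) (by rw [hx]; norm_num)
  have h2 := int2 h1
  have e0 : rv x 0 + rv x 1 - rv x 2 = ((x 0 + x 1 - x 2 : ℤ) : ℝ) := by unfold rv; push_cast; ring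
  have e1 : rv x 0 - rv x 1 = ((x 0 - x 1 : ℤ) : ℝ) := by unfold rv; push_cast; ring
  have e2 : rv x 2 = ((x 2 : ℤ) : ℝ) := rfl
  rw [e0, e1, e2]
  unfold Lf Mf LC.a LC.b LC.P LC.R
  rw [hp]
  rcases h2 with ⟨g0, g1, g2⟩ | ⟨g0, g1, g2⟩ | ⟨g0, g1, g2⟩ <;>
  · rw [castsq g0, castsq g1, castsq g2]
    push_cast
    constructor <;> ring

theorem Y_four {c : LC} {l : Fin 6 → ℝ} (h : c.Of l) {x : Fin 3 → ℤ} (hx : qf G0 x = 4) :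
    ∑ i, Yv c l x i ^ 2 = 64 * c.a ∧ ∑ i, Yv c l x i ^ 3 = 768 * c.P := by
  simp only [Y_eq h]
  rw [tot2, tot3]
  have hp : c.p2 = -c.p0 - c.p1 := by linarith [h.tr]
  have h1 := v_int x (n := 4) (by rw [hx]; norm_num)
  have h2 := int4 h1
  have e0 : rv x 0 + rv x 1 - rv x 2 = ((x 0 + x 1 - x 2 : ℤ) : ℝ) := by unfold rv; push_cast; ring
  have e1 : rv x 0 - rv x 1 = ((x 0 - x 1 : ℤ) : ℝ) := by unfold rv; push_cast; ring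
  have e2 : rv x 2 = ((x 2 : ℤ) : ℝ) := rfl
  rw [e0, e1, e2]
  unfold Lf Mf LC.a LC.P
  rw [hp]
  rcases h2 with ⟨g0, g1, g2⟩ | ⟨g0, g1, g2⟩ | ⟨g0, g1, g2⟩ <;>
  · rw [castsq g0, castsq g1, castsq g2]
    push_cast
    constructor <;> ring

theorem Y_six {c : LC} {l : Fin 6 → ℝ} (h : c.Of l) {x : Fin 3 → ℤ} (hx : qf G0 x = 6) :
    ∑ i, Yv c l x i ^ 2 = 36 * c.a + 144 * c.b ∧
      ∑ i, Yv c l x i ^ 3 = 324 * c.P - 432 * c.R + 2304 * c.F := by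
  simp only [Y_eq h]
  rw [tot2, tot3]
  have hp : c.p2 = -c.p0 - c.p1 := by linarith [h.tr]
  have h1 := v_int x (n := 6) (by rw [hx]; norm_num)
  have h2 := int6 h1
  have e0 : rv x 0 + rv x 1 - rv x 2 = ((x 0 + x 1 - x 2 : ℤ) : ℝ) := by unfold rv; push_cast; ring
  have e1 : rv x 0 - rv x 1 = ((x 0 - x 1 : ℤ) : ℝ) := by unfold rv; push_cast; ring
  have e2 : rv x 2 = ((x 2 : ℤ) : ℝ) := rfl
  rw [e0, e1, e2]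
  unfold Lf Mf LC.a LC.b LC.P LC.R
  rw [hp]
  rcases h2 with ⟨g0, g1, g2⟩ | ⟨g0, g1, g2⟩ | ⟨g0, g1, g2⟩ <;>
  · rw [castsq g0, castsq g1, castsq g2]
    push_cast
    constructor <;> ring

/-- the values of `G0` are even integers -/
theorem G0_val (x : NZ 3) : qf G0 x.1 = 2 ∨ qf G0 x.1 = 4 ∨ qf G0 x.1 = 6 ∨ 8 ≤ qf G0 x.1 := by
  have h0 := G0_pd.pos x
  set m : ℤ := x.1 0 ^ 2 + x.1 1 ^ 2 + x.1 2 ^ 2 - x.1 0 * x.1 2 - x.1 1 * x.1 2 with hm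
  have h1 : qf G0 x.1 = 2 * (m : ℝ) := by
    rw [qf_v, hm]
    push_cast
    ring
  rw [h1] at h0 ⊢
  have h2 : 0 < m := by
    have : (0 : ℝ) < (m : ℝ) := by linarith
    exact_mod_cast this
  rcases lt_or_ge m 4 with h3 | h3
  · have : m = 1 ∨ m = 2 ∨ m = 3 := by omega
    rcases this with h4 | h4 | h4 <;> rw [h4] <;> norm_num
  · right; right; right
    have : (4 : ℝ) ≤ (m : ℝ) := by exact_mod_cast h3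
    linarith

end Pool.Agent.Lib.EPS
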