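import Pool.Agent.Lib.EPS.LocDefs

/-!
# EPS.LocJ: averaging over the group of order twelve

`NZ 3` is permuted by `U12 i` (`InvAux.perm`, `det_U12`), compare `RestJAux.rst_perm` and
`rest_jensen`.
-/

set_option autoImplicit false

open MeasureTheory Set Matrix
open scoped Matrix.Norms.Elementwise

namespace Pool.Agent.Lib.EPS

open Pool.Agent.Lib.EpZ Pool.Agent.Lib.FCC
open RestJAux

theorem avg {l : Fin 6 → ℝ} {k : ℝ → ℝ}
    (hs : Summable fun x : NZ 3 => k (4 / 5 * qf (formOf l) x.1)) :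
    (Summable fun x : NZ 3 => 1 / 12 * ∑ i, k (4 / 5 * qf (formOf l) (U12 i *ᵥ x.1))) ∧
      ∑' x : NZ 3, k (4 / 5 * qf (formOf l) x.1) =
        ∑' x : NZ 3, 1 / 12 * ∑ i, k (4 / 5 * qf (formOf l) (U12 i *ᵥ x.1)) := by
  have hsum : ∀ i : Fin 12, Summable fun x : NZ 3 =>
      k (4 / 5 * qf (formOf l) (U12 i *ᵥ x.1)) := by
    intro i
    have h1 := (InvAux.perm (det_U12 i)).summable_iff.2 hs
    refine h1.congr fun x => ?_
    have h2 : ((InvAux.perm (det_U12 i)) x).1 = U12 i *ᵥ x.1 := rfl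
    simp only [Function.comp_def]
    rw [h2]
  have heq : ∀ i : Fin 12, ∑' x : NZ 3, k (4 / 5 * qf (formOf l) (U12 i *ᵥ x.1)) =
      ∑' x : NZ 3, k (4 / 5 * qf (formOf l) x.1) := by
    intro i
    rw [← (InvAux.perm (det_U12 i)).tsum_eq fun x : NZ 3 => k (4 / 5 * qf (formOf l) x.1)]
    exact tsum_congr fun x => rfl
  refine ⟨(summable_sum fun i _ => hsum i).mul_left _, ?_⟩
  rw [tsum_mul_left, Summable.tsum_finsetSum fun i _ => hsum i, Finset.sum_congr rfl fun i _ => heq i]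
  simp only [Finset.sum_const, Finset.card_univ, Fintype.card_fin, nsmul_eq_mul]
  push_cast
  ring

end Pool.Agent.Lib.EPS
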