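import Pool.Agent.Lib.EPS.LocDefs
import Pool.Agent.Lib.EPS.Split

/-!
# EPS.LocK: the two kernels

`phi = k1 + k2` (`Ioi 1 = Ioc 1 (13/2) ∪ Ioi (13/2)`), both nonnegative, so summability from
`summable_dir` (EPS/Split). Tangents: `exp(-z w) ≥ exp(-z0 w) (1 + (z0 - z) w)`.
-/

open MeasureTheory Set Matrix
open scoped Matrix.Norms.Elementwise

namespace Pool.Agent.Lib.EPS

open Pool.Agent.Lib.EpZ Pool.Agent.Lib.FCC

theorem k1_int (s z : ℝ) :
    IntegrableOn (fun w : ℝ => Real.exp (-(z * w)) * w ^ (s - 1)) (Ioc 1 (13 / 2)) := by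
  have h : ContinuousOn (fun w : ℝ => Real.exp (-(z * w)) * w ^ (s - 1)) (Icc 1 (13 / 2)) := by
    refine ContinuousOn.mul (by fun_prop) ?_
    refine ContinuousOn.rpow_const continuousOn_id fun t ht => Or.inl ?_
    have h1 : (1 : ℝ) ≤ t := ht.1
    exact (zero_lt_one.trans_le h1).ne'
  exact (h.integrableOn_Icc).mono_set Ioc_subset_Icc_self

theorem k2_int (s : ℝ) {z : ℝ} (hz : 0 < z) :
    IntegrableOn (fun w : ℝ => Real.exp (-(z * w)) * w ^ (s - 1)) (Ioi (13 / 2)) :=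
  (phi_int s hz).mono_set (Ioi_subset_Ioi (by norm_num))

namespace LocKAux

/-- general tangent inequality on a set of numbers above `1` -/
theorem tangent {A : Set ℝ} (hA : MeasurableSet A) (hA1 : ∀ w ∈ A, 1 < w) {s z z0 : ℝ}
    (h0 : IntegrableOn (fun w : ℝ => Real.exp (-(z0 * w)) * w ^ (s - 1)) A)
    (h0' : IntegrableOn (fun w : ℝ => Real.exp (-(z0 * w)) * w ^ (s + 1 - 1)) A)
    (h1 : IntegrableOn (fun w : ℝ => Real.exp (-(z * w)) * w ^ (s - 1)) A) :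
    (∫ w in A, Real.exp (-(z0 * w)) * w ^ (s - 1))
      + (∫ w in A, Real.exp (-(z0 * w)) * w ^ (s + 1 - 1)) * (z0 - z)
      ≤ ∫ w in A, Real.exp (-(z * w)) * w ^ (s - 1) := by
  rw [← integral_mul_const, ← integral_add h0 (h0'.mul_const _)]
  refine setIntegral_mono_on (h0.add (h0'.mul_const _)) h1 hA fun w hw => ?_
  have hw1 : 1 < w := hA1 w hw
  have hp : w ^ (s + 1 - 1) = w ^ (s - 1) * w := by
    rw [show s + 1 - 1 = (s - 1) + 1 by ring, Real.rpow_add_one (by linarith)]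
  rw [hp]
  have he : Real.exp (-(z * w)) = Real.exp (-(z0 * w)) * Real.exp ((z0 - z) * w) := by
    rw [← Real.exp_add]; ring_nf
  have h2 : (z0 - z) * w + 1 ≤ Real.exp ((z0 - z) * w) := Real.add_one_le_exp _
  have h3 : 0 ≤ w ^ (s - 1) := Real.rpow_nonneg (by linarith) _
  have h4 : 0 < Real.exp (-(z0 * w)) := Real.exp_pos _
  rw [he]
  have h5 : Real.exp (-(z0 * w)) * w ^ (s - 1) * ((z0 - z) * w + 1)
      ≤ Real.exp (-(z0 * w)) * w ^ (s - 1) * Real.exp ((z0 - z) * w) :=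
    mul_le_mul_of_nonneg_left h2 (mul_nonneg h4.le h3)
  calc Real.exp (-(z0 * w)) * w ^ (s - 1) + Real.exp (-(z0 * w)) * (w ^ (s - 1) * w) * (z0 - z)
      = Real.exp (-(z0 * w)) * w ^ (s - 1) * ((z0 - z) * w + 1) := by ring
    _ ≤ _ := h5
    _ = _ := by ring

/-- general decay inequality on a set of numbers above `a` -/
theorem decay {A : Set ℝ} (hA : MeasurableSet A) {a : ℝ} (ha : 0 < a) (hA1 : ∀ w ∈ A, a < w)
    {s z z0 : ℝ} (h : z0 ≤ z)
    (h0 : IntegrableOn (fun w : ℝ => Real.exp (-(z0 * w)) * w ^ (s - 1)) A)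
    (h1 : IntegrableOn (fun w : ℝ => Real.exp (-(z * w)) * w ^ (s - 1)) A) :
    (∫ w in A, Real.exp (-(z * w)) * w ^ (s - 1))
      ≤ Real.exp (-(a * (z - z0))) * ∫ w in A, Real.exp (-(z0 * w)) * w ^ (s - 1) := by
  rw [← integral_const_mul]
  refine setIntegral_mono_on h1 (h0.const_mul _) hA fun w hw => ?_
  have hw1 : a < w := hA1 w hw
  have h3 : 0 ≤ w ^ (s - 1) := Real.rpow_nonneg (by linarith) _
  rw [← mul_assoc, ← Real.exp_add]
  refine mul_le_mul_of_nonneg_right ?_ h3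
  refine Real.exp_le_exp.mpr ?_
  nlinarith [mul_nonneg (sub_nonneg.mpr h) (sub_nonneg.mpr hw1.le)]

end LocKAux

theorem k1_nonneg (s z : ℝ) : 0 ≤ k1 s z := by
  refine setIntegral_nonneg measurableSet_Ioc fun t ht => ?_
  have ht1 : (1 : ℝ) < t := ht.1
  exact mul_nonneg (Real.exp_pos _).le (Real.rpow_nonneg (by linarith) _)

theorem k2_nonneg (s z : ℝ) : 0 ≤ k2 s z := by
  refine setIntegral_nonneg measurableSet_Ioi fun t ht => ?_
  have ht1 : (13 / 2 : ℝ) < t := ht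
  exact mul_nonneg (Real.exp_pos _).le (Real.rpow_nonneg (by linarith) _)

theorem k_add (s : ℝ) {z : ℝ} (hz : 0 < z) : k1 s z + k2 s z = phi s z := by
  unfold k1 k2 phi
  rw [← Ioc_union_Ioi_eq_Ioi (show (1 : ℝ) ≤ 13 / 2 by norm_num)]
  refine (setIntegral_union ?_ measurableSet_Ioi (k1_int s z) (k2_int s hz)).symm
  exact Set.disjoint_left.mpr fun w hw hw' => not_lt.mpr hw.2 hw'

theorem k1_tangent (s z z0 : ℝ) : k1 s z0 + k1 (s + 1) z0 * (z0 - z) ≤ k1 s z :=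
  LocKAux.tangent measurableSet_Ioc (fun _ hw => hw.1) (k1_int s z0) (k1_int (s + 1) z0)
    (k1_int s z)

theorem k2_tangent (s : ℝ) {z z0 : ℝ} (hz : 0 < z) (hz0 : 0 < z0) :
    k2 s z0 + k2 (s + 1) z0 * (z0 - z) ≤ k2 s z :=
  LocKAux.tangent measurableSet_Ioi (fun w hw => by
    have h : (13 / 2 : ℝ) < w := hw
    linarith) (k2_int s hz0) (k2_int (s + 1) hz0) (k2_int s hz)

/-- decay, `w ≥ 1` -/
theorem k1_decay (s : ℝ) {z z0 : ℝ} (h : z0 ≤ z) :
    k1 s z ≤ Real.exp (-(z - z0)) * k1 s z0 := by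
  have h1 := LocKAux.decay (s := s) (measurableSet_Ioc (a := (1 : ℝ)) (b := 13 / 2)) one_pos
    (fun _ hw => hw.1) h (k1_int s z0) (k1_int s z)
  rw [one_mul] at h1
  exact h1

/-- decay, `w ≥ 13/2` -/
theorem k2_decay (s : ℝ) {z z0 : ℝ} (hz0 : 0 < z0) (h : z0 ≤ z) :
    k2 s z ≤ Real.exp (-(13 / 2 * (z - z0))) * k2 s z0 :=
  LocKAux.decay measurableSet_Ioi (by norm_num) (fun _ hw => hw) h (k2_int s hz0)
    (k2_int s (hz0.trans_le h))

theorem k1_summable {Q : Mx 3} (hQ : PD Q) (s : ℝ) :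
    Summable fun x : NZ 3 => k1 s (4 / 5 * qf Q x.1) := by
  refine Summable.of_nonneg_of_le (fun x => k1_nonneg _ _) (fun x => ?_) (summable_dir hQ s)
  rw [← k_add s (arg_pos hQ x)]
  exact le_add_of_nonneg_right (k2_nonneg _ _)

theorem k2_summable {Q : Mx 3} (hQ : PD Q) (s : ℝ) :
    Summable fun x : NZ 3 => k2 s (4 / 5 * qf Q x.1) := by
  refine Summable.of_nonneg_of_le (fun x => k2_nonneg _ _) (fun x => ?_) (summable_dir hQ s)
  rw [← k_add s (arg_pos hQ x)]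
  exact le_add_of_nonneg_left (k1_nonneg _ _)

theorem dir_split {Q : Mx 3} (hQ : PD Q) (s : ℝ) :
    Dir s Q = ∑' x : NZ 3, k1 s (4 / 5 * qf Q x.1) + ∑' x : NZ 3, k2 s (4 / 5 * qf Q x.1) := by
  rw [← (k1_summable hQ s).tsum_add (k2_summable hQ s)]
  unfold Dir
  exact tsum_congr fun x => (k_add s (arg_pos hQ x)).symm

end Pool.Agent.Lib.EPS
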