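import Pool.Agent.Lib.EPS.LocB
import Pool.Agent.Lib.EPS.LocG
import Pool.Agent.Lib.EPS.LocJ
import Pool.Agent.Lib.EPS.LocK
import Pool.Agent.Lib.EPS.LocS

/-!
# EPS.LocE: the part `w ≤ 13/2` of the direct sum

For `x : NZ 3`, `n = qf G0 x`, `qf (formOf l) (U12 i x) = T (n + Y_i)`. Average over `i`:
`1/12 ∑_i k1 s (4/5 T (n + Y_i)) ≥ k1 s (4/5 T n) + β(n)`, `β(n) = 0` for `n ≥ 8` (tangent and
`∑ Y = 0`), and for `n = 2, 4, 6`, with `t = 4/5 w`, `τ = T t`,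
`β(n) = ∫ exp(-n τ) (τ²/24 ∑Y² - τ³/72 ∑Y³) w^(s-1)` (`cubic_le_exp` at `-τ Y_i`).
Then `shell3` for the lower bound of the difference; for `n ≥ 8`:
`k1 s (4/5 T n) - k1 s (4/5 n) ≥ -(T-1) 4/5 n k1 (s+1) (4/5 n)
≥ -(T-1) 4/5 n exp(-(4/5 (n-8))) k1 (s+1) (32/5)` (`k1_tangent`, `k1_decay`), `K8`, and
`k1 (s+1) (32/5) = ∫ w exp(-(8 t)) w^(s-1)`. Everything is one integral over `Ioc 1 (13/2)`.
-/

open MeasureTheory Set Matrix
open scoped Matrix.Norms.Elementwise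

namespace Pool.Agent.Lib.EPS

open Pool.Agent.Lib.EpZ Pool.Agent.Lib.FCC
open RestJAux

namespace LocEAux

/-- the integral against the weight -/
noncomputable def I (s : ℝ) (g : ℝ → ℝ) : ℝ :=
  ∫ w in Ioc (1 : ℝ) (13 / 2), g w * w ^ (s - 1)

theorem I_int (s : ℝ) {g : ℝ → ℝ} (hg : Continuous g) :
    IntegrableOn (fun w : ℝ => g w * w ^ (s - 1)) (Ioc 1 (13 / 2)) := by
  have h1 : ContinuousOn (fun w : ℝ => g w * w ^ (s - 1)) (Icc 1 (13 / 2)) := by
    refine hg.continuousOn.mul ?_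
    refine ContinuousOn.rpow_const continuousOn_id fun t ht => Or.inl ?_
    have h2 : (1 : ℝ) ≤ t := ht.1
    exact (zero_lt_one.trans_le h2).ne'
  exact (h1.integrableOn_compact isCompact_Icc).mono_set Ioc_subset_Icc_self

theorem I_add (s : ℝ) {g h : ℝ → ℝ} (hg : Continuous g) (hh : Continuous h) :
    I s g + I s h = I s (fun w => g w + h w) := by
  unfold I
  rw [← integral_add (I_int s hg) (I_int s hh)]
  refine setIntegral_congr_fun measurableSet_Ioc fun w _ => ?_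
  ring

theorem I_sub (s : ℝ) {g h : ℝ → ℝ} (hg : Continuous g) (hh : Continuous h) :
    I s g - I s h = I s (fun w => g w - h w) := by
  unfold I
  rw [← integral_sub (I_int s hg) (I_int s hh)]
  refine setIntegral_congr_fun measurableSet_Ioc fun w _ => ?_
  ring

theorem I_mul (s c : ℝ) (g : ℝ → ℝ) : c * I s g = I s (fun w => c * g w) := by
  unfold I
  rw [← integral_const_mul]
  refine setIntegral_congr_fun measurableSet_Ioc fun w _ => ?_
  ring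

theorem I_sum (s : ℝ) {ι : Type*} (t : Finset ι) {g : ι → ℝ → ℝ} (hg : ∀ i, Continuous (g i)) :
    ∑ i ∈ t, I s (g i) = I s (fun w => ∑ i ∈ t, g i w) := by
  unfold I
  rw [← integral_finsetSum t fun i _ => I_int s (hg i)]
  refine setIntegral_congr_fun measurableSet_Ioc fun w _ => ?_
  exact (Finset.sum_mul _ _ _).symm

theorem I_mono (s : ℝ) {g h : ℝ → ℝ} (hg : Continuous g) (hh : Continuous h)
    (H : ∀ w : ℝ, g w ≤ h w) : I s g ≤ I s h := by
  refine setIntegral_mono_on (I_int s hg) (I_int s hh) measurableSet_Ioc fun w hw => ?_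
  have h1 : (1 : ℝ) < w := hw.1
  exact mul_le_mul_of_nonneg_right (H w) (Real.rpow_nonneg (by linarith) _)

theorem k1_eq (s z : ℝ) : k1 s z = I s (fun w => Real.exp (-(z * w))) := rfl

theorem k1_succ (s z : ℝ) : k1 (s + 1) z = I s (fun w => w * Real.exp (-(z * w))) := by
  unfold k1 I
  refine setIntegral_congr_fun measurableSet_Ioc fun w hw => ?_
  have h1 : (1 : ℝ) < w := hw.1
  have h2 : w ^ ((s + 1) - 1) = w ^ (s - 1) * w := by
    rw [show (s + 1) - 1 = (s - 1) + 1 by ring, Real.rpow_add_one (by linarith)]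
  simp only [h2]
  ring

/-- the averaged kernel, cubic lower bound -/
theorem avg_low (s T n : ℝ) (Y : Fin 12 → ℝ) (hY : ∑ i, Y i = 0) :
    I s (fun w => Real.exp (-(n * (T * (4 / 5 * w)))) *
        (1 + (T * (4 / 5 * w)) ^ 2 / 24 * ∑ i, Y i ^ 2 - (T * (4 / 5 * w)) ^ 3 / 72 * ∑ i, Y i ^ 3)) ≤
      1 / 12 * ∑ i, k1 s (4 / 5 * (T * (n + Y i))) := by
  simp only [k1_eq]
  rw [I_sum s _ fun i => by fun_prop, I_mul]
  refine I_mono s (by fun_prop) (by fun_prop) fun w => ?_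
  have h1 : ∀ i, Real.exp (-(4 / 5 * (T * (n + Y i)) * w)) =
      Real.exp (-(n * (T * (4 / 5 * w)))) * Real.exp (-((T * (4 / 5 * w)) * Y i)) := by
    intro i
    rw [← Real.exp_add]
    congr 1
    ring
  simp only [h1]
  rw [← Finset.mul_sum]
  obtain ⟨τ, hτ⟩ : ∃ τ, τ = T * (4 / 5 * w) := ⟨_, rfl⟩
  rw [← hτ]
  have h2 : ∑ i, (1 + -(τ * Y i) + (-(τ * Y i)) ^ 2 / 2 + (-(τ * Y i)) ^ 3 / 6) ≤
      ∑ i, Real.exp (-(τ * Y i)) := Finset.sum_le_sum fun i _ => cubic_le_exp _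
  have h3 : ∑ i, (1 + -(τ * Y i) + (-(τ * Y i)) ^ 2 / 2 + (-(τ * Y i)) ^ 3 / 6) =
      12 - τ * ∑ i, Y i + τ ^ 2 / 2 * ∑ i, Y i ^ 2 - τ ^ 3 / 6 * ∑ i, Y i ^ 3 := by
    rw [Finset.mul_sum, Finset.mul_sum, Finset.mul_sum]
    have e : (12 : ℝ) = ∑ _i : Fin 12, (1 : ℝ) := by simp
    rw [e, ← Finset.sum_sub_distrib, ← Finset.sum_add_distrib, ← Finset.sum_sub_distrib]
    refine Finset.sum_congr rfl fun i _ => ?_
    ring
  rw [h3, hY] at h2
  have h4 := mul_le_mul_of_nonneg_left h2 (Real.exp_pos (-(n * τ))).le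
  calc _ = 1 / 12 * (Real.exp (-(n * τ)) * (12 - τ * 0 + τ ^ 2 / 2 * ∑ i, Y i ^ 2
        - τ ^ 3 / 6 * ∑ i, Y i ^ 3)) := by ring
    _ ≤ _ := by linarith

/-- the averaged kernel, first order -/
theorem avg_low1 (s T n : ℝ) (Y : Fin 12 → ℝ) (hY : ∑ i, Y i = 0) :
    k1 s (4 / 5 * (T * n)) ≤ 1 / 12 * ∑ i, k1 s (4 / 5 * (T * (n + Y i))) := by
  have h1 : ∑ i, (k1 s (4 / 5 * (T * n)) +
      k1 (s + 1) (4 / 5 * (T * n)) * (4 / 5 * (T * n) - 4 / 5 * (T * (n + Y i)))) ≤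
      ∑ i, k1 s (4 / 5 * (T * (n + Y i))) := Finset.sum_le_sum fun i _ => k1_tangent s _ _
  have h2 : ∑ i, (k1 s (4 / 5 * (T * n)) +
      k1 (s + 1) (4 / 5 * (T * n)) * (4 / 5 * (T * n) - 4 / 5 * (T * (n + Y i)))) =
      12 * k1 s (4 / 5 * (T * n)) - k1 (s + 1) (4 / 5 * (T * n)) * (4 / 5 * T) * ∑ i, Y i := by
    rw [Finset.mul_sum]
    have e : (12 : ℝ) * k1 s (4 / 5 * (T * n)) = ∑ _i : Fin 12, k1 s (4 / 5 * (T * n)) := by simp
    rw [e, ← Finset.sum_sub_distrib]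
    refine Finset.sum_congr rfl fun i _ => ?_
    ring
  rw [h2, hY] at h1
  linarith

/-- the contribution of a vector of norm `n`, with `∑ Y² = m2` and `∑ Y³ = m3` -/
noncomputable def G (s T n m2 m3 : ℝ) : ℝ :=
  I s (fun w => Real.exp (-(n * (T * (4 / 5 * w)))) *
        (1 + (T * (4 / 5 * w)) ^ 2 / 24 * m2 - (T * (4 / 5 * w)) ^ 3 / 72 * m3) -
      Real.exp (-(n * (4 / 5 * w))))

theorem G_eq (s T n m2 m3 : ℝ) : G s T n m2 m3 =
    I s (fun w => Real.exp (-(n * (T * (4 / 5 * w)))) *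
        (1 + (T * (4 / 5 * w)) ^ 2 / 24 * m2 - (T * (4 / 5 * w)) ^ 3 / 72 * m3)) -
      k1 s (4 / 5 * n) := by
  rw [k1_eq, I_sub s (by fun_prop) (by fun_prop)]
  unfold G
  congr 1
  funext w
  congr 2
  ring

/-- the lower bound as a function of the norm -/
noncomputable def Fn (c : LC) (s n : ℝ) : ℝ :=
  if n = 2 then G s c.T 2 (4 * c.a + 16 * c.b) (-12 * c.P - 48 * c.R)
  else if n = 4 then G s c.T 4 (64 * c.a) (768 * c.P)
  else if n = 6 then G s c.T 6 (36 * c.a + 144 * c.b) (324 * c.P - 432 * c.R + 2304 * c.F)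
  else k1 s (4 / 5 * (c.T * n)) - k1 s (4 / 5 * n)

theorem Fn_two (c : LC) (s : ℝ) : Fn c s 2 =
    G s c.T 2 (4 * c.a + 16 * c.b) (-12 * c.P - 48 * c.R) := by
  unfold Fn; rw [if_pos rfl]

theorem Fn_four (c : LC) (s : ℝ) : Fn c s 4 = G s c.T 4 (64 * c.a) (768 * c.P) := by
  unfold Fn; rw [if_neg (by norm_num), if_pos rfl]

theorem Fn_six (c : LC) (s : ℝ) : Fn c s 6 =
    G s c.T 6 (36 * c.a + 144 * c.b) (324 * c.P - 432 * c.R + 2304 * c.F) := by
  unfold Fn; rw [if_neg (by norm_num), if_neg (by norm_num), if_pos rfl]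

theorem Fn_eight (c : LC) (s : ℝ) {n : ℝ} (hn : 8 ≤ n) : Fn c s n =
    k1 s (4 / 5 * (c.T * n)) - k1 s (4 / 5 * n) := by
  unfold Fn
  rw [if_neg (by linarith), if_neg (by linarith), if_neg (by linarith)]

/-- the lower bound for one vector -/
theorem low {c : LC} {l : Fin 6 → ℝ} (h : c.Of l) (s : ℝ) (x : NZ 3) :
    Fn c s (qf G0 x.1) ≤
      1 / 12 * ∑ i, k1 s (4 / 5 * qf (formOf l) (U12 i *ᵥ x.1)) - k1 s (4 / 5 * qf G0 x.1) := by
  have e : ∀ i, 4 / 5 * qf (formOf l) (U12 i *ᵥ x.1) =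
      4 / 5 * (c.T * (qf G0 x.1 + Yv c l x.1 i)) := by
    intro i
    unfold Yv
    have h1 := h.T_pos.ne'
    congr 1
    field_simp
    ring
  simp only [e]
  have hs := Y_sum h x.1
  have h3 := avg_low s c.T (qf G0 x.1) (Yv c l x.1) hs
  rcases G0_val x with hn | hn | hn | hn
  · obtain ⟨e2, e3⟩ := Y_two h hn
    rw [e2, e3] at h3
    rw [hn] at h3 ⊢
    rw [Fn_two, G_eq]
    linarith
  · obtain ⟨e2, e3⟩ := Y_four h hn
    rw [e2, e3] at h3
    rw [hn] at h3 ⊢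
    rw [Fn_four, G_eq]
    linarith
  · obtain ⟨e2, e3⟩ := Y_six h hn
    rw [e2, e3] at h3
    rw [hn] at h3 ⊢
    rw [Fn_six, G_eq]
    linarith
  · rw [Fn_eight c s hn]
    have := avg_low1 s c.T (qf G0 x.1) (Yv c l x.1) hs
    linarith

theorem Fn_summable {c : LC} (s : ℝ) (hT : 0 ≤ c.T - 1) :
    Summable fun x : NZ 3 => Fn c s (qf G0 x.1) := by
  obtain ⟨M, hM⟩ : ∃ M, M = |Fn c s 2| + |Fn c s 4| + |Fn c s 6| := ⟨_, rfl⟩
  have h2 := abs_nonneg (Fn c s 2)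
  have h4 := abs_nonneg (Fn c s 4)
  have h6 := abs_nonneg (Fn c s 6)
  have hM0 : 0 ≤ M := by rw [hM]; positivity
  have hs1 := (summable_nz G0_pd (t := 1) one_pos).mul_left (M * Real.exp 6)
  have hs2 := k1_summable G0_pd s
  refine Summable.of_norm_bounded (hs1.add hs2) fun x => ?_
  rw [Real.norm_eq_abs]
  have hk := k1_nonneg s (4 / 5 * qf G0 x.1)
  have hexp : ∀ n : ℝ, n ≤ 6 → 1 ≤ Real.exp 6 * Real.exp (-(1 * n)) := by
    intro n hn
    rw [← Real.exp_add]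
    exact Real.one_le_exp (by linarith)
  have hm : ∀ n : ℝ, n ≤ 6 → M ≤ M * Real.exp 6 * Real.exp (-(1 * n)) := by
    intro n hn
    have := mul_le_mul_of_nonneg_left (hexp n hn) hM0
    linarith
  rcases G0_val x with hn | hn | hn | hn
  · rw [hn] at hk ⊢
    have hle : |Fn c s 2| ≤ M := by rw [hM]; linarith
    exact le_trans hle (le_trans (hm 2 (by norm_num)) (le_add_of_nonneg_right hk))
  · rw [hn] at hk ⊢
    have hle : |Fn c s 4| ≤ M := by rw [hM]; linarith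
    exact le_trans hle (le_trans (hm 4 (by norm_num)) (le_add_of_nonneg_right hk))
  · rw [hn] at hk ⊢
    have hle : |Fn c s 6| ≤ M := by rw [hM]; linarith
    exact le_trans hle (le_trans (hm 6 (by norm_num)) (le_add_of_nonneg_right hk))
  · rw [Fn_eight c s hn]
    have hn0 : 0 ≤ qf G0 x.1 := by linarith
    have h1 : 4 / 5 * qf G0 x.1 ≤ 4 / 5 * (c.T * qf G0 x.1) := by
      have := mul_nonneg hT hn0
      linarith
    have h3 := k1_decay s h1
    have h5 : Real.exp (-(4 / 5 * (c.T * qf G0 x.1) - 4 / 5 * qf G0 x.1)) ≤ 1 :=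
      Real.exp_le_one_iff.mpr (by linarith)
    have h7 := mul_le_mul_of_nonneg_right h5 hk
    have h8 := k1_nonneg s (4 / 5 * (c.T * qf G0 x.1))
    have h9 : 0 ≤ M * Real.exp 6 * Real.exp (-(1 * qf G0 x.1)) := by positivity
    rw [abs_le]
    constructor <;> linarith

/-- the lower bound far from the origin -/
theorem far {c : LC} (s : ℝ) (hT : 0 ≤ c.T - 1) {n : ℝ} (hn : 8 ≤ n) :
    -((c.T - 1) * (4 / 5) * k1 (s + 1) (32 / 5) * (n * Real.exp (-(4 / 5 * (n - 8))))) ≤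
      Fn c s n := by
  rw [Fn_eight c s hn]
  have h1 := k1_tangent s (4 / 5 * (c.T * n)) (4 / 5 * n)
  have h2 := k1_decay (s + 1) (z := 4 / 5 * n) (z0 := 32 / 5) (by linarith)
  have e1 : 4 / 5 * n - 4 / 5 * (c.T * n) = -((c.T - 1) * (4 / 5) * n) := by ring
  have e2 : 4 / 5 * n - 32 / 5 = 4 / 5 * (n - 8) := by ring
  rw [e1] at h1
  rw [e2] at h2
  have h3 : 0 ≤ (c.T - 1) * (4 / 5) * n := by
    have : 0 ≤ n := by linarith
    positivity
  have h4 := mul_le_mul_of_nonneg_left h2 h3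
  calc _ = -((c.T - 1) * (4 / 5) * n * (Real.exp (-(4 / 5 * (n - 8))) * k1 (s + 1) (32 / 5))) := by
        ring
    _ ≤ -((c.T - 1) * (4 / 5) * n * k1 (s + 1) (4 / 5 * n)) := neg_le_neg h4
    _ ≤ _ := by linarith

/-- the sum of the far terms -/
theorem far_sum {c : LC} (s : ℝ) (hT : 0 ≤ c.T - 1) :
    -(155 * (c.T - 1) * (4 / 5) * k1 (s + 1) (32 / 5)) ≤
      ∑' x : NZ 3, if 8 ≤ qf G0 x.1 then Fn c s (qf G0 x.1) else 0 := by
  obtain ⟨K, hK⟩ : ∃ K, K = (c.T - 1) * (4 / 5) * k1 (s + 1) (32 / 5) := ⟨_, rfl⟩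
  have hK0 : 0 ≤ K := by
    rw [hK]
    exact mul_nonneg (mul_nonneg hT (by norm_num)) (k1_nonneg _ _)
  have hF : Summable fun x : NZ 3 => if 8 ≤ qf G0 x.1 then Fn c s (qf G0 x.1) else 0 := by
    refine ((Fn_summable s hT).indicator {x : NZ 3 | 8 ≤ qf G0 x.1}).congr fun x => ?_
    rw [indicator_apply]
    rfl
  have h1 : ∑' x : NZ 3, -K * (if 8 ≤ qf G0 x.1 then
      qf G0 x.1 * Real.exp (-(4 / 5 * (qf G0 x.1 - 8))) else 0) ≤
      ∑' x : NZ 3, if 8 ≤ qf G0 x.1 then Fn c s (qf G0 x.1) else 0 := by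
    refine (K8_sum.mul_left (-K)).tsum_le_tsum (fun x => ?_) hF
    by_cases hn : 8 ≤ qf G0 x.1
    · rw [if_pos hn, if_pos hn]
      have := far (c := c) s hT hn
      rw [← hK] at this
      linarith
    · rw [if_neg hn, if_neg hn]
      simp
  rw [tsum_mul_left] at h1
  have h2 := mul_le_mul_of_nonneg_left K8 hK0
  have e : 155 * (c.T - 1) * (4 / 5) * k1 (s + 1) (32 / 5) = K * 155 := by rw [hK]; ring
  rw [e]
  linarith

theorem total (c : LC) (s : ℝ) :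
    12 * Fn c s 2 + 6 * Fn c s 4 + 24 * Fn c s 6 - 155 * (c.T - 1) * (4 / 5) * k1 (s + 1) (32 / 5) =
      ∫ w in Ioc (1 : ℝ) (13 / 2), Hf c w * w ^ (s - 1) := by
  rw [Fn_two, Fn_four, Fn_six, k1_succ]
  unfold G
  rw [I_mul, I_mul, I_mul, I_mul, I_add s (by fun_prop) (by fun_prop),
    I_add s (by fun_prop) (by fun_prop), I_sub s (by fun_prop) (by fun_prop)]
  unfold I
  refine setIntegral_congr_fun measurableSet_Ioc fun w _ => ?_
  have e8 : Real.exp (-(32 / 5 * w)) = Real.exp (-(8 * (4 / 5 * w))) := by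
    congr 1
    ring
  simp only [e8]
  unfold Hf
  ring

end LocEAux

open LocEAux

theorem part1 {c : LC} {l : Fin 6 → ℝ} (h : c.Of l) (s : ℝ) :
    ∫ w in Ioc (1 : ℝ) (13 / 2), Hf c w * w ^ (s - 1) ≤
      ∑' x : NZ 3, k1 s (4 / 5 * qf (formOf l) x.1) - ∑' x : NZ 3, k1 s (4 / 5 * qf G0 x.1) := by
  obtain ⟨hT, -⟩ := bd h
  obtain ⟨hs, he⟩ := avg (l := l) (k := k1 s) (k1_summable h.pd s)
  have hs0 := k1_summable G0_pd s
  have hF := Fn_summable (c := c) s hT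
  rw [he, ← hs.tsum_sub hs0]
  refine le_trans ?_ (hF.tsum_le_tsum (fun x => low h s x) (hs.sub hs0))
  rw [shell3 hF, ← total]
  have := far_sum (c := c) s hT
  linarith

end Pool.Agent.Lib.EPS
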