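import Pool.Agent.Lib.EPS.LocB
import Pool.Agent.Lib.EPS.LocG
import Pool.Agent.Lib.EPS.LocJ
import Pool.Agent.Lib.EPS.LocK
import Pool.Agent.Lib.EPS.LocS

/-!
# EPS.LocF: the part `w > 13/2` of the direct sum

Let `d = T - 1`, `t1 = 26/5`, `τ1 = T t1`. For `n = qf G0 x = 2` and `t ≥ t1` the function
`ξ(t) = ∑_i exp(-t (qf (formOf l) (U12 i x) - 2)) - 12` is convex with `ξ(0) = 0`, so
`ξ(t) ≥ t/t1 ξ(t1)`, and `ξ(t1) ≥ exp(-2 d t1) (12 + τ1²/2 (4a+16b) + τ1³/6 (12 P + 48 R)) - 12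
=: ξ1 ≥ t1 d/1000`. So (`w > 13/2`, `t = 4/5 w`)
`∑_i exp(-t qf(..)) ≥ exp(-2t) (12 + t d/1000)`.
For `n ≥ 4`: average `≥ k2 s (4/5 T n) ≥ k2 s (4/5 n) - d 4/5 n exp(-(26/5 (n-2))) k2 (s+1) (8/5)`.
Sum up (`shell3` for the indicator of `n = 2`: 12 vectors; `K4`).
-/

open MeasureTheory Set Matrix
open scoped Matrix.Norms.Elementwise

namespace Pool.Agent.Lib.EPS

open Pool.Agent.Lib.EpZ Pool.Agent.Lib.FCC

namespace LocFAux

open RestJAux

theorem conv_exp {a lam : ℝ} (h0 : 0 ≤ lam) (h1 : lam ≤ 1) :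
    Real.exp (lam * a) ≤ lam * Real.exp a + (1 - lam) := by
  have h := convexOn_exp.2 (Set.mem_univ a) (Set.mem_univ (0 : ℝ)) h0 (sub_nonneg.2 h1) (by ring)
  simpa using h

theorem grow (r : Fin 12 → ℝ) {t1 t : ℝ} (h1 : 0 < t1) (h : t1 ≤ t) :
    t / t1 * (∑ i, Real.exp (-(t1 * r i)) - 12) ≤ ∑ i, Real.exp (-(t * r i)) - 12 := by
  have ht : 0 < t := h1.trans_le h
  have h12 : (12 : ℝ) = ∑ _i : Fin 12, (1 : ℝ) := by simp
  rw [h12, ← Finset.sum_sub_distrib, ← Finset.sum_sub_distrib, Finset.mul_sum]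
  refine Finset.sum_le_sum fun i _ => ?_
  have h2 := conv_exp (a := -(t * r i)) (div_nonneg h1.le ht.le) ((div_le_one ht).2 h)
  have h3 : t1 / t * -(t * r i) = -(t1 * r i) := by
    field_simp
  rw [h3] at h2
  have h4 : t / t1 * (Real.exp (-(t1 * r i)) - 1) ≤
      t / t1 * (t1 / t * Real.exp (-(t * r i)) + (1 - t1 / t) - 1) :=
    mul_le_mul_of_nonneg_left (by linarith) (by positivity)
  refine h4.trans (le_of_eq ?_)
  field_simp
  ring

theorem q_eq {c : LC} {l : Fin 6 → ℝ} (h : c.Of l) (x : Fin 3 → ℤ) (i : Fin 12) :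
    qf (formOf l) (U12 i *ᵥ x) = c.T * (qf G0 x + Yv c l x i) := by
  unfold Yv
  rw [add_sub_cancel, mul_div_cancel₀ _ h.T_pos.ne']

theorem low {c : LC} {l : Fin 6 → ℝ} (h : c.Of l) {x : Fin 3 → ℤ} (hx : qf G0 x = 2) :
    26 / 5 * ((c.T - 1) / 1000) ≤
      ∑ i, Real.exp (-(26 / 5 * (qf (formOf l) (U12 i *ᵥ x) - 2))) - 12 := by
  obtain ⟨hd0, hd1, hd2, hP, hF, hR, ha, hb⟩ := bd h
  obtain ⟨hY2, hY3⟩ := Y_two h hx
  have hY1 := Y_sum h x
  set d : ℝ := c.T - 1 with hd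
  have hT : c.T = 1 + d := by rw [hd]; ring
  set τ : ℝ := 26 / 5 * c.T with hτ
  have hτ0 : 0 < τ := by rw [hτ]; have := h.T_pos; positivity
  set E : ℝ := τ ^ 2 * (2 * c.a + 8 * c.b) + τ ^ 3 * (2 * c.P + 8 * c.R) with hE
  -- the exponentials
  have h1 : ∀ i, Real.exp (-(26 / 5 * (qf (formOf l) (U12 i *ᵥ x) - 2))) =
      Real.exp (-(52 / 5 * d)) * Real.exp (-(τ * Yv c l x i)) := by
    intro i
    rw [q_eq h, hx, ← Real.exp_add]
    congr 1
    rw [hτ, hT]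
    ring
  have h2 : 12 + E ≤ ∑ i, Real.exp (-(τ * Yv c l x i)) := by
    have h3 : ∀ i, 1 + -(τ * Yv c l x i) + (τ ^ 2 / 2) * Yv c l x i ^ 2 +
        -(τ ^ 3 / 6) * Yv c l x i ^ 3 ≤ Real.exp (-(τ * Yv c l x i)) := by
      intro i
      refine le_trans (le_of_eq ?_) (cubic_le_exp (-(τ * Yv c l x i)))
      ring
    refine le_trans (le_of_eq ?_) (Finset.sum_le_sum fun i _ => h3 i)
    rw [Finset.sum_add_distrib, Finset.sum_add_distrib, Finset.sum_add_distrib, ← Finset.mul_sum,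
      ← Finset.mul_sum, Finset.sum_neg_distrib, ← Finset.mul_sum, hY1, hY2, hY3]
    simp only [Finset.sum_const, Finset.card_univ, Fintype.card_fin, nsmul_eq_mul]
    rw [hE]
    push_cast
    ring
  -- the polynomial
  have hτ2 : 2704 / 100 ≤ τ ^ 2 := by
    have : 26 / 5 ≤ τ := by rw [hτ, hT]; linarith
    nlinarith
  have hτ3 : τ ^ 3 ≤ 143 := by
    have h4 : τ ≤ 5226 / 1000 := by rw [hτ, hT]; linarith
    have h5 : τ ^ 3 ≤ (5226 / 1000) ^ 3 := pow_le_pow_left₀ hτ0.le h4 3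
    refine h5.trans (by norm_num)
  have hPl : -(c.a / 60) ≤ c.P := (abs_le.1 hP).1
  have hRl : -(c.b / 10) ≤ c.R := (abs_le.1 hR).1
  have hRu : c.R ≤ c.b / 10 := (abs_le.1 hR).2
  have hFl : -(c.b / 60) ≤ c.F := (abs_le.1 hF).1
  have hE1 : 49 * c.a + 101 * c.b ≤ E := by
    have e1 : 2704 / 100 * (2 * c.a + 8 * c.b) ≤ τ ^ 2 * (2 * c.a + 8 * c.b) :=
      mul_le_mul_of_nonneg_right hτ2 (by linarith)
    have e2 : τ ^ 3 * -(c.a / 30 + 4 / 5 * c.b) ≤ τ ^ 3 * (2 * c.P + 8 * c.R) :=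
      mul_le_mul_of_nonneg_left (by linarith) (by positivity)
    have e3 : τ ^ 3 * (c.a / 30 + 4 / 5 * c.b) ≤ 143 * (c.a / 30 + 4 / 5 * c.b) :=
      mul_le_mul_of_nonneg_right hτ3 (by linarith)
    rw [hE]
    linarith
  have hE0 : 0 ≤ E := by linarith
  have h5 : 1 - 52 / 5 * d ≤ Real.exp (-(52 / 5 * d)) := by
    have := Real.add_one_le_exp (-(52 / 5 * d))
    linarith
  have h6 : (1 - 52 / 5 * d) * (12 + E) ≤ Real.exp (-(52 / 5 * d)) *
      ∑ i, Real.exp (-(τ * Yv c l x i)) := by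
    refine (mul_le_mul_of_nonneg_right h5 (by linarith)).trans ?_
    exact mul_le_mul_of_nonneg_left h2 (Real.exp_pos _).le
  have h7 : d * E ≤ 1 / 200 * E := mul_le_mul_of_nonneg_right hd1 hE0
  rw [Finset.sum_congr rfl fun i _ => h1 i, ← Finset.mul_sum]
  nlinarith [h6, h7, hE1, hd2]

theorem q_pos {c : LC} {l : Fin 6 → ℝ} (h : c.Of l) (x : NZ 3) (i : Fin 12) :
    0 < qf (formOf l) (U12 i *ᵥ x.1) :=
  h.pd.pos (InvAux.perm (det_U12 i) x)

/-- the shell `n = 2` -/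
theorem two {c : LC} {l : Fin 6 → ℝ} (h : c.Of l) (s : ℝ) {x : NZ 3} (hx : qf G0 x.1 = 2) :
    k2 s (8 / 5) + 4 / 5 * ((c.T - 1) / 12000) * k2 (s + 1) (8 / 5) ≤
      1 / 12 * ∑ i, k2 s (4 / 5 * qf (formOf l) (U12 i *ᵥ x.1)) := by
  have hz : ∀ i, 0 < 4 / 5 * qf (formOf l) (U12 i *ᵥ x.1) := fun i => by
    have := q_pos h x i
    positivity
  have h1 : ∑ i, k2 s (4 / 5 * qf (formOf l) (U12 i *ᵥ x.1)) = ∫ w in Ioi (13 / 2 : ℝ),
      ∑ i, Real.exp (-(4 / 5 * qf (formOf l) (U12 i *ᵥ x.1) * w)) * w ^ (s - 1) := by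
    rw [integral_finsetSum _ fun i _ => k2_int s (hz i)]
    rfl
  have i1 : IntegrableOn (fun w : ℝ => Real.exp (-(8 / 5 * w)) * w ^ (s - 1)) (Ioi (13 / 2)) :=
    k2_int s (by norm_num)
  have i2 : IntegrableOn (fun w : ℝ => Real.exp (-(8 / 5 * w)) * w ^ ((s + 1) - 1))
      (Ioi (13 / 2)) := k2_int (s + 1) (by norm_num)
  have h2 : 12 * k2 s (8 / 5) + 4 / 5 * ((c.T - 1) / 1000) * k2 (s + 1) (8 / 5) =
      ∫ w in Ioi (13 / 2 : ℝ), (12 * (Real.exp (-(8 / 5 * w)) * w ^ (s - 1)) +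
        4 / 5 * ((c.T - 1) / 1000) * (Real.exp (-(8 / 5 * w)) * w ^ ((s + 1) - 1))) := by
    rw [integral_add (i1.const_mul _) (i2.const_mul _), integral_const_mul, integral_const_mul]
    rfl
  have h3 : 12 * k2 s (8 / 5) + 4 / 5 * ((c.T - 1) / 1000) * k2 (s + 1) (8 / 5) ≤
      ∑ i, k2 s (4 / 5 * qf (formOf l) (U12 i *ᵥ x.1)) := by
    rw [h1, h2]
    refine setIntegral_mono_on ((i1.const_mul _).add (i2.const_mul _))
      (integrable_finsetSum _ fun i _ => k2_int s (hz i)) measurableSet_Ioi fun w hw => ?_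
    have hw1 : (13 / 2 : ℝ) < w := hw
    have hw0 : 0 < w := by linarith
    have e1 : w ^ ((s + 1) - 1) = w * w ^ (s - 1) := by
      rw [show (s + 1) - 1 = 1 + (s - 1) by ring, Real.rpow_add hw0, Real.rpow_one]
    have e2 : ∀ i, Real.exp (-(4 / 5 * qf (formOf l) (U12 i *ᵥ x.1) * w)) * w ^ (s - 1) =
        (Real.exp (-(8 / 5 * w)) * w ^ (s - 1)) *
          Real.exp (-(4 / 5 * w * (qf (formOf l) (U12 i *ᵥ x.1) - 2))) := by
      intro i
      have e2a : Real.exp (-(4 / 5 * qf (formOf l) (U12 i *ᵥ x.1) * w)) = Real.exp (-(8 / 5 * w)) *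
          Real.exp (-(4 / 5 * w * (qf (formOf l) (U12 i *ᵥ x.1) - 2))) := by
        rw [← Real.exp_add]
        congr 1
        ring
      rw [e2a]
      ring
    rw [Finset.sum_congr rfl fun i _ => e2 i, ← Finset.mul_sum, e1]
    have e3 := grow (fun i => qf (formOf l) (U12 i *ᵥ x.1) - 2) (t1 := 26 / 5) (t := 4 / 5 * w)
      (by norm_num) (by linarith)
    have e4 : 4 / 5 * w / (26 / 5) * (26 / 5 * ((c.T - 1) / 1000)) ≤ 4 / 5 * w / (26 / 5) *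
        (∑ i, Real.exp (-(26 / 5 * (qf (formOf l) (U12 i *ᵥ x.1) - 2))) - 12) :=
      mul_le_mul_of_nonneg_left (low h hx) (by positivity)
    have e5 : 12 + 4 / 5 * ((c.T - 1) / 1000) * w ≤
        ∑ i, Real.exp (-(4 / 5 * w * (qf (formOf l) (U12 i *ᵥ x.1) - 2))) := by
      have e6 : 4 / 5 * w / (26 / 5) * (26 / 5 * ((c.T - 1) / 1000)) =
          4 / 5 * ((c.T - 1) / 1000) * w := by ring
      rw [e6] at e4
      linarith
    have e7 : 0 ≤ Real.exp (-(8 / 5 * w)) * w ^ (s - 1) :=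
      mul_nonneg (Real.exp_pos _).le (Real.rpow_nonneg hw0.le _)
    refine le_trans (le_of_eq ?_) (mul_le_mul_of_nonneg_left e5 e7)
    ring
  linarith

/-- the shells `n ≥ 4` -/
theorem four {c : LC} {l : Fin 6 → ℝ} (h : c.Of l) (s : ℝ) {x : NZ 3} (hx : 4 ≤ qf G0 x.1) :
    k2 s (4 / 5 * qf G0 x.1) - 4 / 5 * (c.T - 1) * k2 (s + 1) (8 / 5) *
        (qf G0 x.1 * Real.exp (-(26 / 5 * (qf G0 x.1 - 2)))) ≤
      1 / 12 * ∑ i, k2 s (4 / 5 * qf (formOf l) (U12 i *ᵥ x.1)) := by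
  obtain ⟨hd0, -⟩ := bd h
  have hz : ∀ i, 0 < 4 / 5 * qf (formOf l) (U12 i *ᵥ x.1) := fun i => by
    have := q_pos h x i
    positivity
  set n : ℝ := qf G0 x.1 with hn
  have hn0 : 0 < n := by linarith
  have hT := h.T_pos
  set z0 : ℝ := 4 / 5 * (c.T * n) with hz0
  have hz00 : 0 < z0 := by positivity
  have h1 : ∀ i, k2 s z0 + k2 (s + 1) z0 * (z0 - 4 / 5 * qf (formOf l) (U12 i *ᵥ x.1)) ≤
      k2 s (4 / 5 * qf (formOf l) (U12 i *ᵥ x.1)) := fun i => k2_tangent s (hz i) hz00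
  have h2 := Finset.sum_le_sum fun i (_ : i ∈ (Finset.univ : Finset (Fin 12))) => h1 i
  have h3 : S1 4 l = 12 * c.T := by rw [h.T_eq]; ring
  have h4 : ∑ i, (z0 - 4 / 5 * qf (formOf l) (U12 i *ᵥ x.1)) = 0 := by
    have h4a : ∑ i, 4 / 5 * qf (formOf l) (U12 i *ᵥ x.1) = 4 / 5 * (S1 4 l * n) := by
      rw [← Finset.mul_sum, sum_U12]
    have h4b : ∑ _i : Fin 12, z0 = 12 * z0 := by
      simp only [Finset.sum_const, Finset.card_univ, Fintype.card_fin, nsmul_eq_mul]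
      push_cast
      ring
    rw [Finset.sum_sub_distrib, h4a, h4b, h3, hz0]
    ring
  have h4c : ∑ i : Fin 12, (k2 s z0 + k2 (s + 1) z0 *
      (z0 - 4 / 5 * qf (formOf l) (U12 i *ᵥ x.1))) = 12 * k2 s z0 := by
    rw [Finset.sum_add_distrib, ← Finset.mul_sum, h4, mul_zero, add_zero]
    simp only [Finset.sum_const, Finset.card_univ, Fintype.card_fin, nsmul_eq_mul]
    push_cast
    ring
  rw [h4c] at h2
  have h5 : k2 s (4 / 5 * n) + k2 (s + 1) (4 / 5 * n) * (4 / 5 * n - z0) ≤ k2 s z0 :=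
    k2_tangent s hz00 (by positivity)
  have h6 : k2 (s + 1) (4 / 5 * n) ≤ Real.exp (-(26 / 5 * (n - 2))) * k2 (s + 1) (8 / 5) := by
    have h7 := k2_decay (s + 1) (z := 4 / 5 * n) (z0 := 8 / 5) (by norm_num) (by linarith)
    refine h7.trans (le_of_eq ?_)
    congr 2
    ring
  have h8 : 4 / 5 * n - z0 = -(4 / 5 * (c.T - 1) * n) := by
    rw [hz0]
    ring
  rw [h8] at h5
  have h9 : 4 / 5 * (c.T - 1) * n * k2 (s + 1) (4 / 5 * n) ≤ 4 / 5 * (c.T - 1) * n *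
      (Real.exp (-(26 / 5 * (n - 2))) * k2 (s + 1) (8 / 5)) :=
    mul_le_mul_of_nonneg_left h6 (by positivity)
  have h10 : 4 / 5 * (c.T - 1) * k2 (s + 1) (8 / 5) * (n * Real.exp (-(26 / 5 * (n - 2)))) =
      4 / 5 * (c.T - 1) * n * (Real.exp (-(26 / 5 * (n - 2))) * k2 (s + 1) (8 / 5)) := by ring
  rw [h10]
  linarith

/-- the indicator of the minimal vectors -/
theorem ind_sum : Summable fun x : NZ 3 => if qf G0 x.1 = 2 then (1 : ℝ) else 0 := by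
  have h1 := (summable_theta G0_pd (t := 1) one_pos).comp_injective
    (Subtype.val_injective (p := fun x : Fin 3 → ℤ => x ≠ 0))
  refine Summable.of_nonneg_of_le (fun x => ?_) (fun x => ?_) (h1.mul_left (Real.exp 2))
  · split_ifs <;> norm_num
  · simp only [Function.comp_def]
    split_ifs with h2
    · rw [h2, ← Real.exp_add]
      norm_num
    · positivity

theorem ind_val : ∑' x : NZ 3, (if qf G0 x.1 = 2 then (1 : ℝ) else 0) = 12 := by
  have h1 := shell3 (F := fun n => if n = 2 then (1 : ℝ) else 0) ind_sum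
  have h2 : ∀ x : NZ 3, (if 8 ≤ qf G0 x.1 then (if qf G0 x.1 = 2 then (1 : ℝ) else 0) else 0) = 0 := by
    intro x
    split_ifs with h3 h4
    · rw [h4] at h3; norm_num at h3
    · rfl
    · rfl
  rw [h1, tsum_congr h2, tsum_zero]
  norm_num

end LocFAux

open LocFAux

theorem part2 {c : LC} {l : Fin 6 → ℝ} (h : c.Of l) (s : ℝ) :
    ∑' x : NZ 3, k2 s (4 / 5 * qf G0 x.1) ≤ ∑' x : NZ 3, k2 s (4 / 5 * qf (formOf l) x.1) := by
  obtain ⟨hd0, -⟩ := bd h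
  obtain ⟨hs1, hav⟩ := avg (k := k2 s) (k2_summable h.pd s)
  rw [hav]
  set K : ℝ := k2 (s + 1) (8 / 5) with hK
  have hK0 : 0 ≤ K := k2_nonneg _ _
  set C1 : ℝ := 4 / 5 * ((c.T - 1) / 12000) * K with hC1
  set C2 : ℝ := 4 / 5 * (c.T - 1) * K with hC2
  have hC20 : 0 ≤ C2 := by positivity
  have sA := k2_summable G0_pd s
  have sB := ind_sum.mul_left C1
  have sC := K4_sum.mul_left C2
  have h1 : ∑' x : NZ 3, (k2 s (4 / 5 * qf G0 x.1) + C1 * (if qf G0 x.1 = 2 then (1 : ℝ) else 0) -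
      C2 * (if 4 ≤ qf G0 x.1 then qf G0 x.1 * Real.exp (-(26 / 5 * (qf G0 x.1 - 2))) else 0)) ≤
      ∑' x : NZ 3, 1 / 12 * ∑ i, k2 s (4 / 5 * qf (formOf l) (RestJAux.U12 i *ᵥ x.1)) := by
    refine Summable.tsum_le_tsum (fun x => ?_) ((sA.add sB).sub sC) hs1
    by_cases h2 : qf G0 x.1 = 2
    · have h3 : ¬ (4 : ℝ) ≤ qf G0 x.1 := by rw [h2]; norm_num
      rw [if_pos h2, if_neg h3, h2]
      have h4 : k2 s (8 / 5) + C1 ≤
          1 / 12 * ∑ i, k2 s (4 / 5 * qf (formOf l) (RestJAux.U12 i *ᵥ x.1)) := LocFAux.two h s h2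
      have h5 : (4 / 5 * 2 : ℝ) = 8 / 5 := by norm_num
      rw [h5]
      linarith
    · have h3 : (4 : ℝ) ≤ qf G0 x.1 := by
        rcases G0_val x with h4 | h4 | h4 | h4
        · exact absurd h4 h2
        · rw [h4]
        · rw [h4]; norm_num
        · linarith
      rw [if_neg h2, if_pos h3]
      have h4 : k2 s (4 / 5 * qf G0 x.1) -
          C2 * (qf G0 x.1 * Real.exp (-(26 / 5 * (qf G0 x.1 - 2)))) ≤
          1 / 12 * ∑ i, k2 s (4 / 5 * qf (formOf l) (RestJAux.U12 i *ᵥ x.1)) := LocFAux.four h s h3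
      linarith
  rw [(sA.add sB).tsum_sub sC, sA.tsum_add sB, tsum_mul_left, tsum_mul_left, ind_val] at h1
  have h2 : C2 * ∑' x : NZ 3, (if 4 ≤ qf G0 x.1 then
      qf G0 x.1 * Real.exp (-(26 / 5 * (qf G0 x.1 - 2))) else 0) ≤ C2 * (1 / 1000) :=
    mul_le_mul_of_nonneg_left K4 hC20
  have h3 : C1 * 12 = C2 * (1 / 1000) := by
    rw [hC1, hC2]
    ring
  linarith

end Pool.Agent.Lib.EPS
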