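import Pool.Agent.Lib.EPS.LocDefs

/-!
# EPS.LocM: the coefficient functions

`Pi_nonneg`: minimum about 1.67. `x = exp(-2t)`; `64 t² x ≤ 64/e² < 8.67`, ... split `[4/5, 26/5]` into
intervals if necessary. `gA_mono`: the derivative is `≥ .29`: with `x = exp(-2t)`
`gA = q0 + q1 x + q2 x² + q3 x³`, `q0' ≥ 2 - .09 t`, `q1' - 2 q1 ≥ 24.35 - 29.9 t - 2.12 t²` (about),
`q2' - 4 q2 ≥ 136.2 - 140.4 t - 7.2 t²` (about), `-6 q3 > 0`; use `(v - c) e^(-v) ≤ e^(-(c+1))`,
`v² e^(-v) ≤ 4 e^(-2)`, and separate `t ≥ 8/5`.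
-/

open MeasureTheory Set Matrix
open scoped Matrix.Norms.Elementwise

namespace Pool.Agent.Lib.EPS

open Pool.Agent.Lib.EpZ Pool.Agent.Lib.FCC

namespace LocMAux

/-- `(v - c) e^(-v) ≤ e^(-(c+1))` -/
theorem lin_exp (v c : ℝ) : (v - c) * Real.exp (-v) ≤ Real.exp (-(c + 1)) := by
  have h := Real.add_one_le_exp (v - c - 1)
  have e : Real.exp (-(c + 1)) = Real.exp (v - c - 1) * Real.exp (-v) := by
    rw [← Real.exp_add]
    congr 1
    ring
  rw [e]
  exact mul_le_mul_of_nonneg_right (by linarith) (Real.exp_pos _).le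

/-- `(v - c) e^(-v)` is at most its value at `v0 ≥ c + 1` for `v ≥ v0` -/
theorem lin_exp' {v v0 c : ℝ} (h0 : c + 1 ≤ v0) (h : v0 ≤ v) :
    (v - c) * Real.exp (-v) ≤ (v0 - c) * Real.exp (-v0) := by
  have h1 := Real.add_one_le_exp (v - v0)
  have e : Real.exp (-v0) = Real.exp (v - v0) * Real.exp (-v) := by
    rw [← Real.exp_add]
    congr 1
    ring
  rw [e, ← mul_assoc]
  refine mul_le_mul_of_nonneg_right ?_ (Real.exp_pos _).le
  have h2 : (v0 - c) * (v - v0 + 1) ≤ (v0 - c) * Real.exp (v - v0) :=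
    mul_le_mul_of_nonneg_left h1 (by linarith)
  nlinarith

/-- `t² e^(-2t) ≤ t0² e^(-2 t0)` for `t ≥ t0 ≥ 1` -/
theorem sq_exp' {t t0 : ℝ} (h0 : 1 ≤ t0) (h : t0 ≤ t) :
    t ^ 2 * Real.exp (-(2 * t)) ≤ t0 ^ 2 * Real.exp (-(2 * t0)) := by
  have h1 := lin_exp' (v := t) (v0 := t0) (c := 0) (by linarith) h
  rw [sub_zero, sub_zero] at h1
  have e : ∀ x : ℝ, Real.exp (-(2 * x)) = Real.exp (-x) ^ 2 := by
    intro x
    rw [← Real.exp_nat_mul]
    congr 1
    push_cast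
    ring
  rw [e, e, ← mul_pow, ← mul_pow]
  exact pow_le_pow_left₀ (mul_nonneg (by linarith) (Real.exp_pos _).le) h1 2

/-- `t² e^(-2t) ≤ e^(-2)` -/
theorem sq_exp {t : ℝ} (h : 0 ≤ t) : t ^ 2 * Real.exp (-(2 * t)) ≤ Real.exp (-2) := by
  have h1 := lin_exp t 0
  rw [sub_zero, zero_add] at h1
  have e : ∀ x : ℝ, Real.exp (-(2 * x)) = Real.exp (-x) ^ 2 := by
    intro x
    rw [← Real.exp_nat_mul]
    congr 1
    push_cast
    ring
  have e2 : Real.exp (-2) = Real.exp (-1) ^ 2 := by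
    rw [← Real.exp_nat_mul]
    norm_num
  rw [e, e2, ← mul_pow]
  exact pow_le_pow_left₀ (mul_nonneg h (Real.exp_pos _).le) h1 2

theorem exp_ge (n : ℕ) {a : ℝ} (ha : 0 ≤ a) :
    (27182 / 10000 : ℝ) ^ n * (1 + a + a ^ 2 / 2) ≤ Real.exp (n + a) := by
  rw [Real.exp_add]
  have h1 : (27182 / 10000 : ℝ) ≤ Real.exp 1 := by
    have := Real.exp_one_gt_d9
    linarith
  have h2 : (27182 / 10000 : ℝ) ^ n ≤ Real.exp n := by
    have e : Real.exp n = Real.exp 1 ^ n := by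
      rw [← Real.exp_nat_mul, mul_one]
    rw [e]
    exact pow_le_pow_left₀ (by norm_num) h1 n
  have h3 := Real.quadratic_le_exp_of_nonneg ha
  exact mul_le_mul h2 h3 (by positivity) (Real.exp_pos _).le

theorem exp_le (n : ℕ) {a b c : ℝ} (ha : 0 ≤ a) (hc : c = -(n + a)) (hb0 : 0 < b)
    (hb : 1 ≤ b * ((27182 / 10000 : ℝ) ^ n * (1 + a + a ^ 2 / 2))) : Real.exp c ≤ b := by
  have h1 := exp_ge n ha
  have h2 : Real.exp c * Real.exp (n + a) = 1 := by
    rw [← Real.exp_add, hc, neg_add_cancel, Real.exp_zero]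
  have h3 := Real.exp_pos c
  have h4 : Real.exp c * ((27182 / 10000 : ℝ) ^ n * (1 + a + a ^ 2 / 2)) ≤ 1 := by
    have h6 := mul_le_mul_of_nonneg_left h1 h3.le
    rw [h2] at h6
    exact h6
  have h5 : 0 < (27182 / 10000 : ℝ) ^ n * (1 + a + a ^ 2 / 2) := by positivity
  by_contra hcon
  have h6 := mul_lt_mul_of_pos_right (not_le.1 hcon) h5
  linarith

theorem e2 : Real.exp (-2) ≤ 13535 / 100000 :=
  exp_le 2 le_rfl (by norm_num) (by norm_num) (by norm_num)

theorem e16 : Real.exp (-(8 / 5)) ≤ 2067 / 10000 :=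
  exp_le 1 (a := 3 / 5) (by norm_num) (by norm_num) (by norm_num) (by norm_num)

theorem e259 : Real.exp (-(159 / 100 + 1)) ≤ 768 / 10000 :=
  exp_le 2 (a := 59 / 100) (by norm_num) (by norm_num) (by norm_num) (by norm_num)

theorem e479 : Real.exp (-(379 / 100 + 1)) ≤ 8716 / 1000000 :=
  exp_le 4 (a := 79 / 100) (by norm_num) (by norm_num) (by norm_num) (by norm_num)

theorem e32 : Real.exp (-(16 / 5)) ≤ 4082 / 100000 :=
  exp_le 3 (a := 1 / 5) (by norm_num) (by norm_num) (by norm_num) (by norm_num)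

theorem gA_eq (t : ℝ) : gA t = (-3131 / 750 + 6301 / 3125 * t - 13543 / 250000 * t ^ 2 + 17 / 50000 * t ^ 3)
    + (-3131 / 750 + 50408 / 3125 * t + 34858 / 46875 * t ^ 2 - 68 / 3125 * t ^ 3) * Real.exp (-(2 * t))
    + (-3131 / 125 + 113418 / 3125 * t + 88011 / 125000 * t ^ 2 - 1377 / 25000 * t ^ 3) * Real.exp (-(4 * t))
    + -97061 / 3600 * Real.exp (-(6 * t)) := by
  unfold gA Pi' ph
  ring

theorem hasDeriv (t : ℝ) : HasDerivAt gA ((6301 / 3125 - 13543 / 125000 * t + 51 / 50000 * t ^ 2)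
    + (229499 / 9375 - 1442524 / 46875 * t - 72776 / 46875 * t ^ 2 + 136 / 3125 * t ^ 3) * Real.exp (-(2 * t))
    + (426518 / 3125 - 8985429 / 62500 * t - 372699 / 125000 * t ^ 2 + 1377 / 6250 * t ^ 3) * Real.exp (-(4 * t))
    + 97061 / 600 * Real.exp (-(6 * t))) t := by
  have hE : ∀ a : ℝ, HasDerivAt (fun x : ℝ => Real.exp (-(a * x))) (-a * Real.exp (-(a * t))) t := by
    intro a
    have h1 : HasDerivAt (fun x : ℝ => -(a * x)) (-(a * 1)) t := ((hasDerivAt_id t).const_mul a).neg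
    refine h1.exp.congr_deriv ?_
    ring
  have hp : ∀ n : ℕ, HasDerivAt (fun x : ℝ => x ^ n) (n * t ^ (n - 1)) t := fun n => hasDerivAt_pow n t
  have hpoly : ∀ a b c d : ℝ, HasDerivAt (fun x : ℝ => a + b * x + c * x ^ 2 + d * x ^ 3)
      (b + 2 * c * t + 3 * d * t ^ 2) t := by
    intro a b c d
    have h1 : HasDerivAt (fun x : ℝ => a + b * x) (b * 1) t := ((hasDerivAt_id t).const_mul b).const_add a
    have h2 := (hp 2).const_mul c
    have h3 := (hp 3).const_mul d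
    refine ((h1.add h2).add h3).congr_deriv ?_
    norm_num
    ring
  have e : gA = fun t : ℝ => (-3131 / 750 + 6301 / 3125 * t + (-13543 / 250000) * t ^ 2 + 17 / 50000 * t ^ 3)
    + (-3131 / 750 + 50408 / 3125 * t + 34858 / 46875 * t ^ 2 + (-68 / 3125) * t ^ 3) * Real.exp (-(2 * t))
    + (-3131 / 125 + 113418 / 3125 * t + 88011 / 125000 * t ^ 2 + (-1377 / 25000) * t ^ 3) * Real.exp (-(4 * t))
    + -97061 / 3600 * Real.exp (-(6 * t)) := by
    funext t
    rw [gA_eq]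
    ring
  rw [e]
  have h0 := hpoly (-3131 / 750) (6301 / 3125) (-13543 / 250000) (17 / 50000)
  have h1 := (hpoly (-3131 / 750) (50408 / 3125) (34858 / 46875) (-68 / 3125)).mul (hE 2)
  have h2 := (hpoly (-3131 / 125) (113418 / 3125) (88011 / 125000) (-1377 / 25000)).mul (hE 4)
  have h3 := (hE 6).const_mul (-97061 / 3600)
  refine (((h0.add h1).add h2).add h3).congr_deriv ?_
  ring

theorem deriv_nonneg {t : ℝ} (h1 : 4 / 5 ≤ t) (h2 : t ≤ 26 / 5) :
    0 ≤ (6301 / 3125 - 13543 / 125000 * t + 51 / 50000 * t ^ 2)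
    + (229499 / 9375 - 1442524 / 46875 * t - 72776 / 46875 * t ^ 2 + 136 / 3125 * t ^ 3) * Real.exp (-(2 * t))
    + (426518 / 3125 - 8985429 / 62500 * t - 372699 / 125000 * t ^ 2 + 1377 / 6250 * t ^ 3) * Real.exp (-(4 * t))
    + 97061 / 600 * Real.exp (-(6 * t)) := by
  have hx := Real.exp_pos (-(2 * t))
  have hy := Real.exp_pos (-(4 * t))
  have hz := Real.exp_pos (-(6 * t))
  have ht0 : 0 ≤ t := by linarith
  have ht3 : 0 ≤ t ^ 3 := by positivity
  have ht2 : 0 ≤ t ^ 2 := by positivity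
  have hxy : Real.exp (-(4 * t)) = Real.exp (-(2 * t)) * Real.exp (-(2 * t)) := by
    rw [← Real.exp_add]
    congr 1
    ring
  -- the two coefficients
  have hA : -(15387 / 1000 * (2 * t - 159 / 100)) - 15527 / 10000 * t ^ 2 ≤
      229499 / 9375 - 1442524 / 46875 * t - 72776 / 46875 * t ^ 2 + 136 / 3125 * t ^ 3 := by
    nlinarith
  have hB : -(359418 / 10000 * (4 * t - 379 / 100)) - 29817 / 10000 * t ^ 2 ≤
      426518 / 3125 - 8985429 / 62500 * t - 372699 / 125000 * t ^ 2 + 1377 / 6250 * t ^ 3 := by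
    nlinarith
  have hA' := mul_le_mul_of_nonneg_right hA hx.le
  have hB' := mul_le_mul_of_nonneg_right hB hy.le
  rcases le_total t (8 / 5) with h | h
  · have k1 := lin_exp (2 * t) (159 / 100)
    have k2 := sq_exp ht0
    have k3 := lin_exp (4 * t) (379 / 100)
    have k4 : Real.exp (-(2 * t)) ≤ 2067 / 10000 :=
      (Real.exp_le_exp.2 (by linarith)).trans e16
    have k5 : t ^ 2 * Real.exp (-(4 * t)) ≤ 13535 / 100000 * (2067 / 10000) := by
      rw [hxy, ← mul_assoc]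
      exact mul_le_mul (k2.trans e2) k4 hx.le (by norm_num)
    have k1' := k1.trans e259
    have k2' := k2.trans e2
    have k3' := k3.trans e479
    nlinarith
  · have k1 := lin_exp' (v := 2 * t) (v0 := 16 / 5) (c := 159 / 100) (by norm_num) (by linarith)
    have k2 := sq_exp' (t := t) (t0 := 8 / 5) (by norm_num) h
    have e5 : Real.exp (-(2 * (8 / 5))) = Real.exp (-(16 / 5)) := by norm_num
    rw [e5] at k2
    have k3 := lin_exp' (v := 4 * t) (v0 := 32 / 5) (c := 379 / 100) (by norm_num) (by linarith)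
    have e6 : Real.exp (-(32 / 5)) = Real.exp (-(16 / 5)) * Real.exp (-(16 / 5)) := by
      rw [← Real.exp_add]
      norm_num
    have h32 := Real.exp_pos (-(16 / 5))
    have e7 : Real.exp (-(32 / 5)) ≤ 4082 / 100000 * (4082 / 100000) := by
      rw [e6]
      exact mul_le_mul e32 e32 h32.le (by norm_num)
    have k4 : Real.exp (-(2 * t)) ≤ 4082 / 100000 :=
      (Real.exp_le_exp.2 (by linarith)).trans e32
    have k2' : t ^ 2 * Real.exp (-(2 * t)) ≤ (8 / 5) ^ 2 * (4082 / 100000) :=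
      k2.trans (mul_le_mul_of_nonneg_left e32 (by positivity))
    have k5 : t ^ 2 * Real.exp (-(4 * t)) ≤ (8 / 5) ^ 2 * (4082 / 100000) * (4082 / 100000) := by
      rw [hxy, ← mul_assoc]
      exact mul_le_mul k2' k4 hx.le (by norm_num)
    have k1' : (2 * t - 159 / 100) * Real.exp (-(2 * t)) ≤ (16 / 5 - 159 / 100) * (4082 / 100000) :=
      k1.trans (mul_le_mul_of_nonneg_left e32 (by norm_num))
    have k3' : (4 * t - 379 / 100) * Real.exp (-(4 * t)) ≤ (32 / 5 - 379 / 100) * (4082 / 100000 * (4082 / 100000)) :=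
      k3.trans (mul_le_mul_of_nonneg_left e7 (by norm_num))
    nlinarith

end LocMAux

open LocMAux

theorem Pi_nonneg {t : ℝ} (h1 : 4 / 5 ≤ t) (h2 : t ≤ 26 / 5) : 0 ≤ Pi' t := by
  have hx := Real.exp_pos (-(2 * t))
  have hy := Real.exp_pos (-(4 * t))
  have hz := Real.exp_pos (-(6 * t))
  have ht0 : 0 ≤ t := by linarith
  have hxy : Real.exp (-(4 * t)) = Real.exp (-(2 * t)) * Real.exp (-(2 * t)) := by
    rw [← Real.exp_add]
    congr 1
    ring
  have k2 := (sq_exp ht0).trans e2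
  have k2x := mul_le_mul_of_nonneg_right k2 hx.le
  have hp2 : (19 / 20 : ℝ) ≤ ph 2 t := by unfold ph; linarith
  have hp4 : ph 4 t ≤ 1 := by unfold ph; linarith
  have hp6 : ph 6 t ≤ 1 := by unfold ph; linarith
  have ht2 : (16 / 25 : ℝ) ≤ t ^ 2 := by nlinarith
  have m1 : 64 * t ^ 2 * ph 4 t * Real.exp (-(2 * t)) ≤ 64 * (t ^ 2 * Real.exp (-(2 * t))) := by
    have : 0 ≤ t ^ 2 * Real.exp (-(2 * t)) := by positivity
    nlinarith
  have m2 : 108 * t ^ 2 * ph 6 t * Real.exp (-(4 * t)) ≤ 108 * (t ^ 2 * Real.exp (-(2 * t)) * Real.exp (-(2 * t))) := by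
    rw [hxy]
    have : 0 ≤ t ^ 2 * Real.exp (-(2 * t)) * Real.exp (-(2 * t)) := by positivity
    nlinarith
  have m3 : 2 * (16 / 25) * (19 / 20) ≤ 2 * t ^ 2 * ph 2 t := by nlinarith
  unfold Pi'
  rw [hxy] at m2 ⊢
  nlinarith [sq_nonneg (Real.exp (-(2 * t)) - 6 / 97)]

theorem gA_mono : MonotoneOn gA (Icc (4 / 5) (26 / 5)) := by
  apply monotoneOn_of_deriv_nonneg (convex_Icc _ _)
  · exact fun t _ => (hasDeriv t).continuousAt.continuousWithinAt
  · exact fun t _ => (hasDeriv t).differentiableAt.differentiableWithinAt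
  · intro t ht
    rw [interior_Icc] at ht
    rw [(hasDeriv t).deriv]
    exact deriv_nonneg ht.1.le ht.2.le

end Pool.Agent.Lib.EPS
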