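import Pool.Agent.Lib.EPS.LocB
import Pool.Agent.Lib.EPS.LocM

/-!
# EPS.LocH: the pointwise bound

`t = 4/5 w ∈ [4/5, 26/5]`, `d = T - 1`, `τ = (1+d) t`, `x = exp (-2t)`. `A_2 = 2a+8b`,
`C_2 = -2P-8R`, `A_4 = 16a`, `C_4 = 64P`, `A_6 = 36a+144b`, `C_6 = 108P-144R+768F`,
`N = 12, 6, 24`. `A_n - τ C_n ≥ 0`; `(1+d)² exp(-n t d) ≥ ph n t`; `exp(-n τ) ≥ exp(-n t) (1 - n t d)`.
Then `Hf` minus the left side is `t x` times a sum of nonnegative terms.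
-/

open MeasureTheory Set Matrix
open scoped Matrix.Norms.Elementwise

namespace Pool.Agent.Lib.EPS

open Pool.Agent.Lib.EpZ Pool.Agent.Lib.FCC

namespace LocHAux

theorem expo1 (c d : ℝ) : Real.exp (-c) * (1 - c * d) ≤ Real.exp (-(c * (1 + d))) := by
  have e : Real.exp (-(c * (1 + d))) = Real.exp (-c) * Real.exp (-(c * d)) := by
    rw [← Real.exp_add]; congr 1; ring
  rw [e]
  refine mul_le_mul_of_nonneg_left ?_ (Real.exp_pos _).le
  have := Real.add_one_le_exp (-(c * d))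
  linarith

theorem expo2 {c d : ℝ} (hc : 8 / 5 ≤ c) (h0 : 0 ≤ d) (h1 : d ≤ 1 / 200) :
    Real.exp (-c) * (1 - 51 / 10000 * (c - 8 / 5)) ≤ Real.exp (-(c * (1 + d))) * (1 + d) ^ 2 := by
  have h2 := mul_le_mul_of_nonneg_right (expo1 c d) (sq_nonneg (1 + d))
  refine le_trans ?_ h2
  rw [mul_assoc]
  refine mul_le_mul_of_nonneg_left ?_ (Real.exp_pos _).le
  have h3 : 0 ≤ 51 / 10000 - d - 2 * d ^ 2 - d ^ 3 := by
    nlinarith [mul_nonneg h0 h0, mul_nonneg (mul_nonneg h0 h0) h0, mul_nonneg h0 (sub_nonneg.mpr h1),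
      mul_nonneg (mul_nonneg h0 h0) (sub_nonneg.mpr h1)]
  have h4 : 0 ≤ 2 / 5 * d - 11 / 5 * d ^ 2 - 8 / 5 * d ^ 3 := by
    nlinarith [mul_nonneg h0 h0, mul_nonneg (mul_nonneg h0 h0) h0, mul_nonneg h0 (sub_nonneg.mpr h1),
      mul_nonneg (mul_nonneg h0 h0) (sub_nonneg.mpr h1)]
  nlinarith [mul_nonneg (sub_nonneg.mpr hc) h3]

/-- `exp (-8/5)` -/
theorem exp_b1 : (20189 / 100000 : ℝ) ≤ Real.exp (-(8 / 5)) ∧ Real.exp (-(8 / 5)) ≤ 2019 / 10000 := by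
  have hp := Real.exp_pos (-(8 / 5 : ℝ))
  have h5 : Real.exp (-(8 / 5)) ^ 5 * Real.exp 1 ^ 8 = 1 := by
    rw [← Real.exp_nat_mul, ← Real.exp_nat_mul, ← Real.exp_add]
    norm_num
  have g1 := Real.exp_one_gt_d9
  have g2 := Real.exp_one_lt_d9
  constructor
  · by_contra hcon
    push Not at hcon
    have e1 : Real.exp (-(8 / 5)) ^ 5 ≤ (20189 / 100000 : ℝ) ^ 5 :=
      pow_le_pow_left₀ hp.le hcon.le 5
    have e2 : Real.exp 1 ^ 8 ≤ (2.7182818286 : ℝ) ^ 8 := pow_le_pow_left₀ (Real.exp_pos _).le g2.le 8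
    have e3 : Real.exp (-(8 / 5)) ^ 5 * Real.exp 1 ^ 8 ≤
        (20189 / 100000 : ℝ) ^ 5 * (2.7182818286 : ℝ) ^ 8 :=
      mul_le_mul e1 e2 (by positivity) (by positivity)
    rw [h5] at e3
    norm_num at e3
  · by_contra hcon
    push Not at hcon
    have e1 : (2019 / 10000 : ℝ) ^ 5 ≤ Real.exp (-(8 / 5)) ^ 5 :=
      pow_le_pow_left₀ (by norm_num) hcon.le 5
    have e2 : (2.7182818283 : ℝ) ^ 8 ≤ Real.exp 1 ^ 8 := pow_le_pow_left₀ (by norm_num) g1.le 8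
    have e3 : (2019 / 10000 : ℝ) ^ 5 * (2.7182818283 : ℝ) ^ 8 ≤
        Real.exp (-(8 / 5)) ^ 5 * Real.exp 1 ^ 8 :=
      mul_le_mul e1 e2 (by positivity) (by positivity)
    rw [h5] at e3
    norm_num at e3

/-- `exp (-11/5)` -/
theorem exp_b2 : Real.exp (-(11 / 5)) ≤ 111 / 1000 := by
  have hp := Real.exp_pos (-(11 / 5 : ℝ))
  have h5 : Real.exp (-(11 / 5)) ^ 5 * Real.exp 1 ^ 11 = 1 := by
    rw [← Real.exp_nat_mul, ← Real.exp_nat_mul, ← Real.exp_add]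
    norm_num
  have g1 := Real.exp_one_gt_d9
  by_contra hcon
  push Not at hcon
  have e1 : (111 / 1000 : ℝ) ^ 5 ≤ Real.exp (-(11 / 5)) ^ 5 :=
    pow_le_pow_left₀ (by norm_num) hcon.le 5
  have e2 : (2.7182818283 : ℝ) ^ 11 ≤ Real.exp 1 ^ 11 := pow_le_pow_left₀ (by norm_num) g1.le 11
  have e3 : (111 / 1000 : ℝ) ^ 5 * (2.7182818283 : ℝ) ^ 11 ≤
      Real.exp (-(11 / 5)) ^ 5 * Real.exp 1 ^ 11 :=
    mul_le_mul e1 e2 (by positivity) (by positivity)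
  rw [h5] at e3
  norm_num at e3

/-- `t exp (-2t) ≤ 1/(2e)` -/
theorem tx_le (t : ℝ) : t * Real.exp (-(2 * t)) ≤ 184 / 1000 := by
  have h1 := Real.add_one_le_exp (2 * t - 1)
  have h2 : Real.exp (2 * t - 1) * Real.exp 1 * Real.exp (-(2 * t)) = 1 := by
    rw [← Real.exp_add, ← Real.exp_add, ← Real.exp_zero]
    congr 1; ring
  have hx := Real.exp_pos (-(2 * t))
  have g1 := Real.exp_one_gt_d9
  have h3 : 2 * t * (Real.exp 1 * Real.exp (-(2 * t))) ≤ 1 := by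
    have := mul_le_mul_of_nonneg_right (show 2 * t ≤ Real.exp (2 * t - 1) by linarith)
      (show 0 ≤ Real.exp 1 * Real.exp (-(2 * t)) by positivity)
    linarith
  rcases le_or_gt (t * Real.exp (-(2 * t))) 0 with h | h
  · linarith
  · nlinarith [mul_le_mul_of_nonneg_right g1.le h.le]

/-- the factor `101/300 (24 + 24 x + 144 x² + 155 x³)` -/
noncomputable def vv (x : ℝ) : ℝ := 101 / 100 * (8 + 8 * x + 48 * x ^ 2 + 155 / 3 * x ^ 3)

/-- the lower bound of the coefficient of `b` -/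
noncomputable def SS (t x : ℝ) : ℝ := -vv x + 8 * t * ph 2 t + 144 * t * x ^ 2 * ph 6 t
  - 8 * t ^ 2 / 10 - 2 * vv x / 60 - t ^ 2 / 200 * (4 / 5 + 136 / 5 * x ^ 2)

/-- first interval -/
theorem S1 {z x : ℝ} (hz1 : 2 / 5 ≤ z) (hz2 : z ≤ 1) (hx1 : 20189 / 100000 * z ≤ x)
    (hx2 : x ≤ 2019 / 10000) :
    21 / 5 * ((13 / 10 - z / 2) - 13 / 10) ≤ SS (13 / 10 - z / 2) x := by
  have hx0 : 0 ≤ x := le_trans (by nlinarith) hx1
  -- difference quotient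
  have hq : 0 ≤ (x - 20189 / 100000 * z) * (-(3131 / 3000 * 8) + (x + 20189 / 100000 * z) *
      (144 * (13 / 10 - z / 2) * ph 6 (13 / 10 - z / 2) - 136 / 1000 * (13 / 10 - z / 2) ^ 2
        - 3131 / 3000 * 48) -
      3131 / 3000 * (155 / 3) *
        (x ^ 2 + x * (20189 / 100000 * z) + (20189 / 100000 * z) ^ 2)) := by
    refine mul_nonneg (by linarith) ?_
    have h1 : x ^ 2 + x * (20189 / 100000 * z) + (20189 / 100000 * z) ^ 2 ≤
        (x + 20189 / 100000 * z) * (2 / 5) := by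
      nlinarith [mul_nonneg (sub_nonneg.mpr hx1) (sub_nonneg.mpr hx2), mul_nonneg hx0 hx0]
    have h2 : 2 * (20189 / 100000 * z) ≤ x + 20189 / 100000 * z := by linarith
    have h3 : 130 - 68 * z ≤ 144 * (13 / 10 - z / 2) * ph 6 (13 / 10 - z / 2)
        - 136 / 1000 * (13 / 10 - z / 2) ^ 2 - 3131 / 3000 * 48 := by
      unfold ph
      nlinarith
    have h4 : (x + 20189 / 100000 * z) * (130 - 68 * z) ≤ (x + 20189 / 100000 * z) *
        (144 * (13 / 10 - z / 2) * ph 6 (13 / 10 - z / 2)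
        - 136 / 1000 * (13 / 10 - z / 2) ^ 2 - 3131 / 3000 * 48) :=
      mul_le_mul_of_nonneg_left h3 (by linarith)
    have h5 : 2 * (20189 / 100000 * z) * (130 - 68 * z - 3131 / 3000 * (155 / 3) * (2 / 5)) ≤
        (x + 20189 / 100000 * z) * (130 - 68 * z - 3131 / 3000 * (155 / 3) * (2 / 5)) :=
      mul_le_mul_of_nonneg_right h2 (by linarith)
    nlinarith
  have hG : 0 ≤ SS (13 / 10 - z / 2) (20189 / 100000 * z)
      - 21 / 5 * ((13 / 10 - z / 2) - 13 / 10) := by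
    unfold SS vv ph
    nlinarith [mul_nonneg (sub_nonneg.mpr hz1) (sub_nonneg.mpr hz2), sq_nonneg (z - 4 / 5),
      mul_nonneg (mul_nonneg (sub_nonneg.mpr hz1) (sub_nonneg.mpr hz2)) (show 0 ≤ z by linarith),
      mul_nonneg (sub_nonneg.mpr hz2) (sq_nonneg (z - 1)),
      mul_nonneg (sub_nonneg.mpr hz2) (sq_nonneg (z - 4 / 5)),
      mul_nonneg (sub_nonneg.mpr hz2) (sq_nonneg (z - 1 / 2))]
  have e : SS (13 / 10 - z / 2) x - 21 / 5 * ((13 / 10 - z / 2) - 13 / 10) =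
      (SS (13 / 10 - z / 2) (20189 / 100000 * z) - 21 / 5 * ((13 / 10 - z / 2) - 13 / 10)) +
      (x - 20189 / 100000 * z) * (-(3131 / 3000 * 8) + (x + 20189 / 100000 * z) *
      (144 * (13 / 10 - z / 2) * ph 6 (13 / 10 - z / 2) - 136 / 1000 * (13 / 10 - z / 2) ^ 2
        - 3131 / 3000 * 48) -
      3131 / 3000 * (155 / 3) *
        (x ^ 2 + x * (20189 / 100000 * z) + (20189 / 100000 * z) ^ 2)) := by
    unfold SS vv ph
    ring
  linarith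

/-- second interval -/
theorem S2 {t x : ℝ} (h1 : 11 / 10 ≤ t) (h2 : t ≤ 16 / 5) (hx0 : 0 ≤ x) (hx : x ≤ 111 / 1000) :
    21 / 5 * (t - 13 / 10) ≤ SS t x := by
  have h3 : 104 ≤ 144 * t * ph 6 t - 136 / 1000 * t ^ 2 - 3131 / 3000 * 48 := by
    unfold ph
    nlinarith [mul_nonneg (sub_nonneg.mpr h1) (sub_nonneg.mpr h2)]
  have h4 := mul_le_mul_of_nonneg_left h3 (sq_nonneg x)
  have h5 : x ^ 3 ≤ 111 / 1000 * x ^ 2 := by nlinarith [mul_nonneg (mul_nonneg hx0 hx0) (sub_nonneg.mpr hx)]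
  have e : SS t x - 21 / 5 * (t - 13 / 10) = (8 * t * ph 2 t - (4 / 5 + 4 / 1000) * t ^ 2
      - 21 / 5 * (t - 13 / 10) - 3131 / 3000 * 8) - 3131 / 3000 * 8 * x
      + x ^ 2 * (144 * t * ph 6 t - 136 / 1000 * t ^ 2 - 3131 / 3000 * 48)
      - 3131 / 3000 * (155 / 3) * x ^ 3 := by
    unfold SS vv ph
    ring
  have h6 : 29 / 100 ≤ 8 * t * ph 2 t - (4 / 5 + 4 / 1000) * t ^ 2
      - 21 / 5 * (t - 13 / 10) - 3131 / 3000 * 8 := by
    unfold ph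
    nlinarith [mul_nonneg (sub_nonneg.mpr h1) (sub_nonneg.mpr h2)]
  nlinarith [sq_nonneg (x - 42 / 1000)]

/-- third interval -/
theorem S3 {t x : ℝ} (h1 : 16 / 5 ≤ t) (h2 : t ≤ 26 / 5) (hx0 : 0 ≤ x) (hx : x ≤ 111 / 1000) :
    0 ≤ SS t x := by
  have h3 : 0 ≤ 144 * t * ph 6 t - 136 / 1000 * t ^ 2 - 3131 / 3000 * 48 := by
    unfold ph
    nlinarith [mul_nonneg (sub_nonneg.mpr h1) (sub_nonneg.mpr h2)]
  have h4 := mul_nonneg (sq_nonneg x) h3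
  have h5 : x ^ 3 ≤ 111 / 1000 * x ^ 2 := by nlinarith [mul_nonneg (mul_nonneg hx0 hx0) (sub_nonneg.mpr hx)]
  have h7 : x ^ 2 ≤ 111 / 1000 * x := by nlinarith [mul_nonneg hx0 (sub_nonneg.mpr hx)]
  have e : SS t x = (8 * t * ph 2 t - (4 / 5 + 4 / 1000) * t ^ 2
      - 3131 / 3000 * 8) - 3131 / 3000 * 8 * x
      + x ^ 2 * (144 * t * ph 6 t - 136 / 1000 * t ^ 2 - 3131 / 3000 * 48)
      - 3131 / 3000 * (155 / 3) * x ^ 3 := by
    unfold SS vv ph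
    ring
  have h6 : 8 ≤ 8 * t * ph 2 t - (4 / 5 + 4 / 1000) * t ^ 2 - 3131 / 3000 * 8 := by
    unfold ph
    nlinarith [mul_nonneg (sub_nonneg.mpr h1) (sub_nonneg.mpr h2)]
  nlinarith

/-- the inequality for the coefficient of `b` -/
theorem SS_ge {t : ℝ} (h1 : 4 / 5 ≤ t) (h2 : t ≤ 26 / 5) : gB t ≤ SS t (Real.exp (-(2 * t))) := by
  have hx0 := (Real.exp_pos (-(2 * t))).le
  rcases le_or_gt t (11 / 10) with h | h
  · have e1 : gB t = 21 / 5 * (t - 13 / 10) := if_pos (by linarith)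
    rw [e1]
    have ht : t = 13 / 10 - (13 / 5 - 2 * t) / 2 := by ring
    have hx2 : Real.exp (-(2 * t)) ≤ 2019 / 10000 :=
      (Real.exp_le_exp.mpr (by linarith)).trans exp_b1.2
    have hx1 : 20189 / 100000 * (13 / 5 - 2 * t) ≤ Real.exp (-(2 * t)) := by
      have e2 : Real.exp (-(2 * t)) = Real.exp (-(8 / 5)) * Real.exp (8 / 5 - 2 * t) := by
        rw [← Real.exp_add]; congr 1; ring
      have e3 := Real.add_one_le_exp (8 / 5 - 2 * t)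
      rw [e2]
      exact mul_le_mul exp_b1.1 (by linarith) (by linarith) (Real.exp_pos _).le
    have := S1 (z := 13 / 5 - 2 * t) (by linarith) (by linarith) hx1 hx2
    rw [← ht] at this
    exact this
  · have hx : Real.exp (-(2 * t)) ≤ 111 / 1000 :=
      (Real.exp_le_exp.mpr (by linarith)).trans exp_b2
    rcases le_or_gt t (16 / 5) with h' | h'
    · have e1 : gB t = 21 / 5 * (t - 13 / 10) := if_pos h'
      rw [e1]
      exact S2 h.le h' hx0 hx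
    · have e1 : gB t = 0 := if_neg (not_le.mpr h')
      rw [e1]
      exact S3 h'.le h2 hx0 hx

/-- the coefficient of `R` -/
theorem cR_le {t : ℝ} (h1 : 4 / 5 ≤ t) (h2 : t ≤ 26 / 5) {x : ℝ} (hx : x = Real.exp (-(2 * t))) :
    |-vv x + 8 * t ^ 2 * ph 2 t + 144 * t ^ 2 * x ^ 2 * ph 6 t| ≤ 8 * t ^ 2 := by
  have hx0 : 0 ≤ x := by rw [hx]; exact (Real.exp_pos _).le
  have hx2 : x ≤ 2019 / 10000 := by
    rw [hx]; exact (Real.exp_le_exp.mpr (by linarith)).trans exp_b1.2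
  have htx : t * x ≤ 184 / 1000 := by rw [hx]; exact tx_le t
  have htx0 : 0 ≤ t * x := mul_nonneg (by linarith) hx0
  have h3 : (t * x) ^ 2 ≤ (184 / 1000) ^ 2 := pow_le_pow_left₀ htx0 htx 2
  have hp2 : ph 2 t ≤ 1 ∧ 95 / 100 ≤ ph 2 t := by unfold ph; constructor <;> linarith
  have hp6 : ph 6 t ≤ 1 ∧ 84 / 100 ≤ ph 6 t := by unfold ph; constructor <;> linarith
  have hv1 : 8 ≤ vv x := by unfold vv; nlinarith [mul_nonneg hx0 hx0, mul_nonneg (mul_nonneg hx0 hx0) hx0]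
  have ht2 : 16 / 25 ≤ t ^ 2 := by nlinarith
  rw [abs_le]
  constructor
  · have h4 : 144 * (16 / 25) * x ^ 2 * (84 / 100) ≤ 144 * t ^ 2 * x ^ 2 * ph 6 t := by
      refine mul_le_mul (mul_le_mul_of_nonneg_right ?_ (sq_nonneg x)) hp6.2 (by norm_num) (by positivity)
      linarith
    have h5 : 8 * t ^ 2 * (95 / 100) ≤ 8 * t ^ 2 * ph 2 t :=
      mul_le_mul_of_nonneg_left hp2.2 (by positivity)
    have h6 : vv x - 144 * (16 / 25) * x ^ 2 * (84 / 100) ≤ 96 / 10 := by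
      unfold vv
      nlinarith [mul_nonneg hx0 (sub_nonneg.mpr hx2), mul_nonneg (mul_nonneg hx0 hx0) (sub_nonneg.mpr hx2)]
    nlinarith
  · have h4 : 144 * t ^ 2 * x ^ 2 * ph 6 t ≤ 144 * (t * x) ^ 2 := by
      have : 144 * t ^ 2 * x ^ 2 * ph 6 t = 144 * (t * x) ^ 2 * ph 6 t := by ring
      rw [this]
      exact mul_le_of_le_one_right (by positivity) hp6.1
    have h5 : 8 * t ^ 2 * ph 2 t ≤ 8 * t ^ 2 := mul_le_of_le_one_right (by positivity) hp2.1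
    nlinarith

/-- the coefficient of `F` -/
theorem cF_le {t : ℝ} (h1 : 4 / 5 ≤ t) (h2 : t ≤ 26 / 5) {x : ℝ} (hx : x = Real.exp (-(2 * t))) :
    |2 * vv x - 768 * t ^ 2 * x ^ 2 * ph 6 t| ≤ 2 * vv x := by
  have hx0 : 0 ≤ x := by rw [hx]; exact (Real.exp_pos _).le
  have htx : t * x ≤ 184 / 1000 := by rw [hx]; exact tx_le t
  have htx0 : 0 ≤ t * x := mul_nonneg (by linarith) hx0
  have h3 : (t * x) ^ 2 ≤ (184 / 1000) ^ 2 := pow_le_pow_left₀ htx0 htx 2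
  have hp6 : ph 6 t ≤ 1 ∧ 84 / 100 ≤ ph 6 t := by unfold ph; constructor <;> linarith
  have hv1 : 8 ≤ vv x := by unfold vv; nlinarith [mul_nonneg hx0 hx0, mul_nonneg (mul_nonneg hx0 hx0) hx0]
  have e : 768 * t ^ 2 * x ^ 2 * ph 6 t = 768 * (t * x) ^ 2 * ph 6 t := by ring
  have h4 : 768 * (t * x) ^ 2 * ph 6 t ≤ 768 * (t * x) ^ 2 :=
    mul_le_of_le_one_right (by positivity) hp6.1
  have h5 : 0 ≤ 768 * (t * x) ^ 2 * ph 6 t := by
    have : 0 ≤ ph 6 t := by linarith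
    positivity
  rw [e, abs_le]
  constructor <;> nlinarith

/-- a product bound -/
theorem mul_abs_ge {u v k m : ℝ} (hu : |u| ≤ k) (hv : |v| ≤ m) : -(k * m) ≤ u * v := by
  have h1 : |u * v| ≤ k * m := by
    rw [abs_mul]
    exact mul_le_mul hu hv (abs_nonneg _) (le_trans (abs_nonneg _) hu)
  exact (abs_le.mp h1).1

/-- the algebraic part: the rest divided by `t x` -/
theorem rest {a b P F R t x p2 p4 p6 : ℝ} (hx0 : 0 ≤ x)
    (hP : |P| ≤ a / 60) (hF : |F| ≤ b / 60) (hR : |R| ≤ b / 10) (ha : 0 ≤ a) (hb : 0 ≤ b)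
    (h2 : p2 ≤ 1) (h4 : p4 ≤ 1) (h6 : p6 ≤ 1)
    (hcR : |-vv x + 8 * t ^ 2 * p2 + 144 * t ^ 2 * x ^ 2 * p6| ≤ 8 * t ^ 2)
    (hcF : |2 * vv x - 768 * t ^ 2 * x ^ 2 * p6| ≤ 2 * vv x)
    {Pi g : ℝ} (hPi0 : 0 ≤ Pi)
    (hPi : Pi = vv x + 2 * t ^ 2 * p2 - 64 * t ^ 2 * p4 * x - 108 * t ^ 2 * p6 * x ^ 2)
    (hg : g ≤ -vv x + 8 * t * p2 + 144 * t * x ^ 2 * p6
      - 8 * t ^ 2 / 10 - 2 * vv x / 60 - t ^ 2 / 200 * (4 / 5 + 136 / 5 * x ^ 2)) :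
    a * (2 * t * p2 + 16 * t * p4 * x + 36 * t * p6 * x ^ 2 - vv x / 2 - Pi / 60
      - t ^ 2 * (2 + 64 * x + 108 * x ^ 2) / 12000) + b * g ≤
    -vv x * (a / 2 + b - P - 2 * F + R) +
      t * (p2 * (2 * a + 8 * b + t * (2 * P + 8 * R) - t / 200 * (a / 30 + 4 * b / 5))
        + x * p4 * (16 * a - t * (64 * P) - t / 200 * (16 * a / 15))
        + x ^ 2 * p6 * (36 * a + 144 * b - t * (108 * P - 144 * R + 768 * F)
          - t / 200 * (9 * a / 5 + 136 * b / 5))) := by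
  have k1 : 0 ≤ Pi * (P + a / 60) := mul_nonneg hPi0 (by linarith [(abs_le.mp hP).1])
  have k2 := mul_abs_ge hcR hR
  have k3 := mul_abs_ge hcF hF
  have k4 := mul_le_mul_of_nonneg_left hg hb
  have k5 : 0 ≤ t ^ 2 / 200 * ((1 - p2) * (a / 30 + 4 * b / 5) + x * (1 - p4) * (16 * a / 15)
      + x ^ 2 * (1 - p6) * (9 * a / 5 + 136 * b / 5)) := by
    have e2 : 0 ≤ 1 - p2 := by linarith
    have e4 : 0 ≤ 1 - p4 := by linarith
    have e6 : 0 ≤ 1 - p6 := by linarith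
    positivity
  have e : (-vv x * (a / 2 + b - P - 2 * F + R) +
      t * (p2 * (2 * a + 8 * b + t * (2 * P + 8 * R) - t / 200 * (a / 30 + 4 * b / 5))
        + x * p4 * (16 * a - t * (64 * P) - t / 200 * (16 * a / 15))
        + x ^ 2 * p6 * (36 * a + 144 * b - t * (108 * P - 144 * R + 768 * F)
          - t / 200 * (9 * a / 5 + 136 * b / 5)))) -
      (a * (2 * t * p2 + 16 * t * p4 * x + 36 * t * p6 * x ^ 2 - vv x / 2 - Pi / 60
      - t ^ 2 * (2 + 64 * x + 108 * x ^ 2) / 12000) + b * g) =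
      Pi * (P + a / 60)
      + ((-vv x + 8 * t ^ 2 * p2 + 144 * t ^ 2 * x ^ 2 * p6) * R + 8 * t ^ 2 * (b / 10))
      + ((2 * vv x - 768 * t ^ 2 * x ^ 2 * p6) * F + 2 * vv x * (b / 60))
      + (b * (-vv x + 8 * t * p2 + 144 * t * x ^ 2 * p6
      - 8 * t ^ 2 / 10 - 2 * vv x / 60 - t ^ 2 / 200 * (4 / 5 + 136 / 5 * x ^ 2)) - b * g)
      + t ^ 2 / 200 * ((1 - p2) * (a / 30 + 4 * b / 5) + x * (1 - p4) * (16 * a / 15)
      + x ^ 2 * (1 - p6) * (9 * a / 5 + 136 * b / 5)) := by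
    rw [hPi]
    ring
  linarith

/-- the three error terms -/
theorem errs {a b P F R : ℝ} (hP : |P| ≤ a / 60) (hF : |F| ≤ b / 60) (hR : |R| ≤ b / 10) :
    |2 * P + 8 * R| ≤ a / 30 + 4 * b / 5 ∧ |64 * P| ≤ 16 * a / 15 ∧
      |108 * P - 144 * R + 768 * F| ≤ 9 * a / 5 + 136 * b / 5 := by
  obtain ⟨p1, p2⟩ := abs_le.mp hP
  obtain ⟨f1, f2⟩ := abs_le.mp hF
  obtain ⟨r1, r2⟩ := abs_le.mp hR
  refine ⟨abs_le.mpr ⟨?_, ?_⟩, abs_le.mpr ⟨?_, ?_⟩, abs_le.mpr ⟨?_, ?_⟩⟩ <;> linarith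

/-- shifting `τ = t + t d` to `t` -/
theorem shift {t d A C k : ℝ} (ht : 0 ≤ t) (hd0 : 0 ≤ d) (hd1 : d ≤ 1 / 200) (hC : |C| ≤ k) :
    A + t * C - t / 200 * k ≤ A + (t * (1 + d)) * C := by
  have h1 : 0 ≤ t * d := mul_nonneg ht hd0
  have h2 := mul_abs_ge (u := t * d) (v := C) (k := t / 200) (m := k)
    (by rw [abs_of_nonneg h1]; nlinarith) hC
  nlinarith

/-- nonnegativity of the brackets -/
theorem brk {t d A C k : ℝ} (ht : 0 ≤ t) (ht2 : t ≤ 26 / 5) (hd0 : 0 ≤ d) (hd1 : d ≤ 1 / 200)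
    (hC : |C| ≤ k) (hA : 523 / 100 * k ≤ A) : 0 ≤ A + (t * (1 + d)) * C := by
  have h1 : 0 ≤ t * (1 + d) := by positivity
  have h3 : t * (1 + d) ≤ 523 / 100 := by nlinarith
  have h2 := mul_abs_ge (u := t * (1 + d)) (v := C) (k := 523 / 100) (m := k)
    (by rw [abs_of_nonneg h1]; exact h3) hC
  linarith

end LocHAux

open LocHAux

theorem Hf_lower {c : LC} {l : Fin 6 → ℝ} (h : c.Of l) {w : ℝ} (h1 : 1 ≤ w) (h2 : w ≤ 13 / 2) :
    c.a * hA w + c.b * hB w ≤ Hf c w := by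
  obtain ⟨hd0, hd1, hd2, hP, hF, hR, ha, hb⟩ := bd h
  obtain ⟨d, hd⟩ : ∃ d, d = c.T - 1 := ⟨_, rfl⟩
  obtain ⟨t, ht⟩ : ∃ t, t = 4 / 5 * w := ⟨_, rfl⟩
  rw [← hd] at hd0 hd1 hd2
  have hT : c.T = 1 + d := by linarith
  have ht1 : 4 / 5 ≤ t := by linarith
  have ht2 : t ≤ 26 / 5 := by linarith
  have ht0 : 0 ≤ t := by linarith
  obtain ⟨x, hx⟩ : ∃ x, x = Real.exp (-(2 * t)) := ⟨_, rfl⟩
  have hx0 : 0 ≤ x := by rw [hx]; exact (Real.exp_pos _).le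
  have x4 : Real.exp (-(4 * t)) = x ^ 2 := by
    rw [hx, ← Real.exp_nat_mul]; congr 1; push_cast; ring
  have x6 : Real.exp (-(6 * t)) = x ^ 3 := by
    rw [hx, ← Real.exp_nat_mul]; congr 1; push_cast; ring
  have x8 : Real.exp (-(8 * t)) = x ^ 4 := by
    rw [hx, ← Real.exp_nat_mul]; congr 1; push_cast; ring
  obtain ⟨e2, he2⟩ : ∃ e, e = Real.exp (-(2 * ((1 + d) * t))) := ⟨_, rfl⟩
  obtain ⟨e4, he4⟩ : ∃ e, e = Real.exp (-(4 * ((1 + d) * t))) := ⟨_, rfl⟩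
  obtain ⟨e6, he6⟩ : ∃ e, e = Real.exp (-(6 * ((1 + d) * t))) := ⟨_, rfl⟩
  have he2' : e2 = Real.exp (-((2 * t) * (1 + d))) := by rw [he2]; congr 1; ring
  have he4' : e4 = Real.exp (-((4 * t) * (1 + d))) := by rw [he4]; congr 1; ring
  have he6' : e6 = Real.exp (-((6 * t) * (1 + d))) := by rw [he6]; congr 1; ring
  -- first bounds
  have a2 : x * (1 - 2 * t * d) ≤ e2 := by
    rw [he2', hx]; exact expo1 (2 * t) d
  have a4 : x ^ 2 * (1 - 4 * t * d) ≤ e4 := by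
    rw [he4', ← x4]; exact expo1 (4 * t) d
  have a6 : x ^ 3 * (1 - 6 * t * d) ≤ e6 := by
    rw [he6', ← x6]; exact expo1 (6 * t) d
  have b2 : x * ph 2 t ≤ e2 * (1 + d) ^ 2 := by
    rw [he2', hx]; exact expo2 (c := 2 * t) (by linarith) hd0 hd1
  have b4 : x ^ 2 * ph 4 t ≤ e4 * (1 + d) ^ 2 := by
    rw [he4', ← x4]; exact expo2 (c := 4 * t) (by linarith) hd0 hd1
  have b6 : x ^ 3 * ph 6 t ≤ e6 * (1 + d) ^ 2 := by
    rw [he6', ← x6]; exact expo2 (c := 6 * t) (by linarith) hd0 hd1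
  have q2 : ph 2 t ≤ 1 ∧ 0 ≤ ph 2 t := by unfold ph; constructor <;> linarith
  have q4 : ph 4 t ≤ 1 ∧ 0 ≤ ph 4 t := by unfold ph; constructor <;> linarith
  have q6 : ph 6 t ≤ 1 ∧ 0 ≤ ph 6 t := by unfold ph; constructor <;> linarith
  obtain ⟨c2, c4, c6⟩ := errs hP hF hR
  have c4' : |-(64 * c.P)| ≤ 16 * c.a / 15 := by rwa [abs_neg]
  have c6' : |-(108 * c.P - 144 * c.R + 768 * c.F)| ≤ 9 * c.a / 5 + 136 * c.b / 5 := by
    rwa [abs_neg]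
  -- brackets
  have m2 := brk (A := 2 * c.a + 8 * c.b) ht0 ht2 hd0 hd1 c2 (by linarith)
  have m4 := brk (A := 16 * c.a) ht0 ht2 hd0 hd1 c4' (by linarith)
  have m6 := brk (A := 36 * c.a + 144 * c.b) ht0 ht2 hd0 hd1 c6' (by linarith)
  have s2 := shift (A := 2 * c.a + 8 * c.b) ht0 hd0 hd1 c2
  have s4 := shift (A := 16 * c.a) ht0 hd0 hd1 c4'
  have s6 := shift (A := 36 * c.a + 144 * c.b) ht0 hd0 hd1 c6'
  have r2 := (mul_le_mul_of_nonneg_left s2 (mul_nonneg hx0 q2.2)).trans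
    (mul_le_mul_of_nonneg_right b2 m2)
  have r4 := (mul_le_mul_of_nonneg_left s4 (mul_nonneg (sq_nonneg x) q4.2)).trans
    (mul_le_mul_of_nonneg_right b4 m4)
  have r6 := (mul_le_mul_of_nonneg_left s6 (mul_nonneg (pow_nonneg hx0 3) q6.2)).trans
    (mul_le_mul_of_nonneg_right b6 m6)
  have tt : 0 ≤ t ^ 2 := sq_nonneg t
  have R2 := mul_le_mul_of_nonneg_left r2 tt
  have R4 := mul_le_mul_of_nonneg_left r4 tt
  have R6 := mul_le_mul_of_nonneg_left r6 tt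
  -- the `d` terms
  have D1 : t * (24 * x + 24 * x ^ 2 + 144 * x ^ 3 + 155 * x ^ 4) * d ≤
      t * (24 * x + 24 * x ^ 2 + 144 * x ^ 3 + 155 * x ^ 4) *
        (101 / 300 * (c.a / 2 + c.b - c.P - 2 * c.F + c.R)) :=
    mul_le_mul_of_nonneg_left hd2 (by positivity)
  -- the rest
  have hPi : Pi' t = vv x + 2 * t ^ 2 * ph 2 t - 64 * t ^ 2 * ph 4 t * x
      - 108 * t ^ 2 * ph 6 t * x ^ 2 := by
    unfold Pi' vv
    rw [x4, x6, ← hx]
  have hgA : gA t = 2 * t * ph 2 t + 16 * t * ph 4 t * x + 36 * t * ph 6 t * x ^ 2 - vv x / 2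
      - Pi' t / 60 - t ^ 2 * (2 + 64 * x + 108 * x ^ 2) / 12000 := by
    unfold gA vv
    rw [x4, x6, ← hx]
    ring
  have hg : gB t ≤ -vv x + 8 * t * ph 2 t + 144 * t * x ^ 2 * ph 6 t
      - 8 * t ^ 2 / 10 - 2 * vv x / 60 - t ^ 2 / 200 * (4 / 5 + 136 / 5 * x ^ 2) := by
    have := SS_ge ht1 ht2
    rw [← hx] at this
    exact this
  have K := rest (t := t) hx0 hP hF hR ha hb q2.1 q4.1 q6.1 (cR_le ht1 ht2 hx) (cF_le ht1 ht2 hx)
    (Pi_nonneg ht1 ht2) hPi hg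
  rw [← hgA] at K
  have K' := mul_le_mul_of_nonneg_left K (mul_nonneg ht0 hx0)
  unfold hA hB Hf
  rw [← ht, hT, x4, x6, x8, ← hx, ← he2, ← he4, ← he6]
  have E : t * x * (-vv x * (c.a / 2 + c.b - c.P - 2 * c.F + c.R)) =
      -(t * (24 * x + 24 * x ^ 2 + 144 * x ^ 3 + 155 * x ^ 4) *
        (101 / 300 * (c.a / 2 + c.b - c.P - 2 * c.F + c.R))) := by
    unfold vv
    ring
  linarith [K', D1, R2, R4, R6, a2, a4, a6, E]

end Pool.Agent.Lib.EPS
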