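import Mathlib

/-!
# EPS.LocO: functions with one change of sign

`(W x - W m) * g x ≥ 0` for all `x`, so `∫ W ψ g ≥ W m ∫ ψ g ≥ W α ∫ ψ g`. For `of_mono` take for `m`
the supremum of `{x ∈ Icc α β | g x ≤ 0}` (or `α` if the set is empty).
-/

open MeasureTheory Set

namespace Pool.Agent.Lib.EPS

theorem one_change {α β m : ℝ} {W ψ g : ℝ → ℝ} (hm : m ∈ Icc α β)
    (hψ : ∀ x ∈ Ioc α β, 0 ≤ ψ x) (hW : MonotoneOn W (Icc α β)) (hW0 : 0 ≤ W α)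
    (h1 : ∀ x ∈ Ioc α β, x < m → g x ≤ 0) (h2 : ∀ x ∈ Ioc α β, m < x → 0 ≤ g x)
    (hi : IntegrableOn (fun x => ψ x * g x) (Ioc α β))
    (hi' : IntegrableOn (fun x => W x * (ψ x * g x)) (Ioc α β))
    (h0 : 0 ≤ ∫ x in Ioc α β, ψ x * g x) :
    W α * ∫ x in Ioc α β, ψ x * g x ≤ ∫ x in Ioc α β, W x * (ψ x * g x) := by
  have hα : α ∈ Icc α β := left_mem_Icc.mpr (hm.1.trans hm.2)
  have hWm : W α ≤ W m := hW hα hm hm.1
  have hk : 0 ≤ ∫ x in Ioc α β, (W x * (ψ x * g x) - W m * (ψ x * g x)) := by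
    refine setIntegral_nonneg measurableSet_Ioc fun x hx => ?_
    have hx' : x ∈ Icc α β := ⟨hx.1.le, hx.2⟩
    have hp := hψ x hx
    rcases lt_trichotomy x m with h | h | h
    · have a1 := h1 x hx h
      have a2 : W x ≤ W m := hW hx' hm h.le
      have : 0 ≤ (W m - W x) * (ψ x * (-g x)) :=
        mul_nonneg (by linarith) (mul_nonneg hp (by linarith))
      nlinarith
    · subst h
      simp
    · have a1 := h2 x hx h
      have a2 : W m ≤ W x := hW hm hx' h.le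
      have : 0 ≤ (W x - W m) * (ψ x * g x) := mul_nonneg (by linarith) (mul_nonneg hp a1)
      nlinarith
  rw [integral_sub hi' (hi.const_mul (W m)), integral_const_mul] at hk
  have h3 := mul_le_mul_of_nonneg_right hWm h0
  linarith

theorem change_of_mono {α β : ℝ} (hαβ : α ≤ β) {g : ℝ → ℝ} (hg : MonotoneOn g (Icc α β)) :
    ∃ m ∈ Icc α β, (∀ x ∈ Ioc α β, x < m → g x ≤ 0) ∧ ∀ x ∈ Ioc α β, m < x → 0 ≤ g x := by
  by_cases hS : ∃ x ∈ Icc α β, g x ≤ 0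
  · have hne : {x | x ∈ Icc α β ∧ g x ≤ 0}.Nonempty := by
      obtain ⟨x, hx, hx'⟩ := hS
      exact ⟨x, hx, hx'⟩
    have hbd : BddAbove {x | x ∈ Icc α β ∧ g x ≤ 0} := ⟨β, fun x hx => hx.1.2⟩
    refine ⟨sSup {x | x ∈ Icc α β ∧ g x ≤ 0}, ⟨?_, ?_⟩, ?_, ?_⟩
    · obtain ⟨x, hx⟩ := hne
      exact hx.1.1.trans (le_csSup hbd hx)
    · exact csSup_le hne fun x hx => hx.1.2
    · intro x hx hlt
      obtain ⟨y, hy, hxy⟩ := exists_lt_of_lt_csSup hne hlt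
      exact (hg ⟨hx.1.le, hx.2⟩ hy.1 hxy.le).trans hy.2
    · intro x hx hlt
      by_contra hneg
      exact absurd (le_csSup hbd (⟨⟨hx.1.le, hx.2⟩, (not_le.mp hneg).le⟩ :
        x ∈ {x | x ∈ Icc α β ∧ g x ≤ 0})) (not_le.mpr hlt)
  · push Not at hS
    refine ⟨α, left_mem_Icc.mpr hαβ, fun x hx h => absurd h (not_lt.mpr hx.1.le), fun x hx _ => ?_⟩
    exact (hS x ⟨hx.1.le, hx.2⟩).le

end Pool.Agent.Lib.EPS
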