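import Pool.Agent.Lib.EPS.LocM
import Pool.Agent.Lib.EPS.LocO

/-!
# EPS.LocN: the integrals

`Pw w = 25 + 24 w - 48/25 w²`; `Pw 1 = 1177/25`. `JA` (true value .6770) and `JB` (9.3777) by explicit
antiderivatives (polynomials times `exp(-8/5 w j)`) and an enclosure of `exp(-4/5)`.
For `s ≥ 3/2` the function `W w = w^(s-1)/Pw w` is nondecreasing on `[1, 13/2]`
(`Pw - 2 w Pw' = (5 - 12/5 w)²`), `hA = (4/5 w exp(-8/5 w)) gA`, `gA_mono`,
`change_of_mono`, `one_change`; for `hB` the change of sign is at `w = 13/8`.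
-/

open MeasureTheory Set Matrix
open scoped Matrix.Norms.Elementwise

namespace Pool.Agent.Lib.EPS

open Pool.Agent.Lib.EpZ Pool.Agent.Lib.FCC

noncomputable def Pw (w : ℝ) : ℝ := 25 + 24 * w - 48 / 25 * w ^ 2

namespace LocNAux

/-- enclosure of `exp (-4/5)` -/
theorem exp_y : (4493289 / 10 ^ 7 : ℝ) ≤ Real.exp (-(4 / 5)) ∧
    Real.exp (-(4 / 5)) ≤ (4493290 / 10 ^ 7 : ℝ) := by
  have h := Real.exp_bound (x := -(4 / 5 : ℝ)) (by rw [abs_le]; constructor <;> norm_num) (n := 12) (by norm_num)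
  rw [abs_le] at h
  have h1 : |(-(4 / 5) : ℝ)| = 4 / 5 := by rw [abs_neg, abs_of_pos (by norm_num)]
  rw [h1] at h
  norm_num [Finset.sum_range_succ, Nat.factorial] at h
  constructor
  · linarith [h.1]
  · linarith [h.2]

/-- a polynomial of degree six -/
def pl (a0 a1 a2 a3 a4 a5 a6 w : ℝ) : ℝ :=
  a0 + a1 * w + a2 * w ^ 2 + a3 * w ^ 3 + a4 * w ^ 4 + a5 * w ^ 5 + a6 * w ^ 6

theorem pl_deriv (a0 a1 a2 a3 a4 a5 a6 w : ℝ) : HasDerivAt (pl a0 a1 a2 a3 a4 a5 a6)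
    (pl a1 (2 * a2) (3 * a3) (4 * a4) (5 * a5) (6 * a6) 0 w) w := by
  have h1 := (hasDerivAt_id w).const_mul a1
  have h2 := (hasDerivAt_pow 2 w).const_mul a2
  have h3 := (hasDerivAt_pow 3 w).const_mul a3
  have h4 := (hasDerivAt_pow 4 w).const_mul a4
  have h5 := (hasDerivAt_pow 5 w).const_mul a5
  have h6 := (hasDerivAt_pow 6 w).const_mul a6
  have h := ((((((hasDerivAt_const w a0).add h1).add h2).add h3).add h4).add h5).add h6
  refine (h.congr_deriv ?_)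
  unfold pl
  norm_num
  ring

theorem ex_deriv (c w : ℝ) : HasDerivAt (fun w : ℝ => Real.exp (-(c * w)))
    (-c * Real.exp (-(c * w))) w := by
  have h0 : HasDerivAt (fun w : ℝ => -(c * w)) (-(c * 1)) w :=
    ((hasDerivAt_id' w).const_mul c).neg
  refine h0.exp.congr_deriv ?_
  ring

theorem pe_deriv (a0 a1 a2 a3 a4 a5 a6 c w : ℝ) :
    HasDerivAt (fun w : ℝ => pl a0 a1 a2 a3 a4 a5 a6 w * Real.exp (-(c * w)))
      ((pl a1 (2 * a2) (3 * a3) (4 * a4) (5 * a5) (6 * a6) 0 w - c * pl a0 a1 a2 a3 a4 a5 a6 w) *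
        Real.exp (-(c * w))) w := by
  refine ((pl_deriv a0 a1 a2 a3 a4 a5 a6 w).mul (ex_deriv c w)).congr_deriv ?_
  ring

/-- powers of `exp (-(8/5 w))` -/
theorem ex2 (w : ℝ) : Real.exp (-(16 / 5 * w)) = Real.exp (-(8 / 5 * w)) ^ 2 := by
  rw [← Real.exp_nat_mul]; congr 1; push_cast; ring

theorem ex3 (w : ℝ) : Real.exp (-(24 / 5 * w)) = Real.exp (-(8 / 5 * w)) ^ 3 := by
  rw [← Real.exp_nat_mul]; congr 1; push_cast; ring

theorem ex4 (w : ℝ) : Real.exp (-(32 / 5 * w)) = Real.exp (-(8 / 5 * w)) ^ 4 := by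
  rw [← Real.exp_nat_mul]; congr 1; push_cast; ring

/-- the antiderivative for `JA` -/
noncomputable def FA (w : ℝ) : ℝ :=
  pl (28030247/960000) (28030247/600000) (-1093251/250000) (-2858817/156250) (724148/390625)
      (-339312/9765625) (1632/9765625) w * Real.exp (-(8 / 5 * w))
  + pl (-6494743/384000) (-6494743/120000) (-3208581/25000) (-3636922/46875) (301088/78125)
      (2785792/9765625) (-52224/9765625) w * Real.exp (-(16 / 5 * w))
  + pl (19377137/1440000) (19377137/300000) (-11932863/125000) (-9334463/78125) (3071172/390625)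
      (2399616/9765625) (-88128/9765625) w * Real.exp (-(24 / 5 * w))
  + pl (100069891/5898240) (100069891/921600) (7473697/96000) (-97061/15000) 0 0 0 w *
      Real.exp (-(32 / 5 * w))

theorem hA_eq (w : ℝ) : hA w = 4 / 5 * w * Real.exp (-(8 / 5 * w)) * gA (4 / 5 * w) := by
  unfold hA
  congr 3
  ring

theorem gA_eq (w : ℝ) : gA (4 / 5 * w) =
    2 * (4 / 5 * w) * ph 2 (4 / 5 * w)
      + 16 * (4 / 5 * w) * ph 4 (4 / 5 * w) * Real.exp (-(8 / 5 * w))
      + 36 * (4 / 5 * w) * ph 6 (4 / 5 * w) * Real.exp (-(8 / 5 * w)) ^ 2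
      - 101 / 100 * (4 + 4 * Real.exp (-(8 / 5 * w)) + 24 * Real.exp (-(8 / 5 * w)) ^ 2
        + 155 / 6 * Real.exp (-(8 / 5 * w)) ^ 3)
      - (101 / 100 * (8 + 8 * Real.exp (-(8 / 5 * w)) + 48 * Real.exp (-(8 / 5 * w)) ^ 2
          + 155 / 3 * Real.exp (-(8 / 5 * w)) ^ 3)
        + 2 * (4 / 5 * w) ^ 2 * ph 2 (4 / 5 * w)
        - 64 * (4 / 5 * w) ^ 2 * ph 4 (4 / 5 * w) * Real.exp (-(8 / 5 * w))
        - 108 * (4 / 5 * w) ^ 2 * ph 6 (4 / 5 * w) * Real.exp (-(8 / 5 * w)) ^ 2) / 60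
      - (4 / 5 * w) ^ 2 * (2 + 64 * Real.exp (-(8 / 5 * w)) + 108 * Real.exp (-(8 / 5 * w)) ^ 2)
        / 12000 := by
  unfold gA Pi'
  have e1 : Real.exp (-(2 * (4 / 5 * w))) = Real.exp (-(8 / 5 * w)) := by congr 1; ring
  have e2 : Real.exp (-(4 * (4 / 5 * w))) = Real.exp (-(8 / 5 * w)) ^ 2 := by
    rw [← ex2]; congr 1; ring
  have e3 : Real.exp (-(6 * (4 / 5 * w))) = Real.exp (-(8 / 5 * w)) ^ 3 := by
    rw [← ex3]; congr 1; ring
  rw [e1, e2, e3]

theorem FA_deriv (w : ℝ) : HasDerivAt FA (Pw w * hA w) w := by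
  have h1 := pe_deriv (28030247/960000) (28030247/600000) (-1093251/250000) (-2858817/156250)
    (724148/390625) (-339312/9765625) (1632/9765625) (8 / 5) w
  have h2 := pe_deriv (-6494743/384000) (-6494743/120000) (-3208581/25000) (-3636922/46875)
    (301088/78125) (2785792/9765625) (-52224/9765625) (16 / 5) w
  have h3 := pe_deriv (19377137/1440000) (19377137/300000) (-11932863/125000) (-9334463/78125)
    (3071172/390625) (2399616/9765625) (-88128/9765625) (24 / 5) w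
  have h4 := pe_deriv (100069891/5898240) (100069891/921600) (7473697/96000) (-97061/15000) 0 0 0
    (32 / 5) w
  have h := ((h1.add h2).add h3).add h4
  refine h.congr_deriv ?_
  rw [hA_eq, gA_eq, ex2, ex3, ex4]
  generalize Real.exp (-(8 / 5 * w)) = x
  unfold pl Pw ph
  ring

theorem contA : Continuous fun w => Pw w * hA w := by
  unfold Pw hA gA Pi' ph
  fun_prop

theorem JA_eq : ∫ w in Ioc (1 : ℝ) (13 / 2), Pw w * hA w = FA (13 / 2) - FA 1 := by
  rw [← intervalIntegral.integral_of_le (by norm_num)]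
  exact intervalIntegral.integral_eq_sub_of_hasDerivAt (fun w _ => FA_deriv w)
    (contA.intervalIntegrable _ _)

/-- the antiderivative for `JB` -/
noncomputable def FB' (w : ℝ) : ℝ :=
  pl (1953/320) (1953/200) (-11697/250) (-23436/625) (2016/625) 0 0 w * Real.exp (-(8 / 5 * w))

theorem FB_deriv (w : ℝ) : HasDerivAt FB'
    (Pw w * (4 / 5 * w * Real.exp (-(8 / 5 * w)) * (21 / 5 * (4 / 5 * w - 13 / 10)))) w := by
  have h := pe_deriv (1953/320) (1953/200) (-11697/250) (-23436/625) (2016/625) 0 0 (8 / 5) w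
  refine h.congr_deriv ?_
  generalize Real.exp (-(8 / 5 * w)) = x
  unfold pl Pw
  ring

theorem contB : Continuous fun w => Pw w *
    (4 / 5 * w * Real.exp (-(8 / 5 * w)) * (21 / 5 * (4 / 5 * w - 13 / 10))) := by
  unfold Pw
  fun_prop

theorem hB_of_le {w : ℝ} (h : w ≤ 4) :
    hB w = 4 / 5 * w * Real.exp (-(8 / 5 * w)) * (21 / 5 * (4 / 5 * w - 13 / 10)) := by
  unfold hB gB
  rw [if_pos (by linarith)]
  congr 3
  ring

theorem hB_of_gt {w : ℝ} (h : 4 < w) : hB w = 0 := by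
  unfold hB gB
  rw [if_neg (by linarith), mul_zero]

/-- the exponentials in terms of `exp (-4/5)` -/
theorem ey (n : ℕ) {z : ℝ} (hz : z = 4 / 5 * n) : Real.exp (-z) = Real.exp (-(4 / 5)) ^ n := by
  rw [← Real.exp_nat_mul, hz]
  congr 1
  ring

theorem Pw_pos {w : ℝ} (h1 : 1 ≤ w) (h2 : w ≤ 13 / 2) : 0 < Pw w := by
  unfold Pw
  nlinarith

theorem ICC : Ioc (1 : ℝ) (13 / 2) = Ioc 1 4 ∪ Ioc 4 (13 / 2) :=
  (Ioc_union_Ioc_eq_Ioc (by norm_num) (by norm_num)).symm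

end LocNAux

open LocNAux

theorem JA : 16 / 25 ≤ ∫ w in Ioc (1 : ℝ) (13 / 2), Pw w * hA w := by
  rw [JA_eq]
  obtain ⟨h1, h2⟩ := exp_y
  unfold FA pl
  rw [ey 13 (z := 8 / 5 * (13 / 2)) (by norm_num), ey 26 (z := 16 / 5 * (13 / 2)) (by norm_num),
    ey 39 (z := 24 / 5 * (13 / 2)) (by norm_num), ey 52 (z := 32 / 5 * (13 / 2)) (by norm_num),
    ey 2 (z := 8 / 5 * 1) (by norm_num), ey 4 (z := 16 / 5 * 1) (by norm_num),
    ey 6 (z := 24 / 5 * 1) (by norm_num), ey 8 (z := 32 / 5 * 1) (by norm_num)]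
  have h0 : (0 : ℝ) ≤ Real.exp (-(4 / 5)) := (Real.exp_pos _).le
  generalize Real.exp (-(4 / 5)) = y at h1 h2 h0
  have l2 := pow_le_pow_left₀ (by norm_num) h1 2
  have l4 := pow_le_pow_left₀ (by norm_num) h1 4
  have l6 := pow_le_pow_left₀ (by norm_num) h1 6
  have u2 := pow_le_pow_left₀ h0 h2 2
  have u4 := pow_le_pow_left₀ h0 h2 4
  have u8 := pow_le_pow_left₀ h0 h2 8
  have u13 := pow_le_pow_left₀ h0 h2 13
  have u26 := pow_le_pow_left₀ h0 h2 26
  have u39 := pow_le_pow_left₀ h0 h2 39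
  have p52 := pow_nonneg h0 52
  norm_num at l2 l4 l6 u2 u4 u8 u13 u26 u39 ⊢
  linarith

theorem JB : 9 ≤ ∫ w in Ioc (1 : ℝ) (13 / 2), Pw w * hB w := by
  have e1 : ∫ w in Ioc (1 : ℝ) 4, Pw w * hB w = FB' 4 - FB' 1 := by
    have h : ∫ w in Ioc (1 : ℝ) 4, Pw w * hB w = ∫ w in Ioc (1 : ℝ) 4, Pw w *
        (4 / 5 * w * Real.exp (-(8 / 5 * w)) * (21 / 5 * (4 / 5 * w - 13 / 10))) :=
      setIntegral_congr_fun measurableSet_Ioc fun w hw => by
        show Pw w * hB w = _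
        rw [hB_of_le hw.2]
    rw [h, ← intervalIntegral.integral_of_le (by norm_num)]
    exact intervalIntegral.integral_eq_sub_of_hasDerivAt (fun w _ => FB_deriv w)
      (contB.intervalIntegrable _ _)
  have e2 : ∫ w in Ioc (4 : ℝ) (13 / 2), Pw w * hB w = 0 := by
    have h : ∫ w in Ioc (4 : ℝ) (13 / 2), Pw w * hB w = ∫ w in Ioc (4 : ℝ) (13 / 2), (0 : ℝ) :=
      setIntegral_congr_fun measurableSet_Ioc fun w hw => by
        show Pw w * hB w = _
        rw [hB_of_gt hw.1, mul_zero]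
    rw [h]
    simp
  have i1 : IntegrableOn (fun w => Pw w * hB w) (Ioc 1 4) :=
    (contB.integrableOn_Ioc).congr_fun (fun w hw => by
      show _ = Pw w * hB w
      rw [hB_of_le hw.2]) measurableSet_Ioc
  have i2 : IntegrableOn (fun w => Pw w * hB w) (Ioc 4 (13 / 2)) :=
    (integrableOn_zero).congr_fun (fun w hw => by
      show _ = Pw w * hB w
      rw [hB_of_gt hw.1, mul_zero]) measurableSet_Ioc
  rw [ICC, setIntegral_union (Ioc_disjoint_Ioc_of_le le_rfl) measurableSet_Ioc i1 i2, e1, e2]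
  obtain ⟨h1, h2⟩ := exp_y
  unfold FB' pl
  rw [ey 8 (z := 8 / 5 * 4) (by norm_num), ey 2 (z := 8 / 5 * 1) (by norm_num)]
  have h0 : (0 : ℝ) ≤ Real.exp (-(4 / 5)) := (Real.exp_pos _).le
  generalize Real.exp (-(4 / 5)) = y at h1 h2 h0
  have l2 := pow_le_pow_left₀ (by norm_num) h1 2
  have u8 := pow_le_pow_left₀ h0 h2 8
  norm_num at l2 u8 ⊢
  linarith

namespace LocNAux

/-- the weight -/
noncomputable def Wt (s w : ℝ) : ℝ := w ^ (s - 1) / Pw w

theorem sqrt_Pw {w w' : ℝ} (h1 : 1 ≤ w) (h : w ≤ w') : √w * Pw w' ≤ √w' * Pw w := by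
  have e1 : √w ^ 2 = w := Real.sq_sqrt (by linarith)
  have e2 : √w' ^ 2 = w' := Real.sq_sqrt (by linarith)
  have h3 : √w ≤ √w' := Real.sqrt_le_sqrt h
  have h4 : 0 ≤ √w := Real.sqrt_nonneg _
  have e3 : Pw w = 25 + 24 * √w ^ 2 - 48 / 25 * √w ^ 4 := by
    unfold Pw
    rw [show √w ^ 4 = (√w ^ 2) ^ 2 by ring, e1]
  have e4 : Pw w' = 25 + 24 * √w' ^ 2 - 48 / 25 * √w' ^ 4 := by
    unfold Pw
    rw [show √w' ^ 4 = (√w' ^ 2) ^ 2 by ring, e2]
  rw [e3, e4]
  generalize √w = u at h3 h4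
  generalize √w' = v at h3
  have h5 : 0 ≤ (v - u) * ((5 - 12 / 5 * (u * v)) ^ 2 + 48 / 25 * (u * v) * (v - u) ^ 2) :=
    mul_nonneg (by linarith) (add_nonneg (sq_nonneg _)
      (mul_nonneg (mul_nonneg (by norm_num) (mul_nonneg h4 (h4.trans h3))) (sq_nonneg _)))
  linarith [h5, show (v - u) * ((5 - 12 / 5 * (u * v)) ^ 2 + 48 / 25 * (u * v) * (v - u) ^ 2) =
    v * (25 + 24 * u ^ 2 - 48 / 25 * u ^ 4) - u * (25 + 24 * v ^ 2 - 48 / 25 * v ^ 4) by ring]

theorem Wt_mono {s : ℝ} (hs : 3 / 2 ≤ s) : MonotoneOn (Wt s) (Icc 1 (13 / 2)) := by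
  intro w hw w' hw' h
  have p1 := Pw_pos hw.1 hw.2
  have p2 := Pw_pos hw'.1 hw'.2
  have q1 : (0 : ℝ) < w := by linarith [hw.1]
  have q2 : (0 : ℝ) < w' := by linarith [hw'.1]
  have e : ∀ x : ℝ, 0 < x → x ^ (s - 1) = x ^ (s - 3 / 2) * √x := by
    intro x hx
    rw [Real.sqrt_eq_rpow, ← Real.rpow_add hx]
    congr 1
    ring
  show w ^ (s - 1) / Pw w ≤ w' ^ (s - 1) / Pw w'
  rw [div_le_div_iff₀ p1 p2, e w q1, e w' q2, mul_assoc, mul_assoc]
  have h1 : w ^ (s - 3 / 2) ≤ w' ^ (s - 3 / 2) := Real.rpow_le_rpow q1.le h (by linarith)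
  exact mul_le_mul h1 (sqrt_Pw hw.1 h) (mul_nonneg (Real.sqrt_nonneg _) p2.le)
    (Real.rpow_nonneg q2.le _)

theorem Wt_one (s : ℝ) : Wt s 1 = 25 / 1177 := by
  unfold Wt Pw
  rw [Real.one_rpow]
  norm_num

theorem cont_hA : Continuous hA := by
  unfold hA gA Pi' ph
  fun_prop

theorem cont_pow (s : ℝ) : ContinuousOn (fun w : ℝ => w ^ (s - 1)) (Icc 1 (13 / 2)) :=
  fun w hw => (Real.continuousAt_rpow_const w (s - 1)
    (Or.inl (by linarith [hw.1]))).continuousWithinAt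

theorem int_of_cont {f : ℝ → ℝ} (hf : Continuous f) (s : ℝ) :
    IntegrableOn (fun w => f w * w ^ (s - 1)) (Ioc 1 (13 / 2)) :=
  ((hf.continuousOn.mul (cont_pow s)).integrableOn_Icc).mono_set Ioc_subset_Icc_self

end LocNAux

theorem hA_int (s : ℝ) : IntegrableOn (fun w => hA w * w ^ (s - 1)) (Ioc 1 (13 / 2)) :=
  int_of_cont cont_hA s

theorem hB_int (s : ℝ) : IntegrableOn (fun w => hB w * w ^ (s - 1)) (Ioc 1 (13 / 2)) := by
  have hc : Continuous fun w : ℝ =>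
      4 / 5 * w * Real.exp (-(8 / 5 * w)) * (21 / 5 * (4 / 5 * w - 13 / 10)) := by fun_prop
  have i1 : IntegrableOn (fun w => hB w * w ^ (s - 1)) (Ioc 1 4) :=
    ((int_of_cont hc s).mono_set (Ioc_subset_Ioc_right (by norm_num))).congr_fun (fun w hw => by
      show _ = hB w * w ^ (s - 1)
      rw [hB_of_le hw.2]) measurableSet_Ioc
  have i2 : IntegrableOn (fun w => hB w * w ^ (s - 1)) (Ioc 4 (13 / 2)) :=
    (integrableOn_zero).congr_fun (fun w hw => by
      show _ = hB w * w ^ (s - 1)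
      rw [hB_of_gt hw.1, zero_mul]) measurableSet_Ioc
  rw [ICC]
  exact i1.union i2

theorem IA {s : ℝ} (hs : 3 / 2 ≤ s) :
    13 / 1000 ≤ ∫ w in Ioc (1 : ℝ) (13 / 2), hA w * w ^ (s - 1) := by
  have hg : MonotoneOn (fun w => gA (4 / 5 * w)) (Icc 1 (13 / 2)) := by
    intro w hw w' hw' h
    exact gA_mono ⟨by linarith [hw.1], by linarith [hw.2]⟩ ⟨by linarith [hw'.1], by linarith [hw'.2]⟩
      (by linarith)
  obtain ⟨m, hm, h1, h2⟩ := change_of_mono (by norm_num) hg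
  have e : ∀ w ∈ Ioc (1 : ℝ) (13 / 2), Wt s w *
      (Pw w * (4 / 5 * w * Real.exp (-(2 * (4 / 5 * w)))) * gA (4 / 5 * w)) =
      hA w * w ^ (s - 1) := by
    intro w hw
    have p := Pw_pos hw.1.le hw.2
    unfold Wt hA
    field_simp
  have e' : ∀ w : ℝ, Pw w * (4 / 5 * w * Real.exp (-(2 * (4 / 5 * w)))) * gA (4 / 5 * w) =
      Pw w * hA w := by
    intro w
    unfold hA
    ring
  have J0 := JA
  have h := one_change (W := Wt s) (ψ := fun w => Pw w * (4 / 5 * w * Real.exp (-(2 * (4 / 5 * w)))))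
    (g := fun w => gA (4 / 5 * w)) hm
    (fun w hw => mul_nonneg (Pw_pos hw.1.le hw.2).le
      (mul_nonneg (by linarith [hw.1]) (Real.exp_pos _).le)) (Wt_mono hs)
    (by rw [Wt_one]; norm_num) h1 h2
    (by
      simp only [e']
      exact contA.integrableOn_Ioc)
    ((hA_int s).congr_fun (fun w hw => (e w hw).symm) measurableSet_Ioc)
    (by
      simp only [e']
      linarith)
  rw [Wt_one, setIntegral_congr_fun measurableSet_Ioc e] at h
  simp only [e'] at h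
  linarith

theorem IB {s : ℝ} (hs : 3 / 2 ≤ s) :
    1 / 10 ≤ ∫ w in Ioc (1 : ℝ) (13 / 2), hB w * w ^ (s - 1) := by
  have e : ∀ w ∈ Ioc (1 : ℝ) (13 / 2), Wt s w *
      (Pw w * (4 / 5 * w * Real.exp (-(2 * (4 / 5 * w)))) * gB (4 / 5 * w)) =
      hB w * w ^ (s - 1) := by
    intro w hw
    have p := Pw_pos hw.1.le hw.2
    unfold Wt hB
    field_simp
  have e' : ∀ w : ℝ, Pw w * (4 / 5 * w * Real.exp (-(2 * (4 / 5 * w)))) * gB (4 / 5 * w) =
      Pw w * hB w := by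
    intro w
    unfold hB
    ring
  have J0 := JB
  have hi : IntegrableOn (fun w => Pw w * hB w) (Ioc 1 (13 / 2)) := by
    by_contra hn
    have : ∫ w in Ioc (1 : ℝ) (13 / 2), Pw w * hB w = 0 := integral_undef hn
    linarith
  have h := one_change (m := 13 / 8) (W := Wt s)
    (ψ := fun w => Pw w * (4 / 5 * w * Real.exp (-(2 * (4 / 5 * w)))))
    (g := fun w => gB (4 / 5 * w)) ⟨by norm_num, by norm_num⟩
    (fun w hw => mul_nonneg (Pw_pos hw.1.le hw.2).le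
      (mul_nonneg (by linarith [hw.1]) (Real.exp_pos _).le)) (Wt_mono hs)
    (by rw [Wt_one]; norm_num)
    (fun w hw hlt => by
      show gB (4 / 5 * w) ≤ 0
      unfold gB
      rw [if_pos (by linarith)]
      linarith)
    (fun w hw hlt => by
      show 0 ≤ gB (4 / 5 * w)
      unfold gB
      split_ifs
      · linarith
      · exact le_rfl)
    (by
      simp only [e']
      exact hi)
    ((hB_int s).congr_fun (fun w hw => (e w hw).symm) measurableSet_Ioc)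
    (by
      simp only [e']
      linarith)
  rw [Wt_one, setIntegral_congr_fun measurableSet_Ioc e] at h
  simp only [e'] at h
  linarith

end Pool.Agent.Lib.EPS
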