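import Pool.Agent.Lib.EPS.LocA
import Pool.Agent.Lib.EPS.LocD
import Pool.Agent.Lib.EPS.LocE
import Pool.Agent.Lib.EPS.LocF
import Pool.Agent.Lib.EPS.LocH
import Pool.Agent.Lib.EPS.LocN

/-!
# EPS.Loc: the local inequality near the fcc form, for all `s ≥ 3/2`

In the normalized coordinates the difference of the direct sums is at least
`13/1000 a + 1/10 b` (`part1`, `part2`, `Hf_lower`, `IA`, `IB`), the difference of the dual sums is at
least `-(T² - 1)/1000` (`dua_lower`) and `T² - 1 ≤ 7/20 a + 77/100 b` (`bd`).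
-/

open MeasureTheory Set Matrix
open scoped Matrix.Norms.Elementwise

namespace Pool.Agent.Lib.EPS

open Pool.Agent.Lib.EpZ Pool.Agent.Lib.FCC

namespace LocAux

theorem c0_nonneg : 0 ≤ c0 := by
  unfold c0
  positivity

theorem c0_le : c0 ≤ 4 := by
  unfold c0
  have h1 : (5 * Real.pi / 4) ^ (3 / 2 : ℝ) ≤ 8 := by
    have h2 : 5 * Real.pi / 4 ≤ 4 := by linarith [Real.pi_lt_d2]
    have h3 : (5 * Real.pi / 4) ^ (3 / 2 : ℝ) ≤ (4 : ℝ) ^ (3 / 2 : ℝ) :=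
      Real.rpow_le_rpow (by positivity) h2 (by norm_num)
    have h4 : (4 : ℝ) ^ (3 / 2 : ℝ) = 8 := by
      rw [show (4 : ℝ) = 2 ^ (2 : ℝ) by norm_num, ← Real.rpow_mul (by norm_num)]
      norm_num
    linarith
  linarith

theorem cont_Hf (c : LC) : Continuous (Hf c) := by
  unfold Hf
  fun_prop

theorem T_sq {c : LC} {l : Fin 6 → ℝ} (h : c.Of l) : 0 ≤ c.T ^ 2 - 1 ∧
    c.T ^ 2 - 1 ≤ 7 / 20 * c.a + 77 / 100 * c.b := by
  obtain ⟨h0, h1, h2, h3, h4, h5, h6, h7⟩ := bd h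
  have hP := abs_le.mp h3
  have hF := abs_le.mp h4
  have hR := abs_le.mp h5
  have e : c.T ^ 2 - 1 = (c.T - 1) * (c.T + 1) := by ring
  have hu : c.T - 1 ≤ 101 / 300 * (31 / 60 * c.a + 17 / 15 * c.b) := by linarith [hP.1, hF.1, hR.2]
  rw [e]
  constructor
  · exact mul_nonneg h0 (by linarith)
  · have h8 : (c.T - 1) * (c.T + 1) ≤ 101 / 300 * (31 / 60 * c.a + 17 / 15 * c.b) * (401 / 200) :=
      mul_le_mul hu (by linarith) (by linarith) (by positivity)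
    linarith

theorem dir_lower {c : LC} {l : Fin 6 → ℝ} (h : c.Of l) {s : ℝ} (hs : 3 / 2 ≤ s) :
    Dir s G0 + 13 / 1000 * c.a + 1 / 10 * c.b ≤ Dir s (formOf l) := by
  obtain ⟨-, -, -, -, -, -, ha, hb⟩ := bd h
  have h1 := part1 h s
  have h2 := part2 h s
  have h3 : ∫ w in Ioc (1 : ℝ) (13 / 2), (c.a * (hA w * w ^ (s - 1)) + c.b * (hB w * w ^ (s - 1))) ≤
      ∫ w in Ioc (1 : ℝ) (13 / 2), Hf c w * w ^ (s - 1) := by
    refine setIntegral_mono_on (((hA_int s).const_mul _).add ((hB_int s).const_mul _))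
      (LocNAux.int_of_cont (cont_Hf c) s) measurableSet_Ioc fun w hw => ?_
    have h4 := Hf_lower h hw.1.le hw.2
    have h5 : 0 ≤ w ^ (s - 1) := Real.rpow_nonneg (by linarith [hw.1]) _
    have h6 := mul_le_mul_of_nonneg_right h4 h5
    linarith
  rw [integral_add ((hA_int s).const_mul _) ((hB_int s).const_mul _), integral_const_mul,
    integral_const_mul] at h3
  have h4 := mul_le_mul_of_nonneg_left (IA hs) ha
  have h5 := mul_le_mul_of_nonneg_left (IB hs) hb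
  rw [dir_split h.pd, dir_split G0_pd]
  linarith

end LocAux

open LocAux

theorem loc_all {l : Fin 6 → ℝ} (hl : ∀ i, 0 ≤ l i) (hd : dt l = 4)
    (h : ∀ x : Fin 7, x ≠ 4 → 95 * S1 4 l ≤ 600 * nm l x ∧ 600 * nm l x ≤ 105 * S1 4 l) {s : ℝ}
    (hs : 3 / 2 ≤ s) :
    Dir s G0 + c0 * Dua s G0 ≤ Dir s (formOf l) + c0 * Dua s (formOf l) ∧
      (Dir s (formOf l) + c0 * Dua s (formOf l) = Dir s G0 + c0 * Dua s G0 → formOf l = G0) := by
  obtain ⟨c, hc⟩ := coords hl hd h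
  obtain ⟨-, -, -, -, -, -, ha, hb⟩ := bd hc
  have h1 := dir_lower hc hs
  have h2 := mul_le_mul_of_nonneg_left (dua_lower hc hd hs) c0_nonneg
  obtain ⟨h3, h4⟩ := T_sq hc
  have h5 : c0 * ((c.T ^ 2 - 1) / 1000) ≤ 4 * ((c.T ^ 2 - 1) / 1000) :=
    mul_le_mul_of_nonneg_right c0_le (by linarith)
  have h6 : Dir s G0 + c0 * Dua s G0 + 1 / 100 * c.a + 9 / 100 * c.b ≤
      Dir s (formOf l) + c0 * Dua s (formOf l) := by linarith
  refine ⟨by linarith, fun he => eq_G0_of hc ?_ ?_⟩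
  · exact le_antisymm (by linarith) ha
  · exact le_antisymm (by linarith) hb

theorem loc_ineq {l : Fin 6 → ℝ} (hl : ∀ i, 0 ≤ l i) (hd : dt l = 4)
    (h : ∀ x : Fin 7, x ≠ 4 → 95 * S1 4 l ≤ 600 * nm l x ∧ 600 * nm l x ≤ 105 * S1 4 l) {s : ℝ}
    (hs : 3 / 2 ≤ s) (_hs6 : s ≤ 6) :
    Dir s G0 + c0 * Dua s G0 ≤ Dir s (formOf l) + c0 * Dua s (formOf l) ∧
      (Dir s (formOf l) + c0 * Dua s (formOf l) = Dir s G0 + c0 * Dua s G0 → formOf l = G0) :=
  loc_all hl hd h hs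

end Pool.Agent.Lib.EPS
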