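import Pool.Agent.Lib.EPS.LocDefs
import Pool.Agent.Lib.FCC.Tot

/-!
# EPS.LocA: the coordinates of a form in the zone

As in FCC/LocS (proved there): with `n_x = nm l x`, `T = S1 4 l / 12 > 0`,
`p2 = 2 - (n0+n1)/(2T)`, `f2 = (n0-n1)/(4T)`, `p1 = 2 - (n2+n3)/(2T)`, `f1 = (n3-n2)/(4T)`,
`p0 = 2 - (n5+n6)/(2T)`, `f0 = (n5-n6)/(4T)`. `tr` as `∑ n_x = 12 T`; `dt l = 4 T³ D`
(`field_simp; ring`); `val`: use `RestJAux.qr_formOf`, `RestJAux.qr_G0` and
`T p_k`, `T f_k` as linear functions of `l`: e.g. `n0 = l0+l2+l4 = T (2 - p2 + 2 f2)`.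
The zone gives `19/10 T ≤ n_x ≤ 21/10 T`, i.e. `|-p_k/2 ± f_k| ≤ 1/20`. `pd`: `formOf_pd` (FCC).
-/

open MeasureTheory Set Matrix
open scoped Matrix.Norms.Elementwise

namespace Pool.Agent.Lib.EPS

open Pool.Agent.Lib.EpZ Pool.Agent.Lib.FCC

namespace LocAAux

lemma S1_eq (m : Fin 6 → ℝ) : S1 4 m = nm m 0 + nm m 1 + nm m 2 + nm m 3 + nm m 5 + nm m 6 := by
  simp [S1, Fin.sum_univ_seven]
  try ring

lemma dt_poly (l : Fin 6 → ℝ) :
    dt l = 4 * ((S1 4 l / 4 - (nm l 5 + nm l 6) / 2) * (S1 4 l / 4 - (nm l 2 + nm l 3) / 2)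
      * (S1 4 l / 4 - (nm l 0 + nm l 1) / 2)
      + 2 * ((nm l 5 - nm l 6) / 4) * ((nm l 3 - nm l 2) / 4) * ((nm l 0 - nm l 1) / 4)
      - (S1 4 l / 4 - (nm l 5 + nm l 6) / 2) * ((nm l 5 - nm l 6) / 4) ^ 2
      - (S1 4 l / 4 - (nm l 2 + nm l 3) / 2) * ((nm l 3 - nm l 2) / 4) ^ 2
      - (S1 4 l / 4 - (nm l 0 + nm l 1) / 2) * ((nm l 0 - nm l 1) / 4) ^ 2) := by
  rw [S1_eq]
  simp only [nm, dt]
  ring

lemma abs_two {x f : ℝ} (h1 : -(1 / 20) ≤ -x / 2 + f) (h2 : -x / 2 + f ≤ 1 / 20)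
    (h3 : -(1 / 20) ≤ -x / 2 - f) (h4 : -x / 2 - f ≤ 1 / 20) : |x| / 2 + |f| ≤ 1 / 20 := by
  rcases abs_cases x with hx | hx <;> rcases abs_cases f with hf | hf <;> rw [hx.1, hf.1] <;>
    linarith

lemma S1_pos {l : Fin 6 → ℝ} (hl : ∀ i, 0 ≤ l i) (hd : dt l = 4) : 0 < S1 4 l := by
  have h0 := hl 0; have h1 := hl 1; have h2 := hl 2; have h3 := hl 3; have h4 := hl 4
  have h5 := hl 5
  have hs0 : 0 ≤ S1 4 l := by
    rw [S1_eq]
    simp only [nm]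
    linarith
  rcases hs0.lt_or_eq with h | h
  · exact h
  · exfalso
    rw [S1_eq] at h
    simp only [nm] at h
    have e0 : l 0 = 0 := by linarith
    have e1 : l 1 = 0 := by linarith
    have e2 : l 2 = 0 := by linarith
    have e3 : l 3 = 0 := by linarith
    have e4 : l 4 = 0 := by linarith
    have e5 : l 5 = 0 := by linarith
    rw [dt, e0, e1, e2, e3, e4, e5] at hd
    norm_num at hd

/-- the coordinates -/
noncomputable def cc (l : Fin 6 → ℝ) : LC where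
  p0 := (S1 4 l / 4 - (nm l 5 + nm l 6) / 2) / (S1 4 l / 12) - 1
  p1 := (S1 4 l / 4 - (nm l 2 + nm l 3) / 2) / (S1 4 l / 12) - 1
  p2 := (S1 4 l / 4 - (nm l 0 + nm l 1) / 2) / (S1 4 l / 12) - 1
  f0 := (nm l 5 - nm l 6) / 4 / (S1 4 l / 12)
  f1 := (nm l 3 - nm l 2) / 4 / (S1 4 l / 12)
  f2 := (nm l 0 - nm l 1) / 4 / (S1 4 l / 12)
  T := S1 4 l / 12

end LocAAux

open LocAAux in
theorem coords {l : Fin 6 → ℝ} (hl : ∀ i, 0 ≤ l i) (hd : dt l = 4)
    (h : ∀ x : Fin 7, x ≠ 4 → 95 * S1 4 l ≤ 600 * nm l x ∧ 600 * nm l x ≤ 105 * S1 4 l) :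
    ∃ c : LC, c.Of l := by
  have hs := S1_pos hl hd
  have hT : 0 < S1 4 l / 12 := by positivity
  have hT0 : S1 4 l / 12 ≠ 0 := hT.ne'
  have h0 := h 0 (by decide); have h1 := h 1 (by decide); have h2 := h 2 (by decide)
  have h3 := h 3 (by decide); have h5 := h 5 (by decide); have h6 := h 6 (by decide)
  have tp0 : S1 4 l / 12 * (cc l).p0 = 2 * (S1 4 l / 12) - (nm l 5 + nm l 6) / 2 := by
    simp only [cc]; field_simp; ring
  have tp1 : S1 4 l / 12 * (cc l).p1 = 2 * (S1 4 l / 12) - (nm l 2 + nm l 3) / 2 := by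
    simp only [cc]; field_simp; ring
  have tp2 : S1 4 l / 12 * (cc l).p2 = 2 * (S1 4 l / 12) - (nm l 0 + nm l 1) / 2 := by
    simp only [cc]; field_simp; ring
  have tf0 : S1 4 l / 12 * (cc l).f0 = (nm l 5 - nm l 6) / 4 := by
    simp only [cc]; field_simp
  have tf1 : S1 4 l / 12 * (cc l).f1 = (nm l 3 - nm l 2) / 4 := by
    simp only [cc]; field_simp
  have tf2 : S1 4 l / 12 * (cc l).f2 = (nm l 0 - nm l 1) / 4 := by
    simp only [cc]; field_simp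
  have hcT : (cc l).T = S1 4 l / 12 := rfl
  have hdt := dt_poly l
  have hS := S1_eq l
  rw [hd] at hdt
  refine ⟨cc l, ⟨formOf_pd hl (by rw [hd]; norm_num), hT, rfl, ?_, ?_, ?_, ?_, ?_, ?_⟩⟩
  · have : S1 4 l / 12 * ((cc l).p0 + (cc l).p1 + (cc l).p2) = 0 := by
      rw [mul_add, mul_add, tp0, tp1, tp2]
      linarith
    rcases mul_eq_zero.1 this with h' | h'
    · exact absurd h' hT0
    · exact h'
  · refine abs_two ?_ ?_ ?_ ?_
    · refine le_of_mul_le_mul_left ?_ hT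
      have e : S1 4 l / 12 * (-(cc l).p0 / 2 + (cc l).f0)
          = -(S1 4 l / 12 * (cc l).p0) / 2 + S1 4 l / 12 * (cc l).f0 := by ring
      rw [e, tp0, tf0]; linarith
    · refine le_of_mul_le_mul_left ?_ hT
      have e : S1 4 l / 12 * (-(cc l).p0 / 2 + (cc l).f0)
          = -(S1 4 l / 12 * (cc l).p0) / 2 + S1 4 l / 12 * (cc l).f0 := by ring
      rw [e, tp0, tf0]; linarith
    · refine le_of_mul_le_mul_left ?_ hT
      have e : S1 4 l / 12 * (-(cc l).p0 / 2 - (cc l).f0)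
          = -(S1 4 l / 12 * (cc l).p0) / 2 - S1 4 l / 12 * (cc l).f0 := by ring
      rw [e, tp0, tf0]; linarith
    · refine le_of_mul_le_mul_left ?_ hT
      have e : S1 4 l / 12 * (-(cc l).p0 / 2 - (cc l).f0)
          = -(S1 4 l / 12 * (cc l).p0) / 2 - S1 4 l / 12 * (cc l).f0 := by ring
      rw [e, tp0, tf0]; linarith
  · refine abs_two ?_ ?_ ?_ ?_
    · refine le_of_mul_le_mul_left ?_ hT
      have e : S1 4 l / 12 * (-(cc l).p1 / 2 + (cc l).f1)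
          = -(S1 4 l / 12 * (cc l).p1) / 2 + S1 4 l / 12 * (cc l).f1 := by ring
      rw [e, tp1, tf1]; linarith
    · refine le_of_mul_le_mul_left ?_ hT
      have e : S1 4 l / 12 * (-(cc l).p1 / 2 + (cc l).f1)
          = -(S1 4 l / 12 * (cc l).p1) / 2 + S1 4 l / 12 * (cc l).f1 := by ring
      rw [e, tp1, tf1]; linarith
    · refine le_of_mul_le_mul_left ?_ hT
      have e : S1 4 l / 12 * (-(cc l).p1 / 2 - (cc l).f1)
          = -(S1 4 l / 12 * (cc l).p1) / 2 - S1 4 l / 12 * (cc l).f1 := by ring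
      rw [e, tp1, tf1]; linarith
    · refine le_of_mul_le_mul_left ?_ hT
      have e : S1 4 l / 12 * (-(cc l).p1 / 2 - (cc l).f1)
          = -(S1 4 l / 12 * (cc l).p1) / 2 - S1 4 l / 12 * (cc l).f1 := by ring
      rw [e, tp1, tf1]; linarith
  · refine abs_two ?_ ?_ ?_ ?_
    · refine le_of_mul_le_mul_left ?_ hT
      have e : S1 4 l / 12 * (-(cc l).p2 / 2 + (cc l).f2)
          = -(S1 4 l / 12 * (cc l).p2) / 2 + S1 4 l / 12 * (cc l).f2 := by ring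
      rw [e, tp2, tf2]; linarith
    · refine le_of_mul_le_mul_left ?_ hT
      have e : S1 4 l / 12 * (-(cc l).p2 / 2 + (cc l).f2)
          = -(S1 4 l / 12 * (cc l).p2) / 2 + S1 4 l / 12 * (cc l).f2 := by ring
      rw [e, tp2, tf2]; linarith
    · refine le_of_mul_le_mul_left ?_ hT
      have e : S1 4 l / 12 * (-(cc l).p2 / 2 - (cc l).f2)
          = -(S1 4 l / 12 * (cc l).p2) / 2 - S1 4 l / 12 * (cc l).f2 := by ring
      rw [e, tp2, tf2]; linarith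
    · refine le_of_mul_le_mul_left ?_ hT
      have e : S1 4 l / 12 * (-(cc l).p2 / 2 - (cc l).f2)
          = -(S1 4 l / 12 * (cc l).p2) / 2 - S1 4 l / 12 * (cc l).f2 := by ring
      rw [e, tp2, tf2]; linarith
  · rw [hcT]
    have q0 : S1 4 l / 12 * (1 + (cc l).p0) = S1 4 l / 4 - (nm l 5 + nm l 6) / 2 := by
      rw [mul_add, tp0]; ring
    have q1 : S1 4 l / 12 * (1 + (cc l).p1) = S1 4 l / 4 - (nm l 2 + nm l 3) / 2 := by
      rw [mul_add, tp1]; ring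
    have q2 : S1 4 l / 12 * (1 + (cc l).p2) = S1 4 l / 4 - (nm l 0 + nm l 1) / 2 := by
      rw [mul_add, tp2]; ring
    have e : (S1 4 l / 12) ^ 3 * (cc l).D
        = (S1 4 l / 12 * (1 + (cc l).p0)) * (S1 4 l / 12 * (1 + (cc l).p1))
            * (S1 4 l / 12 * (1 + (cc l).p2))
          + 2 * (S1 4 l / 12 * (cc l).f0) * (S1 4 l / 12 * (cc l).f1) * (S1 4 l / 12 * (cc l).f2)
          - (S1 4 l / 12 * (1 + (cc l).p0)) * (S1 4 l / 12 * (cc l).f0) ^ 2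
          - (S1 4 l / 12 * (1 + (cc l).p1)) * (S1 4 l / 12 * (cc l).f1) ^ 2
          - (S1 4 l / 12 * (1 + (cc l).p2)) * (S1 4 l / 12 * (cc l).f2) ^ 2 := by
      unfold LC.D
      ring
    rw [e, q0, q1, q2, tf0, tf1, tf2]
    linarith
  · intro v
    rw [hcT]
    have e : S1 4 l / 12 * (qr G0 v + (cc l).y (v 0 + v 1 - v 2) (v 0 - v 1) (v 2))
        = S1 4 l / 12 * qr G0 v + (S1 4 l / 12 * (cc l).p0) * (v 0 + v 1 - v 2) ^ 2
          + (S1 4 l / 12 * (cc l).p1) * (v 0 - v 1) ^ 2 + (S1 4 l / 12 * (cc l).p2) * (v 2) ^ 2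
          + 2 * ((S1 4 l / 12 * (cc l).f0) * (v 0 - v 1) * v 2
            + (S1 4 l / 12 * (cc l).f1) * (v 0 + v 1 - v 2) * v 2
            + (S1 4 l / 12 * (cc l).f2) * (v 0 + v 1 - v 2) * (v 0 - v 1)) := by
      unfold LC.y
      ring
    rw [e, tp0, tp1, tp2, tf0, tf1, tf2, RestJAux.qr_formOf, RestJAux.qr_G0, hS]
    simp only [nm]
    ring

end Pool.Agent.Lib.EPS
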