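import Pool.Agent.Lib.EPS.LocDefs
import Pool.Agent.Lib.FCC.LocI

/-!
# EPS.LocB: bounds for the invariants

Compare FCC/LocI (`prod_bound`, `a_bound`, same identities). `u = 1 - D = a/2 + b - P - 2F + R`
(by `p0+p1+p2 = 0`). `|p_k| ≤ 1/10`, `|f_k| ≤ 1/20`. `|P| ≤ a/60`: if `|p2|` is the largest,
`p0 p1 = p2² - a/2` and `a ≥ (3/2) p2²`, so `0 ≤ p0 p1 ≤ a/6`, `|P| ≤ |p2| a/6`; `|F| ≤ b/60` by
`prod_bound`; `|R| ≤ b/10`. `a/2 + b ≤ 1/80`: with `y_k = |p_k|/2`, `|f_k| ≤ 1/20 - y_k`, the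
largest `y` is the sum `m ≤ 1/20` of the two others, `a/2 + b ≤ ∑ (3 y_k² - y_k/10 + 1/400)
≤ 6 m² - m/5 + 3/400 ≤ 1/80`. `a ≤ 1/50`, `b ≤ 3/400`. So `0 ≤ u ≤ 1384/100000` and
`(1 + k u)³ (1 - u) ≥ 1` for `k = 101/300` gives `T ≤ 1 + k u` (as `T³ (1-u) = 1`).
-/

open MeasureTheory Set Matrix
open scoped Matrix.Norms.Elementwise

namespace Pool.Agent.Lib.EPS

open Pool.Agent.Lib.EpZ Pool.Agent.Lib.FCC

namespace LocBAux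

theorem two_same (x y z : ℝ) : 0 ≤ x * y ∨ 0 ≤ x * z ∨ 0 ≤ y * z := by
  rcases le_or_gt 0 (x * y) with h1 | h1
  · exact Or.inl h1
  · rcases le_or_gt 0 (x * z) with h2 | h2
    · exact Or.inr (Or.inl h2)
    · refine Or.inr (Or.inr ?_)
      by_contra h5
      push Not at h5
      have h6 : 0 < (x * y) * (x * z) := mul_pos_of_neg_of_neg h1 h2
      have h7 : (x * y) * (x * z) = x ^ 2 * (y * z) := by ring
      have h8 : x ^ 2 * (y * z) ≤ 0 := mul_nonpos_of_nonneg_of_nonpos (sq_nonneg x) h5.le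
      linarith

theorem P1 {x y z : ℝ} (h : x + y + z = 0) (hz : |z| ≤ 1 / 10) (hxy : 0 ≤ x * y) :
    |x * y * z| ≤ (x ^ 2 + y ^ 2 + z ^ 2) / 60 := by
  rw [abs_mul, abs_of_nonneg hxy]
  have e : z = -(x + y) := by linarith
  have h1 : x * y * |z| ≤ x * y * (1 / 10) := mul_le_mul_of_nonneg_left hz hxy
  have h2 : (x ^ 2 + y ^ 2 + z ^ 2) / 60 = (x ^ 2 + y ^ 2 + x * y) / 30 := by rw [e]; ring
  have h3 := sq_nonneg (x - y)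
  have h4 : (x - y) ^ 2 = x ^ 2 + y ^ 2 - 2 * (x * y) := by ring
  rw [h2]
  linarith

theorem P_bound {x y z : ℝ} (h : x + y + z = 0) (hx : |x| ≤ 1 / 10) (hy : |y| ≤ 1 / 10)
    (hz : |z| ≤ 1 / 10) : |x * y * z| ≤ (x ^ 2 + y ^ 2 + z ^ 2) / 60 := by
  rcases two_same x y z with h1 | h1 | h1
  · exact P1 h hz h1
  · have h2 := P1 (x := x) (y := z) (z := y) (by linarith) hy h1
    have e1 : x * z * y = x * y * z := by ring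
    rw [e1] at h2
    linarith
  · have h2 := P1 (x := y) (y := z) (z := x) (by linarith) hx h1
    have e1 : y * z * x = x * y * z := by ring
    rw [e1] at h2
    linarith

theorem fsq {x f : ℝ} (h : |x| / 2 + |f| ≤ 1 / 20) :
    x ^ 2 / 2 + f ^ 2 ≤ 3 * (|x| / 2) ^ 2 - (|x| / 2) / 10 + 1 / 400 := by
  have h1 : |f| ≤ 1 / 20 - |x| / 2 := by linarith
  have h2 : |f| ^ 2 ≤ (1 / 20 - |x| / 2) ^ 2 := pow_le_pow_left₀ (abs_nonneg f) h1 2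
  rw [sq_abs] at h2
  have h3 : (1 / 20 - |x| / 2) ^ 2 = |x| ^ 2 / 4 - (|x| / 2) / 10 + 1 / 400 := by ring
  have h4 : 3 * (|x| / 2) ^ 2 = |x| ^ 2 / 2 + |x| ^ 2 / 4 := by ring
  have h5 : |x| ^ 2 = x ^ 2 := sq_abs x
  rw [h3] at h2
  rw [h4]
  rw [h5] at h2 ⊢
  linarith

theorem S_core {x y z : ℝ} (hx : 0 ≤ x) (hy : 0 ≤ y) (hz : z = x + y) (hz1 : z ≤ 1 / 20) :
    3 * x ^ 2 - x / 10 + 1 / 400 + (3 * y ^ 2 - y / 10 + 1 / 400)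
      + (3 * z ^ 2 - z / 10 + 1 / 400) ≤ 1 / 80 := by
  have h1 : 0 ≤ x * y := mul_nonneg hx hy
  have h2 : z ^ 2 = x ^ 2 + y ^ 2 + 2 * (x * y) := by rw [hz]; ring
  have h3 : 0 ≤ (1 / 20 - z) * (z + 1 / 60) := mul_nonneg (by linarith) (by linarith)
  have h4 : (1 / 20 - z) * (z + 1 / 60) = 1 / 1200 + z / 30 - z ^ 2 := by ring
  linarith

theorem S1 {x y z f0 f1 f2 : ℝ} (h : x + y + z = 0) (h0 : |x| / 2 + |f0| ≤ 1 / 20)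
    (h1 : |y| / 2 + |f1| ≤ 1 / 20) (h2 : |z| / 2 + |f2| ≤ 1 / 20) (hxy : 0 ≤ x * y) :
    (x ^ 2 + y ^ 2 + z ^ 2) / 2 + (f0 ^ 2 + f1 ^ 2 + f2 ^ 2) ≤ 1 / 80 := by
  have e : |z| = |x| + |y| := by
    have e1 : z = -(x + y) := by linarith
    rw [e1, abs_neg]
    exact (abs_add_eq_add_abs_iff x y).2 (mul_nonneg_iff.1 hxy)
  have k0 := fsq h0
  have k1 := fsq h1
  have k2 := fsq h2
  have k3 := S_core (x := |x| / 2) (y := |y| / 2) (z := |z| / 2)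
    (by linarith [abs_nonneg x]) (by linarith [abs_nonneg y]) (by rw [e]; ring)
    (by linarith [abs_nonneg f2])
  linarith

theorem S_bound {x y z f0 f1 f2 : ℝ} (h : x + y + z = 0) (h0 : |x| / 2 + |f0| ≤ 1 / 20)
    (h1 : |y| / 2 + |f1| ≤ 1 / 20) (h2 : |z| / 2 + |f2| ≤ 1 / 20) :
    (x ^ 2 + y ^ 2 + z ^ 2) / 2 + (f0 ^ 2 + f1 ^ 2 + f2 ^ 2) ≤ 1 / 80 := by
  rcases two_same x y z with h3 | h3 | h3
  · exact S1 h h0 h1 h2 h3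
  · have h4 := S1 (x := x) (y := z) (z := y) (by linarith) h0 h2 h1 h3
    linarith
  · have h4 := S1 (x := y) (y := z) (z := x) (by linarith) h1 h2 h0 h3
    linarith

theorem poly_bound {u : ℝ} (hu0 : 0 ≤ u) (hu1 : u ≤ 1384 / 100000) :
    1 ≤ (1 + 101 / 300 * u) ^ 3 * (1 - u) := by
  have h5 : (1 + 101 / 300 * u) ^ 3 * (1 - u) = 1 + u * (1 / 100 - 20099 / 30000 * u
      - 8150599 / 27000000 * u ^ 2 - 1030301 / 27000000 * u ^ 3) := by ring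
  have u2 := pow_le_pow_left₀ hu0 hu1 2
  have u3 := pow_le_pow_left₀ hu0 hu1 3
  norm_num at u2 u3
  have h6 : 0 ≤ 1 / 100 - 20099 / 30000 * u - 8150599 / 27000000 * u ^ 2
      - 1030301 / 27000000 * u ^ 3 := by linarith
  have h7 := mul_nonneg hu0 h6
  linarith

end LocBAux

theorem bd {c : LC} {l : Fin 6 → ℝ} (h : c.Of l) :
    0 ≤ c.T - 1 ∧ c.T - 1 ≤ 1 / 200 ∧
      c.T - 1 ≤ 101 / 300 * (c.a / 2 + c.b - c.P - 2 * c.F + c.R) ∧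
      |c.P| ≤ c.a / 60 ∧ |c.F| ≤ c.b / 60 ∧ |c.R| ≤ c.b / 10 ∧ 0 ≤ c.a ∧ 0 ≤ c.b := by
  obtain ⟨p0, p1, p2, f0, f1, f2, q⟩ := c
  obtain ⟨-, hq, -, hx, h0, h1, h2, hqD, -⟩ := h
  simp only [LC.a, LC.b, LC.P, LC.F, LC.R, LC.D] at hq hx h0 h1 h2 hqD ⊢
  have x0a : |p0| ≤ 1 / 10 := by linarith [abs_nonneg f0]
  have x1a : |p1| ≤ 1 / 10 := by linarith [abs_nonneg f1]
  have x2a : |p2| ≤ 1 / 10 := by linarith [abs_nonneg f2]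
  have f0a : |f0| ≤ 1 / 20 := by linarith [abs_nonneg p0]
  have f1a : |f1| ≤ 1 / 20 := by linarith [abs_nonneg p1]
  have f2a : |f2| ≤ 1 / 20 := by linarith [abs_nonneg p2]
  have f0s := LocIAux.abs_sq_le f0a
  have f1s := LocIAux.abs_sq_le f1a
  have f2s := LocIAux.abs_sq_le f2a
  have hS := LocBAux.S_bound hx h0 h1 h2
  have hP := LocBAux.P_bound hx x0a x1a x2a
  have hF := LocIAux.prod_bound (by norm_num) f0a f1a f2a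
  have m0 : -(1 / 10 * f0 ^ 2) ≤ p0 * f0 ^ 2 ∧ p0 * f0 ^ 2 ≤ 1 / 10 * f0 ^ 2 :=
    LocIAux.mul_sq_bound x0a
  have m1 : -(1 / 10 * f1 ^ 2) ≤ p1 * f1 ^ 2 ∧ p1 * f1 ^ 2 ≤ 1 / 10 * f1 ^ 2 :=
    LocIAux.mul_sq_bound x1a
  have m2 : -(1 / 10 * f2 ^ 2) ≤ p2 * f2 ^ 2 ∧ p2 * f2 ^ 2 ≤ 1 / 10 * f2 ^ 2 :=
    LocIAux.mul_sq_bound x2a
  have ha0 : 0 ≤ p0 ^ 2 + p1 ^ 2 + p2 ^ 2 := by positivity
  have hb0 : 0 ≤ f0 ^ 2 + f1 ^ 2 + f2 ^ 2 := by positivity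
  have hb2 : f0 ^ 2 + f1 ^ 2 + f2 ^ 2 ≤ 3 / 400 := by linarith
  have hR : |p0 * f0 ^ 2 + p1 * f1 ^ 2 + p2 * f2 ^ 2| ≤ (f0 ^ 2 + f1 ^ 2 + f2 ^ 2) / 10 :=
    abs_le.2 ⟨by linarith [m0.1, m1.1, m2.1], by linarith [m0.2, m1.2, m2.2]⟩
  have hF' : |f0 * f1 * f2| ≤ (f0 ^ 2 + f1 ^ 2 + f2 ^ 2) / 60 := by linarith
  have eP := abs_le.1 hP
  have eF := abs_le.1 hF'
  have eR := abs_le.1 hR
  obtain ⟨u, hu⟩ : ∃ u, u = (p0 ^ 2 + p1 ^ 2 + p2 ^ 2) / 2 + (f0 ^ 2 + f1 ^ 2 + f2 ^ 2)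
    - p0 * p1 * p2 - 2 * (f0 * f1 * f2) + (p0 * f0 ^ 2 + p1 * f1 ^ 2 + p2 * f2 ^ 2) := ⟨_, rfl⟩
  have hDu : (1 + p0) * (1 + p1) * (1 + p2) + 2 * f0 * f1 * f2 - (1 + p0) * f0 ^ 2
      - (1 + p1) * f1 ^ 2 - (1 + p2) * f2 ^ 2 = 1 - u := by
    have e : p2 = -(p0 + p1) := by linarith
    rw [hu, e]
    ring
  have hu0 : 0 ≤ u := by linarith [eP.2, eF.2, eR.1]
  have hu1 : u ≤ 1384 / 100000 := by linarith [eP.1, eF.1, eR.2]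
  rw [← hu]
  rw [hDu] at hqD
  have hDpos : 0 < 1 - u := by linarith
  have hq1 : q ≤ 1 + 101 / 300 * u := by
    by_contra hcon
    push Not at hcon
    have h3 : (1 + 101 / 300 * u) ^ 3 < q ^ 3 := pow_lt_pow_left₀ hcon (by linarith) (by norm_num)
    have h4 : (1 + 101 / 300 * u) ^ 3 * (1 - u) < q ^ 3 * (1 - u) :=
      mul_lt_mul_of_pos_right h3 hDpos
    rw [hqD] at h4
    exact absurd (LocBAux.poly_bound hu0 hu1) (not_le.2 h4)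
  have hq0 : 1 ≤ q := by
    by_contra hcon
    push Not at hcon
    have h3 : q ^ 3 < 1 := pow_lt_one₀ hq.le hcon (by norm_num)
    have h4 : q ^ 3 * (1 - u) < 1 * (1 - u) := mul_lt_mul_of_pos_right h3 hDpos
    linarith
  exact ⟨by linarith, by linarith, by linarith, hP, hF', hR, ha0, hb0⟩

/-- the equality case -/
theorem eq_G0_of {c : LC} {l : Fin 6 → ℝ} (h : c.Of l) (ha : c.a = 0) (hb : c.b = 0) :
    formOf l = G0 := by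
  obtain ⟨b1, -, b2, b3, b4, b5, -, -⟩ := bd h
  rw [ha] at b2 b3
  rw [hb] at b2 b4 b5
  have hP := abs_le.1 b3
  have hF := abs_le.1 b4
  have hR := abs_le.1 b5
  have hT : c.T = 1 := by linarith [hP.1, hF.1, hR.2]
  have sq0 {x y z : ℝ} (h : x ^ 2 + y ^ 2 + z ^ 2 = 0) : x = 0 ∧ y = 0 ∧ z = 0 := by
    have hx := sq_nonneg x
    have hy := sq_nonneg y
    have hz := sq_nonneg z
    exact ⟨pow_eq_zero_iff (two_ne_zero) |>.1 (by linarith),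
      pow_eq_zero_iff (two_ne_zero) |>.1 (by linarith),
      pow_eq_zero_iff (two_ne_zero) |>.1 (by linarith)⟩
  obtain ⟨p0, p1, p2⟩ := sq0 ha
  obtain ⟨f0, f1, f2⟩ := sq0 hb
  have hv : ∀ v : Fin 3 → ℝ, qr (formOf l) v = qr G0 v := by
    intro v
    rw [h.val v, hT, LC.y, p0, p1, p2, f0, f1, f2]
    ring
  have hv' : ∀ x y z : ℝ, (l 0 + l 2 + l 4) * x ^ 2 + (l 0 + l 5 + l 3) * y ^ 2
      + (l 2 + l 5 + l 1) * z ^ 2 - 2 * l 0 * x * y - 2 * l 2 * x * z - 2 * l 5 * y * z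
      = 2 * x ^ 2 + 2 * y ^ 2 + 2 * z ^ 2 - 2 * x * z - 2 * y * z := by
    intro x y z
    have h1 := hv ![x, y, z]
    rw [RestJAux.qr_formOf, RestJAux.qr_G0] at h1
    exact h1
  have e1 := hv' 1 0 0
  have e2 := hv' 0 1 0
  have e3 := hv' 0 0 1
  have e4 := hv' 1 1 0
  have e5 := hv' 1 0 1
  have e6 := hv' 0 1 1
  norm_num at e1 e2 e3 e4 e5 e6
  have l0 : l 0 = 0 := by linarith
  have l2 : l 2 = 1 := by linarith
  have l5 : l 5 = 1 := by linarith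
  have l4 : l 4 = 1 := by linarith
  have l3 : l 3 = 1 := by linarith
  have l1 : l 1 = 0 := by linarith
  rw [formOf, G0, l0, l1, l2, l3, l4, l5]
  norm_num

end Pool.Agent.Lib.EPS
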