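import Pool.Agent.Lib.EPS.Phi
import Pool.Agent.Lib.FCC.RestJ

/-!
# EPS.LocDefs: the local inequality near the fcc form, definitions

`Q = formOf l` close to `G0`. In the coordinates `v = (x0 + x1 - x2, x0 - x1, x2)` the form `G0` is
`|v|²` and `Q` is `T (|v|² + y(v))`, `y` a traceless quadratic form with diagonal `p0, p1, p2` and
off-diagonal entries `f0, f1, f2`.
-/

open MeasureTheory
open scoped Matrix.Norms.Elementwise

namespace Pool.Agent.Lib.EPS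

open Pool.Agent.Lib.EpZ Pool.Agent.Lib.FCC

/-- normalized coordinates -/
structure LC where
  p0 : ℝ
  p1 : ℝ
  p2 : ℝ
  f0 : ℝ
  f1 : ℝ
  f2 : ℝ
  T : ℝ

namespace LC

variable (c : LC)

/-- sum of the squares of the diagonal entries -/
def a : ℝ := c.p0 ^ 2 + c.p1 ^ 2 + c.p2 ^ 2

/-- sum of the squares of the off-diagonal entries -/
def b : ℝ := c.f0 ^ 2 + c.f1 ^ 2 + c.f2 ^ 2

/-- product of the diagonal entries -/
def P : ℝ := c.p0 * c.p1 * c.p2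

/-- product of the off-diagonal entries -/
def F : ℝ := c.f0 * c.f1 * c.f2

/-- mixed cubic invariant -/
def R : ℝ := c.p0 * c.f0 ^ 2 + c.p1 * c.f1 ^ 2 + c.p2 * c.f2 ^ 2

/-- the determinant of `1 + y` -/
def D : ℝ := (1 + c.p0) * (1 + c.p1) * (1 + c.p2) + 2 * c.f0 * c.f1 * c.f2
  - (1 + c.p0) * c.f0 ^ 2 - (1 + c.p1) * c.f1 ^ 2 - (1 + c.p2) * c.f2 ^ 2

/-- the traceless quadratic form -/
def y (v0 v1 v2 : ℝ) : ℝ := c.p0 * v0 ^ 2 + c.p1 * v1 ^ 2 + c.p2 * v2 ^ 2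
  + 2 * (c.f0 * v1 * v2 + c.f1 * v0 * v2 + c.f2 * v0 * v1)

/-- `c` are the coordinates of `l`, and `l` is in the zone -/
structure Of (l : Fin 6 → ℝ) : Prop where
  pd : PD (formOf l)
  T_pos : 0 < c.T
  T_eq : c.T = S1 4 l / 12
  tr : c.p0 + c.p1 + c.p2 = 0
  z0 : |c.p0| / 2 + |c.f0| ≤ 1 / 20
  z1 : |c.p1| / 2 + |c.f1| ≤ 1 / 20
  z2 : |c.p2| / 2 + |c.f2| ≤ 1 / 20
  det : c.T ^ 3 * c.D = 1
  val : ∀ v : Fin 3 → ℝ, qr (formOf l) v =
    c.T * (qr G0 v + c.y (v 0 + v 1 - v 2) (v 0 - v 1) (v 2))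

end LC

/-! ### the two kernels -/

/-- the part `1 < w ≤ 13/2` of the kernel -/
noncomputable def k1 (s z : ℝ) : ℝ :=
  ∫ w in Set.Ioc (1 : ℝ) (13 / 2), Real.exp (-(z * w)) * w ^ (s - 1)

/-- the part `13/2 < w` of the kernel -/
noncomputable def k2 (s z : ℝ) : ℝ :=
  ∫ w in Set.Ioi (13 / 2 : ℝ), Real.exp (-(z * w)) * w ^ (s - 1)

/-! ### the lower bound of the integrand, `w ≤ 13/2` -/

/-- the lower bound of the difference of the integrands -/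
noncomputable def Hf (c : LC) (w : ℝ) : ℝ :=
  Real.exp (-(2 * (c.T * (4 / 5 * w)))) * (12 + (c.T * (4 / 5 * w)) ^ 2 * (2 * c.a + 8 * c.b)
      + (c.T * (4 / 5 * w)) ^ 3 * (2 * c.P + 8 * c.R))
    + Real.exp (-(4 * (c.T * (4 / 5 * w)))) * (6 + (c.T * (4 / 5 * w)) ^ 2 * (16 * c.a)
      - (c.T * (4 / 5 * w)) ^ 3 * (64 * c.P))
    + Real.exp (-(6 * (c.T * (4 / 5 * w)))) * (24 + (c.T * (4 / 5 * w)) ^ 2 * (36 * c.a + 144 * c.b)
      - (c.T * (4 / 5 * w)) ^ 3 * (108 * c.P - 144 * c.R + 768 * c.F))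
    - 12 * Real.exp (-(2 * (4 / 5 * w))) - 6 * Real.exp (-(4 * (4 / 5 * w)))
    - 24 * Real.exp (-(6 * (4 / 5 * w)))
    - 155 * (c.T - 1) * (4 / 5 * w) * Real.exp (-(8 * (4 / 5 * w)))

/-- the linear factors `1 - 51/10000 (n t - 8/5)` -/
noncomputable def ph (n t : ℝ) : ℝ := 1 - 51 / 10000 * (n * t - 8 / 5)

/-- the coefficient of `-P` -/
noncomputable def Pi' (t : ℝ) : ℝ :=
  101 / 100 * (8 + 8 * Real.exp (-(2 * t)) + 48 * Real.exp (-(4 * t))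
      + 155 / 3 * Real.exp (-(6 * t)))
    + 2 * t ^ 2 * ph 2 t - 64 * t ^ 2 * ph 4 t * Real.exp (-(2 * t))
    - 108 * t ^ 2 * ph 6 t * Real.exp (-(4 * t))

/-- the coefficient of `a`, divided by `t exp (-2t)` -/
noncomputable def gA (t : ℝ) : ℝ :=
  2 * t * ph 2 t + 16 * t * ph 4 t * Real.exp (-(2 * t))
    + 36 * t * ph 6 t * Real.exp (-(4 * t))
    - 101 / 100 * (4 + 4 * Real.exp (-(2 * t)) + 24 * Real.exp (-(4 * t))
      + 155 / 6 * Real.exp (-(6 * t)))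
    - Pi' t / 60
    - t ^ 2 * (2 + 64 * Real.exp (-(2 * t)) + 108 * Real.exp (-(4 * t))) / 12000

/-- the coefficient of `b`, divided by `t exp (-2t)` -/
noncomputable def gB (t : ℝ) : ℝ := if t ≤ 16 / 5 then 21 / 5 * (t - 13 / 10) else 0

/-- the final lower bounds of the coefficients -/
noncomputable def hA (w : ℝ) : ℝ :=
  4 / 5 * w * Real.exp (-(2 * (4 / 5 * w))) * gA (4 / 5 * w)

noncomputable def hB (w : ℝ) : ℝ :=
  4 / 5 * w * Real.exp (-(2 * (4 / 5 * w))) * gB (4 / 5 * w)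

end Pool.Agent.Lib.EPS
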