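import Pool.Agent.Lib.EPS.VerS
import Pool.Agent.Lib.EPS.Loc

/-!
# Module EPS.LocLeaf: soundness of the local leaves

As FCC/LocS (proved), with the numbers `95, 105` instead of `90, 110`: the conditions of `VX.loc` are
linear in the norms, they hold at the six vertices (cast to reals), so in the cone
(`l = ∑ c_k v_k`, `c_k ≥ 0`). `S1 4 l` is the sum of the six norms with index `≠ 4`. Then `loc_ineq`.
-/

set_option autoImplicit false

open Matrix
open scoped Matrix.Norms.Elementwise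

namespace Pool.Agent.Lib.EPS

open Pool.Agent.Lib.EpZ Pool.Agent.Lib.FCC

namespace LocLeafAux

theorem S1_eq (m : Fin 6 → ℝ) :
    S1 4 m = nm m 0 + nm m 1 + nm m 2 + nm m 3 + nm m 5 + nm m 6 := by
  simp [S1, Fin.sum_univ_seven]
  try ring

theorem two_iff (n S : ℕ) : two n S = true ↔ 600 * n ≤ 105 * S ∧ 95 * S ≤ 600 * n := by
  unfold two
  rw [Bool.and_eq_true, Nat.ble_eq, Nat.ble_eq]

theorem vertex (v : VX) (h : v.loc = true) (x : Fin 7) (hx : x ≠ 4) :
    95 * S1 4 v.re ≤ 600 * nm v.re x ∧ 600 * nm v.re x ≤ 105 * S1 4 v.re := by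
  obtain ⟨p, p', q, q', r, r', w⟩ := v
  simp only [VX.loc, Bool.and_eq_true, two_iff] at h
  obtain ⟨⟨⟨⟨⟨⟨a0, b0⟩, a1, b1⟩, a2, b2⟩, a3, b3⟩, a5, b5⟩, a6, b6⟩ := h
  rw [S1_eq]
  have a0' := (Nat.cast_le (α := ℝ)).2 a0
  have b0' := (Nat.cast_le (α := ℝ)).2 b0
  have a1' := (Nat.cast_le (α := ℝ)).2 a1
  have b1' := (Nat.cast_le (α := ℝ)).2 b1
  have a2' := (Nat.cast_le (α := ℝ)).2 a2
  have b2' := (Nat.cast_le (α := ℝ)).2 b2
  have a3' := (Nat.cast_le (α := ℝ)).2 a3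
  have b3' := (Nat.cast_le (α := ℝ)).2 b3
  have a5' := (Nat.cast_le (α := ℝ)).2 a5
  have b5' := (Nat.cast_le (α := ℝ)).2 b5
  have a6' := (Nat.cast_le (α := ℝ)).2 a6
  have b6' := (Nat.cast_le (α := ℝ)).2 b6
  push_cast at a0' b0' a1' b1' a2' b2' a3' b3' a5' b5' a6' b6'
  fin_cases x
  · simp only [nm, VX.re]
    constructor <;> linarith
  · simp only [nm, VX.re]
    constructor <;> linarith
  · simp only [nm, VX.re]
    constructor <;> linarith
  · simp only [nm, VX.re]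
    constructor <;> linarith
  · exact absurd rfl hx
  · simp only [nm, VX.re]
    constructor <;> linarith
  · simp only [nm, VX.re]
    constructor <;> linarith

/-- the seven norms are linear in the Selling parameters -/
theorem nm_lin {C : Cn} {l c : Fin 6 → ℝ}
    (h : ∀ i, l i = c 0 * C.v0.re i + c 1 * C.v1.re i
    + c 2 * C.v2.re i + c 3 * C.v3.re i + c 4 * C.v4.re i + c 5 * C.v5.re i) (x : Fin 7) :
    nm l x = c 0 * nm C.v0.re x + c 1 * nm C.v1.re x + c 2 * nm C.v2.re x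
      + c 3 * nm C.v3.re x + c 4 * nm C.v4.re x + c 5 * nm C.v5.re x := by
  fin_cases x <;> simp only [nm, h] <;> ring

end LocLeafAux

theorem loc_sound (C : Cn) (h : C.all VX.loc = true) : C.Ok := by
  intro l hl hdt s hs hs6
  obtain ⟨v0, v1, v2, v3, v4, v5⟩ := (cn_all C VX.loc).1 h
  have hn := cn_mem_nonneg hl
  obtain ⟨c, hc, hlc⟩ := hl
  have hnm := LocLeafAux.nm_lin hlc
  have hS : S1 4 l = c 0 * S1 4 C.v0.re + c 1 * S1 4 C.v1.re + c 2 * S1 4 C.v2.re
      + c 3 * S1 4 C.v3.re + c 4 * S1 4 C.v4.re + c 5 * S1 4 C.v5.re := by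
    simp only [LocLeafAux.S1_eq, hnm]
    ring
  refine loc_ineq hn hdt (fun x hx => ?_) hs hs6
  have w0 := LocLeafAux.vertex _ v0 x hx
  have w1 := LocLeafAux.vertex _ v1 x hx
  have w2 := LocLeafAux.vertex _ v2 x hx
  have w3 := LocLeafAux.vertex _ v3 x hx
  have w4 := LocLeafAux.vertex _ v4 x hx
  have w5 := LocLeafAux.vertex _ v5 x hx
  rw [hS, hnm x]
  constructor
  · linarith [mul_le_mul_of_nonneg_left w0.1 (hc 0), mul_le_mul_of_nonneg_left w1.1 (hc 1),
      mul_le_mul_of_nonneg_left w2.1 (hc 2), mul_le_mul_of_nonneg_left w3.1 (hc 3),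
      mul_le_mul_of_nonneg_left w4.1 (hc 4), mul_le_mul_of_nonneg_left w5.1 (hc 5)]
  · linarith [mul_le_mul_of_nonneg_left w0.2 (hc 0), mul_le_mul_of_nonneg_left w1.2 (hc 1),
      mul_le_mul_of_nonneg_left w2.2 (hc 2), mul_le_mul_of_nonneg_left w3.2 (hc 3),
      mul_le_mul_of_nonneg_left w4.2 (hc 4), mul_le_mul_of_nonneg_left w5.2 (hc 5)]

end Pool.Agent.Lib.EPS
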