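import Pool.Agent.Lib.EPS.TabD0
import Pool.Agent.Lib.EPS.TabD1
import Pool.Agent.Lib.EPS.TabD2
import Pool.Agent.Lib.EPS.TabD3
import Pool.Agent.Lib.EPS.TabD4
import Pool.Agent.Lib.EPS.TabD5
import Pool.Agent.Lib.EPS.TabD6
import Pool.Agent.Lib.EPS.TabD7
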