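import Pool.Agent.Lib.EPS.LeafS
import Pool.Agent.Lib.EPS.LocLeaf

/-!
# Module EPS.TreeS: soundness of the certificate trees

Induction on the tree as in FCC/TreeS (proved). Leaves: `lchk_sound`, `loc_sound`; `pr D`: `D.1 = C`
by `Cn.eqb` (all entries equal), and `D.2`. Node `nd i j a b r s t`: `i < j < 6`, `a, b > 0`,
`m = a v_i + b v_j` (`comb_re`), `m.ok`. The vertices of `C.set i m` and `C.set j m` are again `ok`.
Let `y = ∑ c_k v_k`, `c ≥ 0`. If `c_i / a ≥ c_j / b` put `e = c_j / b`: `y` is in `C.set j m`;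
otherwise with `e = c_i / a`, `y` is in `C.set i m`. The equations of `Tr.chk` are `rfl`:
`(Tr.nd i j a b r s t).chk M C = Bool.and (Nat.blt 0 a) (...)`.
-/

open Matrix
open scoped Matrix.Norms.Elementwise

namespace Pool.Agent.Lib.EPS

open Pool.Agent.Lib.EpZ Pool.Agent.Lib.FCC

namespace TreeSAux

theorem veqb_iff (v w : VX) : v.eqb w = true ↔ v = w := by
  obtain ⟨a, b, c, d, e, f, r⟩ := v
  obtain ⟨a', b', c', d', e', f', r'⟩ := w
  simp only [VX.eqb, Bool.and_eq_true, Nat.beq_eq, VX.mk.injEq]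

theorem mem_iff (C : Cn) (l : Fin 6 → ℝ) : C.mem l ↔
    ∃ c : Fin 6 → ℝ, (∀ k, 0 ≤ c k) ∧ ∀ i, l i = ∑ k : Fin 6, c k * (C.get k.1).re i := by
  obtain ⟨v0, v1, v2, v3, v4, v5⟩ := C
  unfold Cn.mem
  simp only [Fin.sum_univ_six]
  rfl

theorem get_set (C : Cn) (w : VX) (i k : Fin 6) :
    (C.set i.1 w).get k.1 = if k = i then w else C.get k.1 := by
  obtain ⟨v0, v1, v2, v3, v4, v5⟩ := C
  fin_cases i <;> fin_cases k <;> rfl

theorem comb_re (a b r : ℕ) (v w : VX) (x : Fin 6) :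
    (v.comb w a b r).re x = a * v.re x + b * w.re x := by
  obtain ⟨p0, p1, p2, p3, p4, p5, p6⟩ := v
  obtain ⟨q0, q1, q2, q3, q4, q5, q6⟩ := w
  fin_cases x <;> simp [VX.comb, VX.re]

theorem all_set (C : Cn) (w : VX) (i : Fin 6) (hC : C.all VX.ok = true) (hw : w.ok = true) :
    (C.set i.1 w).all VX.ok = true := by
  obtain ⟨v0, v1, v2, v3, v4, v5⟩ := C
  have h : Bool.and (VX.ok v0) (Bool.and (VX.ok v1) (Bool.and (VX.ok v2)
    (Bool.and (VX.ok v3) (Bool.and (VX.ok v4) (VX.ok v5))))) = true := hC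
  simp only [Bool.and_eq_true] at h
  obtain ⟨h0, h1, h2, h3, h4, h5⟩ := h
  have key : ∀ u0 u1 u2 u3 u4 u5 : VX, u0.ok = true → u1.ok = true → u2.ok = true → u3.ok = true →
      u4.ok = true → u5.ok = true → (Cn.mk u0 u1 u2 u3 u4 u5).all VX.ok = true := by
    intro u0 u1 u2 u3 u4 u5 g0 g1 g2 g3 g4 g5
    show Bool.and (VX.ok u0) (Bool.and (VX.ok u1) (Bool.and (VX.ok u2)
      (Bool.and (VX.ok u3) (Bool.and (VX.ok u4) (VX.ok u5))))) = true
    simp only [g0, g1, g2, g3, g4, g5, Bool.and_true]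
  fin_cases i
  · exact key w v1 v2 v3 v4 v5 hw h1 h2 h3 h4 h5
  · exact key v0 w v2 v3 v4 v5 h0 hw h2 h3 h4 h5
  · exact key v0 v1 w v3 v4 v5 h0 h1 hw h3 h4 h5
  · exact key v0 v1 v2 w v4 v5 h0 h1 h2 hw h4 h5
  · exact key v0 v1 v2 v3 w v5 h0 h1 h2 h3 hw h5
  · exact key v0 v1 v2 v3 v4 w h0 h1 h2 h3 h4 hw

theorem half (C : Cn) (w : VX) (i j : Fin 6) (hij : i ≠ j) (a b : ℝ) (ha : 0 < a) (hb : 0 < b)
    (hw : ∀ x, w.re x = a * (C.get i.1).re x + b * (C.get j.1).re x) (l c : Fin 6 → ℝ)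
    (hc : ∀ k, 0 ≤ c k) (hl : ∀ x, l x = ∑ k : Fin 6, c k * (C.get k.1).re x)
    (h : c j / b ≤ c i / a) : (C.set j.1 w).mem l := by
  rw [mem_iff]
  have he : 0 ≤ c j / b := div_nonneg (hc j) hb.le
  have h2 : a * (c j / b) ≤ c i := by
    rw [le_div_iff₀ ha] at h
    linarith
  refine ⟨fun k => if k = j then c j / b else if k = i then c i - a * (c j / b) else c k, ?_, ?_⟩
  · intro k
    dsimp only
    split_ifs
    · exact he
    · linarith
    · exact hc k
  · intro x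
    rw [hl x, ← sub_eq_zero, ← Finset.sum_sub_distrib]
    rw [Finset.sum_eq_add_of_mem i j (Finset.mem_univ _) (Finset.mem_univ _) hij]
    · rw [get_set, get_set]
      simp only [hij, if_true, if_false, hw x]
      field_simp
      ring
    · intro k _ hk
      rw [get_set]
      simp only [hk.1, hk.2, if_false, sub_self]

end TreeSAux

open TreeSAux

theorem eqb_iff (C D : Cn) : C.eqb D = true ↔ C = D := by
  obtain ⟨v0, v1, v2, v3, v4, v5⟩ := C
  obtain ⟨w0, w1, w2, w3, w4, w5⟩ := D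
  simp only [Cn.eqb, Bool.and_eq_true, veqb_iff, Cn.mk.injEq]

theorem chk_sound {M : ℕ} (hM : MGood M) (t : Tr) (C : Cn) (hC : C.all VX.ok = true)
    (h : t.chk M C = true) : C.Ok := by
  induction t generalizing C with
  | lo => exact loc_sound C h
  | ce p => exact lchk_sound hM p.2 hC h
  | pr D =>
    have h1 : D.1 = C := (eqb_iff D.1 C).1 h
    rw [← h1]
    exact D.2
  | nd i j a b r L R ihL ihR =>
    have h' : Bool.and (Nat.blt 0 a) (Bool.and (Nat.blt 0 b) (Bool.and (Nat.blt i j)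
        (Bool.and (Nat.blt j 6) (Bool.and ((C.get i).comb (C.get j) a b r).ok
          (Bool.and (L.chk M (C.set i ((C.get i).comb (C.get j) a b r)))
            (R.chk M (C.set j ((C.get i).comb (C.get j) a b r)))))))) = true := h
    simp only [Bool.and_eq_true] at h'
    obtain ⟨ha, hb, hij, hj, hm, hL, hR⟩ := h'
    have ha' : 0 < a := by simpa [Nat.blt_eq] using ha
    have hb' : 0 < b := by simpa [Nat.blt_eq] using hb
    have hij' : i < j := by simpa [Nat.blt_eq] using hij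
    have hj' : j < 6 := by simpa [Nat.blt_eq] using hj
    have hi' : i < 6 := hij'.trans hj'
    have haR : (0 : ℝ) < a := by exact_mod_cast ha'
    have hbR : (0 : ℝ) < b := by exact_mod_cast hb'
    have hne : (⟨i, hi'⟩ : Fin 6) ≠ ⟨j, hj'⟩ := by
      intro h0
      exact hij'.ne (congrArg Fin.val h0)
    intro l hl hd
    obtain ⟨c, hc, hc2⟩ := (mem_iff C l).1 hl
    rcases le_total (c ⟨j, hj'⟩ / b) (c ⟨i, hi'⟩ / a) with h1 | h1
    · refine ihR _ (all_set C _ ⟨j, hj'⟩ hC hm) hR l ?_ hd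
      exact half C _ ⟨i, hi'⟩ ⟨j, hj'⟩ hne a b haR hbR (fun x => comb_re _ _ _ _ _ _) l c hc hc2 h1
    · refine ihL _ (all_set C _ ⟨i, hi'⟩ hC hm) hL l ?_ hd
      refine half C _ ⟨j, hj'⟩ ⟨i, hi'⟩ hne.symm b a hbR haR (fun x => ?_) l c hc hc2 h1
      rw [comb_re]
      ring

end Pool.Agent.Lib.EPS
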