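import Pool.Agent.Lib.EPS.Vecs
import Pool.Agent.Lib.EPS.Tab
import Pool.Agent.Lib.EPS.TreeS
import Pool.Agent.Lib.EPS.ConH

/-!
# EPS: verified planes from lists of indices

`tb i` is the entry number `i` of the table; `mk l` is the plane with the entries `tb i`, `i` in `l`,
aligned with the list `vecs`.
-/

namespace Pool.Agent.Lib.EPS

/-- binary trees of entries -/
inductive BT
  | lf (e : VEnt)
  | nd (l r : BT)

/-- lookup by the binary digits, least significant first -/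
noncomputable def BT.get (t : BT) : Nat → VEnt :=
  BT.rec (motive := fun _ => Nat → VEnt) (fun e _ => e)
    (fun _ _ ihl ihr n => Nat.casesOn (motive := fun _ => VEnt) (Nat.mod n 2) (ihl (Nat.div n 2))
      (fun _ => ihr (Nat.div n 2))) t

open BT in
/-- the table as a tree -/
noncomputable def tbt : BT :=
(nd (nd (nd (nd (nd (nd (nd (nd (nd (nd (lf t0) (lf t512)) (nd (lf t256) (lf t0))) (nd (nd (lf
  t128) (lf t640)) (nd (lf t384) (lf t0)))) (nd (nd (nd (lf t64) (lf t576)) (nd (lf t320) (lf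
  t0))) (nd (nd (lf t192) (lf t0)) (nd (lf t448) (lf t0))))) (nd (nd (nd (nd (lf t0) (lf t544))
  (nd (lf t288) (lf t0))) (nd (nd (lf t160) (lf t672)) (nd (lf t416) (lf t0)))) (nd (nd (nd (lf
  t96) (lf t608)) (nd (lf t352) (lf t0))) (nd (nd (lf t224) (lf t0)) (nd (lf t480) (lf t0))))))
  (nd (nd (nd (nd (nd (lf t0) (lf t528)) (nd (lf t272) (lf t0))) (nd (nd (lf t144) (lf t656)) (nd
  (lf t400) (lf t0)))) (nd (nd (nd (lf t80) (lf t592)) (nd (lf t336) (lf t0))) (nd (nd (lf t208)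
  (lf t0)) (nd (lf t464) (lf t0))))) (nd (nd (nd (nd (lf t48) (lf t560)) (nd (lf t304) (lf t0)))
  (nd (nd (lf t176) (lf t688)) (nd (lf t432) (lf t0)))) (nd (nd (nd (lf t112) (lf t624)) (nd (lf
  t368) (lf t0))) (nd (nd (lf t240) (lf t0)) (nd (lf t496) (lf t0))))))) (nd (nd (nd (nd (nd (nd
  (lf t0) (lf t520)) (nd (lf t264) (lf t0))) (nd (nd (lf t136) (lf t648)) (nd (lf t392) (lf t0))))
  (nd (nd (nd (lf t72) (lf t584)) (nd (lf t328) (lf t0))) (nd (nd (lf t200) (lf t0)) (nd (lf t456)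
  (lf t0))))) (nd (nd (nd (nd (lf t0) (lf t552)) (nd (lf t296) (lf t0))) (nd (nd (lf t168) (lf
  t680)) (nd (lf t424) (lf t0)))) (nd (nd (nd (lf t104) (lf t616)) (nd (lf t360) (lf t0))) (nd (nd
  (lf t232) (lf t0)) (nd (lf t488) (lf t0)))))) (nd (nd (nd (nd (nd (lf t0) (lf t536)) (nd (lf
  t280) (lf t0))) (nd (nd (lf t152) (lf t664)) (nd (lf t408) (lf t0)))) (nd (nd (nd (lf t88) (lf
  t600)) (nd (lf t344) (lf t0))) (nd (nd (lf t216) (lf t0)) (nd (lf t472) (lf t0))))) (nd (nd (nd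
  (nd (lf t56) (lf t568)) (nd (lf t312) (lf t0))) (nd (nd (lf t184) (lf t696)) (nd (lf t440) (lf
  t0)))) (nd (nd (nd (lf t120) (lf t632)) (nd (lf t376) (lf t0))) (nd (nd (lf t248) (lf t0)) (nd
  (lf t504) (lf t0)))))))) (nd (nd (nd (nd (nd (nd (nd (lf t0) (lf t516)) (nd (lf t260) (lf t0)))
  (nd (nd (lf t132) (lf t644)) (nd (lf t388) (lf t0)))) (nd (nd (nd (lf t68) (lf t580)) (nd (lf
  t324) (lf t0))) (nd (nd (lf t196) (lf t0)) (nd (lf t452) (lf t0))))) (nd (nd (nd (nd (lf t0) (lf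
  t548)) (nd (lf t292) (lf t0))) (nd (nd (lf t164) (lf t676)) (nd (lf t420) (lf t0)))) (nd (nd (nd
  (lf t100) (lf t612)) (nd (lf t356) (lf t0))) (nd (nd (lf t228) (lf t0)) (nd (lf t484) (lf
  t0)))))) (nd (nd (nd (nd (nd (lf t0) (lf t532)) (nd (lf t276) (lf t0))) (nd (nd (lf t148) (lf
  t660)) (nd (lf t404) (lf t0)))) (nd (nd (nd (lf t84) (lf t596)) (nd (lf t340) (lf t0))) (nd (nd
  (lf t212) (lf t0)) (nd (lf t468) (lf t0))))) (nd (nd (nd (nd (lf t52) (lf t564)) (nd (lf t308)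
  (lf t0))) (nd (nd (lf t180) (lf t692)) (nd (lf t436) (lf t0)))) (nd (nd (nd (lf t116) (lf t628))
  (nd (lf t372) (lf t0))) (nd (nd (lf t244) (lf t0)) (nd (lf t500) (lf t0))))))) (nd (nd (nd (nd
  (nd (nd (lf t0) (lf t524)) (nd (lf t268) (lf t0))) (nd (nd (lf t140) (lf t652)) (nd (lf t396)
  (lf t0)))) (nd (nd (nd (lf t76) (lf t588)) (nd (lf t332) (lf t0))) (nd (nd (lf t204) (lf t0))
  (nd (lf t460) (lf t0))))) (nd (nd (nd (nd (lf t0) (lf t556)) (nd (lf t300) (lf t0))) (nd (nd (lf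
  t172) (lf t684)) (nd (lf t428) (lf t0)))) (nd (nd (nd (lf t108) (lf t620)) (nd (lf t364) (lf
  t0))) (nd (nd (lf t236) (lf t0)) (nd (lf t492) (lf t0)))))) (nd (nd (nd (nd (nd (lf t0) (lf
  t540)) (nd (lf t284) (lf t0))) (nd (nd (lf t156) (lf t668)) (nd (lf t412) (lf t0)))) (nd (nd (nd
  (lf t92) (lf t604)) (nd (lf t348) (lf t0))) (nd (nd (lf t220) (lf t0)) (nd (lf t476) (lf t0)))))
  (nd (nd (nd (nd (lf t60) (lf t572)) (nd (lf t316) (lf t0))) (nd (nd (lf t188) (lf t700)) (nd (lf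
  t444) (lf t0)))) (nd (nd (nd (lf t124) (lf t636)) (nd (lf t380) (lf t0))) (nd (nd (lf t252) (lf
  t0)) (nd (lf t508) (lf t0))))))))) (nd (nd (nd (nd (nd (nd (nd (nd (lf t0) (lf t514)) (nd (lf
  t258) (lf t0))) (nd (nd (lf t130) (lf t642)) (nd (lf t386) (lf t0)))) (nd (nd (nd (lf t66) (lf
  t578)) (nd (lf t322) (lf t0))) (nd (nd (lf t194) (lf t0)) (nd (lf t450) (lf t0))))) (nd (nd (nd
  (nd (lf t0) (lf t546)) (nd (lf t290) (lf t0))) (nd (nd (lf t162) (lf t674)) (nd (lf t418) (lf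
  t0)))) (nd (nd (nd (lf t98) (lf t610)) (nd (lf t354) (lf t0))) (nd (nd (lf t226) (lf t0)) (nd
  (lf t482) (lf t0)))))) (nd (nd (nd (nd (nd (lf t0) (lf t530)) (nd (lf t274) (lf t0))) (nd (nd
  (lf t146) (lf t658)) (nd (lf t402) (lf t0)))) (nd (nd (nd (lf t82) (lf t594)) (nd (lf t338) (lf
  t0))) (nd (nd (lf t210) (lf t0)) (nd (lf t466) (lf t0))))) (nd (nd (nd (nd (lf t50) (lf t562))
  (nd (lf t306) (lf t0))) (nd (nd (lf t178) (lf t690)) (nd (lf t434) (lf t0)))) (nd (nd (nd (lf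
  t114) (lf t626)) (nd (lf t370) (lf t0))) (nd (nd (lf t242) (lf t0)) (nd (lf t498) (lf t0)))))))
  (nd (nd (nd (nd (nd (nd (lf t0) (lf t522)) (nd (lf t266) (lf t0))) (nd (nd (lf t138) (lf t650))
  (nd (lf t394) (lf t0)))) (nd (nd (nd (lf t74) (lf t586)) (nd (lf t330) (lf t0))) (nd (nd (lf
  t202) (lf t0)) (nd (lf t458) (lf t0))))) (nd (nd (nd (nd (lf t0) (lf t554)) (nd (lf t298) (lf
  t0))) (nd (nd (lf t170) (lf t682)) (nd (lf t426) (lf t0)))) (nd (nd (nd (lf t106) (lf t618)) (nd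
  (lf t362) (lf t0))) (nd (nd (lf t234) (lf t0)) (nd (lf t490) (lf t0)))))) (nd (nd (nd (nd (nd
  (lf t0) (lf t538)) (nd (lf t282) (lf t0))) (nd (nd (lf t154) (lf t666)) (nd (lf t410) (lf t0))))
  (nd (nd (nd (lf t90) (lf t602)) (nd (lf t346) (lf t0))) (nd (nd (lf t218) (lf t0)) (nd (lf t474)
  (lf t0))))) (nd (nd (nd (nd (lf t58) (lf t570)) (nd (lf t314) (lf t0))) (nd (nd (lf t186) (lf
  t698)) (nd (lf t442) (lf t0)))) (nd (nd (nd (lf t122) (lf t634)) (nd (lf t378) (lf t0))) (nd (nd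
  (lf t250) (lf t0)) (nd (lf t506) (lf t0)))))))) (nd (nd (nd (nd (nd (nd (nd (lf t0) (lf t518))
  (nd (lf t262) (lf t0))) (nd (nd (lf t134) (lf t646)) (nd (lf t390) (lf t0)))) (nd (nd (nd (lf
  t70) (lf t582)) (nd (lf t326) (lf t0))) (nd (nd (lf t198) (lf t0)) (nd (lf t454) (lf t0))))) (nd
  (nd (nd (nd (lf t0) (lf t550)) (nd (lf t294) (lf t0))) (nd (nd (lf t166) (lf t678)) (nd (lf
  t422) (lf t0)))) (nd (nd (nd (lf t102) (lf t614)) (nd (lf t358) (lf t0))) (nd (nd (lf t230) (lf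
  t0)) (nd (lf t486) (lf t0)))))) (nd (nd (nd (nd (nd (lf t0) (lf t534)) (nd (lf t278) (lf t0)))
  (nd (nd (lf t150) (lf t662)) (nd (lf t406) (lf t0)))) (nd (nd (nd (lf t86) (lf t598)) (nd (lf
  t342) (lf t0))) (nd (nd (lf t214) (lf t0)) (nd (lf t470) (lf t0))))) (nd (nd (nd (nd (lf t54)
  (lf t566)) (nd (lf t310) (lf t0))) (nd (nd (lf t182) (lf t694)) (nd (lf t438) (lf t0)))) (nd (nd
  (nd (lf t118) (lf t630)) (nd (lf t374) (lf t0))) (nd (nd (lf t246) (lf t0)) (nd (lf t502) (lf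
  t0))))))) (nd (nd (nd (nd (nd (nd (lf t0) (lf t526)) (nd (lf t270) (lf t0))) (nd (nd (lf t142)
  (lf t654)) (nd (lf t398) (lf t0)))) (nd (nd (nd (lf t78) (lf t590)) (nd (lf t334) (lf t0))) (nd
  (nd (lf t206) (lf t0)) (nd (lf t462) (lf t0))))) (nd (nd (nd (nd (lf t46) (lf t558)) (nd (lf
  t302) (lf t0))) (nd (nd (lf t174) (lf t686)) (nd (lf t430) (lf t0)))) (nd (nd (nd (lf t110) (lf
  t622)) (nd (lf t366) (lf t0))) (nd (nd (lf t238) (lf t0)) (nd (lf t494) (lf t0)))))) (nd (nd (nd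
  (nd (nd (lf t0) (lf t542)) (nd (lf t286) (lf t0))) (nd (nd (lf t158) (lf t670)) (nd (lf t414)
  (lf t0)))) (nd (nd (nd (lf t94) (lf t606)) (nd (lf t350) (lf t0))) (nd (nd (lf t222) (lf t0))
  (nd (lf t478) (lf t0))))) (nd (nd (nd (nd (lf t62) (lf t574)) (nd (lf t318) (lf t0))) (nd (nd
  (lf t190) (lf t702)) (nd (lf t446) (lf t0)))) (nd (nd (nd (lf t126) (lf t638)) (nd (lf t382) (lf
  t0))) (nd (nd (lf t254) (lf t0)) (nd (lf t510) (lf t0)))))))))) (nd (nd (nd (nd (nd (nd (nd (nd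
  (nd (lf t0) (lf t513)) (nd (lf t257) (lf t0))) (nd (nd (lf t129) (lf t641)) (nd (lf t385) (lf
  t0)))) (nd (nd (nd (lf t65) (lf t577)) (nd (lf t321) (lf t0))) (nd (nd (lf t193) (lf t0)) (nd
  (lf t449) (lf t0))))) (nd (nd (nd (nd (lf t0) (lf t545)) (nd (lf t289) (lf t0))) (nd (nd (lf
  t161) (lf t673)) (nd (lf t417) (lf t0)))) (nd (nd (nd (lf t97) (lf t609)) (nd (lf t353) (lf
  t0))) (nd (nd (lf t225) (lf t0)) (nd (lf t481) (lf t0)))))) (nd (nd (nd (nd (nd (lf t0) (lf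
  t529)) (nd (lf t273) (lf t0))) (nd (nd (lf t145) (lf t657)) (nd (lf t401) (lf t0)))) (nd (nd (nd
  (lf t81) (lf t593)) (nd (lf t337) (lf t0))) (nd (nd (lf t209) (lf t0)) (nd (lf t465) (lf t0)))))
  (nd (nd (nd (nd (lf t49) (lf t561)) (nd (lf t305) (lf t0))) (nd (nd (lf t177) (lf t689)) (nd (lf
  t433) (lf t0)))) (nd (nd (nd (lf t113) (lf t625)) (nd (lf t369) (lf t0))) (nd (nd (lf t241) (lf
  t0)) (nd (lf t497) (lf t0))))))) (nd (nd (nd (nd (nd (nd (lf t0) (lf t521)) (nd (lf t265) (lf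
  t0))) (nd (nd (lf t137) (lf t649)) (nd (lf t393) (lf t0)))) (nd (nd (nd (lf t73) (lf t585)) (nd
  (lf t329) (lf t0))) (nd (nd (lf t201) (lf t0)) (nd (lf t457) (lf t0))))) (nd (nd (nd (nd (lf t0)
  (lf t553)) (nd (lf t297) (lf t0))) (nd (nd (lf t169) (lf t681)) (nd (lf t425) (lf t0)))) (nd (nd
  (nd (lf t105) (lf t617)) (nd (lf t361) (lf t0))) (nd (nd (lf t233) (lf t0)) (nd (lf t489) (lf
  t0)))))) (nd (nd (nd (nd (nd (lf t0) (lf t537)) (nd (lf t281) (lf t0))) (nd (nd (lf t153) (lf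
  t665)) (nd (lf t409) (lf t0)))) (nd (nd (nd (lf t89) (lf t601)) (nd (lf t345) (lf t0))) (nd (nd
  (lf t217) (lf t0)) (nd (lf t473) (lf t0))))) (nd (nd (nd (nd (lf t57) (lf t569)) (nd (lf t313)
  (lf t0))) (nd (nd (lf t185) (lf t697)) (nd (lf t441) (lf t0)))) (nd (nd (nd (lf t121) (lf t633))
  (nd (lf t377) (lf t0))) (nd (nd (lf t249) (lf t0)) (nd (lf t505) (lf t0)))))))) (nd (nd (nd (nd
  (nd (nd (nd (lf t0) (lf t517)) (nd (lf t261) (lf t0))) (nd (nd (lf t133) (lf t645)) (nd (lf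
  t389) (lf t0)))) (nd (nd (nd (lf t69) (lf t581)) (nd (lf t325) (lf t0))) (nd (nd (lf t197) (lf
  t0)) (nd (lf t453) (lf t0))))) (nd (nd (nd (nd (lf t0) (lf t549)) (nd (lf t293) (lf t0))) (nd
  (nd (lf t165) (lf t677)) (nd (lf t421) (lf t0)))) (nd (nd (nd (lf t101) (lf t613)) (nd (lf t357)
  (lf t0))) (nd (nd (lf t229) (lf t0)) (nd (lf t485) (lf t0)))))) (nd (nd (nd (nd (nd (lf t0) (lf
  t533)) (nd (lf t277) (lf t0))) (nd (nd (lf t149) (lf t661)) (nd (lf t405) (lf t0)))) (nd (nd (nd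
  (lf t85) (lf t597)) (nd (lf t341) (lf t0))) (nd (nd (lf t213) (lf t0)) (nd (lf t469) (lf t0)))))
  (nd (nd (nd (nd (lf t53) (lf t565)) (nd (lf t309) (lf t0))) (nd (nd (lf t181) (lf t693)) (nd (lf
  t437) (lf t0)))) (nd (nd (nd (lf t117) (lf t629)) (nd (lf t373) (lf t0))) (nd (nd (lf t245) (lf
  t0)) (nd (lf t501) (lf t0))))))) (nd (nd (nd (nd (nd (nd (lf t0) (lf t525)) (nd (lf t269) (lf
  t0))) (nd (nd (lf t141) (lf t653)) (nd (lf t397) (lf t0)))) (nd (nd (nd (lf t77) (lf t589)) (nd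
  (lf t333) (lf t0))) (nd (nd (lf t205) (lf t0)) (nd (lf t461) (lf t0))))) (nd (nd (nd (nd (lf
  t45) (lf t557)) (nd (lf t301) (lf t0))) (nd (nd (lf t173) (lf t685)) (nd (lf t429) (lf t0))))
  (nd (nd (nd (lf t109) (lf t621)) (nd (lf t365) (lf t0))) (nd (nd (lf t237) (lf t0)) (nd (lf
  t493) (lf t0)))))) (nd (nd (nd (nd (nd (lf t0) (lf t541)) (nd (lf t285) (lf t0))) (nd (nd (lf
  t157) (lf t669)) (nd (lf t413) (lf t0)))) (nd (nd (nd (lf t93) (lf t605)) (nd (lf t349) (lf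
  t0))) (nd (nd (lf t221) (lf t0)) (nd (lf t477) (lf t0))))) (nd (nd (nd (nd (lf t61) (lf t573))
  (nd (lf t317) (lf t0))) (nd (nd (lf t189) (lf t701)) (nd (lf t445) (lf t0)))) (nd (nd (nd (lf
  t125) (lf t637)) (nd (lf t381) (lf t0))) (nd (nd (lf t253) (lf t0)) (nd (lf t509) (lf
  t0))))))))) (nd (nd (nd (nd (nd (nd (nd (nd (lf t0) (lf t515)) (nd (lf t259) (lf t0))) (nd (nd
  (lf t131) (lf t643)) (nd (lf t387) (lf t0)))) (nd (nd (nd (lf t67) (lf t579)) (nd (lf t323) (lf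
  t0))) (nd (nd (lf t195) (lf t0)) (nd (lf t451) (lf t0))))) (nd (nd (nd (nd (lf t0) (lf t547))
  (nd (lf t291) (lf t0))) (nd (nd (lf t163) (lf t675)) (nd (lf t419) (lf t0)))) (nd (nd (nd (lf
  t99) (lf t611)) (nd (lf t355) (lf t0))) (nd (nd (lf t227) (lf t0)) (nd (lf t483) (lf t0))))))
  (nd (nd (nd (nd (nd (lf t0) (lf t531)) (nd (lf t275) (lf t0))) (nd (nd (lf t147) (lf t659)) (nd
  (lf t403) (lf t0)))) (nd (nd (nd (lf t83) (lf t595)) (nd (lf t339) (lf t0))) (nd (nd (lf t211)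
  (lf t0)) (nd (lf t467) (lf t0))))) (nd (nd (nd (nd (lf t51) (lf t563)) (nd (lf t307) (lf t0)))
  (nd (nd (lf t179) (lf t691)) (nd (lf t435) (lf t0)))) (nd (nd (nd (lf t115) (lf t627)) (nd (lf
  t371) (lf t0))) (nd (nd (lf t243) (lf t0)) (nd (lf t499) (lf t0))))))) (nd (nd (nd (nd (nd (nd
  (lf t0) (lf t523)) (nd (lf t267) (lf t0))) (nd (nd (lf t139) (lf t651)) (nd (lf t395) (lf t0))))
  (nd (nd (nd (lf t75) (lf t587)) (nd (lf t331) (lf t0))) (nd (nd (lf t203) (lf t0)) (nd (lf t459)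
  (lf t0))))) (nd (nd (nd (nd (lf t0) (lf t555)) (nd (lf t299) (lf t0))) (nd (nd (lf t171) (lf
  t683)) (nd (lf t427) (lf t0)))) (nd (nd (nd (lf t107) (lf t619)) (nd (lf t363) (lf t0))) (nd (nd
  (lf t235) (lf t0)) (nd (lf t491) (lf t0)))))) (nd (nd (nd (nd (nd (lf t0) (lf t539)) (nd (lf
  t283) (lf t0))) (nd (nd (lf t155) (lf t667)) (nd (lf t411) (lf t0)))) (nd (nd (nd (lf t91) (lf
  t603)) (nd (lf t347) (lf t0))) (nd (nd (lf t219) (lf t0)) (nd (lf t475) (lf t0))))) (nd (nd (nd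
  (nd (lf t59) (lf t571)) (nd (lf t315) (lf t0))) (nd (nd (lf t187) (lf t699)) (nd (lf t443) (lf
  t0)))) (nd (nd (nd (lf t123) (lf t635)) (nd (lf t379) (lf t0))) (nd (nd (lf t251) (lf t0)) (nd
  (lf t507) (lf t0)))))))) (nd (nd (nd (nd (nd (nd (nd (lf t0) (lf t519)) (nd (lf t263) (lf t0)))
  (nd (nd (lf t135) (lf t647)) (nd (lf t391) (lf t0)))) (nd (nd (nd (lf t71) (lf t583)) (nd (lf
  t327) (lf t0))) (nd (nd (lf t199) (lf t0)) (nd (lf t455) (lf t0))))) (nd (nd (nd (nd (lf t0) (lf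
  t551)) (nd (lf t295) (lf t0))) (nd (nd (lf t167) (lf t679)) (nd (lf t423) (lf t0)))) (nd (nd (nd
  (lf t103) (lf t615)) (nd (lf t359) (lf t0))) (nd (nd (lf t231) (lf t0)) (nd (lf t487) (lf
  t0)))))) (nd (nd (nd (nd (nd (lf t0) (lf t535)) (nd (lf t279) (lf t0))) (nd (nd (lf t151) (lf
  t663)) (nd (lf t407) (lf t0)))) (nd (nd (nd (lf t87) (lf t599)) (nd (lf t343) (lf t0))) (nd (nd
  (lf t215) (lf t0)) (nd (lf t471) (lf t0))))) (nd (nd (nd (nd (lf t55) (lf t567)) (nd (lf t311)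
  (lf t0))) (nd (nd (lf t183) (lf t695)) (nd (lf t439) (lf t0)))) (nd (nd (nd (lf t119) (lf t631))
  (nd (lf t375) (lf t0))) (nd (nd (lf t247) (lf t0)) (nd (lf t503) (lf t0))))))) (nd (nd (nd (nd
  (nd (nd (lf t0) (lf t527)) (nd (lf t271) (lf t0))) (nd (nd (lf t143) (lf t655)) (nd (lf t399)
  (lf t0)))) (nd (nd (nd (lf t79) (lf t591)) (nd (lf t335) (lf t0))) (nd (nd (lf t207) (lf t0))
  (nd (lf t463) (lf t0))))) (nd (nd (nd (nd (lf t47) (lf t559)) (nd (lf t303) (lf t0))) (nd (nd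
  (lf t175) (lf t687)) (nd (lf t431) (lf t0)))) (nd (nd (nd (lf t111) (lf t623)) (nd (lf t367) (lf
  t0))) (nd (nd (lf t239) (lf t0)) (nd (lf t495) (lf t0)))))) (nd (nd (nd (nd (nd (lf t0) (lf
  t543)) (nd (lf t287) (lf t0))) (nd (nd (lf t159) (lf t671)) (nd (lf t415) (lf t0)))) (nd (nd (nd
  (lf t95) (lf t607)) (nd (lf t351) (lf t0))) (nd (nd (lf t223) (lf t0)) (nd (lf t479) (lf t0)))))
  (nd (nd (nd (nd (lf t63) (lf t575)) (nd (lf t319) (lf t0))) (nd (nd (lf t191) (lf t703)) (nd (lf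
  t447) (lf t0)))) (nd (nd (nd (lf t127) (lf t639)) (nd (lf t383) (lf t0))) (nd (nd (lf t255) (lf
  t0)) (nd (lf t511) (lf t0)))))))))))

/-- the entry number `i` -/
noncomputable def tb (i : ℕ) : VEnt := tbt.get i

/-- the recipe belonging to a list of indices -/
noncomputable def rcp (l : List ℕ) : Rc :=
  List.rec (motive := fun _ => Rc) Rc.e (fun i _ ih => Rc.c (tb i) ih) l

/-- the plane of a list of indices -/
noncomputable def mk (l : List ℕ) : VPl := ⟨acc (rcp l) vecs 0 0 0 0 0 0 0, acc_good vecs_good _⟩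

end Pool.Agent.Lib.EPS
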