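import Mathlib

/-!
# Computable enclosures of `phi (h/2) z`, `z = i / d`, in units `2 ^ (-80)`
-/

namespace Pool.Agent.Lib.EPS

/-- lower bound of `2^80 exp(-i/d)` from a lower bound `q` of `2^80 exp(-1/d)` -/
def elo (q i : Nat) : Nat := q ^ i * 2 ^ 80 / 2 ^ (80 * i)

/-- upper bound of `2^80 exp(-i/d)` from an upper bound `q` of `2^80 exp(-1/d)` -/
def ehi (q i : Nat) : Nat := q ^ i * 2 ^ 80 / 2 ^ (80 * i) + 1

/-- lower bounds of `∫_0^1 exp(-z t) t^(k-1/2) dt`, `n` steps of the recursion -/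
def jlo (d i e : Nat) : Nat → Nat → Nat
  | 0, _ => 0
  | n + 1, k => 2 * (d * e + i * jlo d i e n (k + 1)) / (d * (2 * k + 1))

/-- upper bounds of `∫_0^1 exp(-z t) t^(k-1/2) dt`, `n` steps of the recursion -/
def jhi (d i e : Nat) : Nat → Nat → Nat
  | 0, k => 2 ^ 81 / (2 * k + 1) + 1
  | n + 1, k => 2 * (d * e + i * jhi d i e n (k + 1)) / (d * (2 * k + 1)) + 1

/-- lower bounds of `phi ((h+2)/2) z, phi ((h+3)/2) z, ...` from those of `phi (h/2) z`,
`phi ((h+1)/2) z` -/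
def slo (d i e : Nat) : Nat → Nat → Nat → Nat → List Nat
  | 0, _, _, _ => []
  | n + 1, h, a, b =>
    let c := d * (2 * e + h * a) / (2 * i)
    c :: slo d i e n (h + 1) b c

/-- upper bounds of `phi ((h+2)/2) z, phi ((h+3)/2) z, ...` -/
def shi (d i e : Nat) : Nat → Nat → Nat → Nat → List Nat
  | 0, _, _, _ => []
  | n + 1, h, a, b =>
    let c := d * (2 * e + h * a) / (2 * i) + 1
    c :: shi d i e n (h + 1) b c

/-- `∑ a_m b_m` -/
def dot : List Nat → List Nat → Nat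
  | a :: as, b :: bs => a * b + dot as bs
  | _, _ => 0

/-- the list `2 e + (m+5) x_m`, `m = m0, m0+1, ...` -/
def lin5 (e : Nat) : Nat → List Nat → List Nat
  | _, [] => []
  | m, x :: xs => (2 * e + (m + 5) * x) :: lin5 e (m + 1) xs

/-- the enclosures of `phi (3/2) z, phi 2 z, ..., phi (15/2) z` (13 numbers): lower bounds;
`r` is a lower bound of `2^80 sqrt(pi/z)` -/
def phlo (d i el eh n r : Nat) : List Nat :=
  slo d i el 13 1 (r - jhi d i eh n 0) (d * el / i)

/-- upper bounds; `r` is an upper bound of `2^80 sqrt(pi/z)` -/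
def phhi (d i el eh n r : Nat) : List Nat :=
  shi d i eh 13 1 (r - jlo d i el n 0) (d * eh / i + 1)

/-- check of the root -/
def rchk (d i r : Nat) : Bool :=
  Nat.ble (r ^ 2 * i * 10 ^ 20) (d * 314159265358979323846 * 2 ^ 160)
    && Nat.ble (d * 314159265358979323847 * 2 ^ 160) ((r + 2 ^ 14) ^ 2 * i * 10 ^ 20)

/-- the check of one field of an entry; `xl, xh`: enclosures of `phi (3/2) z, phi 2 z, ...`;
`ul, uh`: enclosures of `2 exp(-z) + (m+5) phi ((m+3)/2) z` -/
def fchk (xl xh ul uh pl nl ph nh : List Nat) (D a b : Nat) : Bool :=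
  Nat.ble (a * (2 ^ 41 * D) + dot nl uh) (dot pl ul)
    && Nat.ble (dot ph xh) (b * (2 ^ 40 * D) + dot nh xl)
    && Nat.blt a (2 ^ 64) && Nat.blt b (2 ^ 64)

end Pool.Agent.Lib.EPS
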