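import Pool.Agent.Lib.EPS.Phi
import Pool.Agent.Lib.EPS.NumD

/-!
# Soundness of the enclosures of `phi (h/2) z`, `z = i / d`
-/

open MeasureTheory Set

namespace Pool.Agent.Lib.EPS

theorem div_up (m n : ℕ) (hn : 0 < n) : (m : ℝ) / n ≤ ((m / n : ℕ) : ℝ) + 1 := by
  have h1 := Nat.div_add_mod m n
  have h2 := Nat.mod_lt m hn
  have h3 : (m : ℝ) = n * ((m / n : ℕ) : ℝ) + ((m % n : ℕ) : ℝ) := by exact_mod_cast h1.symm
  have h4 : ((m % n : ℕ) : ℝ) ≤ n := by exact_mod_cast h2.le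
  have hn' : (0 : ℝ) < n := by exact_mod_cast hn
  rw [div_le_iff₀ hn']
  nlinarith

/-! ### the exponential function -/

theorem elo_le {q i : ℕ} {x : ℝ} (hq : (q : ℝ) ≤ 2 ^ 80 * Real.exp (-x)) :
    (elo q i : ℝ) ≤ 2 ^ 80 * Real.exp (-(i * x)) := by
  unfold elo
  refine Nat.cast_div_le.trans ?_
  have e1 : ((q ^ i * 2 ^ 80 : ℕ) : ℝ) = (q : ℝ) ^ i * 2 ^ 80 := by
    rw [Nat.cast_mul, Nat.cast_pow, Nat.cast_pow, Nat.cast_ofNat]
  have e2 : ((2 ^ (80 * i) : ℕ) : ℝ) = 2 ^ (80 * i) := by rw [Nat.cast_pow, Nat.cast_ofNat]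
  rw [e1, e2]
  have h1 : (q : ℝ) ^ i ≤ (2 ^ 80 * Real.exp (-x)) ^ i := pow_le_pow_left₀ (by positivity) hq i
  have h2 : Real.exp (-(i * x)) = Real.exp (-x) ^ i := by rw [← Real.exp_nat_mul]; congr 1; ring
  rw [h2, div_le_iff₀ (by positivity)]
  calc (q : ℝ) ^ i * 2 ^ 80 ≤ (2 ^ 80 * Real.exp (-x)) ^ i * 2 ^ 80 :=
        mul_le_mul_of_nonneg_right h1 (by positivity)
    _ = 2 ^ 80 * Real.exp (-x) ^ i * 2 ^ (80 * i) := by
        rw [mul_pow, pow_mul (2 : ℝ) 80 i]; ring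

theorem le_ehi {q i : ℕ} {x : ℝ} (hq : 2 ^ 80 * Real.exp (-x) ≤ (q : ℝ)) :
    2 ^ 80 * Real.exp (-(i * x)) ≤ (ehi q i : ℝ) := by
  unfold ehi
  rw [Nat.cast_add, Nat.cast_one]
  refine le_trans ?_ (div_up (q ^ i * 2 ^ 80) (2 ^ (80 * i)) (by positivity))
  have e1 : ((q ^ i * 2 ^ 80 : ℕ) : ℝ) = (q : ℝ) ^ i * 2 ^ 80 := by
    rw [Nat.cast_mul, Nat.cast_pow, Nat.cast_pow, Nat.cast_ofNat]
  have e2 : ((2 ^ (80 * i) : ℕ) : ℝ) = 2 ^ (80 * i) := by rw [Nat.cast_pow, Nat.cast_ofNat]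
  rw [e1, e2]
  have h1 : (2 ^ 80 * Real.exp (-x)) ^ i ≤ (q : ℝ) ^ i := pow_le_pow_left₀ (by positivity) hq i
  have h2 : Real.exp (-(i * x)) = Real.exp (-x) ^ i := by rw [← Real.exp_nat_mul]; congr 1; ring
  rw [h2, le_div_iff₀ (by positivity)]
  calc 2 ^ 80 * Real.exp (-x) ^ i * 2 ^ (80 * i) = (2 ^ 80 * Real.exp (-x)) ^ i * 2 ^ 80 := by
        rw [mul_pow, pow_mul (2 : ℝ) 80 i]; ring
    _ ≤ _ := mul_le_mul_of_nonneg_right h1 (by positivity)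

/-! ### the integral over `(0, 1]` -/

/-- `∫_0^1 exp(-z t) t^(k-1/2) dt` -/
noncomputable def Jk (z : ℝ) (k : ℕ) : ℝ :=
  ∫ t in Ioc (0 : ℝ) 1, t ^ (((k : ℝ) + 1 / 2) - 1) * Real.exp (-(z * t))

theorem gam_int (z : ℝ) (hz : 0 < z) (k : ℕ) :
    IntegrableOn (fun t : ℝ => t ^ (((k : ℝ) + 1 / 2) - 1) * Real.exp (-(z * t))) (Ioi 0) := by
  have h : IntegrableOn (fun t : ℝ => t ^ (((k : ℝ) + 1 / 2) - 1) * Real.exp (-z * t ^ (1 : ℝ)))
      (Ioi 0) :=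
    integrableOn_rpow_mul_exp_neg_mul_rpow (by
      have : (0 : ℝ) ≤ k := Nat.cast_nonneg k
      linarith) zero_lt_one hz
  refine h.congr_fun (fun t _ => ?_) measurableSet_Ioi
  simp only [Real.rpow_one, neg_mul]

theorem Jk_add {z : ℝ} (hz : 0 < z) (k : ℕ) :
    Jk z k + phi ((k : ℝ) + 1 / 2) z = (1 / z) ^ ((k : ℝ) + 1 / 2) * Real.Gamma ((k : ℝ) + 1 / 2) := by
  have hk : (0 : ℝ) < (k : ℝ) + 1 / 2 := by positivity
  rw [← Real.integral_rpow_mul_exp_neg_mul_Ioi hk hz]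
  have h0 := gam_int z hz k
  have hu : Ioi (0 : ℝ) = Ioc 0 1 ∪ Ioi 1 := (Ioc_union_Ioi_eq_Ioi zero_le_one).symm
  have hd : Disjoint (Ioc (0 : ℝ) 1) (Ioi 1) := by
    rw [Set.disjoint_left]
    intro x hx hx'
    exact absurd hx.2 (not_le.mpr hx')
  have i1 : IntegrableOn (fun t : ℝ => t ^ (((k : ℝ) + 1 / 2) - 1) * Real.exp (-(z * t)))
      (Ioc 0 1) := h0.mono_set (by rw [hu]; exact subset_union_left)
  have i2 : IntegrableOn (fun t : ℝ => t ^ (((k : ℝ) + 1 / 2) - 1) * Real.exp (-(z * t)))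
      (Ioi 1) := h0.mono_set (by rw [hu]; exact subset_union_right)
  rw [hu, setIntegral_union hd measurableSet_Ioi i1 i2]
  unfold Jk phi
  congr 1
  refine setIntegral_congr_fun measurableSet_Ioi fun t _ => ?_
  ring

theorem Jk_nonneg (z : ℝ) (k : ℕ) : 0 ≤ Jk z k := by
  refine setIntegral_nonneg measurableSet_Ioc fun t ht => ?_
  exact mul_nonneg (Real.rpow_nonneg ht.1.le _) (Real.exp_pos _).le

theorem Jk_le {z : ℝ} (hz : 0 < z) (k : ℕ) : Jk z k ≤ 2 / (2 * (k : ℝ) + 1) := by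
  have hk : (0 : ℝ) < (k : ℝ) + 1 / 2 := by positivity
  have i2 : IntervalIntegrable (fun t : ℝ => t ^ (((k : ℝ) + 1 / 2) - 1)) volume 0 1 :=
    intervalIntegral.intervalIntegrable_rpow' (by linarith)
  have i3 : IntegrableOn (fun t : ℝ => t ^ (((k : ℝ) + 1 / 2) - 1)) (Ioc 0 1) :=
    (intervalIntegrable_iff_integrableOn_Ioc_of_le zero_le_one).mp i2
  have i1 : IntegrableOn (fun t : ℝ => t ^ (((k : ℝ) + 1 / 2) - 1) * Real.exp (-(z * t)))
      (Ioc 0 1) := (gam_int z hz k).mono_set fun x hx => hx.1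
  have h1 : Jk z k ≤ ∫ t in Ioc (0 : ℝ) 1, t ^ (((k : ℝ) + 1 / 2) - 1) := by
    refine setIntegral_mono_on i1 i3 measurableSet_Ioc fun t ht => ?_
    have h2 : Real.exp (-(z * t)) ≤ 1 := Real.exp_le_one_iff.mpr (by nlinarith [ht.1])
    have h3 : 0 ≤ t ^ (((k : ℝ) + 1 / 2) - 1) := Real.rpow_nonneg ht.1.le _
    nlinarith
  refine h1.trans_eq ?_
  rw [← intervalIntegral.integral_of_le zero_le_one, integral_rpow (Or.inl (by linarith))]
  rw [Real.one_rpow, Real.zero_rpow (by linarith)]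
  have : (2 * (k : ℝ) + 1) ≠ 0 := by positivity
  rw [show (k : ℝ) + 1 / 2 - 1 + 1 = (2 * k + 1) / 2 by ring]
  field_simp
  ring

theorem Jk_rec {z : ℝ} (hz : 0 < z) (k : ℕ) :
    ((k : ℝ) + 1 / 2) * Jk z k = Real.exp (-z) + z * Jk z (k + 1) := by
  have h1 := Jk_add hz k
  have h2 := Jk_add hz (k + 1)
  have h3 := phi_rec ((k : ℝ) + 1 / 2) hz
  have hk : (0 : ℝ) < (k : ℝ) + 1 / 2 := by positivity
  push_cast at h2
  rw [show (k : ℝ) + 1 + 1 / 2 = (k : ℝ) + 1 / 2 + 1 by ring, Real.Gamma_add_one hk.ne',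
    Real.rpow_add (by positivity), Real.rpow_one] at h2
  have h4 : z * (Jk z (k + 1) + phi ((k : ℝ) + 1 / 2 + 1) z) =
      ((k : ℝ) + 1 / 2) * ((1 / z) ^ ((k : ℝ) + 1 / 2) * Real.Gamma ((k : ℝ) + 1 / 2)) := by
    rw [h2]
    field_simp
  rw [← h1] at h4
  linarith

theorem phi_half {z : ℝ} (hz : 0 < z) : phi (1 / 2) z = √(Real.pi / z) - Jk z 0 := by
  have h1 := Jk_add hz 0
  simp only [Nat.cast_zero, zero_add] at h1
  rw [Real.Gamma_one_half_eq, ← Real.sqrt_eq_rpow, ← Real.sqrt_mul (by positivity)] at h1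
  rw [show 1 / z * Real.pi = Real.pi / z by ring] at h1
  linarith

theorem jlo_le {d i e : ℕ} (hd : 0 < d) (hi : 0 < i)
    (he : (e : ℝ) ≤ 2 ^ 80 * Real.exp (-((i : ℝ) / d))) (n : ℕ) :
    ∀ k : ℕ, (jlo d i e n k : ℝ) ≤ 2 ^ 80 * Jk ((i : ℝ) / d) k := by
  have hd' : (0 : ℝ) < d := by exact_mod_cast hd
  have hi' : (0 : ℝ) < i := by exact_mod_cast hi
  induction n with
  | zero =>
    intro k
    have := Jk_nonneg ((i : ℝ) / d) k
    simp only [jlo, Nat.cast_zero]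
    positivity
  | succ n ih =>
    intro k
    have h1 := ih (k + 1)
    have h2 := Jk_rec (z := (i : ℝ) / d) (by positivity) k
    unfold jlo
    refine Nat.cast_div_le.trans ?_
    push_cast
    rw [div_le_iff₀ (by positivity)]
    have h3 : (i : ℝ) / d * Jk ((i : ℝ) / d) (k + 1) * d = i * Jk ((i : ℝ) / d) (k + 1) := by
      field_simp
    have h4 : (i : ℝ) * (jlo d i e n (k + 1) : ℝ) ≤
        i * (2 ^ 80 * Jk ((i : ℝ) / d) (k + 1)) := mul_le_mul_of_nonneg_left h1 hi'.le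
    have h5 : (d : ℝ) * e ≤ d * (2 ^ 80 * Real.exp (-((i : ℝ) / d))) :=
      mul_le_mul_of_nonneg_left he hd'.le
    have h6 : 2 ^ 80 * Jk ((i : ℝ) / d) k * (d * (2 * k + 1)) =
        2 * (d * (2 ^ 80 * Real.exp (-((i : ℝ) / d))) +
          i * (2 ^ 80 * Jk ((i : ℝ) / d) (k + 1))) := by
      linear_combination 2 ^ 80 * 2 * d * h2 + 2 ^ 80 * 2 * h3
    rw [h6]
    linarith

theorem le_jhi {d i e : ℕ} (hd : 0 < d) (hi : 0 < i)
    (he : 2 ^ 80 * Real.exp (-((i : ℝ) / d)) ≤ (e : ℝ)) (n : ℕ) :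
    ∀ k : ℕ, 2 ^ 80 * Jk ((i : ℝ) / d) k ≤ (jhi d i e n k : ℝ) := by
  have hd' : (0 : ℝ) < d := by exact_mod_cast hd
  have hi' : (0 : ℝ) < i := by exact_mod_cast hi
  induction n with
  | zero =>
    intro k
    have h1 := Jk_le (z := (i : ℝ) / d) (by positivity) k
    have h2 := div_up (2 ^ 81) (2 * k + 1) (by positivity)
    unfold jhi
    push_cast at h2 ⊢
    refine le_trans ?_ h2
    calc (2 : ℝ) ^ 80 * Jk ((i : ℝ) / d) k ≤ 2 ^ 80 * (2 / (2 * (k : ℝ) + 1)) :=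
          mul_le_mul_of_nonneg_left h1 (by positivity)
      _ = _ := by ring
  | succ n ih =>
    intro k
    have h1 := ih (k + 1)
    have h2 := Jk_rec (z := (i : ℝ) / d) (by positivity) k
    unfold jhi
    push_cast
    refine le_trans ?_ (div_up _ _ (by positivity))
    push_cast
    rw [le_div_iff₀ (by positivity)]
    have h3 : (i : ℝ) / d * Jk ((i : ℝ) / d) (k + 1) * d = i * Jk ((i : ℝ) / d) (k + 1) := by
      field_simp
    have h4 : i * (2 ^ 80 * Jk ((i : ℝ) / d) (k + 1)) ≤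
        (i : ℝ) * (jhi d i e n (k + 1) : ℝ) := mul_le_mul_of_nonneg_left h1 hi'.le
    have h5 : d * (2 ^ 80 * Real.exp (-((i : ℝ) / d))) ≤ (d : ℝ) * e :=
      mul_le_mul_of_nonneg_left he hd'.le
    have h6 : 2 ^ 80 * Jk ((i : ℝ) / d) k * (d * (2 * k + 1)) =
        2 * (d * (2 ^ 80 * Real.exp (-((i : ℝ) / d))) +
          i * (2 ^ 80 * Jk ((i : ℝ) / d) (k + 1))) := by
      linear_combination 2 ^ 80 * 2 * d * h2 + 2 ^ 80 * 2 * h3
    rw [h6]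
    linarith

/-! ### the root -/

theorem rchk_sound {d i r : ℕ} (hd : 0 < d) (hi : 0 < i) (h : rchk d i r = true) :
    (r : ℝ) ≤ 2 ^ 80 * √(Real.pi / ((i : ℝ) / d)) ∧
      2 ^ 80 * √(Real.pi / ((i : ℝ) / d)) ≤ ((r + 2 ^ 14 : ℕ) : ℝ) := by
  unfold rchk at h
  rw [Bool.and_eq_true, Nat.ble_eq, Nat.ble_eq] at h
  obtain ⟨h1, h2⟩ := h
  have hd' : (0 : ℝ) < d := by exact_mod_cast hd
  have hi' : (0 : ℝ) < i := by exact_mod_cast hi
  have p1 := Real.pi_gt_d20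
  have p2 := Real.pi_lt_d20
  have e0 : (2 : ℝ) ^ 80 * √(Real.pi / ((i : ℝ) / d)) =
      √(2 ^ 160 * (Real.pi / ((i : ℝ) / d))) := by
    rw [Real.sqrt_mul (by positivity), show (2 : ℝ) ^ 160 = (2 ^ 80) ^ 2 by norm_num,
      Real.sqrt_sq (by positivity)]
  rw [e0]
  have h1' : (r : ℝ) ^ 2 * i * 10 ^ 20 ≤ d * 314159265358979323846 * 2 ^ 160 := by
    exact_mod_cast h1
  have h2' : (d : ℝ) * 314159265358979323847 * 2 ^ 160 ≤ ((r + 2 ^ 14 : ℕ) : ℝ) ^ 2 * i * 10 ^ 20 := by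
    exact_mod_cast h2
  constructor
  · refine Real.le_sqrt_of_sq_le ?_
    rw [show (2 : ℝ) ^ 160 * (Real.pi / ((i : ℝ) / d)) = 2 ^ 160 * Real.pi * d / i by field_simp,
      le_div_iff₀ hi']
    have h3 : (314159265358979323846 : ℝ) ≤ 10 ^ 20 * Real.pi := by
      norm_num at p1 ⊢
      linarith
    have h4 : (d : ℝ) * 314159265358979323846 * 2 ^ 160 ≤ d * (10 ^ 20 * Real.pi) * 2 ^ 160 :=
      mul_le_mul_of_nonneg_right (mul_le_mul_of_nonneg_left h3 hd'.le) (by positivity)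
    nlinarith
  · refine Real.sqrt_le_iff.mpr ⟨by positivity, ?_⟩
    rw [show (2 : ℝ) ^ 160 * (Real.pi / ((i : ℝ) / d)) = 2 ^ 160 * Real.pi * d / i by field_simp,
      div_le_iff₀ hi']
    have h3 : 10 ^ 20 * Real.pi ≤ (314159265358979323847 : ℝ) := by
      norm_num at p2 ⊢
      linarith
    have h4 : d * (10 ^ 20 * Real.pi) * 2 ^ 160 ≤ (d : ℝ) * 314159265358979323847 * 2 ^ 160 :=
      mul_le_mul_of_nonneg_right (mul_le_mul_of_nonneg_left h3 hd'.le) (by positivity)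
    nlinarith

end Pool.Agent.Lib.EPS
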