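import Pool.Agent.Lib.EPS.Bern
import Pool.Agent.Lib.EPS.Coef

/-!
# The lower and upper polynomials in terms of their coefficient lists
-/

namespace Pool.Agent.Lib.EPS

/-- the weights of the remainder -/
noncomputable def gam : ℕ → ℝ
  | 1 => 1 / 10
  | 8 => 1 / 10
  | _ => 0

/-- the lower polynomials -/
noncomputable def lopol (k : ℕ) (r : ℝ) : ℝ := cpol k r - gam k * ((r - 1) ^ 10 + (3 / 7) ^ 10)

/-- the upper polynomials -/
noncomputable def hipol (k : ℕ) (r : ℝ) : ℝ := cpol k r + gam k * ((r - 1) ^ 10 + (3 / 7) ^ 10)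

theorem gam_nonneg (k : ℕ) : 0 ≤ gam k := by
  unfold gam
  split <;> norm_num

theorem lopol_eq {k : ℕ} (hk : k < 10) (x : ℝ) :
    lopol k (7 / 10 * x) * (7 / 10 * x) = ∑ m ∈ Finset.range 11,
      (((lp k).getD m 0 : ℝ) - ((ln k).getD m 0 : ℝ)) / (den : ℝ) * x ^ (m + 1) := by
  interval_cases k <;>
  · simp only [lopol, cpol, gam, lp, ln, den, Finset.sum_range_succ, Finset.sum_range_zero,
      List.getD_cons_zero, List.getD_cons_succ]
    push_cast
    ring

theorem hipol_eq {k : ℕ} (hk : k < 10) (x : ℝ) :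
    hipol k (7 / 10 * x) * (7 / 10 * x) = ∑ m ∈ Finset.range 11,
      (((hp k).getD m 0 : ℝ) - ((hn k).getD m 0 : ℝ)) / (den : ℝ) * x ^ (m + 1) := by
  interval_cases k <;>
  · simp only [hipol, cpol, gam, hp, hn, den, Finset.sum_range_succ, Finset.sum_range_zero,
      List.getD_cons_zero, List.getD_cons_succ]
    push_cast
    ring

end Pool.Agent.Lib.EPS
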