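import Pool.Agent.Lib.EPS.Phi
import Pool.Agent.Lib.EPS.Pol

/-!
# The analytic half of the table: supporting lines of `phi s` in Bernstein form
-/

open MeasureTheory Set

namespace Pool.Agent.Lib.EPS

/-- the coefficients of the lower polynomials -/
noncomputable def cl (k m : ℕ) : ℝ := (((lp k).getD m 0 : ℝ) - ((ln k).getD m 0 : ℝ)) / (den : ℝ)

/-- the coefficients of the upper polynomials -/
noncomputable def ch (k m : ℕ) : ℝ := (((hp k).getD m 0 : ℝ) - ((hn k).getD m 0 : ℝ)) / (den : ℝ)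

/-- constant term of the supporting line at `z`, field `k` -/
noncomputable def al (k : ℕ) (z : ℝ) : ℝ :=
  ∑ m ∈ Finset.range 11, cl k m * (phi (((m : ℝ) + 3) / 2) z + z * phi (((m : ℝ) + 5) / 2) z)

/-- slope of the supporting line at `z`, field `k` -/
noncomputable def be (k : ℕ) (z : ℝ) : ℝ :=
  ∑ m ∈ Finset.range 11, ch k m * phi (((m : ℝ) + 5) / 2) z

/-- upper bound of the value at `z`, field `k` -/
noncomputable def up (k : ℕ) (z : ℝ) : ℝ :=
  ∑ m ∈ Finset.range 11, ch k m * phi (((m : ℝ) + 3) / 2) z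

theorem sum_bern_gam (y : ℝ) : ∑ k ∈ Finset.range 10, bern k y * gam k =
    (9 * y * (1 - y) ^ 8 + 9 * y ^ 8 * (1 - y)) / 10 := by
  simp only [Finset.sum_range_succ, Finset.sum_range_zero, bern, gam, Nat.choose]
  norm_num
  ring

theorem rpow_bounds {u r : ℝ} (h0 : 0 ≤ u) (h9 : u ≤ 9) (hr : 7 / 10 ≤ r) :
    ∑ k ∈ Finset.range 10, bern k (u / 9) * lopol k r ≤ r ^ u ∧
      r ^ u ≤ ∑ k ∈ Finset.range 10, bern k (u / 9) * hipol k r := by
  have h1 := interp_pw h0 h9 hr
  have hy0 : 0 ≤ u / 9 := by positivity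
  have hy1 : u / 9 ≤ 1 := by linarith
  have h2 := abs_gch_ten_le hy0 hy1
  rw [← sum_bern_gam, show 9 * (u / 9) = u by ring] at h2
  have h3 := newton_eq_bern (u / 9) r
  rw [show 9 * (u / 9) = u by ring] at h3
  set e : ℝ := (r - 1) ^ 10 + (3 / 7) ^ 10 with he
  have he0 : 0 ≤ e := by
    have : 0 ≤ (r - 1) ^ 10 := by positivity
    positivity
  have h4 : |gch u 10| * e ≤ (∑ k ∈ Finset.range 10, bern k (u / 9) * gam k) * e :=
    mul_le_mul_of_nonneg_right h2 he0
  have h5 := abs_le.mp (h1.trans h4)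
  rw [h3] at h5
  have e1 : ∑ k ∈ Finset.range 10, bern k (u / 9) * lopol k r =
      (∑ k ∈ Finset.range 10, bern k (u / 9) * cpol k r) -
        (∑ k ∈ Finset.range 10, bern k (u / 9) * gam k) * e := by
    rw [Finset.sum_mul, ← Finset.sum_sub_distrib]
    refine Finset.sum_congr rfl fun k _ => ?_
    unfold lopol
    ring
  have e2 : ∑ k ∈ Finset.range 10, bern k (u / 9) * hipol k r =
      (∑ k ∈ Finset.range 10, bern k (u / 9) * cpol k r) +
        (∑ k ∈ Finset.range 10, bern k (u / 9) * gam k) * e := by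
    rw [Finset.sum_mul, ← Finset.sum_add_distrib]
    refine Finset.sum_congr rfl fun k _ => ?_
    unfold hipol
    ring
  rw [e1, e2]
  constructor
  · linarith [h5.1]
  · linarith [h5.2]

/-- the kernel of `phi ((m+3)/2) z` -/
noncomputable def K (z : ℝ) (m : ℕ) (t : ℝ) : ℝ :=
  Real.exp (-(z * t)) * t ^ ((((m : ℝ) + 3) / 2) - 1)

theorem K_int {z : ℝ} (hz : 0 < z) (m : ℕ) : IntegrableOn (K z m) (Ioi 1) := phi_int _ hz

theorem integral_K (z : ℝ) (m : ℕ) : ∫ t in Ioi (1 : ℝ), K z m t = phi (((m : ℝ) + 3) / 2) z := rfl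

theorem integral_K2 (z : ℝ) (m : ℕ) :
    ∫ t in Ioi (1 : ℝ), K z (m + 2) t = phi (((m : ℝ) + 5) / 2) z := by
  rw [integral_K]
  congr 1
  push_cast
  ring

theorem K_eq {z t : ℝ} (ht : 1 < t) (m : ℕ) :
    K z m t = Real.exp (-(z * t)) * (√t) ^ (m + 1) := by
  unfold K
  congr 1
  have h0 : 0 < t := by linarith
  rw [Real.sqrt_eq_rpow, ← Real.rpow_natCast, ← Real.rpow_mul h0.le]
  congr 1
  push_cast
  ring

theorem K_succ {z t : ℝ} (ht : 1 < t) (m : ℕ) : K z (m + 2) t = t * K z m t := by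
  rw [K_eq ht, K_eq ht]
  have h0 : 0 ≤ t := by linarith
  have h1 : √t ^ (m + 2 + 1) = √t ^ (m + 1) * (√t * √t) := by ring
  rw [h1, Real.mul_self_sqrt h0]
  ring

/-- the weight in terms of `√t` -/
theorem weight {s t : ℝ} (ht : 1 < t) :
    (7 / 10 : ℝ) ^ (2 * s - 2) * t ^ (s - 1) = (7 / 10 * √t) * (7 / 10 * √t) ^ (2 * s - 3) := by
  have h0 : 0 < t := by linarith
  have h1 : 0 < √t := Real.sqrt_pos.mpr h0
  have h2 : 0 < 7 / 10 * √t := by positivity
  have h3 : t ^ (s - 1) = √t ^ (2 * s - 2) := by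
    rw [Real.sqrt_eq_rpow, ← Real.rpow_mul h0.le]
    congr 1
    ring
  rw [h3, ← Real.mul_rpow (by norm_num) h1.le,
    show (2 * s - 2 : ℝ) = 1 + (2 * s - 3) by ring, Real.rpow_add h2, Real.rpow_one]

theorem sqrt_ge {t : ℝ} (ht : 1 < t) : (7 / 10 : ℝ) ≤ 7 / 10 * √t := by
  have : 1 ≤ √t := Real.one_le_sqrt.mpr ht.le
  linarith

theorem lo_sum {z t : ℝ} (ht : 1 < t) {k : ℕ} (hk : k < 10) :
    Real.exp (-(z * t)) * (lopol k (7 / 10 * √t) * (7 / 10 * √t)) =
      ∑ m ∈ Finset.range 11, cl k m * K z m t := by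
  rw [lopol_eq hk, Finset.mul_sum]
  refine Finset.sum_congr rfl fun m _ => ?_
  rw [K_eq ht]
  unfold cl
  ring

theorem hi_sum {z t : ℝ} (ht : 1 < t) {k : ℕ} (hk : k < 10) :
    Real.exp (-(z * t)) * (hipol k (7 / 10 * √t) * (7 / 10 * √t)) =
      ∑ m ∈ Finset.range 11, ch k m * K z m t := by
  rw [hipol_eq hk, Finset.mul_sum]
  refine Finset.sum_congr rfl fun m _ => ?_
  rw [K_eq ht]
  unfold ch
  ring

/-- the minorant -/
noncomputable def Lf (y z z0 t : ℝ) : ℝ :=
  ∑ k ∈ Finset.range 10, bern k y * ∑ m ∈ Finset.range 11,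
    (cl k m * (K z0 m t + z0 * K z0 (m + 2) t) - z * (ch k m * K z0 (m + 2) t))

theorem Lf_int (y z : ℝ) {z0 : ℝ} (h0 : 0 < z0) : IntegrableOn (Lf y z z0) (Ioi 1) := by
  unfold Lf
  refine integrable_finsetSum _ fun k _ => Integrable.const_mul ?_ _
  refine integrable_finsetSum _ fun m _ => ?_
  exact (((K_int h0 m).add ((K_int h0 (m + 2)).const_mul _)).const_mul _).sub
    (((K_int h0 (m + 2)).const_mul _).const_mul _)

theorem Lf_integral (y z : ℝ) {z0 : ℝ} (h0 : 0 < z0) :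
    ∫ t in Ioi (1 : ℝ), Lf y z z0 t =
      ∑ k ∈ Finset.range 10, bern k y * (al k z0 - be k z0 * z) := by
  unfold Lf
  have i0 : ∀ k m : ℕ, IntegrableOn (fun t => cl k m * (K z0 m t + z0 * K z0 (m + 2) t) -
      z * (ch k m * K z0 (m + 2) t)) (Ioi 1) := fun k m =>
    (((K_int h0 m).add ((K_int h0 (m + 2)).const_mul _)).const_mul _).sub
      (((K_int h0 (m + 2)).const_mul _).const_mul _)
  rw [integral_finset_sum _ fun k _ =>
    (integrable_finsetSum _ fun m _ => i0 k m).const_mul _]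
  refine Finset.sum_congr rfl fun k _ => ?_
  rw [integral_const_mul, integral_finset_sum _ fun m _ => i0 k m]
  congr 1
  unfold al be
  rw [Finset.sum_mul, ← Finset.sum_sub_distrib]
  refine Finset.sum_congr rfl fun m _ => ?_
  have j1 : IntegrableOn (fun t => cl k m * (K z0 m t + z0 * K z0 (m + 2) t)) (Ioi 1) :=
    ((K_int h0 m).add ((K_int h0 (m + 2)).const_mul _)).const_mul _
  have j2 : IntegrableOn (fun t => z * (ch k m * K z0 (m + 2) t)) (Ioi 1) :=
    ((K_int h0 (m + 2)).const_mul _).const_mul _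
  have j3 : IntegrableOn (fun t => z0 * K z0 (m + 2) t) (Ioi 1) := (K_int h0 (m + 2)).const_mul _
  rw [integral_sub j1 j2, integral_const_mul, integral_const_mul, integral_const_mul,
    integral_add (K_int h0 m) j3, integral_const_mul, integral_K, integral_K2]
  ring

/-- **supporting lines**: the analytic half of the table -/
theorem tab_real {s z z0 : ℝ} (hs : 3 / 2 ≤ s) (hs' : s ≤ 6) (hz : 0 < z) (h0 : 0 < z0) :
    ∑ k ∈ Finset.range 10, bern k ((2 * s - 3) / 9) * (al k z0 - be k z0 * z) ≤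
      (7 / 10 : ℝ) ^ (2 * s - 2) * phi s z := by
  rw [← Lf_integral _ _ h0]
  unfold phi
  rw [← integral_const_mul]
  refine setIntegral_mono_on (Lf_int _ _ h0) ((phi_int s hz).const_mul _) measurableSet_Ioi
    fun t ht => ?_
  have ht1 : (1 : ℝ) < t := ht
  have ht0 : 0 < t := by linarith
  set y : ℝ := (2 * s - 3) / 9 with hy
  set r : ℝ := 7 / 10 * √t with hr
  have hr7 : 7 / 10 ≤ r := sqrt_ge ht1
  have hr0 : 0 < r := by linarith
  obtain ⟨b1, b2⟩ := rpow_bounds (u := 2 * s - 3) (by linarith) (by linarith) hr7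
  rw [← hy] at b1 b2
  set R : ℝ := r ^ (2 * s - 3) with hR
  have hR0 : 0 < R := Real.rpow_pos_of_pos hr0 _
  -- the minorant in closed form
  have hL : Lf y z z0 t = Real.exp (-(z0 * t)) * (1 + z0 * t) * r *
      (∑ k ∈ Finset.range 10, bern k y * lopol k r) - z * (Real.exp (-(z0 * t)) * t * r *
      (∑ k ∈ Finset.range 10, bern k y * hipol k r)) := by
    unfold Lf
    rw [Finset.mul_sum, Finset.mul_sum, Finset.mul_sum, ← Finset.sum_sub_distrib]
    refine Finset.sum_congr rfl fun k hk => ?_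
    have hk' := Finset.mem_range.mp hk
    have e1 : ∑ m ∈ Finset.range 11, (cl k m * (K z0 m t + z0 * K z0 (m + 2) t) -
        z * (ch k m * K z0 (m + 2) t)) = (1 + z0 * t) * (∑ m ∈ Finset.range 11, cl k m * K z0 m t)
        - z * (t * ∑ m ∈ Finset.range 11, ch k m * K z0 m t) := by
      rw [Finset.mul_sum, Finset.mul_sum, Finset.mul_sum, ← Finset.sum_sub_distrib]
      refine Finset.sum_congr rfl fun m _ => ?_
      rw [K_succ ht1]
      ring
    rw [e1, ← lo_sum ht1 hk', ← hi_sum ht1 hk', ← hr]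
    ring
  have hw : (7 / 10 : ℝ) ^ (2 * s - 2) * (Real.exp (-(z * t)) * t ^ (s - 1)) =
      Real.exp (-(z * t)) * (r * R) := by
    rw [hR, hr, ← weight ht1]
    ring
  rw [hL, hw]
  have h4 : (z0 - z) * t + 1 ≤ Real.exp ((z0 - z) * t) := Real.add_one_le_exp _
  have h5 : 0 < Real.exp (-(z0 * t)) := Real.exp_pos _
  have h3 : Real.exp (-(z * t)) = Real.exp (-(z0 * t)) * Real.exp ((z0 - z) * t) := by
    rw [← Real.exp_add]; congr 1; ring
  have h6 : Real.exp (-(z0 * t)) * ((z0 - z) * t + 1) ≤ Real.exp (-(z * t)) := by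
    rw [h3]; exact mul_le_mul_of_nonneg_left h4 h5.le
  have h7 : Real.exp (-(z0 * t)) * ((z0 - z) * t + 1) * (r * R) ≤
      Real.exp (-(z * t)) * (r * R) := mul_le_mul_of_nonneg_right h6 (by positivity)
  have h8 : Real.exp (-(z0 * t)) * (1 + z0 * t) * r *
      (∑ k ∈ Finset.range 10, bern k y * lopol k r) ≤
      Real.exp (-(z0 * t)) * (1 + z0 * t) * r * R :=
    mul_le_mul_of_nonneg_left b1 (by positivity)
  have h9 : z * (Real.exp (-(z0 * t)) * t * r * R) ≤ z * (Real.exp (-(z0 * t)) * t * r *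
      (∑ k ∈ Finset.range 10, bern k y * hipol k r)) :=
    mul_le_mul_of_nonneg_left (mul_le_mul_of_nonneg_left b2 (by positivity)) hz.le
  have e3 : Real.exp (-(z0 * t)) * (1 + z0 * t) * r * R - z * (Real.exp (-(z0 * t)) * t * r * R) =
      Real.exp (-(z0 * t)) * ((z0 - z) * t + 1) * (r * R) := by ring
  linarith

/-- upper bound of the value -/
theorem up_real {s z : ℝ} (hs : 3 / 2 ≤ s) (hs' : s ≤ 6) (hz : 0 < z) :
    (7 / 10 : ℝ) ^ (2 * s - 2) * phi s z ≤
      ∑ k ∈ Finset.range 10, bern k ((2 * s - 3) / 9) * up k z := by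
  have i0 : ∀ k m : ℕ, IntegrableOn (fun t => ch k m * K z m t) (Ioi 1) := fun k m =>
    (K_int hz m).const_mul _
  have e0 : ∑ k ∈ Finset.range 10, bern k ((2 * s - 3) / 9) * up k z =
      ∫ t in Ioi (1 : ℝ), ∑ k ∈ Finset.range 10, bern k ((2 * s - 3) / 9) *
        ∑ m ∈ Finset.range 11, ch k m * K z m t := by
    rw [integral_finset_sum _ fun k _ =>
      (integrable_finsetSum _ fun m _ => i0 k m).const_mul _]
    refine Finset.sum_congr rfl fun k _ => ?_
    rw [integral_const_mul, integral_finset_sum _ fun m _ => i0 k m]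
    congr 1
    unfold up
    refine Finset.sum_congr rfl fun m _ => ?_
    rw [integral_const_mul, integral_K]
  rw [e0]
  unfold phi
  rw [← integral_const_mul]
  refine setIntegral_mono_on ((phi_int s hz).const_mul _)
    (integrable_finsetSum _ fun k _ => (integrable_finsetSum _ fun m _ => i0 k m).const_mul _)
    measurableSet_Ioi fun t ht => ?_
  have ht1 : (1 : ℝ) < t := ht
  have hr7 : 7 / 10 ≤ 7 / 10 * √t := sqrt_ge ht1
  have hr0 : 0 < 7 / 10 * √t := by linarith
  obtain ⟨-, b2⟩ := rpow_bounds (u := 2 * s - 3) (by linarith) (by linarith) hr7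
  have hw : (7 / 10 : ℝ) ^ (2 * s - 2) * (Real.exp (-(z * t)) * t ^ (s - 1)) =
      Real.exp (-(z * t)) * ((7 / 10 * √t) * (7 / 10 * √t) ^ (2 * s - 3)) := by
    rw [← weight ht1]
    ring
  rw [hw]
  have h5 : 0 < Real.exp (-(z * t)) := Real.exp_pos _
  refine (mul_le_mul_of_nonneg_left (mul_le_mul_of_nonneg_left b2 hr0.le) h5.le).trans_eq ?_
  rw [Finset.mul_sum, Finset.mul_sum]
  refine Finset.sum_congr rfl fun k hk => ?_
  rw [← hi_sum ht1 (Finset.mem_range.mp hk)]
  ring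

end Pool.Agent.Lib.EPS
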