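import Pool.Agent.Lib.EPS.NumA
import Pool.Agent.Lib.EPS.TabA

/-!
# Soundness of the numerical check of the table
-/

open MeasureTheory Set

namespace Pool.Agent.Lib.EPS

theorem phi_step {d i : ℕ} (hd : 0 < d) (hi : 0 < i) (h : ℕ) :
    phi (((h : ℝ) + 2) / 2) ((i : ℝ) / d) =
      d * (2 * Real.exp (-((i : ℝ) / d)) + h * phi ((h : ℝ) / 2) ((i : ℝ) / d)) / (2 * i) := by
  have hd' : (0 : ℝ) < d := by exact_mod_cast hd
  have hi' : (0 : ℝ) < i := by exact_mod_cast hi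
  have h1 := phi_rec ((h : ℝ) / 2) (z := (i : ℝ) / d) (by positivity)
  rw [show ((h : ℝ) + 2) / 2 = (h : ℝ) / 2 + 1 by ring, eq_div_iff (by positivity)]
  have h2 : (i : ℝ) / d * phi ((h : ℝ) / 2 + 1) ((i : ℝ) / d) * d =
      i * phi ((h : ℝ) / 2 + 1) ((i : ℝ) / d) := by field_simp
  linear_combination 2 * d * h1 - 2 * h2

theorem slo_length (d i e : ℕ) (n : ℕ) : ∀ h a b : ℕ, (slo d i e n h a b).length = n := by
  induction n with
  | zero => intro h a b; rfl
  | succ n ih => intro h a b; simp only [slo, List.length_cons, ih]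

theorem shi_length (d i e : ℕ) (n : ℕ) : ∀ h a b : ℕ, (shi d i e n h a b).length = n := by
  induction n with
  | zero => intro h a b; rfl
  | succ n ih => intro h a b; simp only [shi, List.length_cons, ih]

theorem slo_le {d i e : ℕ} (hd : 0 < d) (hi : 0 < i)
    (he : (e : ℝ) ≤ 2 ^ 80 * Real.exp (-((i : ℝ) / d))) (n : ℕ) :
    ∀ h a b : ℕ, (a : ℝ) ≤ 2 ^ 80 * phi ((h : ℝ) / 2) ((i : ℝ) / d) →
      (b : ℝ) ≤ 2 ^ 80 * phi (((h : ℝ) + 1) / 2) ((i : ℝ) / d) → ∀ j < n,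
      ((slo d i e n h a b).getD j 0 : ℝ) ≤ 2 ^ 80 * phi (((h : ℝ) + 2 + j) / 2) ((i : ℝ) / d) := by
  have hd' : (0 : ℝ) < d := by exact_mod_cast hd
  have hi' : (0 : ℝ) < i := by exact_mod_cast hi
  induction n with
  | zero => intro h a b _ _ j hj; omega
  | succ n ih =>
    intro h a b ha hb j hj
    have hc : ((d * (2 * e + h * a) / (2 * i) : ℕ) : ℝ) ≤
        2 ^ 80 * phi (((h : ℝ) + 2) / 2) ((i : ℝ) / d) := by
      refine Nat.cast_div_le.trans ?_
      rw [phi_step hd hi h]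
      push_cast
      rw [← mul_div_assoc]
      refine div_le_div_of_nonneg_right ?_ (by positivity)
      have h1 : (h : ℝ) * a ≤ h * (2 ^ 80 * phi ((h : ℝ) / 2) ((i : ℝ) / d)) :=
        mul_le_mul_of_nonneg_left ha (Nat.cast_nonneg h)
      have h2 : (d : ℝ) * (2 * e + h * a) ≤ d * (2 * (2 ^ 80 * Real.exp (-((i : ℝ) / d))) +
          h * (2 ^ 80 * phi ((h : ℝ) / 2) ((i : ℝ) / d))) :=
        mul_le_mul_of_nonneg_left (by linarith) hd'.le
      refine h2.trans_eq ?_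
      ring
    cases j with
    | zero =>
      simp only [slo, List.getD_cons_zero, Nat.cast_zero, add_zero]
      exact hc
    | succ j =>
      simp only [slo, List.getD_cons_succ]
      have h3 := ih (h + 1) b (d * (2 * e + h * a) / (2 * i)) (by push_cast; exact hb)
        (by push_cast at hc ⊢; rw [show (h : ℝ) + 1 + 1 = h + 2 by ring]; exact hc) j (by omega)
      push_cast at h3 ⊢
      rw [show (h : ℝ) + 2 + (j + 1) = h + 1 + 2 + j by ring]
      exact h3

theorem le_shi {d i e : ℕ} (hd : 0 < d) (hi : 0 < i)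
    (he : 2 ^ 80 * Real.exp (-((i : ℝ) / d)) ≤ (e : ℝ)) (n : ℕ) :
    ∀ h a b : ℕ, 2 ^ 80 * phi ((h : ℝ) / 2) ((i : ℝ) / d) ≤ (a : ℝ) →
      2 ^ 80 * phi (((h : ℝ) + 1) / 2) ((i : ℝ) / d) ≤ (b : ℝ) → ∀ j < n,
      2 ^ 80 * phi (((h : ℝ) + 2 + j) / 2) ((i : ℝ) / d) ≤ ((shi d i e n h a b).getD j 0 : ℝ) := by
  have hd' : (0 : ℝ) < d := by exact_mod_cast hd
  have hi' : (0 : ℝ) < i := by exact_mod_cast hi
  induction n with
  | zero => intro h a b _ _ j hj; omega
  | succ n ih =>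
    intro h a b ha hb j hj
    have hc : 2 ^ 80 * phi (((h : ℝ) + 2) / 2) ((i : ℝ) / d) ≤
        ((d * (2 * e + h * a) / (2 * i) + 1 : ℕ) : ℝ) := by
      rw [Nat.cast_add, Nat.cast_one]
      refine le_trans ?_ (div_up _ _ (by positivity))
      rw [phi_step hd hi h]
      push_cast
      rw [← mul_div_assoc]
      refine div_le_div_of_nonneg_right ?_ (by positivity)
      have h1 : h * (2 ^ 80 * phi ((h : ℝ) / 2) ((i : ℝ) / d)) ≤ (h : ℝ) * a :=
        mul_le_mul_of_nonneg_left ha (Nat.cast_nonneg h)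
      have h2 : d * (2 * (2 ^ 80 * Real.exp (-((i : ℝ) / d))) +
          h * (2 ^ 80 * phi ((h : ℝ) / 2) ((i : ℝ) / d))) ≤ (d : ℝ) * (2 * e + h * a) :=
        mul_le_mul_of_nonneg_left (by linarith) hd'.le
      refine le_trans (le_of_eq ?_) h2
      ring
    cases j with
    | zero =>
      simp only [shi, List.getD_cons_zero, Nat.cast_zero, add_zero]
      exact hc
    | succ j =>
      simp only [shi, List.getD_cons_succ]
      have h3 := ih (h + 1) b (d * (2 * e + h * a) / (2 * i) + 1) (by push_cast; exact hb)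
        (by push_cast at hc ⊢; rw [show (h : ℝ) + 1 + 1 = h + 2 by ring]; exact hc) j (by omega)
      push_cast at h3 ⊢
      rw [show (h : ℝ) + 2 + (j + 1) = h + 1 + 2 + j by ring]
      exact h3

/-- the hypotheses on the numerical data at `z = i / d` -/
structure Dat (d i el eh n r : ℕ) : Prop where
  hd : 0 < d
  hi : 0 < i
  h1 : (el : ℝ) ≤ 2 ^ 80 * Real.exp (-((i : ℝ) / d))
  h2 : 2 ^ 80 * Real.exp (-((i : ℝ) / d)) ≤ (eh : ℝ)
  h3 : rchk d i r = true

theorem phlo_le {d i el eh n r : ℕ} (h : Dat d i el eh n r) {m : ℕ} (hm : m < 13) :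
    ((phlo d i el eh n r).getD m 0 : ℝ) ≤ 2 ^ 80 * phi (((m : ℝ) + 3) / 2) ((i : ℝ) / d) := by
  obtain ⟨hd, hi, h1, h2, h3⟩ := h
  have hd' : (0 : ℝ) < d := by exact_mod_cast hd
  have hi' : (0 : ℝ) < i := by exact_mod_cast hi
  obtain ⟨r1, -⟩ := rchk_sound hd hi h3
  have hz : (0 : ℝ) < (i : ℝ) / d := by positivity
  have hh := phi_half hz
  have hj := le_jhi hd hi h2 n 0
  have ha : ((r - jhi d i eh n 0 : ℕ) : ℝ) ≤ 2 ^ 80 * phi (((1 : ℕ) : ℝ) / 2) ((i : ℝ) / d) := by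
    rcases le_total (jhi d i eh n 0) r with hle | hle
    · rw [Nat.cast_sub hle, Nat.cast_one, hh]
      linarith
    · rw [Nat.sub_eq_zero_of_le hle, Nat.cast_zero]
      have := phi_nonneg (((1 : ℕ) : ℝ) / 2) ((i : ℝ) / d)
      positivity
  have hb : ((d * el / i : ℕ) : ℝ) ≤ 2 ^ 80 * phi ((((1 : ℕ) : ℝ) + 1) / 2) ((i : ℝ) / d) := by
    refine Nat.cast_div_le.trans ?_
    rw [show (((1 : ℕ) : ℝ) + 1) / 2 = 1 by norm_num, phi_one hz]
    push_cast
    rw [div_le_iff₀ hi']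
    have h5 : (d : ℝ) * el ≤ d * (2 ^ 80 * Real.exp (-((i : ℝ) / d))) :=
      mul_le_mul_of_nonneg_left h1 hd'.le
    refine h5.trans_eq ?_
    field_simp
  have := slo_le hd hi h1 13 1 _ _ ha hb m hm
  rw [show (((1 : ℕ) : ℝ) + 2 + m) / 2 = ((m : ℝ) + 3) / 2 by push_cast; ring] at this
  exact this

theorem le_phhi {d i el eh n r : ℕ} (h : Dat d i el eh n r) {m : ℕ} (hm : m < 13) :
    2 ^ 80 * phi (((m : ℝ) + 3) / 2) ((i : ℝ) / d) ≤
      ((phhi d i el eh n (r + 2 ^ 14)).getD m 0 : ℝ) := by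
  obtain ⟨hd, hi, h1, h2, h3⟩ := h
  have hd' : (0 : ℝ) < d := by exact_mod_cast hd
  have hi' : (0 : ℝ) < i := by exact_mod_cast hi
  obtain ⟨-, r2⟩ := rchk_sound hd hi h3
  have hz : (0 : ℝ) < (i : ℝ) / d := by positivity
  have hh := phi_half hz
  have hj := jlo_le hd hi h1 n 0
  have ha : 2 ^ 80 * phi (((1 : ℕ) : ℝ) / 2) ((i : ℝ) / d) ≤
      ((r + 2 ^ 14 - jlo d i el n 0 : ℕ) : ℝ) := by
    rw [Nat.cast_one, hh]
    have : ((r + 2 ^ 14 : ℕ) : ℝ) - (jlo d i el n 0 : ℝ) ≤ ((r + 2 ^ 14 - jlo d i el n 0 : ℕ) : ℝ) := by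
      rw [sub_le_iff_le_add]
      exact_mod_cast (le_tsub_add : r + 2 ^ 14 ≤ r + 2 ^ 14 - jlo d i el n 0 + jlo d i el n 0)
    rw [mul_sub]
    exact le_trans (sub_le_sub r2 hj) this
  have hb : 2 ^ 80 * phi ((((1 : ℕ) : ℝ) + 1) / 2) ((i : ℝ) / d) ≤ ((d * eh / i + 1 : ℕ) : ℝ) := by
    rw [show (((1 : ℕ) : ℝ) + 1) / 2 = 1 by norm_num, phi_one hz, Nat.cast_add, Nat.cast_one]
    refine le_trans ?_ (div_up _ _ hi)
    push_cast
    rw [le_div_iff₀ hi']
    have h5 : d * (2 ^ 80 * Real.exp (-((i : ℝ) / d))) ≤ (d : ℝ) * eh :=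
      mul_le_mul_of_nonneg_left h2 hd'.le
    refine le_trans (le_of_eq ?_) h5
    field_simp
  have := le_shi hd hi h2 13 1 _ _ ha hb m hm
  rw [show (((1 : ℕ) : ℝ) + 2 + m) / 2 = ((m : ℝ) + 3) / 2 by push_cast; ring] at this
  exact this

/-! ### lists -/

theorem dot_le : ∀ (p x : List ℕ) (X : ℕ → ℝ), (∀ m, 0 ≤ X m) →
    (∀ m < x.length, (x.getD m 0 : ℝ) ≤ X m) →
    (dot p x : ℝ) ≤ ∑ m ∈ Finset.range p.length, (p.getD m 0 : ℝ) * X m
  | [], x, X, _, _ => by simp [dot]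
  | a :: p, [], X, h0, _ => by
    simp only [dot, Nat.cast_zero]
    exact Finset.sum_nonneg fun m _ => mul_nonneg (Nat.cast_nonneg _) (h0 m)
  | a :: p, y :: x, X, h0, h => by
    have ih := dot_le p x (fun m => X (m + 1)) (fun m => h0 _) (fun m hm => by
      have := h (m + 1) (by simpa using hm)
      simpa using this)
    have h1 := h 0 (by simp)
    simp only [List.getD_cons_zero] at h1
    rw [List.length_cons, Finset.sum_range_succ']
    simp only [dot, List.getD_cons_succ, List.getD_cons_zero]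
    push_cast
    have := mul_le_mul_of_nonneg_left h1 (Nat.cast_nonneg (α := ℝ) a)
    linarith

theorem le_dot : ∀ (p x : List ℕ) (X : ℕ → ℝ), p.length ≤ x.length →
    (∀ m < p.length, X m ≤ (x.getD m 0 : ℝ)) →
    ∑ m ∈ Finset.range p.length, (p.getD m 0 : ℝ) * X m ≤ (dot p x : ℝ)
  | [], x, X, _, _ => by simp [dot]
  | a :: p, [], X, hl, _ => by simp at hl
  | a :: p, y :: x, X, hl, h => by
    have ih := le_dot p x (fun m => X (m + 1)) (by simpa using hl) (fun m hm => by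
      have := h (m + 1) (by simpa using hm)
      simpa using this)
    have h1 := h 0 (by simp)
    simp only [List.getD_cons_zero] at h1
    rw [List.length_cons, Finset.sum_range_succ']
    simp only [dot, List.getD_cons_succ, List.getD_cons_zero]
    push_cast
    have := mul_le_mul_of_nonneg_left h1 (Nat.cast_nonneg (α := ℝ) a)
    linarith

theorem lin5_length (e : ℕ) : ∀ (m : ℕ) (x : List ℕ), (lin5 e m x).length = x.length
  | _, [] => rfl
  | m, y :: x => by simp only [lin5, List.length_cons, lin5_length e (m + 1) x]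

theorem lin5_getD (e : ℕ) : ∀ (m : ℕ) (x : List ℕ) (j : ℕ), j < x.length →
    (lin5 e m x).getD j 0 = 2 * e + (m + j + 5) * x.getD j 0
  | m, [], j, hj => by simp at hj
  | m, y :: x, 0, _ => by simp [lin5]
  | m, y :: x, j + 1, hj => by
    simp only [lin5, List.getD_cons_succ]
    rw [lin5_getD e (m + 1) x j (by simpa using hj)]
    ring

end Pool.Agent.Lib.EPS
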