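import Pool.Agent.Lib.EPS.NumB
import Pool.Agent.Lib.EPS.Chk

/-!
# Soundness of the check of an entry of the table
-/

open MeasureTheory Set

namespace Pool.Agent.Lib.EPS

theorem lp_length {k : ℕ} (hk : k < 10) : (lp k).length = 11 := by interval_cases k <;> rfl

theorem ln_length {k : ℕ} (hk : k < 10) : (ln k).length = 11 := by interval_cases k <;> rfl

theorem hp_length {k : ℕ} (hk : k < 10) : (hp k).length = 11 := by interval_cases k <;> rfl

theorem hn_length {k : ℕ} (hk : k < 10) : (hn k).length = 11 := by interval_cases k <;> rfl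

theorem den_pos : (0 : ℝ) < (den : ℝ) := by
  have : 0 < den := by decide
  exact_mod_cast this

theorem al_eq {z : ℝ} (hz : 0 < z) (k : ℕ) : 2 ^ 81 * (den : ℝ) * al k z =
    ∑ m ∈ Finset.range 11, (((lp k).getD m 0 : ℝ) - ((ln k).getD m 0 : ℝ)) *
      (2 ^ 80 * (2 * Real.exp (-z) + ((m : ℝ) + 5) * phi (((m : ℝ) + 3) / 2) z)) := by
  unfold al
  rw [Finset.mul_sum]
  refine Finset.sum_congr rfl fun m _ => ?_
  have h1 := phi_rec (((m : ℝ) + 3) / 2) hz
  rw [show ((m : ℝ) + 3) / 2 + 1 = ((m : ℝ) + 5) / 2 by ring] at h1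
  rw [h1]
  unfold cl
  have := den_pos
  field_simp
  ring

theorem be_eq (z : ℝ) (k : ℕ) : 2 ^ 80 * (den : ℝ) * be k z =
    ∑ m ∈ Finset.range 11, (((hp k).getD m 0 : ℝ) - ((hn k).getD m 0 : ℝ)) *
      (2 ^ 80 * phi (((m : ℝ) + 5) / 2) z) := by
  unfold be
  rw [Finset.mul_sum]
  refine Finset.sum_congr rfl fun m _ => ?_
  unfold ch
  have := den_pos
  field_simp

theorem up_eq (z : ℝ) (k : ℕ) : 2 ^ 80 * (den : ℝ) * up k z =
    ∑ m ∈ Finset.range 11, (((hp k).getD m 0 : ℝ) - ((hn k).getD m 0 : ℝ)) *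
      (2 ^ 80 * phi (((m : ℝ) + 3) / 2) z) := by
  unfold up
  rw [Finset.mul_sum]
  refine Finset.sum_congr rfl fun m _ => ?_
  unfold ch
  have := den_pos
  field_simp

theorem phlo_length (d i el eh n r : ℕ) : (phlo d i el eh n r).length = 13 := slo_length _ _ _ _ _ _ _

theorem phhi_length (d i el eh n r : ℕ) : (phhi d i el eh n r).length = 13 := shi_length _ _ _ _ _ _ _

theorem getD_drop2 : ∀ (x : List ℕ) (m : ℕ), (x.drop 2).getD m 0 = x.getD (m + 2) 0
  | [], m => by simp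
  | [_], m => by simp
  | _ :: _ :: x, m => by simp

theorem field_sound {d i el eh n r : ℕ} (h : Dat d i el eh n r) {k : ℕ} (hk : k < 10) {a b : ℕ}
    (hc : fchk ((phlo d i el eh n r).drop 2) ((phhi d i el eh n (r + 2 ^ 14)).drop 2)
      (lin5 el 0 (phlo d i el eh n r)) (lin5 eh 0 (phhi d i el eh n (r + 2 ^ 14)))
      (lp k) (ln k) (hp k) (hn k) den a b = true) :
    (a : ℝ) ≤ 2 ^ 40 * al k ((i : ℝ) / d) ∧ 2 ^ 40 * be k ((i : ℝ) / d) ≤ (b : ℝ) ∧
      a < 2 ^ 64 ∧ b < 2 ^ 64 := by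
  have hd' : (0 : ℝ) < d := by exact_mod_cast h.hd
  have hi' : (0 : ℝ) < i := by exact_mod_cast h.hi
  have hz : (0 : ℝ) < (i : ℝ) / d := by positivity
  unfold fchk at hc
  rw [Bool.and_eq_true, Bool.and_eq_true, Bool.and_eq_true, Nat.ble_eq, Nat.ble_eq] at hc
  obtain ⟨⟨⟨c1, c2⟩, c3⟩, c4⟩ := hc
  have hD := den_pos
  have l1 := phlo_length d i el eh n r
  have l2 := phhi_length d i el eh n (r + 2 ^ 14)
  refine ⟨?_, ?_, Nat.le_of_ble_eq_true c3, Nat.le_of_ble_eq_true c4⟩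
  · -- the constant term
    set X : ℕ → ℝ := fun m => 2 ^ 80 * (2 * Real.exp (-((i : ℝ) / d)) +
      ((m : ℝ) + 5) * phi (((m : ℝ) + 3) / 2) ((i : ℝ) / d)) with hX
    have hX0 : ∀ m, 0 ≤ X m := fun m => by
      have := phi_nonneg (((m : ℝ) + 3) / 2) ((i : ℝ) / d)
      have := Real.exp_pos (-((i : ℝ) / d))
      simp only [hX]
      positivity
    have u1 : (dot (lp k) (lin5 el 0 (phlo d i el eh n r)) : ℝ) ≤
        ∑ m ∈ Finset.range (lp k).length, ((lp k).getD m 0 : ℝ) * X m := by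
      refine dot_le _ _ X hX0 fun m hm => ?_
      rw [lin5_length, l1] at hm
      rw [lin5_getD _ _ _ _ (by rw [l1]; exact hm)]
      have p1 := phlo_le h hm
      have p2 := h.h1
      push_cast
      simp only [hX]
      have p3 : ((m : ℝ) + 5) * ((phlo d i el eh n r).getD m 0 : ℝ) ≤
          ((m : ℝ) + 5) * (2 ^ 80 * phi (((m : ℝ) + 3) / 2) ((i : ℝ) / d)) :=
        mul_le_mul_of_nonneg_left p1 (by positivity)
      rw [zero_add]
      linarith
    have u2 : ∑ m ∈ Finset.range (ln k).length, ((ln k).getD m 0 : ℝ) * X m ≤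
        (dot (ln k) (lin5 eh 0 (phhi d i el eh n (r + 2 ^ 14))) : ℝ) := by
      refine le_dot _ _ X (by rw [ln_length hk, lin5_length, l2]; norm_num) fun m hm => ?_
      rw [ln_length hk] at hm
      have hm' : m < 13 := by omega
      rw [lin5_getD _ _ _ _ (by rw [l2]; exact hm')]
      have p1 := le_phhi h hm'
      have p2 := h.h2
      push_cast
      simp only [hX]
      have p3 : ((m : ℝ) + 5) * (2 ^ 80 * phi (((m : ℝ) + 3) / 2) ((i : ℝ) / d)) ≤
          ((m : ℝ) + 5) * ((phhi d i el eh n (r + 2 ^ 14)).getD m 0 : ℝ) :=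
        mul_le_mul_of_nonneg_left p1 (by positivity)
      rw [zero_add]
      push_cast at p3
      linarith
    rw [lp_length hk] at u1
    rw [ln_length hk] at u2
    have c1' : (a : ℝ) * (2 ^ 41 * (den : ℝ)) +
        (dot (ln k) (lin5 eh 0 (phhi d i el eh n (r + 2 ^ 14))) : ℝ) ≤
        (dot (lp k) (lin5 el 0 (phlo d i el eh n r)) : ℝ) := by exact_mod_cast c1
    have e1 := al_eq hz k
    have e2 : ∑ m ∈ Finset.range 11, (((lp k).getD m 0 : ℝ) - ((ln k).getD m 0 : ℝ)) * X m =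
        (∑ m ∈ Finset.range 11, ((lp k).getD m 0 : ℝ) * X m) -
          ∑ m ∈ Finset.range 11, ((ln k).getD m 0 : ℝ) * X m := by
      rw [← Finset.sum_sub_distrib]
      exact Finset.sum_congr rfl fun m _ => by ring
    have e3 : (a : ℝ) * (2 ^ 41 * (den : ℝ)) ≤ 2 ^ 81 * (den : ℝ) * al k ((i : ℝ) / d) := by
      rw [e1, e2]
      linarith
    have e4 : 2 ^ 81 * (den : ℝ) * al k ((i : ℝ) / d) =
        (2 ^ 40 * al k ((i : ℝ) / d)) * (2 ^ 41 * (den : ℝ)) := by ring
    rw [e4] at e3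
    exact le_of_mul_le_mul_right e3 (by positivity)
  · -- the slope
    set X : ℕ → ℝ := fun m => 2 ^ 80 * phi (((m : ℝ) + 5) / 2) ((i : ℝ) / d) with hX
    have hX0 : ∀ m, 0 ≤ X m := fun m => by
      have := phi_nonneg (((m : ℝ) + 5) / 2) ((i : ℝ) / d)
      simp only [hX]
      positivity
    have hs : ∀ m : ℕ, (((m + 2 : ℕ) : ℝ) + 3) / 2 = ((m : ℝ) + 5) / 2 := fun m => by
      push_cast; ring
    have u1 : (dot (hn k) ((phlo d i el eh n r).drop 2) : ℝ) ≤
        ∑ m ∈ Finset.range (hn k).length, ((hn k).getD m 0 : ℝ) * X m := by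
      refine dot_le _ _ X hX0 fun m hm => ?_
      rw [List.length_drop, l1] at hm
      rw [getD_drop2]
      have p1 := phlo_le h (m := m + 2) (by omega)
      rw [hs] at p1
      exact p1
    have u2 : ∑ m ∈ Finset.range (hp k).length, ((hp k).getD m 0 : ℝ) * X m ≤
        (dot (hp k) ((phhi d i el eh n (r + 2 ^ 14)).drop 2) : ℝ) := by
      refine le_dot _ _ X (by rw [hp_length hk, List.length_drop, l2]) fun m hm => ?_
      rw [hp_length hk] at hm
      rw [getD_drop2]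
      have p1 := le_phhi h (m := m + 2) (by omega)
      rw [hs] at p1
      exact p1
    rw [hn_length hk] at u1
    rw [hp_length hk] at u2
    have c2' : (dot (hp k) ((phhi d i el eh n (r + 2 ^ 14)).drop 2) : ℝ) ≤
        (b : ℝ) * (2 ^ 40 * (den : ℝ)) + (dot (hn k) ((phlo d i el eh n r).drop 2) : ℝ) := by
      exact_mod_cast c2
    have e1 := be_eq ((i : ℝ) / d) k
    have e2 : ∑ m ∈ Finset.range 11, (((hp k).getD m 0 : ℝ) - ((hn k).getD m 0 : ℝ)) * X m =
        (∑ m ∈ Finset.range 11, ((hp k).getD m 0 : ℝ) * X m) -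
          ∑ m ∈ Finset.range 11, ((hn k).getD m 0 : ℝ) * X m := by
      rw [← Finset.sum_sub_distrib]
      exact Finset.sum_congr rfl fun m _ => by ring
    have e3 : 2 ^ 80 * (den : ℝ) * be k ((i : ℝ) / d) ≤ (b : ℝ) * (2 ^ 40 * (den : ℝ)) := by
      rw [e1, e2]
      linarith
    have e4 : 2 ^ 80 * (den : ℝ) * be k ((i : ℝ) / d) =
        (2 ^ 40 * be k ((i : ℝ) / d)) * (2 ^ 40 * (den : ℝ)) := by ring
    rw [e4] at e3
    exact le_of_mul_le_mul_right e3 (by positivity)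

end Pool.Agent.Lib.EPS
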