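import Pool.Agent.Lib.EPS.NumC

/-!
# The check of an entry of the table, `z = i / 64`
-/

open MeasureTheory Set

namespace Pool.Agent.Lib.EPS

theorem e64lo : ((1190183162014445497215107 : ℕ) : ℝ) ≤ 2 ^ 80 * Real.exp (-(1 / 64)) := by
  have h := Real.exp_bound (x := -(1 / 64)) (by norm_num [abs_le]) (n := 13) (by norm_num)
  have h1 := (abs_le.mp h).1
  simp only [Finset.sum_range_succ, Finset.sum_range_zero, Nat.factorial] at h1
  norm_num at h1 ⊢
  linarith

theorem e64hi : 2 ^ 80 * Real.exp (-(1 / 64)) ≤ ((1190183162014445497215112 : ℕ) : ℝ) := by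
  have h := Real.exp_bound (x := -(1 / 64)) (by norm_num [abs_le]) (n := 13) (by norm_num)
  have h1 := (abs_le.mp h).2
  simp only [Finset.sum_range_succ, Finset.sum_range_zero, Nat.factorial] at h1
  norm_num at h1 ⊢
  linarith

theorem e5lo : ((989784746708501796430577 : ℕ) : ℝ) ≤ 2 ^ 80 * Real.exp (-(1 / 5)) := by
  have h := Real.exp_bound (x := -(1 / 5)) (by norm_num [abs_le]) (n := 20) (by norm_num)
  have h1 := (abs_le.mp h).1
  simp only [Finset.sum_range_succ, Finset.sum_range_zero, Nat.factorial] at h1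
  norm_num at h1 ⊢
  linarith

theorem e5hi : 2 ^ 80 * Real.exp (-(1 / 5)) ≤ ((989784746708501796430582 : ℕ) : ℝ) := by
  have h := Real.exp_bound (x := -(1 / 5)) (by norm_num [abs_le]) (n := 20) (by norm_num)
  have h1 := (abs_le.mp h).2
  simp only [Finset.sum_range_succ, Finset.sum_range_zero, Nat.factorial] at h1
  norm_num at h1 ⊢
  linarith

/-- the check of the fields `k, k+1, ...` -/
def rowgo (xl xh ul uh : List Nat) : Nat → List Nat → List Nat → Bool
  | k, a :: as, b :: bs => fchk xl xh ul uh (lp k) (ln k) (hp k) (hn k) den a b &&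
      rowgo xl xh ul uh (k + 1) as bs
  | _, _, _ => true

/-- the check of an entry -/
def rowchk (i r : Nat) (fa fb : List Nat) : Bool :=
  Nat.blt 0 i && (rchk 64 i r &&
  rowgo ((phlo 64 i (elo 1190183162014445497215107 i) (ehi 1190183162014445497215112 i) 72 r).drop 2)
    ((phhi 64 i (elo 1190183162014445497215107 i) (ehi 1190183162014445497215112 i) 72
      (r + 2 ^ 14)).drop 2)
    (lin5 (elo 1190183162014445497215107 i) 0
      (phlo 64 i (elo 1190183162014445497215107 i) (ehi 1190183162014445497215112 i) 72 r))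
    (lin5 (ehi 1190183162014445497215112 i) 0
      (phhi 64 i (elo 1190183162014445497215107 i) (ehi 1190183162014445497215112 i) 72
      (r + 2 ^ 14))) 0 fa fb)

end Pool.Agent.Lib.EPS
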