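import Pool.Agent.Lib.FCC.Base

/-!
# Epstein zeta function of ternary forms for all `s > 3/2`: the kernel

Forms `Q : Mx 3` with `det Q = 4`; the values enter as `z = (4/5) Q[x]`.
-/

open MeasureTheory
open scoped Matrix.Norms.Elementwise

namespace Pool.Agent.Lib.EPS

open Pool.Agent.Lib.EpZ Pool.Agent.Lib.FCC

/-- the kernel `∫_1^∞ exp(-z w) w^(s-1) dw` -/
noncomputable def phi (s z : ℝ) : ℝ :=
  ∫ w in Set.Ioi (1 : ℝ), Real.exp (-(z * w)) * w ^ (s - 1)

/-- the factor of the dual part for forms of determinant `4` -/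
noncomputable def c0 : ℝ := 1 / 2 * (5 * Real.pi / 4) ^ ((3 : ℝ) / 2)

/-- the direct part of the completed zeta function -/
noncomputable def Dir (s : ℝ) (Q : Mx 3) : ℝ := ∑' x : NZ 3, phi s (4 / 5 * qf Q x.1)

/-- the dual part of the completed zeta function (without the factor `c0`) -/
noncomputable def Dua (s : ℝ) (Q : Mx 3) : ℝ :=
  ∑' x : NZ 3, phi (3 / 2 - s) (5 * Real.pi ^ 2 / 4 * qf Q⁻¹ x.1)

end Pool.Agent.Lib.EPS
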