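import Pool.Agent.Lib.EPS.Chk

/-!
# Module EPS.Pk: packed numbers

`FB = 2 ^ 192`, `Rep n f : n = ∑ k : Fin 10, f k * FB ^ k`. All statements but the last are
`Fin.sum_univ_succ`/`Finset.sum_add_distrib`/`Finset.mul_sum` and `ring`; `rep_sub` by
`Nat.sub` cancellation from `rep_add`. 

`pge_sound`: let `t k = f k + 2 ^ 191 - g k` (natural subtraction, `0 < t k < 2 ^ 192`). Then
`X + HB - Y = ∑ t k FB ^ k` (from `rep_add`, `rep_sub`). For a number `N = ∑ t k FB ^ k` with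
`t k < FB`: bit `192 k + 191` of `N` is bit `191` of `t k` (`Nat.testBit` and
`N / 2 ^ (192 k) % 2 ^ 192 = t k`). All these bits of `HB` are set, so by
`Nat.land N HB = HB` (`Nat.testBit_land`) they are set in `N`, i.e. `2 ^ 191 ≤ t k`
(`Nat.testBit` at the top position of a number `< 2 ^ 192`), i.e. `g k ≤ f k`.
-/

namespace Pool.Agent.Lib.EPS

namespace PkAux

theorem sum_succ (n : ℕ) (t : Fin (n + 1) → ℕ) (B : ℕ) :
    ∑ k : Fin (n + 1), t k * B ^ (k : ℕ) =
      B * (∑ k : Fin n, t k.succ * B ^ (k : ℕ)) + t 0 := by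
  rw [Fin.sum_univ_succ, Finset.mul_sum, add_comm]
  simp only [Fin.val_zero, pow_zero, mul_one, Fin.val_succ]
  congr 1
  refine Finset.sum_congr rfl fun k _ => ?_
  rw [pow_succ]
  ring

theorem bit (n : ℕ) (t : Fin n → ℕ) (ht : ∀ k, t k < 2 ^ 192) (k : Fin n) :
    (∑ k : Fin n, t k * (2 ^ 192) ^ (k : ℕ)).testBit (192 * (k : ℕ) + 191)
      = (t k).testBit 191 := by
  induction n with
  | zero => exact k.elim0
  | succ n ih =>
    rw [sum_succ, Nat.testBit_two_pow_mul_add _ (ht 0)]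
    refine Fin.cases ?_ (fun k => ?_) k
    · simp
    · have h1 : ¬ (192 * ((k.succ : Fin (n + 1)) : ℕ) + 191 < 192) := by
        rw [Fin.val_succ]; omega
      rw [if_neg h1]
      have h2 : 192 * ((k.succ : Fin (n + 1)) : ℕ) + 191 - 192 = 192 * (k : ℕ) + 191 := by
        rw [Fin.val_succ]; omega
      rw [h2]
      exact ih (fun k => t k.succ) (fun k => ht k.succ) k

end PkAux

theorem rep_pk (a0 a1 a2 a3 a4 a5 a6 a7 a8 a9 : ℕ) :
    Rep (pk a0 a1 a2 a3 a4 a5 a6 a7 a8 a9) ![a0, a1, a2, a3, a4, a5, a6, a7, a8, a9] := by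
  unfold Rep pk FB
  simp only [Fin.sum_univ_succ, Fin.val_zero, Fin.val_succ, Finset.univ_eq_empty,
    Finset.sum_empty, Nat.add_eq, Nat.mul_eq]
  have hB : (6277101735386680763835789423207666416102355444464034512896 : ℕ) = 2 ^ 192 := by
    norm_num
  rw [hB]
  generalize (2 ^ 192 : ℕ) = B
  simp
  ring

theorem rep_zero : Rep 0 (fun _ => 0) := by
  simp [Rep]

theorem rep_add {m n : ℕ} {f g : Fin 10 → ℕ} (hm : Rep m f) (hn : Rep n g) :
    Rep (Nat.add m n) (fun k => f k + g k) := by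
  unfold Rep at *
  rw [Nat.add_eq, hm, hn, ← Finset.sum_add_distrib]
  refine Finset.sum_congr rfl fun k _ => ?_
  ring

theorem rep_mul {n : ℕ} {f : Fin 10 → ℕ} (c : ℕ) (hn : Rep n f) :
    Rep (Nat.mul c n) (fun k => c * f k) := by
  unfold Rep at *
  rw [Nat.mul_eq, hn, Finset.mul_sum]
  refine Finset.sum_congr rfl fun k _ => ?_
  ring

theorem rep_mul' {n : ℕ} {f : Fin 10 → ℕ} (c : ℕ) (hn : Rep n f) :
    Rep (Nat.mul n c) (fun k => f k * c) := by
  unfold Rep at *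
  rw [Nat.mul_eq, hn, Finset.sum_mul]
  refine Finset.sum_congr rfl fun k _ => ?_
  ring

theorem rep_sub {m n : ℕ} {f g : Fin 10 → ℕ} (hm : Rep m f) (hn : Rep n g)
    (h : ∀ k, g k ≤ f k) : Rep (Nat.sub m n) (fun k => f k - g k) := by
  have h2 : Rep (m - n + n) f := by
    have hle : n ≤ m := by
      unfold Rep at hm hn
      rw [hm, hn]
      exact Finset.sum_le_sum fun k _ => Nat.mul_le_mul_right _ (h k)
    rw [Nat.sub_add_cancel hle]
    exact hm
  unfold Rep at *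
  have h3 : (∑ k : Fin 10, (f k - g k) * FB ^ (k : ℕ)) + n = m - n + n := by
    rw [h2]
    nth_rw 1 [hn]
    rw [← Finset.sum_add_distrib]
    refine Finset.sum_congr rfl fun k _ => ?_
    rw [← add_mul, Nat.sub_add_cancel (h k)]
  exact (Nat.add_right_cancel h3).symm

theorem pge_sound {X Y : ℕ} {f g : Fin 10 → ℕ} (hX : Rep X f) (hY : Rep Y g)
    (hf : ∀ k, f k < 2 ^ 191) (hg : ∀ k, g k < 2 ^ 191) (h : pge X Y = true) :
    ∀ k, g k ≤ f k := by
  have hH : Rep HB (fun _ => 2 ^ 191) := by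
    have h1 := rep_pk (2 ^ 191) (2 ^ 191) (2 ^ 191) (2 ^ 191) (2 ^ 191) (2 ^ 191) (2 ^ 191)
      (2 ^ 191) (2 ^ 191) (2 ^ 191)
    unfold HB
    generalize (2 ^ 191 : ℕ) = B at h1 ⊢
    have h2 : (![B, B, B, B, B, B, B, B, B, B] : Fin 10 → ℕ) = fun _ => B := by
      funext k
      fin_cases k <;> rfl
    rw [h2] at h1
    exact h1
  have hN : Rep (Nat.sub (Nat.add X HB) Y) (fun k => f k + 2 ^ 191 - g k) :=
    rep_sub (rep_add hX hH) hY fun k => le_trans (le_of_lt (hg k)) (Nat.le_add_left _ _)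
  unfold pge at h
  have h' : Nat.land (Nat.sub (Nat.add X HB) Y) HB = HB := Nat.eq_of_beq_eq_true h
  intro k
  have hb : (HB).testBit (192 * (k : ℕ) + 191) = true := by
    have h3 : HB = ∑ k : Fin 10, 2 ^ 191 * (2 ^ 192) ^ (k : ℕ) := hH
    rw [h3, PkAux.bit 10 (fun _ => 2 ^ 191) (fun _ => by
      exact Nat.pow_lt_pow_right (by norm_num) (by norm_num)) k]
    exact Nat.testBit_two_pow_self
  have hn : (Nat.sub (Nat.add X HB) Y).testBit (192 * (k : ℕ) + 191) = true := by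
    have h4 : (Nat.land (Nat.sub (Nat.add X HB) Y) HB).testBit (192 * (k : ℕ) + 191) = true := by
      rw [h']; exact hb
    have h5 := Nat.testBit_and (Nat.sub (Nat.add X HB) Y) HB (192 * (k : ℕ) + 191)
    have h6 : ((Nat.sub (Nat.add X HB) Y) &&& HB) = Nat.land (Nat.sub (Nat.add X HB) Y) HB := rfl
    rw [h6, h4] at h5
    have h7 := h5.symm
    rw [Bool.and_eq_true] at h7
    exact h7.1
  have h8 : Nat.sub (Nat.add X HB) Y
      = ∑ k : Fin 10, (f k + 2 ^ 191 - g k) * (2 ^ 192) ^ (k : ℕ) := hN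
  have ht : ∀ k : Fin 10, f k + 2 ^ 191 - g k < 2 ^ 192 := by
    intro k
    have h9 := hf k
    have h10 : (2 ^ 192 : ℕ) = 2 ^ 191 + 2 ^ 191 := by norm_num
    rw [h10]
    exact lt_of_le_of_lt (Nat.sub_le _ _) (Nat.add_lt_add_right h9 _)
  rw [h8, PkAux.bit 10 (fun k => f k + 2 ^ 191 - g k) ht k] at hn
  have h11 : 2 ^ 191 ≤ f k + 2 ^ 191 - g k := Nat.ge_two_pow_of_testBit hn
  have h12 := hg k
  generalize (2 ^ 191 : ℕ) = B at h11 h12
  omega

end Pool.Agent.Lib.EPS
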