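import Pool.Agent.Lib.EPS.VerS
import Pool.Agent.Lib.FCC.Perm
import Pool.Agent.Lib.FCC.Cover

/-!
# Module EPS.Red: reduction to the root cones

`exists_reduced`: FCC/Perm (proved) contains exactly this construction; the statement here is
without the property `Good`. `root_cover'`: from `FCC.root_cover` (FCC/Cover, proved), the root
cones `rt k` having the same vectors as `FCC.root k`, together with the numbers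
`r = ⌊(2 ^ 72 dt / 4) ^ (1/3)⌋`. `rt_ok`: `decide`.
-/

open Matrix
open scoped Matrix.Norms.Elementwise

namespace Pool.Agent.Lib.EPS

open Pool.Agent.Lib.EpZ Pool.Agent.Lib.FCC

/-- the six root cones with the bounds of the cube roots -/
def rt : ℕ → Cn
  | 0 => ⟨⟨2, 2, 2, 2, 2, 2, 53264340⟩, ⟨0, 12, 0, 0, 0, 0, 0⟩, ⟨0, 0, 12, 0, 0, 0, 0⟩,
      ⟨0, 0, 6, 6, 0, 0, 0⟩, ⟨0, 0, 4, 4, 4, 0, 42275935⟩, ⟨0, 0, 3, 3, 3, 3, 50331648⟩⟩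
  | 1 => ⟨⟨2, 2, 2, 2, 2, 2, 53264340⟩, ⟨0, 12, 0, 0, 0, 0, 0⟩, ⟨0, 0, 12, 0, 0, 0, 0⟩,
      ⟨0, 0, 6, 6, 0, 0, 0⟩, ⟨0, 0, 4, 4, 0, 4, 42275935⟩, ⟨0, 0, 3, 3, 3, 3, 50331648⟩⟩
  | 2 => ⟨⟨2, 2, 2, 2, 2, 2, 53264340⟩, ⟨0, 12, 0, 0, 0, 0, 0⟩, ⟨0, 0, 12, 0, 0, 0, 0⟩,
      ⟨0, 0, 6, 0, 6, 0, 0⟩, ⟨0, 0, 4, 4, 4, 0, 42275935⟩, ⟨0, 0, 3, 3, 3, 3, 50331648⟩⟩
  | 3 => ⟨⟨2, 2, 2, 2, 2, 2, 53264340⟩, ⟨0, 12, 0, 0, 0, 0, 0⟩, ⟨0, 0, 12, 0, 0, 0, 0⟩,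
      ⟨0, 0, 6, 0, 6, 0, 0⟩, ⟨0, 0, 4, 0, 4, 4, 42275935⟩, ⟨0, 0, 3, 3, 3, 3, 50331648⟩⟩
  | 4 => ⟨⟨2, 2, 2, 2, 2, 2, 53264340⟩, ⟨0, 12, 0, 0, 0, 0, 0⟩, ⟨0, 0, 12, 0, 0, 0, 0⟩,
      ⟨0, 0, 6, 0, 0, 6, 0⟩, ⟨0, 0, 4, 4, 0, 4, 42275935⟩, ⟨0, 0, 3, 3, 3, 3, 50331648⟩⟩
  | _ => ⟨⟨2, 2, 2, 2, 2, 2, 53264340⟩, ⟨0, 12, 0, 0, 0, 0, 0⟩, ⟨0, 0, 12, 0, 0, 0, 0⟩,
      ⟨0, 0, 6, 0, 0, 6, 0⟩, ⟨0, 0, 4, 0, 4, 4, 42275935⟩, ⟨0, 0, 3, 3, 3, 3, 50331648⟩⟩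

theorem rt_ok (k : ℕ) : (rt k).all VX.ok = true := by
  match k with
  | 0 => decide
  | 1 => decide
  | 2 => decide
  | 3 => decide
  | 4 => decide
  | _ + 5 =>
    have h : (rt 5).all VX.ok = true := by decide
    exact h

theorem root_cover' (l : Fin 6 → ℝ) (h0 : 0 ≤ l 0) (h1 : ∀ i, l 0 ≤ l i)
    (h3 : l 3 ≤ l 2) (h4 : l 4 ≤ l 2) (h5 : l 5 ≤ l 2) : ∃ k : ℕ, k < 6 ∧ (rt k).mem l := by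
  obtain ⟨k, hk, c, hc, hl⟩ := root_cover l h0 h1 h3 h4 h5
  refine ⟨k, hk, c, hc, fun i => ?_⟩
  rw [hl i]
  have e : ∀ i, (rt k).v0.re i = (root k).v0.re i ∧ (rt k).v1.re i = (root k).v1.re i ∧
      (rt k).v2.re i = (root k).v2.re i ∧ (rt k).v3.re i = (root k).v3.re i ∧
      (rt k).v4.re i = (root k).v4.re i ∧ (rt k).v5.re i = (root k).v5.re i := by
    intro i
    interval_cases k <;> fin_cases i <;> exact ⟨rfl, rfl, rfl, rfl, rfl, rfl⟩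
  obtain ⟨e0, e1, e2, e3, e4, e5⟩ := e i
  rw [e0, e1, e2, e3, e4, e5]

theorem exists_reduced (l : Fin 6 → ℝ) (hl : ∀ i, 0 ≤ l i) :
    ∃ l' : Fin 6 → ℝ, 0 ≤ l' 0 ∧ (∀ i, l' 0 ≤ l' i) ∧ l' 3 ≤ l' 2 ∧ l' 4 ≤ l' 2 ∧ l' 5 ≤ l' 2 ∧
      dt l' = dt l ∧ Eqv (formOf l) (formOf l') := by
  obtain ⟨l₁, r₁, h₁⟩ := PermAux.move0 l
  obtain ⟨l₂, r₂, h₂, h3, h4, h5⟩ := PermAux.move2 l₁ h₁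
  have r := r₁.trans r₂
  exact ⟨l₂, r.2.2 hl 0, h₂, h3, h4, h5, r.2.1, r.1⟩

end Pool.Agent.Lib.EPS
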