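import Pool.Agent.Lib.EPS.D00
import Pool.Agent.Lib.EPS.D01
import Pool.Agent.Lib.EPS.D02
import Pool.Agent.Lib.EPS.D03
import Pool.Agent.Lib.EPS.D04
import Pool.Agent.Lib.EPS.D05
import Pool.Agent.Lib.EPS.D06
import Pool.Agent.Lib.EPS.D07
import Pool.Agent.Lib.EPS.D08
import Pool.Agent.Lib.EPS.D09
import Pool.Agent.Lib.EPS.D10
import Pool.Agent.Lib.EPS.D11
import Pool.Agent.Lib.EPS.D12
import Pool.Agent.Lib.EPS.D13
import Pool.Agent.Lib.EPS.D14
import Pool.Agent.Lib.EPS.D15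
import Pool.Agent.Lib.EPS.D16
import Pool.Agent.Lib.EPS.D17
import Pool.Agent.Lib.EPS.D18
import Pool.Agent.Lib.EPS.D19
import Pool.Agent.Lib.EPS.D20
import Pool.Agent.Lib.EPS.D21
import Pool.Agent.Lib.EPS.D22
import Pool.Agent.Lib.EPS.D23
import Pool.Agent.Lib.EPS.D24
import Pool.Agent.Lib.EPS.D25
import Pool.Agent.Lib.EPS.D26
import Pool.Agent.Lib.EPS.D27
import Pool.Agent.Lib.EPS.D28
import Pool.Agent.Lib.EPS.D29
import Pool.Agent.Lib.EPS.D30
import Pool.Agent.Lib.EPS.D31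
import Pool.Agent.Lib.EPS.D32
import Pool.Agent.Lib.EPS.D33
import Pool.Agent.Lib.EPS.D34
import Pool.Agent.Lib.EPS.D35
import Pool.Agent.Lib.EPS.D36
import Pool.Agent.Lib.EPS.D37
import Pool.Agent.Lib.EPS.D38
import Pool.Agent.Lib.EPS.D39
import Pool.Agent.Lib.EPS.D40
import Pool.Agent.Lib.EPS.D41
import Pool.Agent.Lib.EPS.D42
import Pool.Agent.Lib.EPS.D43
import Pool.Agent.Lib.EPS.D44
import Pool.Agent.Lib.EPS.D45
import Pool.Agent.Lib.EPS.Red

/-!
# EPS: the six root cones (generated)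
-/

open Pool.Agent.Lib.EPS.Tr

namespace Pool.Agent.Lib.EPS

set_option maxRecDepth 100000

namespace Dat

/-- verified cone -/
def c0 : OkCn := ⟨cone0, ok0⟩

/-- verified cone -/
def c1 : OkCn := ⟨cone1, ok1⟩

/-- verified cone -/
def c2 : OkCn := ⟨cone2, ok2⟩

/-- verified cone -/
def c3 : OkCn := ⟨cone3, ok3⟩

/-- verified cone -/
def c4 : OkCn := ⟨cone4, ok4⟩

/-- verified cone -/
def c5 : OkCn := ⟨cone5, ok5⟩

/-- verified cone -/
def c6 : OkCn := ⟨cone6, ok6⟩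

/-- verified cone -/
def c7 : OkCn := ⟨cone7, ok7⟩

/-- verified cone -/
def c8 : OkCn := ⟨cone8, ok8⟩

/-- verified cone -/
def c9 : OkCn := ⟨cone9, ok9⟩

/-- verified cone -/
def c10 : OkCn := ⟨cone10, ok10⟩

/-- verified cone -/
def c11 : OkCn := ⟨cone11, ok11⟩

/-- verified cone -/
def c12 : OkCn := ⟨cone12, ok12⟩

/-- verified cone -/
def c13 : OkCn := ⟨cone13, ok13⟩

/-- verified cone -/
def c14 : OkCn := ⟨cone14, ok14⟩

/-- verified cone -/
def c15 : OkCn := ⟨cone15, ok15⟩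

/-- verified cone -/
def c16 : OkCn := ⟨cone16, ok16⟩

/-- verified cone -/
def c17 : OkCn := ⟨cone17, ok17⟩

/-- verified cone -/
def c18 : OkCn := ⟨cone18, ok18⟩

/-- verified cone -/
def c19 : OkCn := ⟨cone19, ok19⟩

/-- verified cone -/
def c20 : OkCn := ⟨cone20, ok20⟩

/-- verified cone -/
def c21 : OkCn := ⟨cone21, ok21⟩

/-- verified cone -/
def c22 : OkCn := ⟨cone22, ok22⟩

/-- verified cone -/
def c23 : OkCn := ⟨cone23, ok23⟩

/-- verified cone -/
def c24 : OkCn := ⟨cone24, ok24⟩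

/-- verified cone -/
def c25 : OkCn := ⟨cone25, ok25⟩

/-- verified cone -/
def c26 : OkCn := ⟨cone26, ok26⟩

/-- verified cone -/
def c27 : OkCn := ⟨cone27, ok27⟩

/-- verified cone -/
def c28 : OkCn := ⟨cone28, ok28⟩

/-- verified cone -/
def c29 : OkCn := ⟨cone29, ok29⟩

/-- verified cone -/
def c30 : OkCn := ⟨cone30, ok30⟩

/-- verified cone -/
def c31 : OkCn := ⟨cone31, ok31⟩

/-- verified cone -/
def c32 : OkCn := ⟨cone32, ok32⟩

/-- verified cone -/
def c33 : OkCn := ⟨cone33, ok33⟩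

/-- verified cone -/
def c34 : OkCn := ⟨cone34, ok34⟩

/-- verified cone -/
def c35 : OkCn := ⟨cone35, ok35⟩

/-- verified cone -/
def c36 : OkCn := ⟨cone36, ok36⟩

/-- verified cone -/
def c37 : OkCn := ⟨cone37, ok37⟩

/-- verified cone -/
def c38 : OkCn := ⟨cone38, ok38⟩

/-- verified cone -/
def c39 : OkCn := ⟨cone39, ok39⟩

/-- verified cone -/
def c40 : OkCn := ⟨cone40, ok40⟩

/-- verified cone -/
def c41 : OkCn := ⟨cone41, ok41⟩

/-- verified cone -/
def c42 : OkCn := ⟨cone42, ok42⟩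

/-- verified cone -/
def c43 : OkCn := ⟨cone43, ok43⟩

/-- verified cone -/
def c44 : OkCn := ⟨cone44, ok44⟩

/-- verified cone -/
def c45 : OkCn := ⟨cone45, ok45⟩

/-- verified cone -/
def c46 : OkCn := ⟨cone46, ok46⟩

/-- verified cone -/
def c47 : OkCn := ⟨cone47, ok47⟩

/-- verified cone -/
def c48 : OkCn := ⟨cone48, ok48⟩

/-- verified cone -/
def c49 : OkCn := ⟨cone49, ok49⟩

/-- verified cone -/
def c50 : OkCn := ⟨cone50, ok50⟩

/-- verified cone -/
def c51 : OkCn := ⟨cone51, ok51⟩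

/-- verified cone -/
def c52 : OkCn := ⟨cone52, ok52⟩

/-- verified cone -/
def c53 : OkCn := ⟨cone53, ok53⟩

/-- verified cone -/
def c54 : OkCn := ⟨cone54, ok54⟩

/-- verified cone -/
def c55 : OkCn := ⟨cone55, ok55⟩

/-- verified cone -/
def c56 : OkCn := ⟨cone56, ok56⟩

/-- verified cone -/
def c57 : OkCn := ⟨cone57, ok57⟩

/-- verified cone -/
def c58 : OkCn := ⟨cone58, ok58⟩

/-- verified cone -/
def c59 : OkCn := ⟨cone59, ok59⟩

/-- verified cone -/
def c60 : OkCn := ⟨cone60, ok60⟩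

/-- verified cone -/
def c61 : OkCn := ⟨cone61, ok61⟩

/-- verified cone -/
def c62 : OkCn := ⟨cone62, ok62⟩

/-- verified cone -/
def c63 : OkCn := ⟨cone63, ok63⟩

/-- verified cone -/
def c64 : OkCn := ⟨cone64, ok64⟩

/-- verified cone -/
def c65 : OkCn := ⟨cone65, ok65⟩

/-- verified cone -/
def c66 : OkCn := ⟨cone66, ok66⟩

/-- verified cone -/
def c67 : OkCn := ⟨cone67, ok67⟩

/-- verified cone -/
def c68 : OkCn := ⟨cone68, ok68⟩

/-- verified cone -/
def c69 : OkCn := ⟨cone69, ok69⟩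

/-- verified cone -/
def c70 : OkCn := ⟨cone70, ok70⟩

/-- verified cone -/
def c71 : OkCn := ⟨cone71, ok71⟩

/-- verified cone -/
def c72 : OkCn := ⟨cone72, ok72⟩

/-- verified cone -/
def c73 : OkCn := ⟨cone73, ok73⟩

/-- verified cone -/
def c74 : OkCn := ⟨cone74, ok74⟩

/-- verified cone -/
def c75 : OkCn := ⟨cone75, ok75⟩

/-- verified cone -/
def c76 : OkCn := ⟨cone76, ok76⟩

/-- verified cone -/
def c77 : OkCn := ⟨cone77, ok77⟩

/-- verified cone -/
def c78 : OkCn := ⟨cone78, ok78⟩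

/-- verified cone -/
def c79 : OkCn := ⟨cone79, ok79⟩

/-- verified cone -/
def c80 : OkCn := ⟨cone80, ok80⟩

/-- verified cone -/
def c81 : OkCn := ⟨cone81, ok81⟩

/-- verified cone -/
def c82 : OkCn := ⟨cone82, ok82⟩

/-- verified cone -/
def c83 : OkCn := ⟨cone83, ok83⟩

/-- verified cone -/
def c84 : OkCn := ⟨cone84, ok84⟩

/-- verified cone -/
def c85 : OkCn := ⟨cone85, ok85⟩

/-- verified cone -/
def c86 : OkCn := ⟨cone86, ok86⟩

/-- verified cone -/
def c87 : OkCn := ⟨cone87, ok87⟩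

/-- verified cone -/
def c88 : OkCn := ⟨cone88, ok88⟩

/-- verified cone -/
def c89 : OkCn := ⟨cone89, ok89⟩

/-- verified cone -/
def c90 : OkCn := ⟨cone90, ok90⟩

/-- verified cone -/
def c91 : OkCn := ⟨cone91, ok91⟩

/-- verified cone -/
def c92 : OkCn := ⟨cone92, ok92⟩

/-- verified cone -/
def c93 : OkCn := ⟨cone93, ok93⟩

/-- verified cone -/
def c94 : OkCn := ⟨cone94, ok94⟩

/-- verified cone -/
def c95 : OkCn := ⟨cone95, ok95⟩

/-- verified cone -/
def c96 : OkCn := ⟨cone96, ok96⟩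

/-- verified cone -/
def c97 : OkCn := ⟨cone97, ok97⟩

/-- verified cone -/
def c98 : OkCn := ⟨cone98, ok98⟩

/-- verified cone -/
def c99 : OkCn := ⟨cone99, ok99⟩

/-- verified cone -/
def c100 : OkCn := ⟨cone100, ok100⟩

/-- verified cone -/
def c101 : OkCn := ⟨cone101, ok101⟩

/-- verified cone -/
def c102 : OkCn := ⟨cone102, ok102⟩

/-- verified cone -/
def c103 : OkCn := ⟨cone103, ok103⟩

/-- verified cone -/
def c104 : OkCn := ⟨cone104, ok104⟩

/-- verified cone -/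
def c105 : OkCn := ⟨cone105, ok105⟩

/-- verified cone -/
def c106 : OkCn := ⟨cone106, ok106⟩

/-- verified cone -/
def c107 : OkCn := ⟨cone107, ok107⟩

/-- verified cone -/
def c108 : OkCn := ⟨cone108, ok108⟩

/-- verified cone -/
def c109 : OkCn := ⟨cone109, ok109⟩

/-- verified cone -/
def c110 : OkCn := ⟨cone110, ok110⟩

/-- verified cone -/
def c111 : OkCn := ⟨cone111, ok111⟩

/-- verified cone -/
def c112 : OkCn := ⟨cone112, ok112⟩

/-- verified cone -/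
def c113 : OkCn := ⟨cone113, ok113⟩

/-- verified cone -/
def c114 : OkCn := ⟨cone114, ok114⟩

/-- verified cone -/
def c115 : OkCn := ⟨cone115, ok115⟩

/-- verified cone -/
def c116 : OkCn := ⟨cone116, ok116⟩

/-- verified cone -/
def c117 : OkCn := ⟨cone117, ok117⟩

/-- verified cone -/
def c118 : OkCn := ⟨cone118, ok118⟩

/-- verified cone -/
def c119 : OkCn := ⟨cone119, ok119⟩

/-- verified cone -/
def c120 : OkCn := ⟨cone120, ok120⟩

/-- verified cone -/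
def c121 : OkCn := ⟨cone121, ok121⟩

/-- verified cone -/
def c122 : OkCn := ⟨cone122, ok122⟩

/-- verified cone -/
def c123 : OkCn := ⟨cone123, ok123⟩

/-- verified cone -/
def c124 : OkCn := ⟨cone124, ok124⟩

/-- verified cone -/
def c125 : OkCn := ⟨cone125, ok125⟩

/-- verified cone -/
def c126 : OkCn := ⟨cone126, ok126⟩

/-- verified cone -/
def c127 : OkCn := ⟨cone127, ok127⟩

/-- verified cone -/
def c128 : OkCn := ⟨cone128, ok128⟩

/-- verified cone -/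
def c129 : OkCn := ⟨cone129, ok129⟩

/-- verified cone -/
def c130 : OkCn := ⟨cone130, ok130⟩

/-- verified cone -/
def c131 : OkCn := ⟨cone131, ok131⟩

/-- verified cone -/
def c132 : OkCn := ⟨cone132, ok132⟩

/-- verified cone -/
def c133 : OkCn := ⟨cone133, ok133⟩

/-- verified cone -/
def c134 : OkCn := ⟨cone134, ok134⟩

/-- verified cone -/
def c135 : OkCn := ⟨cone135, ok135⟩

/-- verified cone -/
def c136 : OkCn := ⟨cone136, ok136⟩

/-- verified cone -/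
def c137 : OkCn := ⟨cone137, ok137⟩

/-- verified cone -/
def c138 : OkCn := ⟨cone138, ok138⟩

/-- verified cone -/
def c139 : OkCn := ⟨cone139, ok139⟩

/-- verified cone -/
def c140 : OkCn := ⟨cone140, ok140⟩

/-- verified cone -/
def c141 : OkCn := ⟨cone141, ok141⟩

/-- verified cone -/
def c142 : OkCn := ⟨cone142, ok142⟩

/-- verified cone -/
def c143 : OkCn := ⟨cone143, ok143⟩

/-- verified cone -/
def c144 : OkCn := ⟨cone144, ok144⟩

/-- verified cone -/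
def c145 : OkCn := ⟨cone145, ok145⟩

/-- verified cone -/
def c146 : OkCn := ⟨cone146, ok146⟩

/-- verified cone -/
def c147 : OkCn := ⟨cone147, ok147⟩

/-- verified cone -/
def c148 : OkCn := ⟨cone148, ok148⟩

/-- verified cone -/
def c149 : OkCn := ⟨cone149, ok149⟩

/-- verified cone -/
def c150 : OkCn := ⟨cone150, ok150⟩

/-- verified cone -/
def c151 : OkCn := ⟨cone151, ok151⟩

/-- verified cone -/
def c152 : OkCn := ⟨cone152, ok152⟩

/-- verified cone -/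
def c153 : OkCn := ⟨cone153, ok153⟩

/-- verified cone -/
def c154 : OkCn := ⟨cone154, ok154⟩

/-- verified cone -/
def c155 : OkCn := ⟨cone155, ok155⟩

/-- verified cone -/
def c156 : OkCn := ⟨cone156, ok156⟩

/-- verified cone -/
def c157 : OkCn := ⟨cone157, ok157⟩

/-- verified cone -/
def c158 : OkCn := ⟨cone158, ok158⟩

/-- verified cone -/
def c159 : OkCn := ⟨cone159, ok159⟩

/-- verified cone -/
def c160 : OkCn := ⟨cone160, ok160⟩

/-- verified cone -/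
def c161 : OkCn := ⟨cone161, ok161⟩

/-- verified cone -/
def c162 : OkCn := ⟨cone162, ok162⟩

/-- verified cone -/
def c163 : OkCn := ⟨cone163, ok163⟩

/-- verified cone -/
def c164 : OkCn := ⟨cone164, ok164⟩

/-- verified cone -/
def c165 : OkCn := ⟨cone165, ok165⟩

/-- verified cone -/
def c166 : OkCn := ⟨cone166, ok166⟩

/-- verified cone -/
def c167 : OkCn := ⟨cone167, ok167⟩

/-- verified cone -/
def c168 : OkCn := ⟨cone168, ok168⟩

/-- verified cone -/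
def c169 : OkCn := ⟨cone169, ok169⟩

/-- verified cone -/
def c170 : OkCn := ⟨cone170, ok170⟩

/-- verified cone -/
def c171 : OkCn := ⟨cone171, ok171⟩

/-- verified cone -/
def c172 : OkCn := ⟨cone172, ok172⟩

/-- verified cone -/
def c173 : OkCn := ⟨cone173, ok173⟩

/-- verified cone -/
def c174 : OkCn := ⟨cone174, ok174⟩

/-- verified cone -/
def c175 : OkCn := ⟨cone175, ok175⟩

/-- verified cone -/
def c176 : OkCn := ⟨cone176, ok176⟩

/-- verified cone -/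
def c177 : OkCn := ⟨cone177, ok177⟩

/-- verified cone -/
def c178 : OkCn := ⟨cone178, ok178⟩

/-- verified cone -/
def c179 : OkCn := ⟨cone179, ok179⟩

/-- verified cone -/
def c180 : OkCn := ⟨cone180, ok180⟩

/-- verified cone -/
def c181 : OkCn := ⟨cone181, ok181⟩

/-- verified cone -/
def c182 : OkCn := ⟨cone182, ok182⟩

/-- verified cone -/
def c183 : OkCn := ⟨cone183, ok183⟩

/-- verified cone -/
def c184 : OkCn := ⟨cone184, ok184⟩

/-- verified cone -/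
def c185 : OkCn := ⟨cone185, ok185⟩

/-- verified cone -/
def c186 : OkCn := ⟨cone186, ok186⟩

/-- verified cone -/
def c187 : OkCn := ⟨cone187, ok187⟩

/-- verified cone -/
def c188 : OkCn := ⟨cone188, ok188⟩

/-- verified cone -/
def c189 : OkCn := ⟨cone189, ok189⟩

/-- verified cone -/
def c190 : OkCn := ⟨cone190, ok190⟩

/-- verified cone -/
def c191 : OkCn := ⟨cone191, ok191⟩

/-- verified cone -/
def c192 : OkCn := ⟨cone192, ok192⟩

/-- verified cone -/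
def c193 : OkCn := ⟨cone193, ok193⟩

/-- verified cone -/
def c194 : OkCn := ⟨cone194, ok194⟩

/-- verified cone -/
def c195 : OkCn := ⟨cone195, ok195⟩

/-- verified cone -/
def c196 : OkCn := ⟨cone196, ok196⟩

/-- verified cone -/
def c197 : OkCn := ⟨cone197, ok197⟩

/-- verified cone -/
def c198 : OkCn := ⟨cone198, ok198⟩

/-- verified cone -/
def c199 : OkCn := ⟨cone199, ok199⟩

/-- verified cone -/
def c200 : OkCn := ⟨cone200, ok200⟩

/-- verified cone -/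
def c201 : OkCn := ⟨cone201, ok201⟩

/-- top of the tree number 0 -/
noncomputable def top0 : Tr := (nd 1 3 1 1 79896510 (nd 1 2 1 2 136621112 (nd 0 2 1 1 84551870 (pr
  c0) (nd 0 3 1 1 98113754 (pr c1) (nd 1 4 1 4 337490353 (nd 0 4 1 1 101891018 (pr c2) (nd 0 1 8 1
  815913934 (pr c3) (nd 2 5 1 2 195406463 (nd 0 3 2 1 209388093 (pr c4) (nd 0 2 4 1 416864599 (pr
  c5) (nd 0 5 1 1 104980488 (pr c6) (pr c7)))) (pr c8)))) (pr c9)))) (nd 1 3 1 2 166191440 (nd 0 3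
  1 1 98113754 (pr c10) (nd 0 2 4 1 392086745 (pr c11) (nd 0 1 4 1 407677758 (pr c12) (nd 0 4 1 1
  101891018 (pr c13) (nd 2 5 1 8 818027099 (nd 3 5 1 2 202561755 (nd 1 5 1 8 825745056 (nd 0 5 1 1
  104980488 (nd 4 5 1 2 204837920 (nd 2 5 1 16 1635873048 (pr c14) (pr c15)) (pr c16)) (pr c17))
  (pr c18)) (pr c19)) (pr c20)))))) (nd 2 5 1 4 379305441 (nd 1 4 1 2 183853481 (nd 0 3 4 1
  407677758 (pr c21) (nd 0 4 1 1 101891018 (pr c22) (nd 1 5 1 4 402147679 (nd 0 2 8 1 829513912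
  (pr c23) (nd 0 5 1 1 104980488 (pr c24) (pr c25))) (pr c26)))) (pr c27)) (pr c28)))) (nd 1 2 1 1
  0 (nd 2 3 2 1 136621112 (nd 1 4 1 2 167323569 (nd 0 2 4 1 392086745 (pr c29) (nd 3 4 1 2
  183853481 (nd 1 5 1 4 396821377 (nd 0 4 1 1 101891018 (pr c30) (pr c31)) (pr c32)) (pr c33)))
  (pr c34)) (nd 0 2 1 1 84551870 (pr c35) (nd 1 4 1 2 167323569 (nd 0 3 4 1 392086745 (pr c36) (nd
  1 5 1 4 396821377 (nd 2 4 1 2 182917348 (pr c37) (pr c38)) (pr c39))) (pr c40)))) (nd 1 4 1 1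
  80870954 (nd 2 4 1 2 167323569 (nd 1 4 1 2 182917348 (nd 3 4 1 2 183853481 (pr c41) (pr c42))
  (pr c43)) (pr c44)) (pr c45))))

/-- top of the tree number 1 -/
noncomputable def top1 : Tr := (nd 1 3 1 1 79896510 (nd 1 2 1 2 136621112 (nd 0 2 1 1 84551870 (pr
  c46) (nd 0 3 1 1 98113754 (pr c47) (nd 0 1 4 1 392086745 (pr c48) (nd 2 4 1 2 182917348 (nd 0 4
  1 1 101891018 (pr c49) (nd 0 2 4 1 411914551 (pr c50) (nd 1 5 1 8 818027099 (nd 3 5 1 2
  202561755 (nd 0 5 1 1 104980488 (pr c51) (pr c52)) (pr c53)) (pr c54)))) (pr c55))))) (nd 1 3 1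
  2 166191440 (nd 0 3 1 1 98113754 (pr c56) (nd 0 2 4 1 392086745 (pr c57) (nd 0 1 4 1 407677758
  (pr c58) (nd 0 4 1 1 101891018 (pr c59) (nd 2 5 1 8 818027099 (nd 3 5 1 2 202561755 (nd 1 5 1 8
  825745056 (nd 0 5 1 1 104980488 (nd 4 5 1 2 204837920 (nd 2 5 1 16 1635873048 (nd 3 5 1 4
  405965765 (nd 1 5 1 16 1639844466 (pr c60) (pr c61)) (pr c62)) (pr c63)) (pr c64)) (pr c65)) (pr
  c66)) (pr c67)) (pr c68)))))) (nd 0 2 4 1 392086745 (pr c69) (nd 1 4 1 2 183853481 (nd 0 3 4 1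
  407677758 (pr c70) (nd 0 4 1 1 101891018 (pr c71) (nd 1 5 1 4 402147679 (nd 2 5 1 8 818027099
  (nd 3 5 1 8 825745056 (nd 0 5 1 1 104980488 (pr c72) (pr c73)) (pr c74)) (pr c75)) (pr c76))))
  (nd 1 5 1 2 197041740 (nd 3 5 1 4 392985748 (nd 4 5 1 4 402147679 (pr c77) (pr c78)) (pr c79))
  (pr c80)))))) (nd 1 2 1 1 0 (nd 2 3 2 1 136621112 (nd 1 4 1 2 182161482 (nd 0 2 4 1 392086745
  (pr c81) (nd 3 5 1 2 197041740 (nd 0 4 1 1 101891018 (pr c82) (nd 1 5 1 4 399679732 (nd 2 5 1 8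
  818027099 (nd 3 5 1 4 407829241 (nd 0 5 1 1 104980488 (nd 4 5 1 2 204837920 (pr c83) (pr c84))
  (pr c85)) (pr c86)) (pr c87)) (pr c88))) (pr c89))) (pr c90)) (nd 0 2 1 1 84551870 (pr c91) (nd
  1 4 1 2 182161482 (nd 3 5 1 4 379305441 (nd 2 4 1 2 182917348 (nd 0 4 1 1 101891018 (pr c92) (pr
  c93)) (pr c94)) (pr c95)) (pr c96)))) (nd 1 4 1 1 80870954 (nd 2 4 1 2 182161482 (nd 1 5 1 2
  198650315 (nd 3 4 1 2 183853481 (nd 0 4 1 1 101891018 (pr c97) (nd 3 5 1 4 402147679 (pr c98)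
  (pr c99))) (pr c100)) (pr c101)) (pr c102)) (pr c103))))

/-- top of the tree number 2 -/
noncomputable def top2 : Tr := (nd 1 2 1 1 0 (nd 0 2 1 1 84551870 (pr c104) (nd 1 3 1 2 0 (nd 0 3
  1 1 95077340 (pr c105) (pr c106)) (nd 1 4 1 2 167323569 (nd 3 5 1 4 380483416 (nd 1 5 1 4
  396821377 (pr c107) (pr c108)) (pr c109)) (pr c110)))) (nd 1 3 1 1 0 (nd 2 3 1 2 0 (nd 1 3 1 2 0
  (pr c111) (nd 1 4 1 2 171277548 (pr c112) (pr c113))) (nd 2 4 1 2 167323569 (nd 1 4 1 2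
  171277548 (pr c114) (pr c115)) (pr c116))) (nd 1 4 1 1 80870954 (nd 2 4 1 2 167323569 (nd 3 4 1
  2 171277548 (nd 1 5 1 2 198650315 (nd 2 5 1 4 396821377 (nd 3 5 1 4 399679732 (nd 0 4 1 1
  101891018 (pr c117) (pr c118)) (pr c119)) (pr c120)) (pr c121)) (pr c122)) (pr c123)) (pr
  c124))))

/-- top of the tree number 3 -/
noncomputable def top3 : Tr := (nd 1 2 1 1 0 (nd 0 2 1 1 84551870 (pr c125) (nd 1 3 1 2 0 (pr
  c126) (nd 1 4 1 2 167323569 (pr c127) (pr c128)))) (nd 1 3 1 1 0 (nd 2 3 1 2 0 (nd 1 3 1 2 0 (pr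
  c129) (nd 1 4 1 2 171277548 (pr c130) (pr c131))) (nd 2 4 1 2 167323569 (nd 1 4 1 2 171277548
  (pr c132) (pr c133)) (pr c134))) (nd 1 4 1 1 80870954 (nd 2 4 1 2 167323569 (nd 3 4 1 2
  171277548 (nd 1 5 1 2 198650315 (pr c135) (pr c136)) (pr c137)) (pr c138)) (pr c139))))

/-- top of the tree number 4 -/
noncomputable def top4 : Tr := (nd 1 3 1 1 79896510 (nd 1 2 1 2 136621112 (nd 0 2 1 1 84551870 (pr
  c140) (nd 0 3 1 1 95077340 (pr c141) (nd 1 5 1 4 379305441 (nd 0 4 1 1 101891018 (pr c142) (pr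
  c143)) (pr c144)))) (nd 1 3 1 2 166191440 (nd 0 3 1 1 95077340 (pr c145) (pr c146)) (nd 2 5 1 4
  379305441 (nd 1 5 1 2 197041740 (nd 3 4 1 4 358097711 (nd 0 4 1 1 101891018 (pr c147) (nd 3 5 1
  8 793432772 (nd 2 5 1 8 800825028 (nd 1 5 1 4 407829241 (pr c148) (pr c149)) (pr c150)) (pr
  c151))) (pr c152)) (pr c153)) (pr c154)))) (nd 1 2 1 1 0 (nd 2 3 2 1 136621112 (nd 1 4 1 2
  182161482 (nd 2 5 1 4 379305441 (nd 3 5 1 2 197041740 (nd 0 4 1 1 101891018 (pr c155) (nd 1 5 1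
  4 399679732 (nd 2 5 1 8 800825028 (nd 3 5 1 4 407829241 (pr c156) (pr c157)) (pr c158)) (pr
  c159))) (pr c160)) (pr c161)) (pr c162)) (nd 0 2 1 1 84551870 (pr c163) (nd 1 4 1 2 182161482
  (nd 3 5 1 4 379305441 (nd 2 4 1 2 182917348 (pr c164) (pr c165)) (pr c166)) (pr c167)))) (nd 1 4
  1 1 80870954 (nd 2 4 1 2 182161482 (nd 1 5 1 2 198650315 (nd 3 5 1 2 197041740 (nd 0 4 1 1
  101891018 (pr c168) (nd 2 5 1 4 399679732 (nd 3 5 1 4 407829241 (nd 1 5 1 4 408886483 (nd 0 5 1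
  1 104980488 (pr c169) (pr c170)) (pr c171)) (pr c172)) (pr c173))) (pr c174)) (pr c175)) (pr
  c176)) (pr c177))))

/-- top of the tree number 5 -/
noncomputable def top5 : Tr := (nd 1 3 1 1 79896510 (nd 1 2 1 2 136621112 (pr c178) (nd 1 3 1 2
  166191440 (pr c179) (nd 2 5 1 4 379305441 (nd 1 5 1 2 197041740 (nd 3 5 1 4 392985748 (nd 0 4 1
  1 101891018 (pr c180) (pr c181)) (pr c182)) (pr c183)) (pr c184)))) (nd 1 2 1 1 0 (nd 2 3 2 1
  136621112 (nd 1 4 1 2 167323569 (nd 0 2 4 1 388365355 (pr c185) (pr c186)) (pr c187)) (nd 0 2 1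
  1 84551870 (pr c188) (nd 1 4 1 2 167323569 (pr c189) (pr c190)))) (nd 1 4 1 1 80870954 (nd 2 4 1
  2 167323569 (nd 1 5 1 2 198650315 (nd 3 5 1 2 197041740 (nd 0 2 4 1 406347456 (pr c191) (nd 0 4
  1 1 101891018 (pr c192) (nd 1 5 1 4 408886483 (nd 3 5 1 4 407829241 (nd 2 5 1 8 827081872 (nd 0
  5 1 1 104980488 (pr c193) (pr c194)) (pr c195)) (pr c196)) (pr c197)))) (pr c198)) (pr c199))
  (pr c200)) (pr c201))))

end Dat

theorem root_ok (k : ℕ) (hk : k < 6) : (rt k).Ok := by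
  interval_cases k
  · exact chk_sound hM Dat.top0 _ (rt_ok _) (by decide +kernel)
  · exact chk_sound hM Dat.top1 _ (rt_ok _) (by decide +kernel)
  · exact chk_sound hM Dat.top2 _ (rt_ok _) (by decide +kernel)
  · exact chk_sound hM Dat.top3 _ (rt_ok _) (by decide +kernel)
  · exact chk_sound hM Dat.top4 _ (rt_ok _) (by decide +kernel)
  · exact chk_sound hM Dat.top5 _ (rt_ok _) (by decide +kernel)

end Pool.Agent.Lib.EPS
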