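import Pool.Agent.Lib.EPS.NumF
import Pool.Agent.Lib.EPS.Gch

/-!
# Verified entries of the table
-/

open MeasureTheory Set

namespace Pool.Agent.Lib.EPS

theorem dat64 {i r : ℕ} (hi : 0 < i) (hr : rchk 64 i r = true) :
    Dat 64 i (elo 1190183162014445497215107 i) (ehi 1190183162014445497215112 i) 72 r := by
  refine ⟨by norm_num, hi, ?_, ?_, hr⟩
  · have := elo_le (i := i) e64lo
    rw [mul_one_div] at this
    exact this
  · have := le_ehi (i := i) e64hi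
    rw [mul_one_div] at this
    exact this

theorem bern_eq_bn (k : Fin 10) (s : ℝ) : bern (k : ℕ) ((2 * s - 3) / 9) = bn k s := rfl

theorem rep_pkG (a0 a1 a2 a3 a4 a5 a6 a7 a8 a9 : ℕ) :
    Rep (pk a0 a1 a2 a3 a4 a5 a6 a7 a8 a9)
      (fun k : Fin 10 => [a0, a1, a2, a3, a4, a5, a6, a7, a8, a9].getD k 0) := by
  unfold Rep pk FB
  simp only [Fin.sum_univ_succ, Fin.sum_univ_zero, Nat.add_eq, Nat.mul_eq, Fin.val_zero,
    Fin.val_succ, List.getD_cons_zero, List.getD_cons_succ, pow_zero, mul_one, zero_add, pow_one]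
  ring

/-- an entry from ten inequalities -/
theorem good_of {z w : ℝ} (hz : 0 < z) (hw0 : 0 ≤ w) (hw1 : w < 1)
    (hw : 25 * EE 1 z ≤ 84 * w * (7 / 10 * phi (5 / 2) z)) (fa fb : Fin 10 → ℕ)
    (h : ∀ k : Fin 10, (fa k : ℝ) ≤ 2 ^ 40 * al2 k w z ∧ 2 ^ 40 * PP 1 k z ≤ (fb k : ℝ) ∧
      fa k < 2 ^ 64 ∧ fb k < 2 ^ 64) {e : Ent} (h1 : Rep e.a fa) (h2 : Rep e.b fb) : e.Good := by
  refine ⟨fa, fb, fun k => (h k).2.2.1, fun k => (h k).2.2.2, h1, h2, fun s hs hs' x hx => ?_⟩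
  have h3 := tab_real2 (fun u hu hu' => abs_gch_ten_le' hu hu') hs hs' hx hz hw0 hw1 hw
  have h4 : ∑ k : Fin 10, bn k s * ((fa k : ℝ) - (fb k : ℝ) * x) ≤
      ∑ k : Fin 10, bn k s * (2 ^ 40 * (al2 k w z - PP 1 k z * x)) := by
    refine Finset.sum_le_sum fun k _ => mul_le_mul_of_nonneg_left ?_ ?_
    · have h5 := (h k).1
      have h6 := mul_le_mul_of_nonneg_right (h k).2.1 hx.le
      have e1 : (2 : ℝ) ^ 40 * (al2 k w z - PP 1 k z * x) =
          2 ^ 40 * al2 k w z - 2 ^ 40 * PP 1 k z * x := by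
        ring
      rw [e1]
      linarith
    · rw [← bern_eq_bn]
      exact bern_nonneg _ (by linarith) (by linarith)
  refine h4.trans ?_
  rw [Finset.sum_range] at h3
  have h7 := mul_le_mul_of_nonneg_left h3 (show (0 : ℝ) ≤ 2 ^ 40 by positivity)
  unfold wt
  refine le_trans (le_of_eq ?_) h7
  rw [Finset.mul_sum]
  refine Finset.sum_congr rfl fun k _ => ?_
  rw [bern_eq_bn]
  ring

theorem good_of_lists {i r n : ℕ} {fa fb : List ℕ} (ha : fa.length = 10) (hb : fb.length = 10)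
    (h : rowchk2 i r n fa fb = true) {e : Ent} (h1 : Rep e.a fun k => fa.getD k 0)
    (h2 : Rep e.b fun k => fb.getD k 0) : e.Good := by
  unfold rowchk2 at h
  rw [Bool.and_eq_true, Bool.and_eq_true, Bool.and_eq_true] at h
  obtain ⟨hi, hr, hn, h⟩ := h
  have hi' : 0 < i := Nat.le_of_ble_eq_true hi
  have D := dat64 hi' hr
  have hs := rowgo2_sound D fa fb 0 (by rw [ha, hb]) (by rw [ha]) h
  obtain ⟨hn1, hn2⟩ := achk_sound D hn
  have hz : (0 : ℝ) < (i : ℝ) / (64 : ℕ) := by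
    have : (0 : ℝ) < i := by exact_mod_cast hi'
    positivity
  refine good_of hz (by positivity) hn2 hn1 (fun k => fa.getD k 0) (fun k => fb.getD k 0)
    (fun k => ?_) h1 h2
  have := hs k (by rw [ha]; exact k.2)
  rw [zero_add] at this
  exact this

theorem good_of_chk (i r n a0 a1 a2 a3 a4 a5 a6 a7 a8 a9 b0 b1 b2 b3 b4 b5 b6 b7 b8 b9 : ℕ)
    (h : rowchk2 i r n [a0, a1, a2, a3, a4, a5, a6, a7, a8, a9]
      [b0, b1, b2, b3, b4, b5, b6, b7, b8, b9] = true) :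
    Ent.Good ⟨pk a0 a1 a2 a3 a4 a5 a6 a7 a8 a9, pk b0 b1 b2 b3 b4 b5 b6 b7 b8 b9⟩ :=
  good_of_lists (fa := [a0, a1, a2, a3, a4, a5, a6, a7, a8, a9])
    (fb := [b0, b1, b2, b3, b4, b5, b6, b7, b8, b9]) rfl rfl h
    (rep_pkG a0 a1 a2 a3 a4 a5 a6 a7 a8 a9) (rep_pkG b0 b1 b2 b3 b4 b5 b6 b7 b8 b9)

/-- the trivial entry -/
theorem good_zero : Ent.Good ⟨0, 0⟩ := by
  refine ⟨fun _ => 0, fun _ => 0, fun _ => by norm_num, fun _ => by norm_num, by simp [Rep],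
    by simp [Rep], fun s _ _ z _ => ?_⟩
  have : 0 ≤ wt s * phi s z := mul_nonneg (Real.rpow_nonneg (by norm_num) _) (phi_nonneg s z)
  simp only [Nat.cast_zero, zero_mul, sub_zero, mul_zero, Finset.sum_const_zero]
  positivity

/-- the trivial entry -/
def t0 : VEnt := ⟨⟨0, 0⟩, good_zero⟩

end Pool.Agent.Lib.EPS
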