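import Pool.Agent.Lib.EPS.TreeS
import Pool.Agent.Lib.EPS.Red
import Pool.Agent.Lib.EPS.Split
import Pool.Agent.Lib.FCC.Sell
import Pool.Agent.Lib.FCC.DetC
import Pool.Agent.Lib.FCC.RestJ

/-!
# Module EPS.Top: the minimum among ternary forms of determinant `4`, `3/2 < s ≤ 6`

`hroot` (the six verified trees) is a hypothesis here. `exists_superbase` (FCC/Sell):
`Eqv Q (formOf l)`, `dt l = 4` (`formOf_det`, `Eqv.det`); `exists_reduced`, `root_cover'`, `hroot`:
`Fine l'`. `formOf l'` is PD (`formOf_pd`), `G0_pd`, `det G0 = 4`. By `split` for `formOf l'` and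
`G0`, `Γ(s) (4/5)^(-s) > 0`, the inequality `Tot s G0 ≤ Tot s (formOf l')` is
`F s G0 ≤ F s (formOf l') = F s Q` (`Eqv.F`), and equality of the `F` gives equality of the `Tot`,
`formOf l' = G0`.
-/

open Matrix
open scoped Matrix.Norms.Elementwise

namespace Pool.Agent.Lib.EPS

open Pool.Agent.Lib.EpZ Pool.Agent.Lib.FCC

namespace TopAux

lemma G0_det : G0.det = 4 := by
  have h : formOf ![0, 0, 1, 1, 1, 1] = G0 := by
    unfold formOf G0
    ext i j
    fin_cases i <;> fin_cases j <;> simp <;> norm_num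
  rw [← h, formOf_det]
  unfold dt
  simp
  norm_num

/-- the inequality of `Tot` is the inequality of `F` -/
lemma transfer {Q : Mx 3} (hQ : PD Q) (hd : Q.det = 4) {s : ℝ} (hs : 3 / 2 < s)
    (h : Tot s G0 ≤ Tot s Q ∧ (Tot s Q = Tot s G0 → Q = G0)) :
    F s G0 ≤ F s Q ∧ (F s Q = F s G0 → Q = G0) := by
  have h1 := split hQ hd hs
  have h2 := split G0_pd G0_det hs
  have hg : 0 < Real.Gamma s := Real.Gamma_pos_of_pos (by linarith)
  have hp : (0 : ℝ) < (4 / 5 : ℝ) ^ (-s) := Real.rpow_pos_of_pos (by norm_num) _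
  have hc : 0 < Real.Gamma s * (4 / 5 : ℝ) ^ (-s) := mul_pos hg hp
  rw [← mul_assoc] at h1 h2
  unfold Tot at h
  obtain ⟨h3, h4⟩ := h
  constructor
  · refine le_of_mul_le_mul_left ?_ hc
    rw [h1, h2]
    linarith
  · intro h5
    apply h4
    rw [h5] at h1
    linarith

end TopAux

open TopAux

theorem main_form' (hroot : ∀ k < 6, (rt k).Ok) {Q : Mx 3} (hQ : PD Q) (hd : Q.det = 4) {s : ℝ}
    (hs : 3 / 2 < s) (hs6 : s ≤ 6) : F s G0 ≤ F s Q ∧ (F s Q = F s G0 → Eqv Q G0) := by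
  obtain ⟨l, hl, hQl⟩ := exists_superbase Q hQ
  have hdl : dt l = 4 := by rw [← formOf_det, hQl.det, hd]
  obtain ⟨l', h0, h1, h3, h4, h5, hdt, hE⟩ := exists_reduced l hl
  obtain ⟨k, hk, hm⟩ := root_cover' l' h0 h1 h3 h4 h5
  have hd' : dt l' = 4 := by rw [hdt, hdl]
  have hfine : Fine l' := hroot k hk l' hm hd'
  have hl' : ∀ i, 0 ≤ l' i := fun i => h0.trans (h1 i)
  have hpd : PD (formOf l') := formOf_pd hl' (by rw [hd']; norm_num)
  have hdet : (formOf l').det = 4 := by rw [formOf_det, hd']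
  have hE' : Eqv Q (formOf l') := hQl.trans hE
  have hF : F s (formOf l') = F s Q := hE'.F s
  obtain ⟨h6, h7⟩ := transfer hpd hdet hs (hfine s hs.le hs6)
  rw [hF] at h6 h7
  refine ⟨h6, fun h => ?_⟩
  rw [← h7 h]
  exact hE'

end Pool.Agent.Lib.EPS
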