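import Pool.Agent.Lib.EPS.AccS

/-!
# EPS: the list of vectors (generated)
-/

namespace Pool.Agent.Lib.EPS

/-- the coefficients of the vectors -/
def vecs : List Vx :=
[⟨1, 0, 0, 1, 0, 1⟩, ⟨4, 0, 0, 4, 0, 4⟩, ⟨1, 1, 0, 0, 1, 1⟩, ⟨0, 1, 0, 1, 1, 0⟩, ⟨0, 1, 1, 0, 0,
  1⟩, ⟨1, 1, 1, 1, 0, 4⟩, ⟨1, 1, 1, 1, 0, 0⟩, ⟨4, 1, 1, 4, 0, 1⟩, ⟨9, 0, 1, 4, 1, 4⟩, ⟨4, 0, 1, 1,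
  1, 1⟩, ⟨4, 1, 0, 1, 1, 4⟩, ⟨1, 0, 1, 0, 1, 0⟩, ⟨0, 0, 1, 1, 1, 1⟩, ⟨0, 4, 1, 1, 1, 1⟩, ⟨1, 0, 1,
  4, 1, 4⟩, ⟨1, 1, 0, 4, 1, 1⟩, ⟨9, 1, 1, 1, 4, 4⟩, ⟨4, 1, 1, 0, 4, 1⟩, ⟨1, 1, 1, 1, 4, 0⟩, ⟨0, 1,
  1, 4, 4, 1⟩, ⟨4, 1, 4, 1, 1, 0⟩, ⟨1, 1, 4, 0, 1, 1⟩, ⟨1, 4, 1, 0, 1, 4⟩, ⟨1, 4, 1, 4, 1, 0⟩, ⟨4,
  4, 0, 0, 4, 4⟩, ⟨1, 4, 0, 1, 4, 1⟩, ⟨0, 4, 0, 4, 4, 0⟩, ⟨4, 0, 4, 0, 4, 0⟩, ⟨1, 0, 4, 1, 4, 1⟩,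
  ⟨9, 0, 4, 1, 4, 1⟩, ⟨1, 4, 4, 1, 0, 1⟩, ⟨0, 1, 4, 1, 1, 4⟩, ⟨9, 1, 4, 4, 1, 1⟩, ⟨4, 4, 1, 1, 9,
  1⟩, ⟨0, 4, 4, 0, 0, 4⟩, ⟨4, 4, 4, 4, 0, 0⟩, ⟨4, 4, 1, 1, 1, 9⟩, ⟨1, 9, 1, 1, 4, 4⟩, ⟨0, 9, 1, 4,
  4, 1⟩, ⟨4, 4, 1, 9, 1, 1⟩, ⟨4, 1, 0, 9, 1, 4⟩, ⟨0, 9, 4, 1, 1, 4⟩, ⟨4, 1, 1, 4, 0, 9⟩, ⟨1, 9, 4,
  4, 1, 1⟩, ⟨1, 4, 1, 4, 9, 0⟩, ⟨4, 1, 4, 1, 9, 0⟩, ⟨4, 4, 9, 1, 1, 1⟩, ⟨1, 4, 0, 9, 4, 1⟩, ⟨1, 4,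
  4, 1, 0, 9⟩, ⟨4, 1, 9, 0, 4, 1⟩, ⟨9, 1, 0, 4, 1, 9⟩, ⟨0, 0, 4, 4, 4, 4⟩, ⟨1, 4, 9, 0, 1, 4⟩, ⟨9,
  1, 1, 9, 0, 4⟩, ⟨9, 1, 4, 0, 9, 1⟩, ⟨9, 4, 0, 1, 4, 9⟩, ⟨9, 4, 1, 0, 9, 4⟩, ⟨1, 1, 4, 4, 9, 1⟩,
  ⟨1, 1, 1, 9, 4, 4⟩, ⟨1, 1, 4, 4, 1, 9⟩, ⟨1, 9, 0, 4, 9, 1⟩, ⟨4, 9, 0, 1, 9, 4⟩, ⟨1, 9, 1, 9, 4,
  0⟩, ⟨1, 1, 9, 1, 4, 4⟩, ⟨4, 9, 1, 0, 4, 9⟩, ⟨1, 9, 4, 0, 1, 9⟩, ⟨9, 4, 4, 9, 0, 1⟩, ⟨9, 1, 9, 1,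
  4, 0⟩, ⟨4, 9, 4, 9, 1, 0⟩, ⟨9, 0, 0, 9, 0, 9⟩, ⟨16, 1, 4, 1, 9, 4⟩, ⟨0, 4, 1, 9, 9, 1⟩, ⟨16, 1,
  1, 4, 4, 9⟩, ⟨4, 0, 1, 9, 1, 9⟩, ⟨16, 0, 4, 4, 4, 4⟩, ⟨0, 9, 0, 9, 9, 0⟩, ⟨16, 4, 1, 1, 9, 9⟩,
  ⟨9, 9, 0, 0, 9, 9⟩, ⟨9, 0, 9, 0, 9, 0⟩, ⟨9, 4, 1, 4, 1, 16⟩, ⟨16, 0, 1, 9, 1, 9⟩, ⟨9, 9, 1, 1,
  4, 16⟩, ⟨4, 9, 4, 1, 1, 16⟩, ⟨16, 4, 0, 4, 4, 16⟩, ⟨4, 0, 9, 1, 9, 1⟩, ⟨16, 1, 4, 9, 1, 4⟩, ⟨16,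
  0, 9, 1, 9, 1⟩, ⟨9, 1, 1, 9, 0, 16⟩, ⟨16, 1, 0, 9, 1, 16⟩, ⟨4, 4, 4, 4, 0, 16⟩, ⟨16, 9, 0, 1, 9,
  16⟩, ⟨1, 0, 9, 4, 9, 4⟩]

/-- the vectors -/
def vxs : List (ℤ × ℤ × ℤ) :=
[(0, 1, 0), (0, 2, 0), (1, 0, 1), (1, 1, 1), (0, 0, 1), (0, 1, -1), (0, 1, 1), (0, 2, 1), (1, -2,
  0), (1, -1, 0), (1, -1, 1), (1, 0, 0), (1, 1, 0), (1, 1, 2), (1, 2, 0), (1, 2, 1), (2, -1, 1),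
  (2, 0, 1), (2, 1, 1), (2, 2, 1), (1, -1, -1), (1, 0, -1), (1, 0, 2), (1, 2, 2), (2, 0, 2), (2,
  1, 2), (2, 2, 2), (2, 0, 0), (2, 1, 0), (2, -1, 0), (0, 1, 2), (1, 1, -1), (1, -2, -1), (3, 1,
  2), (0, 0, 2), (0, 2, 2), (1, -1, 2), (2, 1, 3), (2, 2, 3), (1, 3, 2), (1, 3, 1), (1, 1, 3), (0,
  2, -1), (1, 2, 3), (3, 2, 2), (3, 1, 1), (1, -1, -2), (2, 3, 2), (0, 1, -2), (2, 0, -1), (1, -2,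
  1), (2, 2, 0), (1, 0, -2), (0, 3, 1), (3, 0, 1), (2, -1, 2), (3, 0, 2), (3, 2, 1), (2, 3, 1),
  (1, 2, -1), (3, 2, 3), (3, 1, 3), (2, 3, 3), (2, 1, -1), (2, 0, 3), (1, 0, 3), (0, 3, 2), (2,
  -1, -1), (1, 3, 3), (0, 3, 0), (3, -1, 1), (3, 3, 2), (2, -2, 1), (1, 3, 0), (2, -2, 0), (3, 3,
  3), (3, -1, 2), (3, 0, 3), (3, 0, 0), (1, -2, 2), (1, -3, 0), (2, -1, 3), (1, -1, 3), (2, -2,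
  2), (3, 1, 0), (1, -3, -1), (3, -1, 0), (0, 3, -1), (1, -3, 1), (0, 2, -2), (3, -1, 3), (3, 2,
  0)]

/-- the vector of a triple -/
def toV (t : ℤ × ℤ × ℤ) : Fin 3 → ℤ := ![t.1, t.2.1, t.2.2]

/-- the Boolean form of `Coef` -/
def coefB (t : ℤ × ℤ × ℤ) (v : Vx) : Bool :=
  decide ((v.c0 : ℤ) = (t.1 - t.2.1) ^ 2 ∧ (v.c1 : ℤ) = t.2.2 ^ 2 ∧
    (v.c2 : ℤ) = (t.1 - t.2.2) ^ 2 ∧ (v.c3 : ℤ) = t.2.1 ^ 2 ∧ (v.c4 : ℤ) = t.1 ^ 2 ∧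
    (v.c5 : ℤ) = (t.2.1 - t.2.2) ^ 2 ∧
    v.c0 ≤ 36 ∧ v.c1 ≤ 36 ∧ v.c2 ≤ 36 ∧ v.c3 ≤ 36 ∧ v.c4 ≤ 36 ∧ v.c5 ≤ 36)

/-- the check of the two lists -/
def coefL : List (ℤ × ℤ × ℤ) → List Vx → Bool
  | [], [] => true
  | t :: l, v :: m => coefB t v && coefL l m
  | _, _ => false

theorem coefL_sound : ∀ (l : List (ℤ × ℤ × ℤ)) (m : List Vx), coefL l m = true →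
    List.Forall₂ Coef (l.map toV) m
  | [], [], _ => List.Forall₂.nil
  | t :: l, v :: m, h => by
    rw [coefL, Bool.and_eq_true] at h
    have h1 := h.1
    unfold coefB at h1
    have h2 := of_decide_eq_true h1
    exact List.Forall₂.cons h2 (coefL_sound l m h.2)
  | [], _ :: _, h => by simp [coefL] at h
  | _ :: _, [], h => by simp [coefL] at h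

theorem toV_inj : Function.Injective toV := by
  intro t u h
  have h0 := congrFun h 0
  have h1 := congrFun h 1
  have h2 := congrFun h 2
  simp only [toV, Matrix.cons_val_zero, Matrix.cons_val_one, Matrix.cons_val] at h0 h1 h2
  exact Prod.ext h0 (Prod.ext h1 h2)

theorem vecs_good : VGood vecs := by
  refine ⟨by decide +kernel, vxs.map toV, ?_, ?_, ?_, coefL_sound _ _ (by decide +kernel)⟩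
  · exact (List.nodup_map_iff toV_inj).2 (by decide +kernel)
  · intro x hx
    obtain ⟨t, ht, rfl⟩ := List.mem_map.1 hx
    have h : ∀ t ∈ vxs, t ≠ (0, 0, 0) := by decide +kernel
    intro h0
    apply h t ht
    apply toV_inj
    rw [h0]
    ext i
    fin_cases i <;> rfl
  · intro x hx hn
    obtain ⟨t, ht, rfl⟩ := List.mem_map.1 hx
    obtain ⟨u, hu, hu'⟩ := List.mem_map.1 hn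
    have h : ∀ t ∈ vxs, (-t.1, -t.2.1, -t.2.2) ∉ vxs := by decide +kernel
    apply h t ht
    have e : u = (-t.1, -t.2.1, -t.2.2) := by
      apply toV_inj
      rw [hu']
      ext i
      fin_cases i <;> rfl
    rw [← e]
    exact hu

end Pool.Agent.Lib.EPS
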